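import Mathlib
import Pool.Agent.H37.Sun.W2

/-! Degrees and top coefficients of the second kernel sum. -/

namespace Pool.Agent.H99.Sun

open Polynomial Finset Pool.Agent.H37.Sun

section
variable {R : Type*} [CommRing R] [IsDomain R] [CharZero R]

theorem T_top (b c : R[X]) (hb : b.natDegree ≤ 2) (hc : c.natDegree ≤ 4) (k : ℕ) :
    ((T k b c).natDegree ≤ 2 * k ∧ (T k b c).coeff (2 * k) = T k (b.coeff 2) (c.coeff 4)) ∧
    ((T (k + 1) b c).natDegree ≤ 2 * (k + 1) ∧
      (T (k + 1) b c).coeff (2 * (k + 1)) = T (k + 1) (b.coeff 2) (c.coeff 4)) := by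
  induction k with
  | zero =>
    simp only [T_zero, T_one, natDegree_one, zero_add, mul_one]
    exact ⟨⟨Nat.zero_le _, by simp⟩, hb, trivial⟩
  | succ k ih =>
    refine ⟨ih.2, ?_⟩
    have h := T_rec k b c
    have hk : ((k : R) + 2) ≠ 0 := by exact_mod_cast Nat.succ_ne_zero (k + 1)
    have e1 : ((k : R[X]) + 2) * T (k + 2) b c = C ((k : R) + 2) * T (k + 2) b c := by
      simp only [map_add, map_natCast, map_ofNat]
    have e2 : (2 * (k : R[X]) + 3) * (b * T (k + 1) b c) - ((k : R[X]) + 1) * ((b ^ 2 - 4 * c) * T k b c)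
        = C (2 * (k : R) + 3) * (b * T (k + 1) b c)
          - C ((k : R) + 1) * ((b ^ 2 - C 4 * c) * T k b c) := by
      simp only [map_add, map_mul, map_natCast, map_ofNat, map_one]
    rw [e1, e2] at h
    have hd : (b ^ 2 - C 4 * c).natDegree ≤ 4 := by
      refine (natDegree_sub_le _ _).trans (max_le ?_ ?_)
      · exact (natDegree_pow_le).trans (by omega)
      · exact (natDegree_C_mul_le _ _).trans hc
    rw [show k + 1 + 1 = k + 2 from rfl]
    constructor
    · have h2 := congrArg natDegree h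
      rw [natDegree_C_mul hk] at h2
      rw [h2]
      refine (natDegree_sub_le _ _).trans (max_le ?_ ?_)
      · refine (natDegree_C_mul_le _ _).trans (natDegree_mul_le.trans ?_)
        have := ih.2.1
        omega
      · refine (natDegree_C_mul_le _ _).trans (natDegree_mul_le.trans ?_)
        have := ih.1.1
        omega
    · have h2 := congrArg (fun q : R[X] => q.coeff (2 * (k + 2))) h
      simp only [coeff_sub, coeff_C_mul] at h2
      have c1 : (b * T (k + 1) b c).coeff (2 * (k + 2))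
          = b.coeff 2 * T (k + 1) (b.coeff 2) (c.coeff 4) := by
        rw [show 2 * (k + 2) = 2 + 2 * (k + 1) by ring, coeff_mul_add_eq_of_natDegree_le hb ih.2.1, ih.2.2]
      have c3 : (b ^ 2).coeff 4 = b.coeff 2 ^ 2 := by
        rw [show 4 = 2 * 2 by norm_num, coeff_pow_of_natDegree_le hb]
      have c2 : ((b ^ 2 - C 4 * c) * T k b c).coeff (2 * (k + 2))
          = (b.coeff 2 ^ 2 - 4 * c.coeff 4) * T k (b.coeff 2) (c.coeff 4) := by
        rw [show 2 * (k + 2) = 4 + 2 * k by ring, coeff_mul_add_eq_of_natDegree_le hd ih.1.1, ih.1.2,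
          coeff_sub, coeff_C_mul, c3]
      rw [c1, c2, ← T_rec k (b.coeff 2) (c.coeff 4)] at h2
      exact mul_left_cancel₀ hk h2

end

section
variable {R : Type*} [CommRing R]

/-- The second kernel sum. -/
noncomputable def PQ (n : ℕ) (y : R) : R[X] := PP 0 (-1) n (fun m => 2 * m) y

/-- The second kernel sum divided by `1 + y X`. -/
noncomputable def QQ (n : ℕ) (y : R) : R[X] :=
  ∑ m ∈ range (n + 1), C (v n m : R) *
    ((1 + C y * X) ^ (4 * (n - m)) * T (2 * m) (BP 0 (-1) y) (CP 0 (-1) y))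

/-- The polynomial `sum v X^(2m)`. -/
noncomputable def G2 (n : ℕ) : R[X] := ∑ m ∈ range (n + 1), C (v n m : R) * X ^ (2 * m)

theorem PQ_eq (n : ℕ) (y : R) : PQ n y = (1 + C y * X) * QQ n y := by
  unfold PQ QQ PP
  rw [mul_sum]
  refine sum_congr rfl fun m hm => ?_
  have hm' : m ≤ n := by have := mem_range.mp hm; omega
  rw [show (1 - C (-1 * y) * X : R[X]) = 1 + C y * X by
    rw [neg_one_mul, C_neg]; ring,
    show 2 * (2 * n + 1) - 2 * (2 * m) - 1 = 4 * (n - m) + 1 by omega, pow_succ]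
  ring

theorem BP_two (y : R) : (BP 0 (-1) y : R[X]) = C (-y) * X ^ 2 + C (1 - y ^ 2) * X + C y := by
  unfold BP
  simp only [map_mul, map_neg, map_one, map_sub, map_pow, map_zero]
  ring

theorem CP_two (y : R) : (CP 0 (-1) y : R[X])
    = C (-(y * (1 - y ^ 2))) * X ^ 3 + C (y * (1 - y ^ 2)) * X := by
  unfold CP
  simp only [map_mul, map_neg, map_one, map_sub, map_pow, map_zero, map_add]
  ring

theorem BP_deg (y : R) : (BP 0 (-1) y : R[X]).natDegree ≤ 2 ∧ (BP 0 (-1) y : R[X]).coeff 2 = -y := by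
  rw [BP_two]
  refine ⟨natDegree_quadratic_le, ?_⟩
  rw [coeff_add, coeff_add, coeff_C_mul, coeff_C_mul, coeff_X_pow, coeff_X, coeff_C]
  norm_num

theorem CP_deg (y : R) : (CP 0 (-1) y : R[X]).natDegree ≤ 4 ∧ (CP 0 (-1) y : R[X]).coeff 4 = 0 := by
  rw [CP_two]
  refine ⟨by compute_degree!, ?_⟩
  rw [coeff_add, coeff_C_mul, coeff_C_mul, coeff_X_pow, coeff_X]
  norm_num

theorem lin_pow (y : R) (j : ℕ) : ((1 + C y * X : R[X]) ^ j).natDegree ≤ j ∧
    ((1 + C y * X : R[X]) ^ j).coeff j = y ^ j := by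
  have h1 : (1 + C y * X : R[X]).natDegree ≤ 1 := by
    rw [add_comm, ← C_1]
    exact natDegree_linear_le
  have h2 : (1 + C y * X : R[X]).coeff 1 = y := by
    simp [coeff_one]
  constructor
  · refine natDegree_pow_le.trans ?_
    calc j * (1 + C y * X : R[X]).natDegree ≤ j * 1 := Nat.mul_le_mul_left _ h1
      _ = j := mul_one j
  · have := coeff_pow_of_natDegree_le (m := j) h1
    rw [mul_one, h2] at this
    exact this

theorem G2_natDegree (n : ℕ) : (G2 n : R[X]).natDegree ≤ 2 * n := by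
  unfold G2
  refine natDegree_sum_le_of_forall_le _ _ fun m hm => ?_
  have hm' : m ≤ n := by have := mem_range.mp hm; omega
  refine (natDegree_C_mul_le _ _).trans ((natDegree_X_pow_le _).trans ?_)
  omega

theorem G2_coeff_zero (n : ℕ) : (G2 n : R[X]).coeff 0 = 16 ^ n := by
  unfold G2
  rw [finsetSum_coeff, sum_eq_single_of_mem 0 (mem_range.mpr (by omega))]
  · rw [mul_zero, pow_zero, mul_one, coeff_C_zero]
    simp [v]
  · intro m _ hm
    rw [coeff_C_mul, coeff_X_pow, if_neg (fun h => hm (by omega)), mul_zero]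

theorem G2_coeff_top (n : ℕ) : (G2 n : R[X]).coeff (2 * n) = (v n n : R) := by
  unfold G2
  rw [finsetSum_coeff, sum_eq_single_of_mem n (mem_range.mpr (by omega))]
  · rw [coeff_C_mul, coeff_X_pow, if_pos rfl, mul_one]
  · intro m _ hm
    rw [coeff_C_mul, coeff_X_pow, if_neg (fun h => hm (by omega)), mul_zero]

theorem G2_eval (n : ℕ) (x : R) : (G2 n : R[X]).eval x = ∑ m ∈ range (n + 1), (v n m : R) * x ^ (2 * m) := by
  unfold G2
  rw [eval_finsetSum]
  refine sum_congr rfl fun m _ => ?_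
  rw [eval_mul, eval_C, eval_pow, eval_X]

theorem G2_map {S : Type*} [CommRing S] (f : R →+* S) (n : ℕ) : (G2 n : R[X]).map f = G2 n := by
  unfold G2
  rw [Polynomial.map_sum]
  refine sum_congr rfl fun m _ => ?_
  rw [Polynomial.map_mul, map_C, map_natCast, Polynomial.map_pow, map_X]

variable [IsDomain R] [CharZero R]

theorem QQ_deg (n : ℕ) (y : R) : (QQ n y).natDegree ≤ 4 * n := by
  unfold QQ
  refine natDegree_sum_le_of_forall_le _ _ fun m hm => ?_
  have hm' : m ≤ n := by have := mem_range.mp hm; omega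
  refine (natDegree_C_mul_le _ _).trans (natDegree_mul_le.trans ?_)
  have h1 := (lin_pow y (4 * (n - m))).1
  have h2 := (T_top (BP 0 (-1) y) (CP 0 (-1) y) (BP_deg y).1 (CP_deg y).1 (2 * m)).1.1
  omega

theorem QQ_top (n : ℕ) (y : R) : (QQ n y).coeff (4 * n)
    = ∑ m ∈ range (n + 1), (v n m : R) * (y ^ (4 * (n - m)) * (-y) ^ (2 * m)) := by
  unfold QQ
  rw [finsetSum_coeff]
  refine sum_congr rfl fun m hm => ?_
  have hm' : m ≤ n := by have := mem_range.mp hm; omega
  have h1 := lin_pow y (4 * (n - m))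
  have h2 := (T_top (BP 0 (-1) y) (CP 0 (-1) y) (BP_deg y).1 (CP_deg y).1 (2 * m)).1
  rw [coeff_C_mul, show 4 * n = 4 * (n - m) + 2 * (2 * m) by omega,
    coeff_mul_add_eq_of_natDegree_le h1.1 h2.1, h2.2, h1.2, (BP_deg y).2, (CP_deg y).2, T_c_zero]

theorem PQ_deg (n : ℕ) (y : R) : (PQ n y).natDegree ≤ 4 * n + 1 := by
  rw [PQ_eq]
  refine natDegree_mul_le.trans ?_
  have h1 := (lin_pow y 1).1
  have h2 := QQ_deg n y
  rw [pow_one] at h1
  omega

theorem PQ_top (n : ℕ) (y : R) : (PQ n y).coeff (4 * n + 1) = y * (QQ n y).coeff (4 * n) := by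
  have h1 := lin_pow y 1
  rw [pow_one, pow_one] at h1
  rw [PQ_eq, show 4 * n + 1 = 1 + 4 * n by ring, coeff_mul_add_eq_of_natDegree_le h1.1 (QQ_deg n y), h1.2]

omit [IsDomain R] [CharZero R] in
theorem PQ_symm (n : ℕ) (x y : R) : (PQ n y).eval x = (PQ n x).eval y := PP_symm _ _ _ _ _ _

omit [IsDomain R] [CharZero R] in
theorem PQ_zero (n : ℕ) : (PQ n (0 : R)) = G2 n := by
  unfold PQ PP G2
  refine sum_congr rfl fun m _ => ?_
  have h1 : (BP 0 (-1) 0 : R[X]) = X := by
    unfold BP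
    simp
  have h2 : (CP 0 (-1) 0 : R[X]) = 0 := by
    unfold CP
    simp
  rw [h1, h2, T_c_zero]
  simp

omit [IsDomain R] [CharZero R] in
theorem PQ_one (n : ℕ) : (PQ n (1 : R))
    = ∑ m ∈ range (n + 1), C (v n m : R) * ((1 + X) ^ (4 * n + 1 - 2 * m) * (1 - X) ^ (2 * m)) := by
  unfold PQ PP
  refine sum_congr rfl fun m hm => ?_
  have hm' : m ≤ n := by have := mem_range.mp hm; omega
  have h1 : (BP 0 (-1) 1 : R[X]) = (1 + X) * (1 - X) := by
    unfold BP
    simp only [mul_one, map_neg, map_one, C_0]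
    ring
  have h2 : (CP 0 (-1) 1 : R[X]) = 0 := by
    unfold CP
    simp
  rw [h1, h2, T_c_zero, show (1 - C (-1 * 1) * X : R[X]) = 1 + X by simp, mul_pow,
    show 4 * n + 1 - 2 * m = (2 * (2 * n + 1) - 2 * (2 * m) - 1) + 2 * m by omega, pow_add]
  ring

end

end Pool.Agent.H99.Sun
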