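import Mathlib
import Pool.Agent.H99.Sun.Top

/-! The Wronskian of the second kernel sum and its differential equation modulo `p^2`. -/

namespace Pool.Agent.H99.Sun

open Polynomial Finset Pool.Agent.H37.Sun

section
variable {R : Type*} [CommRing R] [IsDomain R] [CharZero R]

/-- The second kernel sum satisfies the differential equation modulo `p^2`. -/
theorem PQ_fac (p n : ℕ) (hn : p = 2 * n + 1) (y : R) : ∃ Φ Ψ : PowerSeries R,
    ((PQ n y : R[X]) : PowerSeries R) = (1 - PowerSeries.C (-1 * y) * PowerSeries.X) ^ (2 * p) * Φ ∧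
    DD 0 0 (-1) Φ = PowerSeries.C ((p : R) ^ 2) * Ψ := by
  have hwu : IsUnit (1 - PowerSeries.C (-1 * y) * PowerSeries.X : PowerSeries R) := by
    rw [PowerSeries.isUnit_iff_constantCoeff]
    simp
  obtain ⟨wi, hwi⟩ := hwu.exists_right_inv
  have h1 := PP_coe (0 : R) (-1) n (fun m => 2 * m) (fun m hm => by omega) y wi hwi
  have h2 := sum2 y wi hwi (fun k => wi * T k (wi ^ 2 * Bh 0 (-1) y) (wi ^ 4 * Ch 0 (-1) y))
    (fun k => rfl) n n le_rfl
  refine ⟨∑ m ∈ range (n + 1), PowerSeries.C (v n m : R) *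
      (wi * T (2 * m) (wi ^ 2 * Bh 0 (-1) y) (wi ^ 4 * Ch 0 (-1) y)),
    -(PowerSeries.C (v n n : R) * (wi * T (2 * n + 1) (wi ^ 2 * Bh 0 (-1) y)
    (wi ^ 4 * Ch 0 (-1) y))), ?_, ?_⟩
  · rw [hn]
    exact h1
  · rw [h2, hn]
    push_cast
    simp only [map_mul, map_pow]
    ring

/-- The modified Wronskian. -/
noncomputable def wr (n : ℕ) (y : R) : R[X] :=
  X * (1 - X ^ 2) * (G2 n * derivative (PQ n y) - derivative (G2 n) * PQ n y
    - C (2 * (2 * n + 1) * y) * (G2 n * QQ n y))

theorem wr_ode (p n : ℕ) (hn : p = 2 * n + 1) (y : R) : ∃ Z : R[X],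
    (1 + C y * X) * derivative (wr n y) = C (p : R) * (C (2 * y) * wr n y) + C ((p : R) ^ 2) * Z := by
  suffices h : C ((p : R) ^ 2) ∣ (1 + C y * X) * derivative (wr n y) - C (p : R) * (C (2 * y) * wr n y) by
    obtain ⟨Z, hZ⟩ := h
    exact ⟨Z, by linear_combination hZ⟩
  obtain ⟨Φ, Ψ, h1, h2⟩ := PQ_fac p n hn y
  obtain ⟨Φ0, Ψ0, h01, h02⟩ := PQ_fac p n hn (0 : R)
  rw [PQ_zero, mul_zero, map_zero, zero_mul, sub_zero, one_pow, one_mul] at h01
  rw [← h01] at h02
  set w : PowerSeries R := 1 - PowerSeries.C (-1 * y) * PowerSeries.X with hw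
  have hw2 : w = 1 + PowerSeries.C y * PowerSeries.X := by
    rw [hw, neg_one_mul, map_neg]
    ring
  have hpn : (p : R) = 2 * n + 1 := by rw [hn]; push_cast; ring
  have hwu : IsUnit w := by
    rw [PowerSeries.isUnit_iff_constantCoeff, hw]
    simp
  -- the second factor
  have hq : ((QQ n y : R[X]) : PowerSeries R) = w ^ (2 * p - 1) * Φ := by
    apply hwu.mul_left_cancel
    have e1 : w * w ^ (2 * p - 1) = w ^ (2 * p) := by
      rw [← pow_succ']
      congr 1
      omega
    rw [← mul_assoc, e1, ← h1, PQ_eq, Polynomial.coe_mul, hw2]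
    simp
  have hdw : PowerSeries.derivative R w = PowerSeries.C y := by
    rw [hw2, map_add, Derivation.map_one_eq_zero, Derivation.leibniz, PowerSeries.derivative_C,
      PowerSeries.derivative_X, smul_zero, add_zero, smul_eq_mul, mul_one, zero_add]
  have hdwp : ∀ j : ℕ, w * PowerSeries.derivative R (w ^ j) = (j : PowerSeries R) * PowerSeries.C y * w ^ j := by
    intro j
    rw [Derivation.leibniz_pow, hdw, smul_eq_mul, nsmul_eq_mul]
    rcases j with _ | j
    · simp
    · rw [Nat.add_sub_cancel, pow_succ]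
      ring
  set G : PowerSeries R := ((G2 n : R[X]) : PowerSeries R) with hG
  set P : PowerSeries R := ((PQ n y : R[X]) : PowerSeries R) with hP
  set Q : PowerSeries R := ((QQ n y : R[X]) : PowerSeries R) with hQ
  have hdP : w * PowerSeries.derivative R P = (2 * p : PowerSeries R) * PowerSeries.C y * w ^ (2 * p) * Φ
      + w * (w ^ (2 * p) * PowerSeries.derivative R Φ) := by
    rw [h1, Derivation.leibniz, smul_eq_mul, smul_eq_mul, mul_add]
    have := hdwp (2 * p)
    push_cast at this
    linear_combination Φ * this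
  set ω : PowerSeries R := (PowerSeries.X - PowerSeries.X ^ 3)
    * (G * PowerSeries.derivative R Φ - PowerSeries.derivative R G * Φ) with hω
  have hwQ : w * Q = w ^ (2 * p) * Φ := by
    rw [hq, ← mul_assoc, ← pow_succ']
    congr 2
    omega
  have hWR : ((wr n y : R[X]) : PowerSeries R) = w ^ (2 * p) * ω := by
    have e1 : ((wr n y : R[X]) : PowerSeries R) = PowerSeries.X * (1 - PowerSeries.X ^ 2)
        * (G * PowerSeries.derivative R P - PowerSeries.derivative R G * P
          - PowerSeries.C (2 * (2 * n + 1) * y) * (G * Q)) := by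
      unfold wr
      rw [hG, hP, hQ, PowerSeries.derivative_coe, PowerSeries.derivative_coe]
      generalize 2 * (2 * (n : R) + 1) * y = κ
      simp
    rw [e1]
    apply hwu.mul_left_cancel
    have e2 : PowerSeries.C (2 * (2 * n + 1) * y) = (2 * p : PowerSeries R) * PowerSeries.C y := by
      rw [← hpn]
      simp only [map_mul, map_natCast, map_ofNat]
    rw [e2, hω]
    linear_combination PowerSeries.X * (1 - PowerSeries.X ^ 2) * G * hdP
      - PowerSeries.X * (1 - PowerSeries.X ^ 2) * w * PowerSeries.derivative R G * h1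
      - PowerSeries.X * (1 - PowerSeries.X ^ 2) * (2 * p : PowerSeries R) * PowerSeries.C y * G * hwQ
  have hdω : PowerSeries.derivative R ω = PowerSeries.C ((p : R) ^ 2) * (G * Ψ - Ψ0 * Φ) := by
    have e1 : PowerSeries.derivative R (PowerSeries.X - PowerSeries.X ^ 3 : PowerSeries R)
        = 1 - 3 * PowerSeries.X ^ 2 := by
      rw [map_sub, Derivation.leibniz_pow, PowerSeries.derivative_X]
      simp
    have e2 : PowerSeries.derivative R ω = G * DD 0 0 (-1) Φ - DD 0 0 (-1) G * Φ := by
      rw [hω, Derivation.leibniz, map_sub, Derivation.leibniz, Derivation.leibniz, e1]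
      unfold DD
      simp only [smul_eq_mul, map_zero, map_neg, map_one]
      ring
    rw [e2, h2, h02]
    ring
  -- divisibility, coefficient by coefficient
  have hcoe : (((1 + C y * X) * derivative (wr n y) - C (p : R) * (C (2 * y) * wr n y) : R[X])
      : PowerSeries R) = PowerSeries.C ((p : R) ^ 2) * (w ^ (2 * p + 1) * (G * Ψ - Ψ0 * Φ)) := by
    rw [Polynomial.coe_sub, Polynomial.coe_mul, Polynomial.coe_mul, Polynomial.coe_mul,
      ← PowerSeries.derivative_coe, hWR, Derivation.leibniz, smul_eq_mul, smul_eq_mul, hdω]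
    have e1 : ((1 + C y * X : R[X]) : PowerSeries R) = w := by
      rw [hw2]
      simp
    rw [e1, Polynomial.coe_C, Polynomial.coe_C]
    have := hdwp (2 * p)
    push_cast at this
    have e3 : PowerSeries.C (2 * y) = 2 * PowerSeries.C y := by
      simp only [map_mul, map_ofNat]
    rw [e3, map_natCast]
    linear_combination ω * this
  rw [C_dvd_iff_dvd_coeff]
  intro i
  have h3 := congrArg (PowerSeries.coeff i) hcoe
  rw [Polynomial.coeff_coe, PowerSeries.coeff_C_mul] at h3
  rw [h3]
  exact dvd_mul_right _ _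

end

end Pool.Agent.H99.Sun
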