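import Mathlib
import Pool.Agent.H99.Sun.Wron

/-! The second kernel sum modulo `p`, and the Wronskian modulo `p^2`. -/

namespace Pool.Agent.H99.Sun

open Polynomial Finset Pool.Agent.H37.Sun

section block
variable {k : Type*} [Field k] (p : ℕ) [Fact p.Prime] [CharP k p]

theorem two_block {a b c : k} {H g : k[X]} (hH : IsSol a b c H) (hdeg : H.natDegree < p)
    (hH0 : H.coeff 0 ≠ 0) (hg : IsSol a b c g) (hgd : g.natDegree < 2 * p) :
    ∃ r r' : k, g = C r * H + X ^ p * (C r' * H) := by
  have hpos : 0 < p := (Fact.out : p.Prime).pos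
  set r := g.coeff 0 / H.coeff 0 with hr
  have h1 : IsSol a b c (g - C r * H) := hg.sub_smul hH r
  have h10 : (g - C r * H).coeff 0 = 0 := by
    rw [coeff_sub, coeff_C_mul, hr, div_mul_cancel₀ _ hH0, sub_self]
  have hlow := isSol_low p h1 h10
  obtain ⟨q, hq⟩ := X_pow_dvd_iff.mpr hlow
  have hqs : IsSol a b c q := isSol_shift p (by rw [← hq]; exact h1)
  set r' := q.coeff 0 / H.coeff 0 with hr'
  have h2 : IsSol a b c (q - C r' * H) := hqs.sub_smul hH r'
  have h20 : (q - C r' * H).coeff 0 = 0 := by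
    rw [coeff_sub, coeff_C_mul, hr', div_mul_cancel₀ _ hH0, sub_self]
  have hlow2 := isSol_low p h2 h20
  have hq0 : q - C r' * H = 0 := by
    ext j
    rw [coeff_zero]
    by_cases hj : j < p
    · exact hlow2 j hj
    · have e1 := congrArg (fun f : k[X] => f.coeff (j + p)) hq
      simp only [coeff_X_pow_mul, coeff_sub, coeff_C_mul] at e1
      rw [coeff_sub, coeff_C_mul, ← e1, coeff_eq_zero_of_natDegree_lt (p := g) (by omega),
        coeff_eq_zero_of_natDegree_lt (p := H) (n := j + p) (by omega),
        coeff_eq_zero_of_natDegree_lt (p := H) (n := j) (by omega)]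
      ring
  refine ⟨r, r', ?_⟩
  linear_combination hq + X ^ p * hq0

end block

section interp2
variable {R : Type*} [CommRing R] [IsDomain R] [CharZero R] {k : Type*} [Field k]
  (p : ℕ) [Fact p.Prime] [CharP k p] (π : R →+* k)
  (hker : ∀ x, π x = 0 → (p : R) ∣ x)
include hker

/-- A variant of the interpolation lemma: vanishing modulo `p^2`. -/
theorem interp2 (w D1 D2 Z : R[X]) (N : ℕ) (hdeg : w.natDegree < (N + 1) * p)
    (hD : D1 * derivative w = C (p : R) * (D2 * w) + C ((p : R) ^ 2) * Z) (hD1 : D1.map π ≠ 0)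
    (x : Fin (N + 1) → R) (hx : ∀ i, (π (x i)) ^ p = π (x i))
    (hinj : Function.Injective (fun i => π (x i)))
    (hval : ∀ i, w.eval (x i) = 0) : C ((p : R) ^ 2) ∣ w := by
  classical
  have hp : (p : k) = 0 := CharP.cast_eq_zero k p
  have hπp : π (p : R) = 0 := by rw [map_natCast, hp]
  have hp0 : (C (p : R) : R[X]) ≠ 0 := by
    rw [Ne, C_eq_zero]
    exact_mod_cast (Fact.out : p.Prime).ne_zero
  have hppos := (Fact.out : p.Prime).pos
  have hpR : (p : R) ≠ 0 := by exact_mod_cast (Fact.out : p.Prime).ne_zero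
  have step : ∀ g : R[X], g.natDegree < (N + 1) * p →
      derivative (g.map π) = 0 → (∀ i, g.eval (x i) = 0) → g.map π = 0 := by
    intro g hg hder hv
    have h1 := expand_contract p hder hppos.ne'
    have h2 : (contract p (g.map π)).natDegree < N + 1 := by
      have h3 : (expand k p (contract p (g.map π))).natDegree < (N + 1) * p := by
        rw [h1]
        exact lt_of_le_of_lt natDegree_map_le hg
      rw [natDegree_expand] at h3
      exact Nat.lt_of_mul_lt_mul_right h3
    have h4 : contract p (g.map π) = 0 := by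
      apply eq_zero_of_natDegree_lt_card_of_eval_eq_zero _ hinj
      · intro i
        show eval (π (x i)) _ = 0
        have h5 : eval (π (x i)) (g.map π) = 0 := by
          rw [eval_map_apply, hv i, map_zero]
        rw [← h1, expand_eval, hx i] at h5
        exact h5
      · rw [Fintype.card_fin]
        exact h2
    rw [← h1, h4, map_zero]
  have hw0 : w.map π = 0 := by
    apply step w hdeg _ hval
    have h1 := congrArg (Polynomial.map π) hD
    rw [Polynomial.map_mul, Polynomial.map_add, Polynomial.map_mul, Polynomial.map_mul,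
      Polynomial.map_mul, map_C, map_C, map_pow, hπp,
      zero_pow (by norm_num), C_0, zero_mul, zero_mul, add_zero, ← derivative_map] at h1
    exact (mul_eq_zero.mp h1).resolve_left hD1
  obtain ⟨w1, hw1⟩ := dvd_of_map_zero p π hker w hw0
  have hw10 : w1.map π = 0 := by
    apply step w1
    · have : w.natDegree = w1.natDegree := by
        rw [hw1, natDegree_C_mul hpR]
      omega
    · have h1 : D1 * derivative w1 = C (p : R) * (D2 * w1) + C (p : R) * Z := by
        apply mul_left_cancel₀ hp0
        rw [hw1, derivative_C_mul] at hD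
        rw [map_pow] at hD
        linear_combination hD
      have h2 := congrArg (Polynomial.map π) h1
      rw [Polynomial.map_mul, Polynomial.map_add, Polynomial.map_mul, Polynomial.map_mul,
        Polynomial.map_mul, map_C, hπp, C_0, zero_mul, zero_mul, add_zero,
        ← derivative_map] at h2
      exact (mul_eq_zero.mp h2).resolve_left hD1
    · intro i
      have h3 := hval i
      rw [hw1, eval_mul, eval_C] at h3
      exact (mul_eq_zero.mp h3).resolve_left hpR
  obtain ⟨w2, hw2⟩ := dvd_of_map_zero p π hker w1 hw10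
  refine ⟨w2, ?_⟩
  rw [hw1, hw2, map_pow]
  ring

end interp2

section modp
variable {R : Type*} [CommRing R] [IsDomain R] [CharZero R] {k : Type*} [Field k]
  (p : ℕ) [Fact p.Prime] [CharP k p] (π : R →+* k)
  (n : ℕ) (hn : p = 2 * n + 1) (h3 : 3 < p)
include hn h3

omit [Fact p.Prime] in
theorem top_modp [Fact p.Prime] (z : k) :
    ∑ m ∈ range (n + 1), (v n m : k) * (z ^ (4 * (n - m)) * (-z) ^ (2 * m))
      = z ^ (2 * n) * ∑ m ∈ range (n + 1), (v n m : k) * z ^ (2 * m) := by
  rw [← sum_flip (fun m => (v n m : k) * z ^ (2 * m)), mul_sum]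
  refine sum_congr rfl fun m hm => ?_
  have hm' : m ≤ n := by have := mem_range.mp hm; omega
  rw [v_mod p n hn h3 m hm', v_mod p n hn h3 (n - m) (by omega), Nat.choose_symm hm']
  rw [show (-z) ^ (2 * m) = z ^ (2 * m) by rw [pow_mul, pow_mul, neg_sq]]
  have : z ^ (4 * (n - m)) * z ^ (2 * m) = z ^ (2 * n) * z ^ (2 * (n - m)) := by
    rw [← pow_add, ← pow_add]
    congr 1
    omega
  rw [this]
  ring

theorem PQ_modp (y : R) : (PQ n y).map π
    = C (π ((G2 n : R[X]).eval y)) * (G2 n * (1 + C (π y) * X) ^ p) := by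
  have hp : (p : k) = 0 := CharP.cast_eq_zero k p
  obtain ⟨Φ, Ψ, h1, h2⟩ := PQ_fac p n hn y
  obtain ⟨Φ0, Ψ0, h01, h02⟩ := PQ_fac p n hn (0 : R)
  have hs : IsSol (0 : k) 0 (-1) ((PQ n y).map π) := by
    have := sol_of p π 0 0 (-1) (-1 * y) (PQ n y) Φ (PowerSeries.C (p : R) * Ψ) h1
      (by rw [h2, pow_two, map_mul, mul_assoc])
    simpa only [map_zero, map_neg, map_one] using this
  have hs0 : IsSol (0 : k) 0 (-1) (G2 n : k[X]) := by
    have := sol_of p π 0 0 (-1) (-1 * 0) (PQ n 0) Φ0 (PowerSeries.C (p : R) * Ψ0) h01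
      (by rw [h02, pow_two, map_mul, mul_assoc])
    rw [PQ_zero, G2_map] at this
    simpa only [map_zero, map_neg, map_one] using this
  have h16 := sixteen_pow (k := k) p n hn h3
  have hdH : (G2 n : k[X]).natDegree ≤ 2 * n := G2_natDegree n
  have hc0 : (G2 n : k[X]).coeff 0 = 1 := by rw [G2_coeff_zero, h16]
  have hdg : ((PQ n y).map π).natDegree ≤ 4 * n + 1 := natDegree_map_le.trans (PQ_deg n y)
  obtain ⟨r, r', hr⟩ := two_block p hs0 (by omega) (by rw [hc0]; exact one_ne_zero) hs (by omega)
  have hr1 : r = π ((G2 n : R[X]).eval y) := by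
    have e1 := congrArg (fun f : k[X] => f.coeff 0) hr
    simp only [coeff_add, mul_coeff_zero, coeff_X_pow, hc0, coeff_map] at e1
    rw [if_neg (by omega), zero_mul, add_zero, mul_one, coeff_zero_eq_eval_zero, PQ_symm,
      PQ_zero, coeff_C_zero] at e1
    exact e1.symm
  have hr2 : r' = (π y) ^ p * π ((G2 n : R[X]).eval y) := by
    have e1 := congrArg (fun f : k[X] => f.coeff (4 * n + 1)) hr
    simp only [coeff_add, coeff_C_mul, coeff_map] at e1
    rw [coeff_eq_zero_of_natDegree_lt (p := (G2 n : k[X])) (by omega), mul_zero, zero_add,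
      show 4 * n + 1 = 2 * n + p by omega, coeff_X_pow_mul, coeff_C_mul, G2_coeff_top,
      vn_mod p n hn h3, mul_one, show 2 * n + p = 4 * n + 1 by omega, PQ_top, QQ_top, map_mul,
      map_sum] at e1
    have e2 := top_modp p n hn h3 (π y)
    rw [← e1, G2_eval, map_sum, hn, pow_succ']
    simp only [map_mul, map_pow, map_neg, map_natCast]
    rw [e2]
    ring
  rw [hr, hr1, hr2]
  have hfr : (1 + C (π y) * X : k[X]) ^ p = 1 + C ((π y) ^ p) * X ^ p := by
    rw [add_pow_char, one_pow, mul_pow, C_pow]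
  rw [hfr]
  simp only [map_mul]
  ring

end modp

section wx
variable {R : Type*} [CommRing R] [IsDomain R] [CharZero R] {k : Type*} [Field k]
  (p : ℕ) [Fact p.Prime] [CharP k p] (π : R →+* k)
  (hker : ∀ x, π x = 0 → (p : R) ∣ x)
  (n : ℕ) (hn : p = 2 * n + 1) (h3 : 3 < p)
include hker hn h3

omit hker [CharP k p] [Fact p.Prime] in
/-- The top coefficient of the bracket. -/
theorem wr_deg (y : R) (κ : R) (hκ : κ = (v n n : R) * (PQ n y).coeff (4 * n + 1)) :
    (wr n y + C ((p : R) * κ) * (X ^ p - X ^ (3 * p))).natDegree < (2 + 1) * p := by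
  have hpn : (p : R) = 2 * n + 1 := by rw [hn]; push_cast; ring
  have dG : (G2 n : R[X]).natDegree ≤ 2 * n := G2_natDegree n
  have dQ : (QQ n y).natDegree ≤ 4 * n := QQ_deg n y
  have dP : (PQ n y).natDegree ≤ 4 * n + 1 := PQ_deg n y
  have dG' : (derivative (G2 n : R[X])).natDegree ≤ 2 * n - 1 :=
    (natDegree_derivative_le _).trans (by omega)
  have dP' : (derivative (PQ n y)).natDegree ≤ 4 * n :=
    (natDegree_derivative_le _).trans (by omega)
  have cG' : (derivative (G2 n : R[X])).coeff (2 * n - 1) = (v n n : R) * (2 * n) := by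
    rw [coeff_derivative, show 2 * n - 1 + 1 = 2 * n by omega, G2_coeff_top]
    congr 1
    have : ((2 * n - 1 + 1 : ℕ) : R) = ((2 * n : ℕ) : R) := by congr 1; omega
    push_cast at this
    exact this
  have cP' : (derivative (PQ n y)).coeff (4 * n) = (PQ n y).coeff (4 * n + 1) * (4 * n + 1) := by
    rw [coeff_derivative]
    push_cast
    ring
  set B : R[X] := G2 n * derivative (PQ n y) - derivative (G2 n) * PQ n y
    - C (2 * (2 * n + 1) * y) * (G2 n * QQ n y) with hB
  have dB : B.natDegree ≤ 6 * n := by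
    rw [hB]
    refine (natDegree_sub_le _ _).trans (max_le ((natDegree_sub_le _ _).trans (max_le ?_ ?_)) ?_)
    · exact natDegree_mul_le.trans (by omega)
    · exact natDegree_mul_le.trans (by omega)
    · exact (natDegree_C_mul_le _ _).trans (natDegree_mul_le.trans (by omega))
  have cB : B.coeff (6 * n) = -((p : R) * κ) := by
    rw [hB, coeff_sub, coeff_sub, coeff_C_mul]
    have e1 : (G2 n * derivative (PQ n y)).coeff (6 * n)
        = (v n n : R) * ((PQ n y).coeff (4 * n + 1) * (4 * n + 1)) := by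
      rw [show 6 * n = 2 * n + 4 * n by ring, coeff_mul_add_eq_of_natDegree_le dG dP',
        G2_coeff_top, cP']
    have e2 : (derivative (G2 n) * PQ n y).coeff (6 * n)
        = (v n n : R) * (2 * n) * (PQ n y).coeff (4 * n + 1) := by
      rw [show 6 * n = (2 * n - 1) + (4 * n + 1) by omega,
        coeff_mul_add_eq_of_natDegree_le dG' dP, cG']
    have e3 : (G2 n * QQ n y).coeff (6 * n) = (v n n : R) * (QQ n y).coeff (4 * n) := by
      rw [show 6 * n = 2 * n + 4 * n by ring, coeff_mul_add_eq_of_natDegree_le dG dQ,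
        G2_coeff_top]
    rw [e1, e2, e3, hκ, hpn, PQ_top]
    ring
  have dX : (X * (1 - X ^ 2) : R[X]).natDegree ≤ 3 := by
    rw [show (X * (1 - X ^ 2) : R[X]) = C (-1) * X ^ 3 + C 1 * X by
      simp only [map_neg, map_one]; ring]
    compute_degree!
  have cX : (X * (1 - X ^ 2) : R[X]).coeff 3 = -1 := by
    rw [show (X * (1 - X ^ 2) : R[X]) = C (-1) * X ^ 3 + C 1 * X by
      simp only [map_neg, map_one]; ring, coeff_add, coeff_C_mul, coeff_C_mul, coeff_X_pow, coeff_X]
    norm_num
  have hwr : wr n y = X * (1 - X ^ 2) * B := rfl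
  have dW : (wr n y).natDegree ≤ 3 * p := by
    rw [hwr]
    exact natDegree_mul_le.trans (by omega)
  have cW : (wr n y).coeff (3 * p) = (p : R) * κ := by
    rw [hwr, show 3 * p = 3 + 6 * n by omega, coeff_mul_add_eq_of_natDegree_le dX dB, cX, cB]
    ring
  have dE : (C ((p : R) * κ) * (X ^ p - X ^ (3 * p))).natDegree ≤ 3 * p := by
    refine (natDegree_C_mul_le _ _).trans ((natDegree_sub_le _ _).trans (max_le ?_ ?_))
    · exact (natDegree_X_pow_le _).trans (by omega)
    · exact natDegree_X_pow_le _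
  have hle : (wr n y + C ((p : R) * κ) * (X ^ p - X ^ (3 * p))).natDegree ≤ 3 * p :=
    (natDegree_add_le _ _).trans (max_le dW dE)
  have hc : (wr n y + C ((p : R) * κ) * (X ^ p - X ^ (3 * p))).coeff (3 * p) = 0 := by
    rw [coeff_add, coeff_C_mul, coeff_sub, coeff_X_pow, coeff_X_pow, if_neg (by omega), if_pos rfl,
      cW]
    ring
  rw [show (2 + 1) * p = 3 * p by ring]
  refine lt_of_le_of_ne hle fun e => ?_
  have h0 : (wr n y + C ((p : R) * κ) * (X ^ p - X ^ (3 * p))) = 0 := by
    rw [← leadingCoeff_eq_zero, leadingCoeff, e, hc]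
  rw [h0, natDegree_zero] at e
  omega

theorem wx (y : R) :
    C ((p : R) ^ 2) ∣ wr n y + C ((p : R) * (y ^ p * (G2 n : R[X]).eval y)) * (X ^ p - X ^ (3 * p)) := by
  have hodd : Odd p := ⟨n, hn⟩
  have n2 : (2 : k) ≠ 0 := by exact_mod_cast cast_ne (k := k) p 2 (by norm_num) (by omega)
  obtain ⟨κ, hκ⟩ : ∃ κ, κ = (v n n : R) * (PQ n y).coeff (4 * n + 1) := ⟨_, rfl⟩
  obtain ⟨Z, hZ⟩ := wr_ode p n hn y
  have hpn : (p : R) = 2 * n + 1 := by rw [hn]; push_cast; ring
  have h1 : C ((p : R) ^ 2) ∣ wr n y + C ((p : R) * κ) * (X ^ p - X ^ (3 * p)) := by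
    apply interp2 p π hker _ (1 + C y * X) (C (2 * y))
      (Z + (1 + C y * X) * C κ * (X ^ (p - 1) - 3 * X ^ (3 * p - 1))
        - C (2 * y) * C κ * (X ^ p - X ^ (3 * p))) 2 (wr_deg p n hn h3 y κ hκ) _ _
      ![0, 1, -1]
    · intro i
      fin_cases i
      · simp [(Fact.out : p.Prime).ne_zero]
      · simp
      · simp [hodd.neg_one_pow]
    · intro i l hil
      fin_cases i <;> fin_cases l <;> simp at hil ⊢
      · exact n2 (by linear_combination hil)
      · exact n2 (by linear_combination -hil)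
    · intro i
      fin_cases i
      · show eval 0 _ = 0
        unfold wr
        simp [(Fact.out : p.Prime).ne_zero]
      · show eval 1 _ = 0
        unfold wr
        simp
      · show eval (-1) _ = 0
        unfold wr
        have h3o : Odd (3 * p) := (by decide : Odd 3).mul hodd
        simp only [eval_add, eval_mul, eval_sub, eval_pow, eval_X, eval_one, eval_C,
          hodd.neg_one_pow, h3o.neg_one_pow]
        ring
    · rw [derivative_add, derivative_C_mul, mul_add, hZ, derivative_sub, derivative_X_pow,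
        derivative_X_pow]
      push_cast
      simp only [map_mul, map_pow, map_natCast, map_ofNat]
      ring
    · rw [Polynomial.map_add, Polynomial.map_one, Polynomial.map_mul, map_C, map_X]
      intro h
      have := congrArg (fun q : k[X] => q.coeff 0) h
      simp at this
  obtain ⟨z, hz⟩ : (p : R) ∣ κ - y ^ p * (G2 n : R[X]).eval y := by
    apply hker
    rw [map_sub, hκ, map_mul, map_natCast, vn_mod p n hn h3, one_mul, PQ_top, QQ_top, G2_eval,
      map_mul, map_mul, map_sum, map_sum]
    simp only [map_mul, map_pow, map_neg, map_natCast]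
    rw [top_modp p n hn h3, hn, pow_succ']
    ring
  obtain ⟨q, hq⟩ := h1
  refine ⟨q - C z * (X ^ p - X ^ (3 * p)), ?_⟩
  have hz' : κ = y ^ p * (G2 n : R[X]).eval y + (p : R) * z := by linear_combination hz
  rw [hz'] at hq
  simp only [map_mul, map_add, map_pow] at hq ⊢
  linear_combination hq

end wx

end Pool.Agent.H99.Sun
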