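import Mathlib
import Pool.Agent.H99.Sun.Modp

/-! Uniqueness modulo `p^2` for the first order equation. -/

namespace Pool.Agent.H99.Sun

open Polynomial Finset Pool.Agent.H37.Sun

section
variable {A : Type*} [CommRing A]

theorem unit_nat (p : ℕ) (hp : p.Prime) (hpA : (p : A) ^ 2 = 0) (j : ℕ) (hj : ¬ p ∣ j) :
    IsUnit (j : A) := by
  have hcop : Nat.Coprime (p ^ 2) j := Nat.Coprime.pow_left _ ((Nat.Prime.coprime_iff_not_dvd hp).mpr hj)
  obtain ⟨a, b, hab⟩ := Nat.isCoprime_iff_coprime.mpr hcop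
  have h1 := congrArg (Int.cast : ℤ → A) hab
  push_cast at h1
  refine IsUnit.of_mul_eq_one (b : A) ?_
  linear_combination h1 - a * hpA

theorem cancel_lin (y : A) (g : A[X]) (h : (1 + C y * X) * g = 0) : g = 0 := by
  have hu : IsUnit (1 + PowerSeries.C y * PowerSeries.X : PowerSeries A) := by
    rw [PowerSeries.isUnit_iff_constantCoeff]
    simp
  have h1 := congrArg (fun f : A[X] => (f : PowerSeries A)) h
  simp only [Polynomial.coe_mul, Polynomial.coe_add, Polynomial.coe_one, Polynomial.coe_C,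
    Polynomial.coe_X, Polynomial.coe_zero] at h1
  have h2 : (g : PowerSeries A) = 0 := by
    apply hu.mul_left_cancel
    rw [h1, mul_zero]
  exact_mod_cast h2

theorem cancel_cubic (g : A[X]) (h : X * (1 - X ^ 2) * g = 0) : g = 0 := by
  have hu : IsUnit (1 - PowerSeries.X ^ 2 : PowerSeries A) := by
    rw [PowerSeries.isUnit_iff_constantCoeff]
    simp
  have h0 : X * ((1 - X ^ 2) * g) = 0 := by rw [← mul_assoc]; exact h
  have h1 : (1 - X ^ 2) * g = 0 := by
    ext j
    have := congrArg (fun f : A[X] => f.coeff (j + 1)) h0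
    simpa only [coeff_X_mul, coeff_zero] using this
  have h2 := congrArg (fun f : A[X] => (f : PowerSeries A)) h1
  simp only [Polynomial.coe_mul, Polynomial.coe_sub, Polynomial.coe_one, Polynomial.coe_pow,
    Polynomial.coe_X, Polynomial.coe_zero] at h2
  have h3 : (g : PowerSeries A) = 0 := by
    apply hu.mul_left_cancel
    rw [h2, mul_zero]
  exact_mod_cast h3

theorem uniqA (p : ℕ) (hp : p.Prime) (hpA : (p : A) ^ 2 = 0) (H Δ : A[X]) (hH0 : IsUnit (H.coeff 0))
    (hH : H.natDegree < p) (hΔ : Δ.natDegree < 2 * p)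
    (hw : H * derivative Δ = derivative H * Δ) (h0 : Δ.coeff 0 = 0) (h1 : Δ.eval 1 = 0)
    (hH1 : IsUnit (H.eval 1)) : Δ = 0 := by
  have hu : IsUnit (H : PowerSeries A) := by
    rw [PowerSeries.isUnit_iff_constantCoeff, ← PowerSeries.coeff_zero_eq_constantCoeff_apply,
      Polynomial.coeff_coe]
    exact hH0
  obtain ⟨Hi, hHi⟩ := hu.exists_right_inv
  obtain ⟨c, hc⟩ : ∃ c : PowerSeries A, c = Hi * (Δ : PowerSeries A) := ⟨_, rfl⟩
  have hΔc : (Δ : PowerSeries A) = (H : PowerSeries A) * c := by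
    rw [hc]
    linear_combination -(Δ : PowerSeries A) * hHi
  have hder : PowerSeries.derivative A c = 0 := by
    have e1 := congrArg (fun f : A[X] => (f : PowerSeries A)) hw
    simp only [Polynomial.coe_mul, ← PowerSeries.derivative_coe] at e1
    rw [hΔc, Derivation.leibniz, smul_eq_mul, smul_eq_mul] at e1
    apply (hu.pow 2).mul_left_cancel
    linear_combination e1
  have hcj : ∀ j : ℕ, ¬ p ∣ j → PowerSeries.coeff j c = 0 := by
    intro j hj
    rcases j with _ | j
    · exact absurd (dvd_zero p) hj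
    · have e1 := congrArg (PowerSeries.coeff j) hder
      rw [PowerSeries.coeff_derivative, map_zero] at e1
      have e2 := unit_nat p hp hpA (j + 1) hj
      apply e2.mul_right_cancel
      push_cast
      rw [e1, zero_mul]
  have hc0 : PowerSeries.coeff 0 c = 0 := by
    rw [PowerSeries.coeff_zero_eq_constantCoeff_apply, hc, map_mul,
      ← PowerSeries.coeff_zero_eq_constantCoeff_apply (Δ : PowerSeries A), Polynomial.coeff_coe, h0,
      mul_zero]
  obtain ⟨r, hr⟩ : ∃ r, r = PowerSeries.coeff p c := ⟨_, rfl⟩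
  have hdiv : PowerSeries.X ^ (2 * p) ∣ c - PowerSeries.C r * PowerSeries.X ^ p := by
    rw [PowerSeries.X_pow_dvd_iff]
    intro m hm
    rw [map_sub, PowerSeries.coeff_C_mul, PowerSeries.coeff_X_pow]
    by_cases hmp : m = p
    · rw [if_pos hmp, mul_one, hr, hmp, sub_self]
    · rw [if_neg hmp, mul_zero, sub_zero]
      by_cases hd : p ∣ m
      · obtain ⟨q, rfl⟩ := hd
        have : q = 0 := by
          have hq : q < 2 := by
            rw [mul_comm] at hm
            exact lt_of_mul_lt_mul_right hm (Nat.zero_le p)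
          interval_cases q
          · rfl
          · exact absurd (mul_one p) hmp
        rw [this, mul_zero, hc0]
      · exact hcj m hd
  obtain ⟨c', hc'⟩ := hdiv
  have hpoly : Δ - C r * (X ^ p * H) = 0 := by
    ext j
    rw [coeff_zero]
    by_cases hj : j < 2 * p
    · have e1 : ((Δ - C r * (X ^ p * H) : A[X]) : PowerSeries A)
          = PowerSeries.X ^ (2 * p) * (c' * (H : PowerSeries A)) := by
        simp only [Polynomial.coe_sub, Polynomial.coe_mul, Polynomial.coe_C, Polynomial.coe_pow,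
          Polynomial.coe_X]
        rw [hΔc]
        linear_combination (H : PowerSeries A) * hc'
      have e2 := congrArg (PowerSeries.coeff j) e1
      rw [Polynomial.coeff_coe, PowerSeries.coeff_X_pow_mul', if_neg (by omega)] at e2
      exact e2
    · rw [coeff_sub, coeff_C_mul, coeff_eq_zero_of_natDegree_lt (p := Δ) (by omega),
        coeff_X_pow_mul', if_pos (by omega), coeff_eq_zero_of_natDegree_lt (p := H) (by omega)]
      ring
  have hr0 : r = 0 := by
    have e1 := congrArg (eval 1) hpoly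
    simp only [eval_sub, eval_mul, eval_C, eval_pow, eval_X, one_pow, one_mul, h1, eval_zero] at e1
    apply hH1.mul_right_cancel
    linear_combination -e1
  rw [hr0, C_0, zero_mul, sub_zero] at hpoly
  exact hpoly

end

section
variable {R : Type*} [CommRing R] [IsDomain R] [CharZero R] {k : Type*} [Field k]
  (p : ℕ) [Fact p.Prime] [CharP k p] (π : R →+* k)
  (hker : ∀ x, π x = 0 → (p : R) ∣ x)
include hker

theorem dvd_sq_of_mul (a b : R) (h : (p : R) ^ 2 ∣ a * b) (hb : π b ≠ 0) : (p : R) ^ 2 ∣ a := by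
  have hπp : π (p : R) = 0 := by rw [map_natCast, CharP.cast_eq_zero k p]
  have hp0 : (p : R) ≠ 0 := by exact_mod_cast (Fact.out : p.Prime).ne_zero
  have key : ∀ a : R, (p : R) ∣ a * b → (p : R) ∣ a := by
    intro a h
    apply hker
    obtain ⟨z, hz⟩ := h
    have := congrArg π hz
    rw [map_mul, map_mul, hπp, zero_mul] at this
    exact (mul_eq_zero.mp this).resolve_right hb
  obtain ⟨a1, ha1⟩ := key a (dvd_trans (dvd_pow_self _ (by norm_num)) h)
  obtain ⟨z, hz⟩ := h
  obtain ⟨a2, ha2⟩ := key a1 ⟨z, by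
    apply mul_left_cancel₀ hp0
    rw [ha1] at hz
    linear_combination hz⟩
  exact ⟨a2, by rw [ha1, ha2]; ring⟩

omit hker [IsDomain R] [CharZero R] in
theorem Hh_one_eq (n : ℕ) : (Hh n : R[X]).eval 1 = ∑ m ∈ range (n + 1), (v n m : R) := by
  unfold Hh
  rw [eval_finsetSum]
  refine sum_congr rfl fun m _ => ?_
  rw [eval_mul, eval_C, eval_pow, eval_X, one_pow, mul_one]

/-- The value at one modulo `p^2`. -/
theorem vsum_sq (n : ℕ) (hn : p = 2 * n + 1) (h3 : 3 < p) (b : R) (hb : 4 * b = 1) :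
    (p : R) ^ 2 ∣ ∑ m ∈ range (n + 1), (v n m : R) - (-1) ^ n * 16 ^ n := by
  have h1 := prod_formula p n Fact.out hn b hb (1 : R)
  obtain ⟨q, hq⟩ := h1
  have h2 := congrArg (eval 1) hq
  have e1 : (PP (1 : R) 0 n (fun m => m) 1).eval 1 = 16 ^ n := by
    rw [PP_eval, sum_eq_single_of_mem 0 (mem_range.mpr (by omega))]
    · rw [T_zero]
      simp [v]
    · intro m _ hm
      rw [show (1 * 1 * (1 - 1 * 1 + 0 * 1 ^ 2) * (1 - 1 * 1 + 0 * 1 ^ 2) : R) = 0 by ring,
        T_c_zero, show ((1 + 1) * (1 + 0 * 1 * 1) - 2 * (1 * 1) * 1 : R) = 0 by ring, zero_pow hm,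
        mul_zero, mul_zero]
  simp only [eval_sub, eval_mul, eval_C, e1] at h2
  rw [Hh_one_eq] at h2
  have n2 : (2 : k) ≠ 0 := by exact_mod_cast cast_ne (k := k) p 2 (by norm_num) (by omega)
  apply dvd_sq_of_mul p π hker _ (∑ m ∈ range (n + 1), (v n m : R) + (-1) ^ n * 16 ^ n)
  · refine ⟨-(q.eval 1), ?_⟩
    have e2 : ((-1 : R) ^ n) ^ 2 = 1 := by rw [← pow_mul, mul_comm, pow_mul]; norm_num
    linear_combination -h2 - (16 ^ n) ^ 2 * e2
  · rw [map_add, map_sum]
    simp only [map_natCast, map_mul, map_pow, map_neg, map_one, map_ofNat]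
    rw [vsum_mod p n hn h3, sixteen_pow p n hn h3, neg_pow, four_pow p n hn h3]
    rw [show ((-1 : k) ^ n * 1 + (-1) ^ n * 1) = 2 * (-1) ^ n by ring]
    exact mul_ne_zero n2 (pow_ne_zero _ (by norm_num))

end

end Pool.Agent.H99.Sun
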