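import Mathlib
import Pool.Agent.H99.Sun.Uniq

/-! The second kernel sum modulo `p^2`. -/

namespace Pool.Agent.H99.Sun

open Polynomial Finset Pool.Agent.H37.Sun

section
variable {A : Type*} [CommRing A]

theorem deriv_lin_pow (y : A) (p : ℕ) :
    derivative ((1 + C y * X : A[X]) ^ p) = C (p : A) * ((1 + C y * X) ^ (p - 1) * C y) := by
  rw [derivative_pow, derivative_add, derivative_one, derivative_C_mul, derivative_X, zero_add,
    mul_one]
  ring

/-- The factor in the main formula. -/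
noncomputable def KK (p : ℕ) (y : A) : A[X] :=
  2 * (1 + C y * X) ^ p - 2 * (C (y ^ p) * (1 + X) ^ p) - 2 * (C ((1 + y) ^ p) * X ^ p) + X ^ p
    + C (y ^ p) + C (y ^ p) * X ^ p - 1

theorem KK_deriv (p : ℕ) (y : A) : derivative (KK p y) = C (p : A) *
    (2 * (1 + C y * X) ^ (p - 1) * C y - 2 * (C (y ^ p) * (1 + X) ^ (p - 1))
      - 2 * (C ((1 + y) ^ p) * X ^ (p - 1)) + X ^ (p - 1) + C (y ^ p) * X ^ (p - 1)) := by
  have h1 := deriv_lin_pow y p
  have h2 := deriv_lin_pow (1 : A) p
  rw [C_1, one_mul, mul_one] at h2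
  have h3 : derivative (X ^ p : A[X]) = C (p : A) * X ^ (p - 1) := derivative_X_pow p
  have d2 : derivative (2 : A[X]) = 0 := derivative_ofNat 2
  unfold KK
  simp only [derivative_sub, derivative_add, derivative_mul, h1, h2, h3, derivative_C, d2,
    derivative_one]
  ring

theorem KK_natDegree (p : ℕ) (y : A) : (KK p y).natDegree ≤ p := by
  have h1 := (lin_pow y p).1
  have h2 := (lin_pow (1 : A) p).1
  rw [C_1, one_mul] at h2
  have h3 : (X ^ p : A[X]).natDegree ≤ p := natDegree_X_pow_le p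
  unfold KK
  refine (natDegree_sub_le _ _).trans (max_le ((natDegree_add_le _ _).trans (max_le
    ((natDegree_add_le _ _).trans (max_le ((natDegree_add_le _ _).trans (max_le
    ((natDegree_sub_le _ _).trans (max_le ((natDegree_sub_le _ _).trans (max_le ?_ ?_)) ?_))
      ?_)) ?_)) ?_)) ?_)
  · rw [show (2 : A[X]) = C 2 from (map_ofNat _ 2).symm]
    exact (natDegree_C_mul_le _ _).trans h1
  · rw [show (2 : A[X]) = C 2 from (map_ofNat _ 2).symm]
    exact (natDegree_C_mul_le _ _).trans ((natDegree_C_mul_le _ _).trans h2)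
  · rw [show (2 : A[X]) = C 2 from (map_ofNat _ 2).symm]
    exact (natDegree_C_mul_le _ _).trans ((natDegree_C_mul_le _ _).trans h3)
  · exact h3
  · rw [natDegree_C]
    exact Nat.zero_le _
  · exact (natDegree_C_mul_le _ _).trans h3
  · rw [natDegree_one]
    exact Nat.zero_le _

/-- The formal computation. -/
theorem wronsk_zero (p : ℕ) (H P M Q Q1 : A[X]) (y h h1 c16 e my : A)
    (e1 : X * (1 - X ^ 2) * (H * derivative P - derivative H * P - C (2 * (p : A) * y) * (H * Q))
      = -(C ((p : A) * (y ^ p * h)) * (X ^ p - X ^ (3 * p))))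
    (e1' : X * (1 - X ^ 2) * (H * derivative M - derivative H * M - C (2 * (p : A)) * (H * Q1))
      = -(C ((p : A) * h1) * (X ^ p - X ^ (3 * p))))
    (e2 : C (p : A) * Q = C (p : A) * (C h * (H * (1 + C y * X) ^ (p - 1))))
    (e2' : C (p : A) * Q1 = C (p : A) * (C h1 * (H * (1 + X) ^ (p - 1))))
    (e3 : (p : A) * c16 = p) (e4 : (p : A) * h1 = p * e) (e5 : e * e = 1)
    (e6 : (p : A) * my = p * (e * h * (1 + y) ^ p)) (e7 : (p : A) * (1 + y) ^ p = p * (1 + y ^ p)) :
    X * (1 - X ^ 2) * (H * derivative (C c16 * P - (C h * (H * KK p y)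
        + C e * (C (y ^ p * h) * M + C my * (X ^ p * H))))
      - derivative H * (C c16 * P - (C h * (H * KK p y)
        + C e * (C (y ^ p * h) * M + C my * (X ^ p * H))))) = 0 := by
  have h3 : derivative (X ^ p : A[X]) = C (p : A) * X ^ (p - 1) := derivative_X_pow p
  rw [derivative_sub, derivative_add, derivative_C_mul, derivative_C_mul, derivative_C_mul,
    derivative_add, derivative_C_mul, derivative_C_mul, derivative_mul, derivative_mul, KK_deriv, h3]
  have E3 := congrArg (C : A → A[X]) e3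
  have E4 := congrArg (C : A → A[X]) e4
  have E5 := congrArg (C : A → A[X]) e5
  have E6 := congrArg (C : A → A[X]) e6
  have E7 := congrArg (C : A → A[X]) e7
  simp only [map_mul, map_add, map_ofNat] at e1 e1' e2 e2' E3 E4 E5 E6 E7 ⊢
  generalize (1 + C y * X : A[X]) ^ (p - 1) = U at *
  generalize (1 + X : A[X]) ^ (p - 1) = V at *
  generalize (C ((1 + y) ^ p) : A[X]) = w at *
  generalize (X ^ (p - 1) : A[X]) = x at *
  generalize (C (y ^ p) : A[X]) = yp at *
  generalize (X ^ p - X ^ (3 * p) : A[X]) = E at *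
  generalize KK p y = K at *
  simp only [map_one] at *
  linear_combination C c16 * e1
    + (2 * C y * (X * (1 - X ^ 2)) * H * C c16) * e2
    + (2 * C y * (X * (1 - X ^ 2)) * H ^ 2 * C h * U - yp * C h * E) * E3
    - (C e * yp * C h) * e1' - (C e * yp * C h * (X * (1 - X ^ 2)) * 2 * H) * e2'
    - (C e * yp * C h * (2 * (X * (1 - X ^ 2)) * H ^ 2 * V - E)) * E4
    - (yp * C h * (2 * (X * (1 - X ^ 2)) * H ^ 2 * V - E) * C (p : A)) * E5
    - ((X * (1 - X ^ 2)) * C e * x * H ^ 2) * E6
    - ((X * (1 - X ^ 2)) * x * H ^ 2 * C h * w * C (p : A)) * E5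
    + ((X * (1 - X ^ 2)) * H ^ 2 * C h * x) * E7

end

section
variable {R : Type*} [CommRing R] [IsDomain R] [CharZero R] {k : Type*} [Field k]
  (p : ℕ) [Fact p.Prime] [CharP k p] (π : R →+* k)
  (hker : ∀ x, π x = 0 → (p : R) ∣ x)
  (n : ℕ) (hn : p = 2 * n + 1) (h3 : 3 < p)
include hker hn h3

omit hker hn h3 [IsDomain R] [CharZero R] [Fact p.Prime] [CharP k p] in
theorem G2_one : (G2 n : R[X]).eval 1 = ∑ m ∈ range (n + 1), (v n m : R) := by
  rw [G2_eval]
  refine sum_congr rfl fun m _ => ?_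
  rw [one_pow, mul_one]

theorem pf2_A {A : Type*} [CommRing A] (ρ : R →+* A) (hρ0 : ∀ x, ρ x = 0 ↔ (p : R) ^ 2 ∣ x)
    (b : R) (hb : 4 * b = 1) (y : R) :
    (C (16 ^ n) * PQ n y - (C ((G2 n : R[X]).eval y) * (G2 n * KK p y)
      + C ((-1) ^ n) * (C (y ^ p * (G2 n : R[X]).eval y) * PQ n 1
        + C ((PQ n 1).eval y) * (X ^ p * G2 n)))).map ρ = 0 := by
  have hprime : p.Prime := Fact.out
  have hodd : Odd p := ⟨n, hn⟩
  have hpos : 0 < p := hprime.pos
  have hpk : (p : k) = 0 := CharP.cast_eq_zero k p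
  -- facts over R
  have f3 : (p : R) ∣ 16 ^ n - 1 := by
    apply hker
    rw [map_sub, map_pow, map_ofNat, map_one, sixteen_pow p n hn h3, sub_self]
  have f5 : ((-1 : R) ^ n) * (-1) ^ n = 1 := by rw [← mul_pow]; norm_num
  have fh1 : (p : R) ^ 2 ∣ (G2 n : R[X]).eval 1 - (-1) ^ n * 16 ^ n := by
    rw [G2_one n]
    exact vsum_sq p π hker n hn h3 b hb
  have f4 : (p : R) ∣ (G2 n : R[X]).eval 1 - (-1) ^ n := by
    obtain ⟨z1, hz1⟩ := fh1
    obtain ⟨z2, hz2⟩ := f3
    exact ⟨p * z1 + (-1) ^ n * z2, by linear_combination hz1 + (-1) ^ n * hz2⟩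
  have f7 : (p : R) ∣ (1 + y) ^ p - (1 + y ^ p) := by
    apply hker
    simp only [map_sub, map_pow, map_add, map_one]
    rw [add_pow_char, one_pow, sub_self]
  have f6 : (p : R) ∣ (PQ n 1).eval y - (-1) ^ n * (G2 n : R[X]).eval y * (1 + y) ^ p := by
    apply hker
    have e1 := PQ_modp p π n hn h3 (1 : R)
    have e2 := congrArg (eval (π y)) e1
    rw [eval_map_apply] at e2
    have e3 : (π ((G2 n : R[X]).eval 1)) = (-1) ^ n := by
      obtain ⟨z, hz⟩ := f4
      have := congrArg π hz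
      rw [map_sub, map_mul, map_natCast, hpk, zero_mul, sub_eq_zero] at this
      rw [this, map_pow, map_neg, map_one]
    rw [e3, ← G2_map π n] at e2
    simp only [eval_mul, eval_C, eval_pow, eval_add, eval_one, eval_X, map_one, one_mul,
      eval_map_apply] at e2
    rw [map_sub, e2]
    simp only [map_mul, map_pow, map_neg, map_one, map_add]
    ring
  have fmod : ∀ z : R, C (p : R) ∣ PQ n z - C ((G2 n : R[X]).eval z) * (G2 n * (1 + C z * X) ^ p) := by
    intro z
    apply dvd_of_map_zero p π hker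
    rw [Polynomial.map_sub, PQ_modp p π n hn h3 z]
    simp only [Polynomial.map_mul, Polynomial.map_add, Polynomial.map_one, Polynomial.map_pow, map_C,
      map_X, G2_map]
    rw [sub_self]
  have fwx := wx p π hker n hn h3
  have hpn : (p : R) = 2 * n + 1 := by rw [hn]; push_cast; ring
  -- transfer to A
  have hpA : (p : A) ^ 2 = 0 := by
    have := (hρ0 ((p : R) ^ 2)).mpr dvd_rfl
    rwa [map_pow, map_natCast] at this
  have tr : ∀ x : R, (p : R) ∣ x → (p : A) * ρ x = 0 := by
    rintro x ⟨z, rfl⟩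
    rw [map_mul, map_natCast]
    linear_combination ρ z * hpA
  have trX : ∀ f : R[X], C (p : R) ∣ f → C (p : A) * f.map ρ = 0 := by
    rintro f ⟨z, rfl⟩
    rw [Polynomial.map_mul, map_C, ← mul_assoc, ← C_mul, map_natCast ρ, ← pow_two, hpA, C_0,
      zero_mul]
  have trX2 : ∀ f : R[X], C ((p : R) ^ 2) ∣ f → f.map ρ = 0 := by
    rintro f ⟨z, rfl⟩
    rw [Polynomial.map_mul, map_C, map_pow, map_natCast, hpA, C_0, zero_mul]
  obtain ⟨P, hP⟩ : ∃ P, P = (PQ n y).map ρ := ⟨_, rfl⟩
  obtain ⟨M, hM⟩ : ∃ M, M = (PQ n (1 : R)).map ρ := ⟨_, rfl⟩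
  obtain ⟨Q, hQ⟩ : ∃ Q, Q = (QQ n y).map ρ := ⟨_, rfl⟩
  obtain ⟨Q1, hQ1⟩ : ∃ Q1, Q1 = (QQ n (1 : R)).map ρ := ⟨_, rfl⟩
  obtain ⟨H, hH⟩ : ∃ H : A[X], H = G2 n := ⟨_, rfl⟩
  obtain ⟨h, hh⟩ : ∃ h, h = ρ ((G2 n : R[X]).eval y) := ⟨_, rfl⟩
  obtain ⟨h1, hh1⟩ : ∃ h1, h1 = ρ ((G2 n : R[X]).eval 1) := ⟨_, rfl⟩
  obtain ⟨my, hmy⟩ : ∃ my, my = ρ ((PQ n (1 : R)).eval y) := ⟨_, rfl⟩
  obtain ⟨c16, hc16⟩ : ∃ c : A, c = 16 ^ n := ⟨_, rfl⟩
  obtain ⟨e, he⟩ : ∃ e : A, e = (-1) ^ n := ⟨_, rfl⟩
  obtain ⟨Y, hY⟩ : ∃ Y, Y = ρ y := ⟨_, rfl⟩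
  have hHmap : (G2 n : R[X]).map ρ = H := by rw [G2_map, hH]
  have hPQm : P = (1 + C Y * X) * Q := by
    rw [hP, PQ_eq, hQ, Polynomial.map_mul, Polynomial.map_add, Polynomial.map_one,
      Polynomial.map_mul, map_C, map_X, hY]
  have hPQ1 : M = (1 + C 1 * X) * Q1 := by
    rw [hM, PQ_eq, hQ1, Polynomial.map_mul, Polynomial.map_add, Polynomial.map_one,
      Polynomial.map_mul, map_C, map_X, map_one]
  -- the relations
  have wxA : ∀ z : R, X * (1 - X ^ 2) * (H * derivative ((PQ n z).map ρ)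
        - derivative H * (PQ n z).map ρ - C (2 * (p : A) * ρ z) * (H * (QQ n z).map ρ))
      = -(C ((p : A) * (ρ z ^ p * ρ ((G2 n : R[X]).eval z))) * (X ^ p - X ^ (3 * p))) := by
    intro z
    have e1 := trX2 _ (fwx z)
    unfold wr at e1
    rw [← hpn] at e1
    simp only [Polynomial.map_add, Polynomial.map_mul, Polynomial.map_sub, Polynomial.map_pow,
      Polynomial.map_one, map_X, map_C, hHmap, ← derivative_map, map_mul, map_natCast,
      map_ofNat, map_pow, Polynomial.map_natCast, Polynomial.map_ofNat] at e1 ⊢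
    linear_combination e1
  have modA : ∀ z : R, C (p : A) * (QQ n z).map ρ
      = C (p : A) * (C (ρ ((G2 n : R[X]).eval z)) * (H * (1 + C (ρ z) * X) ^ (p - 1))) := by
    intro z
    have e1 := trX _ (fmod z)
    rw [PQ_eq] at e1
    simp only [Polynomial.map_add, Polynomial.map_mul, Polynomial.map_sub, Polynomial.map_pow,
      Polynomial.map_one, map_X, map_C, hHmap] at e1
    rw [← sub_eq_zero]
    apply cancel_lin (ρ z)
    have e2 : (1 + C (ρ z) * X : A[X]) ^ p = (1 + C (ρ z) * X) * (1 + C (ρ z) * X) ^ (p - 1) := by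
      rw [← pow_succ', Nat.sub_add_cancel hpos]
    rw [e2] at e1
    linear_combination e1
  have e1 := wxA y
  rw [← hP, ← hQ, ← hY, ← hh] at e1
  have e1' := wxA 1
  rw [← hM, ← hQ1, map_one, one_pow, one_mul, mul_one, ← hh1] at e1'
  have e2 := modA y
  rw [← hQ, ← hY, ← hh] at e2
  have e2' := modA 1
  rw [← hQ1, ← hh1, map_one, C_1, one_mul] at e2'
  have e3 : (p : A) * c16 = p := by
    have := tr _ f3
    rw [map_sub, map_pow, map_ofNat, map_one, ← hc16] at this
    linear_combination this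
  have e4 : (p : A) * h1 = p * e := by
    have := tr _ f4
    rw [map_sub, map_pow, map_neg, map_one, ← he, ← hh1] at this
    linear_combination this
  have e5 : e * e = 1 := by
    have := congrArg ρ f5
    rw [map_mul, map_pow, map_neg, map_one, ← he] at this
    exact this
  have e6 : (p : A) * my = p * (e * h * (1 + Y) ^ p) := by
    have := tr _ f6
    simp only [map_sub, map_mul, map_pow, map_neg, map_one, map_add, ← he, ← hh, ← hY, ← hmy] at this
    linear_combination this
  have e7 : (p : A) * (1 + Y) ^ p = p * (1 + Y ^ p) := by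
    have := tr _ f7
    simp only [map_sub, map_pow, map_one, map_add, ← hY] at this
    linear_combination this
  have e8 : h1 = e * c16 := by
    have := (hρ0 _).mpr fh1
    simp only [map_sub, map_mul, map_pow, map_neg, map_one, map_ofNat, ← he, ← hc16, ← hh1] at this
    linear_combination this
  have hmapΔ : (C (16 ^ n) * PQ n y - (C ((G2 n : R[X]).eval y) * (G2 n * KK p y)
      + C ((-1) ^ n) * (C (y ^ p * (G2 n : R[X]).eval y) * PQ n 1
        + C ((PQ n 1).eval y) * (X ^ p * G2 n)))).map ρ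
      = C c16 * P - (C h * (H * KK p Y) + C e * (C (Y ^ p * h) * M + C my * (X ^ p * H))) := by
    unfold KK
    simp only [Polynomial.map_sub, Polynomial.map_add, Polynomial.map_mul, Polynomial.map_pow,
      Polynomial.map_one, map_X, map_C, hHmap, ← hP, ← hM, map_pow, map_mul, map_neg, map_one,
      map_add, map_ofNat, ← hh, ← hmy, ← hY, Polynomial.map_ofNat, Polynomial.map_neg]
    rw [he, hc16, hh]
    simp only [map_pow, map_neg, map_one, map_ofNat]
  rw [hmapΔ]
  have u16 : IsUnit c16 := by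
    have h16 : ¬ p ∣ 16 ^ n := by
      intro hd
      have h2 : p ∣ 2 ^ (4 * n) := by rw [pow_mul]; norm_num; exact hd
      have := Nat.le_of_dvd (by norm_num) (hprime.dvd_of_dvd_pow h2)
      omega
    have := unit_nat (A := A) p hprime hpA (16 ^ n) h16
    push_cast at this
    rw [hc16]
    exact this
  have ue : IsUnit e := IsUnit.of_mul_eq_one e e5
  have hH0 : H.coeff 0 = c16 := by rw [hH, G2_coeff_zero, hc16]
  have hHe : H.eval 1 = h1 := by
    rw [← hHmap, hh1]
    have := eval_map_apply (p := (G2 n : R[X])) ρ 1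
    rwa [map_one] at this
  have dH : H.natDegree ≤ 2 * n := by rw [hH]; exact G2_natDegree n
  have dP : P.natDegree ≤ 4 * n + 1 := by
    rw [hP]
    exact natDegree_map_le.trans (PQ_deg n y)
  have dM : M.natDegree ≤ 4 * n + 1 := by
    rw [hM]
    exact natDegree_map_le.trans (PQ_deg n 1)
  apply uniqA p hprime hpA H _ (by rw [hH0]; exact u16) (by omega)
  · refine lt_of_le_of_lt (b := 4 * n + 1) ?_ (by omega)
    refine (natDegree_sub_le _ _).trans (max_le ((natDegree_C_mul_le _ _).trans dP)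
      ((natDegree_add_le _ _).trans (max_le ((natDegree_C_mul_le _ _).trans ?_)
      ((natDegree_C_mul_le _ _).trans ((natDegree_add_le _ _).trans (max_le
      ((natDegree_C_mul_le _ _).trans dM) ((natDegree_C_mul_le _ _).trans ?_)))))))
    · have := KK_natDegree p Y
      exact natDegree_mul_le.trans (by omega)
    · have := natDegree_X_pow_le (R := A) p
      exact natDegree_mul_le.trans (by omega)
  · have := wronsk_zero p H P M Q Q1 Y h h1 c16 e my e1 e1' e2 e2' e3 e4 e5 e6 e7
    have := cancel_cubic _ this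
    rw [sub_eq_zero] at this
    exact this
  · have a1 : P.coeff 0 = h := by
      rw [hP, coeff_map, coeff_zero_eq_eval_zero, PQ_symm, PQ_zero, hh]
    have a2 : M.coeff 0 = h1 := by
      rw [hM, coeff_map, coeff_zero_eq_eval_zero, PQ_symm, PQ_zero, hh1]
    have a3 : (KK p Y).coeff 0 = 1 - Y ^ p := by
      rw [coeff_zero_eq_eval_zero]
      unfold KK
      simp only [eval_sub, eval_add, eval_mul, eval_pow, eval_C, eval_X, eval_one, eval_ofNat,
        zero_pow hpos.ne', mul_zero, add_zero, one_pow]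
      ring
    simp only [coeff_sub, coeff_add, mul_coeff_zero, coeff_X_pow, a1, a2, a3, hH0, e8,
      coeff_C_zero]
    rw [if_neg (by omega)]
    linear_combination -(Y ^ p * h * c16) * e5
  · have a1 : P.eval 1 = my := by
      have := eval_map_apply (p := PQ n y) ρ 1
      rw [map_one, PQ_symm] at this
      rw [hP, this, hmy]
    have a2 : M.eval 1 = c16 * 2 ^ (4 * n + 1) := by
      have h0 : (PQ n (1 : R)).eval 1 = 16 ^ n * 2 ^ (4 * n + 1) := by
        rw [PQ_one, eval_finsetSum, sum_eq_single_of_mem 0 (mem_range.mpr (by omega))]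
        · simp only [eval_mul, eval_pow, eval_add, eval_one, eval_X, eval_C,
            mul_zero, pow_zero, mul_one, Nat.sub_zero]
          rw [show (1 + 1 : R) = 2 by norm_num]
          simp [v]
        · intro m _ hm
          simp only [eval_mul, eval_pow, eval_add, eval_sub, eval_one, eval_X, eval_C, sub_self]
          rw [zero_pow (by omega), mul_zero, mul_zero]
      have := eval_map_apply (p := PQ n (1 : R)) ρ 1
      rw [map_one, h0, ← hM] at this
      rw [this, map_mul, map_pow, map_pow, map_ofNat, map_ofNat, hc16]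
    have a3 : (KK p Y).eval 1 = Y ^ p * (2 - 2 * 2 ^ p) := by
      unfold KK
      simp only [eval_sub, eval_add, eval_mul, eval_pow, eval_C, eval_X, eval_one, eval_ofNat,
        one_pow, mul_one, one_add_one_eq_two]
      ring
    have f2 : (p : R) ∣ 2 ^ p - 2 := by
      apply hker
      have := map_natCast (frobenius k p) 2
      rw [frobenius_def] at this
      push_cast at this
      rw [map_sub, map_pow, map_ofNat, this, sub_self]
    have a4 : (2 : A) * (2 - 2 * 2 ^ p + 2 ^ (4 * n + 1)) = 0 := by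
      obtain ⟨z, hz⟩ := f2
      have e9 : (2 : R) * (2 - 2 * 2 ^ p + 2 ^ (4 * n + 1)) = (p : R) ^ 2 * z ^ 2 := by
        have : (2 : R) * 2 ^ (4 * n + 1) = 2 ^ p * 2 ^ p := by
          rw [← pow_succ', ← pow_add]
          congr 1
          omega
        linear_combination this + (2 ^ p - 2 + p * z) * hz
      have := congrArg ρ e9
      simp only [map_mul, map_add, map_sub, map_pow, map_ofNat, map_natCast] at this
      rw [this, hpA, zero_mul]
    have u2 : IsUnit (2 : A) := by
      have := unit_nat (A := A) p hprime hpA 2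
        (fun hd => absurd (Nat.le_of_dvd (by norm_num) hd) (by omega))
      push_cast at this
      exact this
    have a5 : (2 - 2 * 2 ^ p + 2 ^ (4 * n + 1) : A) = 0 := by
      apply u2.mul_left_cancel
      rw [a4, mul_zero]
    simp only [eval_sub, eval_add, eval_mul, eval_C, eval_pow, eval_X, one_pow, a1, a2, a3, hHe, e8]
    linear_combination -(c16 * my) * e5 - e * h * Y ^ p * c16 * a5
  · rw [hHe, e8]
    exact ue.mul u16

theorem pf2_poly (b : R) (hb : 4 * b = 1) (y : R) :
    C ((p : R) ^ 2) ∣ C (16 ^ n) * PQ n y - (C ((G2 n : R[X]).eval y) * (G2 n * KK p y)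
      + C ((-1) ^ n) * (C (y ^ p * (G2 n : R[X]).eval y) * PQ n 1
        + C ((PQ n 1).eval y) * (X ^ p * G2 n))) := by
  have hρ0 : ∀ x, Ideal.Quotient.mk (Ideal.span {(p : R) ^ 2}) x = 0 ↔ (p : R) ^ 2 ∣ x := by
    intro x
    rw [Ideal.Quotient.eq_zero_iff_mem, Ideal.mem_span_singleton]
  have h := pf2_A p π hker n hn h3 (Ideal.Quotient.mk (Ideal.span {(p : R) ^ 2})) hρ0 b hb y
  rw [C_dvd_iff_dvd_coeff]
  intro i
  rw [← hρ0, ← coeff_map, h, coeff_zero]

/-- The main formula: the second kernel sum modulo `p^2`. -/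
theorem pf2 (b : R) (hb : 4 * b = 1) (x y : R) :
    (p : R) ^ 2 ∣ 16 ^ n * (PQ n y).eval x
      - ((G2 n : R[X]).eval x * (G2 n : R[X]).eval y * (2 * (1 + y * x) ^ p - 2 * (y ^ p * (1 + x) ^ p)
          - 2 * ((1 + y) ^ p * x ^ p) + x ^ p + y ^ p + y ^ p * x ^ p - 1)
        + (-1) ^ n * (y ^ p * (G2 n : R[X]).eval y * (PQ n 1).eval x
          + x ^ p * (G2 n : R[X]).eval x * (PQ n 1).eval y)) := by
  obtain ⟨q, hq⟩ := pf2_poly p π hker n hn h3 b hb y
  have h := congrArg (eval x) hq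
  unfold KK at h
  simp only [eval_sub, eval_add, eval_mul, eval_pow, eval_C, eval_X, eval_one, eval_ofNat] at h
  exact ⟨q.eval x, by linear_combination h⟩

end

end Pool.Agent.H99.Sun
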