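import Mathlib

/-! Final evaluations in the residue field. -/

namespace Pool.Agent.H99.Sun

section
variable {k : Type*} [Field k]

theorem fin3_pp (n2 : (2 : k) ≠ 0) (n3 : (3 : k) ≠ 0) (s t a3 b3 μ bx bY D z0 z1 ω : k) (hs : s ^ 2 = 2) (ht : t ^ 2 = 3)
    (ha3 : a3 * (7 - 4 * t) = 1 * (7 - 4*t))
    (hb3 : b3 * (10 - 6 * t) = 2 * (10 - 6*t))
    (hμ : μ * (-2 + 2*s + 2*t - 1*(s*t)) = 1 * (-2 + 2*s + 2*t - 1*(s*t)))
    (hbx : 12 * bx = 3 * (-2 - 2*s + 2*t + 1*(s*t)) * a3 + (3 - 1*t - 2*(s*t)) * b3)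
    (hby : 12 * bY = 3 * (-2 + 2*s + 2*t - 1*(s*t)) * a3 + (3 - 1*t + 2*(s*t)) * b3)
    (hD : D = (279456 - 204576*s - 161344*t + 118112*(s*t)) * bx + (279456 + 204576*s - 161344*t - 118112*(s*t)) * bY)
    (hz0 : z0 = (-3 - 2*s + 2*t + 1*(s*t)) * (402 - 284*s - 232*t + 164*(s*t)) * (492 + 336*s - 284*t - 194*(s*t)) + (-3 + 2*s + 2*t - 1*(s*t)) * (402 + 284*s - 232*t - 164*(s*t)) * (492 - 336*s - 284*t + 194*(s*t)) * μ ^ 2)
    (hz1 : z1 = (-3 - 2*s + 2*t + 1*(s*t)) * (402 - 284*s - 232*t + 164*(s*t)) * (-7032 - 4836*s + 4060*t + 2792*(s*t)) + (-3 + 2*s + 2*t - 1*(s*t)) * (402 + 284*s - 232*t - 164*(s*t)) * (-7032 + 4836*s + 4060*t - 2792*(s*t)) * μ ^ 2)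
    (hE : μ * (8 - 4*t) ^ 2 * (388 - 224*t) ^ 2 * (-6) * ω = 4 * ((388 - 224*t) * μ * (8 - 4*t) * D + (8 - 4*t) * (-10032 + 5792*t) * z0 - (388 - 224*t) * ((8 - 4*t) * z1 + 2 * (-48 + 28*t) * z0)))
    (nL : μ * (8 - 4*t) ^ 2 * (388 - 224*t) ^ 2 * (-6) ≠ 0) : 3 * ω = -2 := by
  have n8 : (8 : k) ≠ 0 := by
    rw [show (8 : k) = 2 * 2 * 2 by norm_num]
    exact mul_ne_zero (mul_ne_zero n2 n2) n2
  have n12 : (12 : k) ≠ 0 := by
    rw [show (12 : k) = 2 * 2 * 3 by norm_num]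
    exact mul_ne_zero (mul_ne_zero n2 n2) n3
  have a3v : a3 = (1) := by
    linear_combination (7 + 4 * t) * ha3 + (16 * a3) * ht + (0) * hs + ((-16)) * ht
  have b3v : b3 = (2) := by
    apply mul_left_cancel₀ n8
    linear_combination (-(10 + 6 * t)) * hb3 - (36 * b3) * ht + (0) * hs + (72) * ht
  have μv : μ = (1) := by
    apply mul_left_cancel₀ n2
    linear_combination (-2 - 2*s + 2*t + 1*(s*t)) * hμ - μ * (((-1)*t^2 + 4*t + (-4)) * hs + (2) * ht) + ((-1)*t^2 + 4*t + (-4)) * hs + (2) * ht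
  have bxv : 12 * bx = (0 - 6*s + 4*t - 1*(s*t)) := by
    rw [hbx, a3v, b3v]
    linear_combination (0) * hs + (0) * ht
  have byv : 12 * bY = (0 + 6*s + 4*t + 1*(s*t)) := by
    rw [hby, a3v, b3v]
    linear_combination (0) * hs + (0) * ht
  have Dv : D = (-31648 + 18272*t) := by
    apply mul_left_cancel₀ n12
    linear_combination 12 * hD + (279456 - 204576*s - 161344*t + 118112*(s*t)) * bxv + (279456 + 204576*s - 161344*t - 118112*(s*t)) * byv + ((-236224)*t^2 + (-1008192)*t + 2454912) * hs + ((-1763200)) * ht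
  rw [μv] at hz0 hz1 hE nL
  have z0v : z0 = (-37440 + 21616*t) := by
    rw [hz0]
    linear_combination ((-130400)*t^3 + 648776*t^2 + (-1073824)*t + 591168) * hs + (2752*t + (-11024)) * ht
  have z1v : z1 = (446592 - 257840*t) := by
    rw [hz1]
    linear_combination (1867744*t^3 + (-9287744)*t^2 + 15363728*t + (-8452608)) * hs + ((-32192)*t + 130208) * ht
  rw [Dv, z0v, z1v] at hE
  have key : (1) * (8 - 4*t) ^ 2 * (388 - 224*t) ^ 2 * (-6) * (3 * ω - (-2)) = 0 := by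
    linear_combination 3 * hE + (0) * hs + ((-9633792)*t^2 + 284884992*t + (-464510976)) * ht
  have := (mul_eq_zero.mp key).resolve_left nL
  linear_combination this

theorem fin3_pm (n2 : (2 : k) ≠ 0) (n3 : (3 : k) ≠ 0) (s t a3 b3 μ bx bY D z0 z1 ω : k) (hs : s ^ 2 = 2) (ht : t ^ 2 = 3)
    (ha3 : a3 * (7 - 4 * t) = (-1) * (7 + 4*t))
    (hb3 : b3 * (10 - 6 * t) = 2 * (10 + 6*t))
    (hμ : μ * (-2 + 2*s + 2*t - 1*(s*t)) = (-1) * (-2 + 2*s - 2*t + 1*(s*t)))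
    (hbx : 12 * bx = 3 * (-2 - 2*s + 2*t + 1*(s*t)) * a3 + (3 - 1*t - 2*(s*t)) * b3)
    (hby : 12 * bY = 3 * (-2 + 2*s + 2*t - 1*(s*t)) * a3 + (3 - 1*t + 2*(s*t)) * b3)
    (hD : D = (279456 - 204576*s - 161344*t + 118112*(s*t)) * bx + (279456 + 204576*s - 161344*t - 118112*(s*t)) * bY)
    (hz0 : z0 = (-3 - 2*s - 2*t - 1*(s*t)) * (402 - 284*s + 232*t - 164*(s*t)) * (492 + 336*s - 284*t - 194*(s*t)) + (-3 + 2*s - 2*t + 1*(s*t)) * (402 + 284*s + 232*t + 164*(s*t)) * (492 - 336*s - 284*t + 194*(s*t)) * μ ^ 2)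
    (hz1 : z1 = (-3 - 2*s - 2*t - 1*(s*t)) * (402 - 284*s + 232*t - 164*(s*t)) * (-7032 - 4836*s + 4060*t + 2792*(s*t)) + (-3 + 2*s - 2*t + 1*(s*t)) * (402 + 284*s + 232*t + 164*(s*t)) * (-7032 + 4836*s + 4060*t - 2792*(s*t)) * μ ^ 2)
    (hE : μ * (8 + 4*t) ^ 2 * (388 - 224*t) ^ 2 * (-6) * ω = 4 * ((388 - 224*t) * μ * (8 + 4*t) * D + (8 - 4*t) * (-10032 + 5792*t) * z0 - (388 - 224*t) * ((8 - 4*t) * z1 + 2 * (-48 + 28*t) * z0)))
    (nL : μ * (8 + 4*t) ^ 2 * (388 - 224*t) ^ 2 * (-6) ≠ 0) : 3 * ω = -2 := by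
  have n8 : (8 : k) ≠ 0 := by
    rw [show (8 : k) = 2 * 2 * 2 by norm_num]
    exact mul_ne_zero (mul_ne_zero n2 n2) n2
  have n12 : (12 : k) ≠ 0 := by
    rw [show (12 : k) = 2 * 2 * 3 by norm_num]
    exact mul_ne_zero (mul_ne_zero n2 n2) n3
  have a3v : a3 = (-97 - 56*t) := by
    linear_combination (7 + 4 * t) * ha3 + (16 * a3) * ht + (0) * hs + ((-16)) * ht
  have b3v : b3 = (-52 - 30*t) := by
    apply mul_left_cancel₀ n8
    linear_combination (-(10 + 6 * t)) * hb3 - (36 * b3) * ht + (0) * hs + ((-72)) * ht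
  have μv : μ = (5 - 2*(s*t)) := by
    apply mul_left_cancel₀ n2
    linear_combination (-2 - 2*s + 2*t + 1*(s*t)) * hμ - μ * (((-1)*t^2 + 4*t + (-4)) * hs + (2) * ht) + ((-1)*t^2 + 4) * hs + (2) * ht
  have bxv : 12 * bx = (-492 + 258*s - 284*t + 149*(s*t)) := by
    rw [hbx, a3v, b3v]
    linear_combination (0) * hs + ((-108)*s + (-306)) * ht
  have byv : 12 * bY = (-492 - 258*s - 284*t - 149*(s*t)) := by
    rw [hby, a3v, b3v]
    linear_combination (0) * hs + (108*s + (-306)) * ht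
  have Dv : D = (608 - 352*t) := by
    apply mul_left_cancel₀ n12
    linear_combination 12 * hD + (279456 - 204576*s - 161344*t + 118112*(s*t)) * bxv + (279456 + 204576*s - 161344*t - 118112*(s*t)) * byv + (35197376*t^2 + (-17856)*t + (-105561216)) * hs + (162038144) * ht
  rw [μv] at hz0 hz1 hE nL
  have z0v : z0 = (0 + 96*s - 80*t) := by
    rw [hz0]
    linear_combination (127264*s^3*t^5 + 254496*s^3*t^4 + (-381760)*s^3*t^3 + (-763392)*s^3*t^2 + (-260800)*s^2*t^5 + (-1030320)*s^2*t^4 + (-489824)*s^2*t^3 + 3091136*s^2*t^2 + 3816960*s^2*t + 3520*s*t^5 + 1304064*s*t^4 + 2722944*s*t^3 + (-2386688)*s*t^2 + (-8202240)*s*t + (-4580352)*s + 5504*t^5 + (-14752)*t^4 + (-1712192)*t^3 + (-2516536)*t^2 + 5089184*t + 7685184) * hs + (7040*s*t^3 + (-27392)*s*t^2 + 6720*s*t + 800*s + 11008*t^3 + (-29504)*t^2 + 34816*t + 18928) * ht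
  have z1v : z1 = (-960 - 480*s + 400*t + 384*(s*t)) := by
    rw [hz1]
    linear_combination ((-1831552)*s^3*t^5 + (-3662400)*s^3*t^4 + 5495104*s^3*t^3 + 10987392*s^3*t^2 + 3735488*s^2*t^5 + 14793216*s^2*t^4 + 7105312*s^2*t^3 + (-44380736)*s^2*t^2 + (-54936960)*s^2*t + (-40192)*s*t^5 + (-18676128)*s*t^4 + (-39046464)*s*t^3 + 34055104*s*t^2 + 117496704*s*t + 65924352*s + (-64384)*t^5 + 163264*t^4 + 24467296*t^3 + 36141760*t^2 + (-72823792)*t + (-109883904)) * hs + ((-80384)*s*t^3 + 324544*s*t^2 + (-53568)*s*t + 7712*s + (-128768)*t^3 + 326528*t^2 + (-431552)*t + (-242848)) * ht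
  rw [Dv, z0v, z1v] at hE
  have key : (5 - 2*(s*t)) * (8 + 4*t) ^ 2 * (388 - 224*t) ^ 2 * (-6) * (3 * ω - (-2)) = 0 := by
    linear_combination 3 * hE + (0) * hs + (19267584*s*t^3 + 2752512*s*t^2 + (-67393536)*s*t + 10555392*s + (-48168960)*t^2 + (-983040)*t + 143032320) * ht
  have := (mul_eq_zero.mp key).resolve_left nL
  linear_combination this

theorem fin3_mp (n2 : (2 : k) ≠ 0) (n3 : (3 : k) ≠ 0) (s t a3 b3 μ bx bY D z0 z1 ω : k) (hs : s ^ 2 = 2) (ht : t ^ 2 = 3)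
    (ha3 : a3 * (7 - 4 * t) = (-1) * (7 - 4*t))
    (hb3 : b3 * (10 - 6 * t) = 2 * (10 - 6*t))
    (hμ : μ * (-2 + 2*s + 2*t - 1*(s*t)) = (-1) * (-2 - 2*s + 2*t + 1*(s*t)))
    (hbx : 12 * bx = 3 * (-2 - 2*s + 2*t + 1*(s*t)) * a3 + (3 - 1*t - 2*(s*t)) * b3)
    (hby : 12 * bY = 3 * (-2 + 2*s + 2*t - 1*(s*t)) * a3 + (3 - 1*t + 2*(s*t)) * b3)
    (hD : D = (279456 - 204576*s - 161344*t + 118112*(s*t)) * bx + (279456 + 204576*s - 161344*t - 118112*(s*t)) * bY)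
    (hz0 : z0 = (-3 + 2*s + 2*t - 1*(s*t)) * (402 + 284*s - 232*t - 164*(s*t)) * (492 + 336*s - 284*t - 194*(s*t)) + (-3 - 2*s + 2*t + 1*(s*t)) * (402 - 284*s - 232*t + 164*(s*t)) * (492 - 336*s - 284*t + 194*(s*t)) * μ ^ 2)
    (hz1 : z1 = (-3 + 2*s + 2*t - 1*(s*t)) * (402 + 284*s - 232*t - 164*(s*t)) * (-7032 - 4836*s + 4060*t + 2792*(s*t)) + (-3 - 2*s + 2*t + 1*(s*t)) * (402 - 284*s - 232*t + 164*(s*t)) * (-7032 + 4836*s + 4060*t - 2792*(s*t)) * μ ^ 2)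
    (hE : μ * (8 - 4*t) ^ 2 * (388 - 224*t) ^ 2 * (-6) * ω = 4 * ((388 - 224*t) * μ * (8 - 4*t) * D + (8 - 4*t) * (-10032 + 5792*t) * z0 - (388 - 224*t) * ((8 - 4*t) * z1 + 2 * (-48 + 28*t) * z0)))
    (nL : μ * (8 - 4*t) ^ 2 * (388 - 224*t) ^ 2 * (-6) ≠ 0) : 3 * ω = -2 := by
  have n8 : (8 : k) ≠ 0 := by
    rw [show (8 : k) = 2 * 2 * 2 by norm_num]
    exact mul_ne_zero (mul_ne_zero n2 n2) n2
  have n12 : (12 : k) ≠ 0 := by
    rw [show (12 : k) = 2 * 2 * 3 by norm_num]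
    exact mul_ne_zero (mul_ne_zero n2 n2) n3
  have a3v : a3 = (-1) := by
    linear_combination (7 + 4 * t) * ha3 + (16 * a3) * ht + (0) * hs + (16) * ht
  have b3v : b3 = (2) := by
    apply mul_left_cancel₀ n8
    linear_combination (-(10 + 6 * t)) * hb3 - (36 * b3) * ht + (0) * hs + (72) * ht
  have μv : μ = (-15 - 10*s + 8*t + 6*(s*t)) := by
    apply mul_left_cancel₀ n2
    linear_combination (-2 - 2*s + 2*t + 1*(s*t)) * hμ - μ * (((-1)*t^2 + 4*t + (-4)) * hs + (2) * ht) + ((-1)*t^2 + 4*t + (-4)) * hs + ((-4)*s + (-6)) * ht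
  have bxv : 12 * bx = (12 + 6*s - 8*t - 7*(s*t)) := by
    rw [hbx, a3v, b3v]
    linear_combination (0) * hs + (0) * ht
  have byv : 12 * bY = (12 - 6*s - 8*t + 7*(s*t)) := by
    rw [hby, a3v, b3v]
    linear_combination (0) * hs + (0) * ht
  have Dv : D = (-31648 + 18272*t) := by
    apply mul_left_cancel₀ n12
    linear_combination 12 * hD + (279456 - 204576*s - 161344*t + 118112*(s*t)) * bxv + (279456 + 204576*s - 161344*t - 118112*(s*t)) * byv + ((-1653568)*t^2 + 4281408*t + (-2454912)) * hs + ((-725632)) * ht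
  rw [μv] at hz0 hz1 hE nL
  have z0v : z0 = (-1080384 - 763488*s + 623760*t + 440800*(s*t)) := by
    rw [hz0]
    linear_combination (1145376*s^3*t^5 + (-10075872)*s^3*t^4 + 35411104*s^3*t^3 + (-62152608)*s^3*t^2 + 54484160*s^3*t + (-19084800)*s^3 + 2048064*s^2*t^5 + (-17505328)*s^2*t^4 + 60053984*s^2*t^3 + (-103360560)*s^2*t^2 + 89244160*s^2*t + (-30921600)*s^2 + (-2578496)*s*t^5 + 22158784*s*t^4 + (-76639296)*s*t^3 + 133304304*s*t^2 + (-116555344)*s*t + 40962048*s + (-4207744)*t^5 + 36746464*t^4 + (-127989824)*t^3 + 222435656*t^2 + (-193043760)*t + 66983328) * hs + ((-12416)*s*t^3 + 128*s*t^2 + 106048*s*t + (-246784)*s + 18176*t^3 + (-7744)*t^2 + 37632*t + (-316496)) * ht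
  have z1v : z1 = (15047808 + 10634016*s - 8687856*t - 6139552*(s*t)) := by
    rw [hz1]
    linear_combination ((-16483968)*s^3*t^5 + 145011648*s^3*t^4 + (-509643328)*s^3*t^3 + 894525888*s^3*t^2 + (-784170560)*s^3*t + 274684800*s^3 + (-29636160)*s^2*t^5 + 253364224*s^2*t^4 + (-869370784)*s^2*t^3 + 1496569920*s^2*t^2 + (-1292382560)*s^2*t + 447849600*s^2 + 36585728*s*t^5 + (-314336672)*s*t^4 + 1087009344*s*t^3 + (-1890542880)*s*t^2 + 1652955808*s*t + (-580926048)*s + 60152960*t^5 + (-525301696)*t^4 + 1829580256*t^3 + (-3179522336)*t^2 + 2759273904*t + (-957390048)) * hs + (178688*s*t^3 + (-9280)*s*t^2 + (-1485376)*s*t + 3444320*s + (-259840)*t^3 + 100480*t^2 + (-489408)*t + 4404704) * ht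
  rw [Dv, z0v, z1v] at hE
  have key : (-15 - 10*s + 8*t + 6*(s*t)) * (8 - 4*t) ^ 2 * (388 - 224*t) ^ 2 * (-6) * (3 * ω - (-2)) = 0 := by
    linear_combination 3 * hE + (0) * hs + ((-57802752)*s*t^3 + 1706557440*s*t^2 + (-687962112)*s*t + (-3627233280)*s + (-77070336)*t^3 + 2291466240*t^2 + (-562323456)*t + (-5499248640)) * ht
  have := (mul_eq_zero.mp key).resolve_left nL
  linear_combination this

theorem fin3_mm (n2 : (2 : k) ≠ 0) (n3 : (3 : k) ≠ 0) (s t a3 b3 μ bx bY D z0 z1 ω : k) (hs : s ^ 2 = 2) (ht : t ^ 2 = 3)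
    (ha3 : a3 * (7 - 4 * t) = 1 * (7 + 4*t))
    (hb3 : b3 * (10 - 6 * t) = 2 * (10 + 6*t))
    (hμ : μ * (-2 + 2*s + 2*t - 1*(s*t)) = 1 * (-2 - 2*s - 2*t - 1*(s*t)))
    (hbx : 12 * bx = 3 * (-2 - 2*s + 2*t + 1*(s*t)) * a3 + (3 - 1*t - 2*(s*t)) * b3)
    (hby : 12 * bY = 3 * (-2 + 2*s + 2*t - 1*(s*t)) * a3 + (3 - 1*t + 2*(s*t)) * b3)
    (hD : D = (279456 - 204576*s - 161344*t + 118112*(s*t)) * bx + (279456 + 204576*s - 161344*t - 118112*(s*t)) * bY)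
    (hz0 : z0 = (-3 + 2*s - 2*t + 1*(s*t)) * (402 + 284*s + 232*t + 164*(s*t)) * (492 + 336*s - 284*t - 194*(s*t)) + (-3 - 2*s - 2*t - 1*(s*t)) * (402 - 284*s + 232*t - 164*(s*t)) * (492 - 336*s - 284*t + 194*(s*t)) * μ ^ 2)
    (hz1 : z1 = (-3 + 2*s - 2*t + 1*(s*t)) * (402 + 284*s + 232*t + 164*(s*t)) * (-7032 - 4836*s + 4060*t + 2792*(s*t)) + (-3 - 2*s - 2*t - 1*(s*t)) * (402 - 284*s + 232*t - 164*(s*t)) * (-7032 + 4836*s + 4060*t - 2792*(s*t)) * μ ^ 2)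
    (hE : μ * (8 + 4*t) ^ 2 * (388 - 224*t) ^ 2 * (-6) * ω = 4 * ((388 - 224*t) * μ * (8 + 4*t) * D + (8 - 4*t) * (-10032 + 5792*t) * z0 - (388 - 224*t) * ((8 - 4*t) * z1 + 2 * (-48 + 28*t) * z0)))
    (nL : μ * (8 + 4*t) ^ 2 * (388 - 224*t) ^ 2 * (-6) ≠ 0) : 3 * ω = -2 := by
  have n8 : (8 : k) ≠ 0 := by
    rw [show (8 : k) = 2 * 2 * 2 by norm_num]
    exact mul_ne_zero (mul_ne_zero n2 n2) n2
  have n12 : (12 : k) ≠ 0 := by
    rw [show (12 : k) = 2 * 2 * 3 by norm_num]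
    exact mul_ne_zero (mul_ne_zero n2 n2) n3
  have a3v : a3 = (97 + 56*t) := by
    linear_combination (7 + 4 * t) * ha3 + (16 * a3) * ht + (0) * hs + (16) * ht
  have b3v : b3 = (-52 - 30*t) := by
    apply mul_left_cancel₀ n8
    linear_combination (-(10 + 6 * t)) * hb3 - (36 * b3) * ht + (0) * hs + ((-72)) * ht
  have μv : μ = (-3 - 2*s) := by
    apply mul_left_cancel₀ n2
    linear_combination (-2 - 2*s + 2*t + 1*(s*t)) * hμ - μ * (((-1)*t^2 + 4*t + (-4)) * hs + (2) * ht) + ((-1)*t^2 + 4) * hs + ((-4)*s + (-6)) * ht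
  have bxv : 12 * bx = (360 + 102*s + 208*t + 59*(s*t)) := by
    rw [hbx, a3v, b3v]
    linear_combination (0) * hs + (228*s + 366) * ht
  have byv : 12 * bY = (360 - 102*s + 208*t - 59*(s*t)) := by
    rw [hby, a3v, b3v]
    linear_combination (0) * hs + ((-228)*s + 366) * ht
  have Dv : D = (608 - 352*t) := by
    apply mul_left_cancel₀ n12
    linear_combination 12 * hD + (279456 - 204576*s - 161344*t + 118112*(s*t)) * bxv + (279456 + 204576*s - 161344*t - 118112*(s*t)) * byv + (13937216*t^2 + (-45120)*t + (-41733504)) * hs + ((-39244672)) * ht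
  rw [μv] at hz0 hz1 hE nL
  have z0v : z0 = (0 - 48*t - 32*(s*t)) := by
    rw [hz0]
    linear_combination (127264*s^3*t^3 + 254496*s^3*t^2 + (-381760)*s^3*t + (-763392)*s^3 + 269984*s^2*t^3 + 412528*s^2*t^2 + (-809600)*s^2*t + (-1236864)*s^2 + (-295488)*s*t^3 + (-606736)*s*t^2 + 887408*s*t + 1821696*s + (-619808)*t^3 + (-977016)*t^2 + 1860240*t + 2932128) * hs + (52096*s*t + 15392*s + 78144*t + 23088) * ht
  have z1v : z1 = (-576 - 384*s + 336*t + 224*(s*t)) := by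
    rw [hz1]
    linear_combination ((-1831552)*s^3*t^3 + (-3662400)*s^3*t^2 + 5495104*s^3*t + 10987392*s^3 + (-3903424)*s^2*t^3 + (-5970880)*s^2*t^2 + 11711968*s^2*t + 17913984*s^2 + 4188480*s*t^3 + 8626016*s*t^2 + (-12564320)*s*t + (-25874016)*s + 8858848*t^3 + 13970400*t^2 + (-26576976)*t + (-41907168)) * hs + ((-747136)*s*t + (-220480)*s + (-1120704)*t + (-330720)) * ht
  rw [Dv, z0v, z1v] at hE
  have key : (-3 - 2*s) * (8 + 4*t) ^ 2 * (388 - 224*t) ^ 2 * (-6) * (3 * ω - (-2)) = 0 := by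
    linear_combination 3 * hE + (0) * hs + (19267584*s*t^2 + 4423680*s*t + (-66748416)*s + 28901376*t^2 + 6635520*t + (-100122624)) * ht
  have := (mul_eq_zero.mp key).resolve_left nL
  linear_combination this

theorem fin2_pp (n2 : (2 : k) ≠ 0) (n3 : (3 : k) ≠ 0) (s t a3 b3 μ3 μ by3 a2 bx bY D z0 z1 ω : k) (hs : s ^ 2 = 2) (ht : t ^ 2 = 3)
    (ha3 : a3 * (7 - 4 * t) = 1 * (7 - 4*t))
    (hb3 : b3 * (10 - 6 * t) = 2 * (10 - 6*t))
    (hμ3 : μ3 * (-2 + 2*s + 2*t - 1*(s*t)) = 1 * (-2 + 2*s + 2*t - 1*(s*t)))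
    (hμ : μ * (4 - 2*s + 2*t - 1*(s*t)) = 1 * (4 - 2*s + 2*t - 1*(s*t)))
    (hby3 : 12 * by3 = 3 * (-2 + 2*s + 2*t - 1*(s*t)) * a3 + (3 - 1*t + 2*(s*t)) * b3)
    (hby : bY * μ3 = -(by3 * μ))
    (ha2 : a2 * (-5 + 2*(s*t)) = 1 * (-5 + 2*(s*t)))
    (hbx : 2 * bx = (4 + 2*s - 2*t - 1*(s*t)) * (a2 - (4 + 2*s - 2*t - 1*(s*t)) * bY))
    (hD : D = (84576 - 61296*s + 50048*t - 34528*(s*t)) * bx + (84576 + 61296*s - 50048*t - 34528*(s*t)) * bY)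
    (hz0 : z0 = (3 + 2*s - 2*t - 1*(s*t)) * (-402 + 284*s - 232*t + 164*(s*t)) * (-348 - 240*s + 196*t + 142*(s*t)) + (3 - 2*s + 2*t - 1*(s*t)) * (-402 - 284*s + 232*t + 164*(s*t)) * (-348 + 240*s - 196*t + 142*(s*t)) * μ ^ 2)
    (hz1 : z1 = (3 + 2*s - 2*t - 1*(s*t)) * (-402 + 284*s - 232*t + 164*(s*t)) * (-4272 - 2964*s + 2420*t + 1744*(s*t)) + (3 - 2*s + 2*t - 1*(s*t)) * (-402 - 284*s + 232*t + 164*(s*t)) * (-4272 + 2964*s - 2420*t + 1744*(s*t)) * μ ^ 2)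
    (hE : μ * (-4 + 2*(s*t)) ^ 2 * (196 - 80*(s*t)) ^ 2 * (6) * ω = 4 * ((196 - 80*(s*t)) * μ * (-4 + 2*(s*t)) * D + (-4 + 2*(s*t)) * (4272 - 1744*(s*t)) * z0 - (196 - 80*(s*t)) * ((-4 + 2*(s*t)) * z1 + 2 * (-24 + 10*(s*t)) * z0)))
    (nL : μ * (-4 + 2*(s*t)) ^ 2 * (196 - 80*(s*t)) ^ 2 * (6) ≠ 0) : 3 * ω = 8 := by
  have n8 : (8 : k) ≠ 0 := by
    rw [show (8 : k) = 2 * 2 * 2 by norm_num]
    exact mul_ne_zero (mul_ne_zero n2 n2) n2
  have n12 : (12 : k) ≠ 0 := by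
    rw [show (12 : k) = 2 * 2 * 3 by norm_num]
    exact mul_ne_zero (mul_ne_zero n2 n2) n3
  have a3v : a3 = (1) := by
    linear_combination (7 + 4 * t) * ha3 + (16 * a3) * ht + (0) * hs + ((-16)) * ht
  have b3v : b3 = (2) := by
    apply mul_left_cancel₀ n8
    linear_combination (-(10 + 6 * t)) * hb3 - (36 * b3) * ht + (0) * hs + (72) * ht
  have μ3v : μ3 = (1) := by
    apply mul_left_cancel₀ n2
    linear_combination (-2 - 2*s + 2*t + 1*(s*t)) * hμ3 - μ3 * (((-1)*t^2 + 4*t + (-4)) * hs + (2) * ht) + ((-1)*t^2 + 4*t + (-4)) * hs + (2) * ht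
  have μv : μ = (1) := by
    apply mul_left_cancel₀ n2
    linear_combination (4 + 2*s - 2*t - 1*(s*t)) * hμ - μ * ((1*t^2 + (-4)) * hs + ((-2)) * ht) + (1*t^2 + (-4)) * hs + ((-2)) * ht
  have by3v : 12 * by3 = (0 + 6*s + 4*t + 1*(s*t)) := by
    rw [hby3, a3v, b3v]
    linear_combination (0) * hs + (0) * ht
  rw [μ3v, μv] at hby
  have byv : 12 * bY = (0 - 6*s - 4*t - 1*(s*t)) := by
    linear_combination (12 * (1)) * hby - ((1) * (1)) * by3v - (12 * bY) * ((0) * hs + (0) * ht) + (0) * hs + (0) * ht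
  have a2v : a2 = (1) := by
    linear_combination (-5 - 2*(s*t)) * ha2 - a2 * (((-4)*t^2) * hs + ((-8)) * ht) + ((-4)*t^2) * hs + ((-8)) * ht
  have bxv : 12 * bx = (0 + 6*s + 4*t - 1*(s*t)) := by
    apply mul_left_cancel₀ n2
    linear_combination 12 * hbx + (12 * (4 + 2*s - 2*t - 1*(s*t))) * a2v - ((4 + 2*s - 2*t - 1*(s*t)) ^ 2) * byv + (1*s*t^3 + 2*s*t^2 + (-20)*s*t + 24*s + 8*t^3 + (-8)*t^2 + (-64)*t + 96) * hs + (22*s*t + (-52)*s + 32*t + (-80)) * ht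
  have Dv : D = (12032 - 4912*(s*t)) := by
    apply mul_left_cancel₀ n12
    linear_combination 12 * hD + (84576 - 61296*s + 50048*t - 34528*(s*t)) * bxv + (84576 + 61296*s - 50048*t - 34528*(s*t)) * byv + (69056*t^2 + (-735552)) * hs + (538496) * ht
  rw [μv] at hz0 hz1 hE nL
  have z0v : z0 = (-9504 + 3880*(s*t)) := by
    rw [hz0]
    linear_combination ((-46576)*s*t^3 + 140192*s*t + 138280*t^2 + (-418368)) * hs + (992*s*t + (-4048)) * ht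
  have z1v : z1 = (-84576 + 34528*(s*t)) := by
    rw [hz1]
    linear_combination ((-572032)*s*t^3 + 1720352*s*t + 1701920*t^2 + (-5137536)) * hs + (9728*s*t + (-37856)) * ht
  rw [Dv, z0v, z1v] at hE
  have key : (1) * (-4 + 2*(s*t)) ^ 2 * (196 - 80*(s*t)) ^ 2 * (6) * (3 * ω - (8)) = 0 := by
    linear_combination 3 * hE + ((-1228800)*s^2*t^4 + (-1244160)*s*t^3 + (-2457600)*t^4 + 17789952*t^2) * hs + ((-2488320)*s*t + (-4915200)*t^2 + 20834304) * ht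
  have := (mul_eq_zero.mp key).resolve_left nL
  linear_combination this

theorem fin2_pm (n2 : (2 : k) ≠ 0) (n3 : (3 : k) ≠ 0) (s t a3 b3 μ3 μ by3 a2 bx bY D z0 z1 ω : k) (hs : s ^ 2 = 2) (ht : t ^ 2 = 3)
    (ha3 : a3 * (7 - 4 * t) = (-1) * (7 + 4*t))
    (hb3 : b3 * (10 - 6 * t) = 2 * (10 + 6*t))
    (hμ3 : μ3 * (-2 + 2*s + 2*t - 1*(s*t)) = (-1) * (-2 + 2*s - 2*t + 1*(s*t)))
    (hμ : μ * (4 - 2*s + 2*t - 1*(s*t)) = (-1) * (4 - 2*s - 2*t + 1*(s*t)))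
    (hby3 : 12 * by3 = 3 * (-2 + 2*s + 2*t - 1*(s*t)) * a3 + (3 - 1*t + 2*(s*t)) * b3)
    (hby : bY * μ3 = -(by3 * μ))
    (ha2 : a2 * (-5 + 2*(s*t)) = (-1) * (-5 - 2*(s*t)))
    (hbx : 2 * bx = (4 + 2*s - 2*t - 1*(s*t)) * (a2 - (4 + 2*s - 2*t - 1*(s*t)) * bY))
    (hD : D = (84576 - 61296*s + 50048*t - 34528*(s*t)) * bx + (84576 + 61296*s - 50048*t - 34528*(s*t)) * bY)
    (hz0 : z0 = (3 + 2*s + 2*t + 1*(s*t)) * (-402 + 284*s + 232*t - 164*(s*t)) * (-348 - 240*s + 196*t + 142*(s*t)) + (3 - 2*s - 2*t + 1*(s*t)) * (-402 - 284*s - 232*t - 164*(s*t)) * (-348 + 240*s - 196*t + 142*(s*t)) * μ ^ 2)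
    (hz1 : z1 = (3 + 2*s + 2*t + 1*(s*t)) * (-402 + 284*s + 232*t - 164*(s*t)) * (-4272 - 2964*s + 2420*t + 1744*(s*t)) + (3 - 2*s - 2*t + 1*(s*t)) * (-402 - 284*s - 232*t - 164*(s*t)) * (-4272 + 2964*s - 2420*t + 1744*(s*t)) * μ ^ 2)
    (hE : μ * (-4 - 2*(s*t)) ^ 2 * (196 - 80*(s*t)) ^ 2 * (6) * ω = 4 * ((196 - 80*(s*t)) * μ * (-4 - 2*(s*t)) * D + (-4 + 2*(s*t)) * (4272 - 1744*(s*t)) * z0 - (196 - 80*(s*t)) * ((-4 + 2*(s*t)) * z1 + 2 * (-24 + 10*(s*t)) * z0)))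
    (nL : μ * (-4 - 2*(s*t)) ^ 2 * (196 - 80*(s*t)) ^ 2 * (6) ≠ 0) : 3 * ω = 8 := by
  have n8 : (8 : k) ≠ 0 := by
    rw [show (8 : k) = 2 * 2 * 2 by norm_num]
    exact mul_ne_zero (mul_ne_zero n2 n2) n2
  have n12 : (12 : k) ≠ 0 := by
    rw [show (12 : k) = 2 * 2 * 3 by norm_num]
    exact mul_ne_zero (mul_ne_zero n2 n2) n3
  have a3v : a3 = (-97 - 56*t) := by
    linear_combination (7 + 4 * t) * ha3 + (16 * a3) * ht + (0) * hs + ((-16)) * ht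
  have b3v : b3 = (-52 - 30*t) := by
    apply mul_left_cancel₀ n8
    linear_combination (-(10 + 6 * t)) * hb3 - (36 * b3) * ht + (0) * hs + ((-72)) * ht
  have μ3v : μ3 = (5 - 2*(s*t)) := by
    apply mul_left_cancel₀ n2
    linear_combination (-2 - 2*s + 2*t + 1*(s*t)) * hμ3 - μ3 * (((-1)*t^2 + 4*t + (-4)) * hs + (2) * ht) + ((-1)*t^2 + 4) * hs + (2) * ht
  have μv : μ = (-7 + 4*t) := by
    apply mul_left_cancel₀ n2
    linear_combination (4 + 2*s - 2*t - 1*(s*t)) * hμ - μ * ((1*t^2 + (-4)) * hs + ((-2)) * ht) + (1*t^2 + (-4)*t + 4) * hs + ((-2)) * ht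
  have by3v : 12 * by3 = (-492 - 258*s - 284*t - 149*(s*t)) := by
    rw [hby3, a3v, b3v]
    linear_combination (0) * hs + (108*s + (-306)) * ht
  rw [μ3v, μv] at hby
  have byv : 12 * bY = (-312 - 210*s - 172*t - 127*(s*t)) := by
    linear_combination (12 * (5 + 2*(s*t))) * hby - ((5 + 2*(s*t)) * (-7 + 4*t)) * by3v - (12 * bY) * (((-4)*t^2) * hs + ((-8)) * ht) + (1192*t^3 + (-22)*t^2 + (-3612)*t) * hs + (2272*s*t + 2940*s + 2384*t + 5636) * ht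
  have a2v : a2 = (-49 - 20*(s*t)) := by
    linear_combination (-5 - 2*(s*t)) * ha2 - a2 * (((-4)*t^2) * hs + ((-8)) * ht) + ((-4)*t^2) * hs + ((-8)) * ht
  have bxv : 12 * bx = (-312 + 210*s + 172*t - 127*(s*t)) := by
    apply mul_left_cancel₀ n2
    linear_combination 12 * hbx + (12 * (4 + 2*s - 2*t - 1*(s*t))) * a2v - ((4 + 2*s - 2*t - 1*(s*t)) ^ 2) * byv + (127*s*t^3 + (-298)*s*t^2 + (-332)*s*t + 840*s + 680*t^3 + (-1328)*t^2 + (-2368)*t + 4608) * hs + (1450*s*t + (-2812)*s + 2048*t + (-4160)) * ht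
  have Dv : D = (512 - 208*(s*t)) := by
    apply mul_left_cancel₀ n12
    linear_combination 12 * hD + (84576 - 61296*s + 50048*t - 34528*(s*t)) * bxv + (84576 + 61296*s - 50048*t - 34528*(s*t)) * byv + (8770112*t^2 + (-25744320)) * hs + (34756736) * ht
  rw [μv] at hz0 hz1 hE nL
  have z0v : z0 = (0 + 96*s - 56*(s*t)) := by
    rw [hz0]
    linear_combination ((-372608)*s*t^5 + 774336*s*t^4 + 2149328*s*t^3 + (-4516352)*s*t^2 + (-3073120)*s*t + 6543360*s + 732416*t^5 + (-1106112)*t^4 + (-4508832)*t^3 + 6826072*t^2 + 6898176*t + (-10459200)) * hs + (7936*s*t^3 + (-27520)*s*t^2 + 23456*s*t + 1568*s + 9728*t^3 + (-41600)*t^2 + 54720*t + (-22000)) * ht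
  have z1v : z1 = (672 + 384*s - 384*t - 224*(s*t)) := by
    rw [hz1]
    linear_combination ((-4576256)*s*t^5 + 9467136*s*t^4 + 26559488*s*t^3 + (-55488896)*s*t^2 + (-38228512)*s*t + 80810496*s + 9028864*t^5 + (-13691520)*t^4 + (-55392000)*t^3 + 84150560*t^2 + 84465024*t + (-128438400)) * hs + (77824*s*t^3 + (-258688)*s*t^2 + 196544*s*t + 38912*s + 91648*t^3 + (-398848)*t^2 + 546816*t + (-241376)) * ht
  rw [Dv, z0v, z1v] at hE
  have key : (-7 + 4*t) * (-4 - 2*(s*t)) ^ 2 * (196 - 80*(s*t)) ^ 2 * (6) * (3 * ω - (8)) = 0 := by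
    linear_combination 3 * hE + ((-4915200)*s^2*t^5 + 8601600*s^2*t^4 + 2826240*s*t^4 + (-4107264)*s*t^3 + (-1437696)*s*t^2 + (-9830400)*t^5 + 17203200*t^4 + 51087360*t^3 + (-92703744)*t^2 + 5658624*t) * hs + (5652480*s*t^2 + (-8214528)*s*t + 1744896*s + (-19660800)*t^3 + 34406400*t^2 + 43192320*t + (-82188288)) * ht
  have := (mul_eq_zero.mp key).resolve_left nL
  linear_combination this

theorem fin2_mp (n2 : (2 : k) ≠ 0) (n3 : (3 : k) ≠ 0) (s t a3 b3 μ3 μ by3 a2 bx bY D z0 z1 ω : k) (hs : s ^ 2 = 2) (ht : t ^ 2 = 3)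
    (ha3 : a3 * (7 - 4 * t) = (-1) * (7 - 4*t))
    (hb3 : b3 * (10 - 6 * t) = 2 * (10 - 6*t))
    (hμ3 : μ3 * (-2 + 2*s + 2*t - 1*(s*t)) = (-1) * (-2 - 2*s + 2*t + 1*(s*t)))
    (hμ : μ * (4 - 2*s + 2*t - 1*(s*t)) = (-1) * (4 + 2*s + 2*t + 1*(s*t)))
    (hby3 : 12 * by3 = 3 * (-2 + 2*s + 2*t - 1*(s*t)) * a3 + (3 - 1*t + 2*(s*t)) * b3)
    (hby : bY * μ3 = -(by3 * μ))
    (ha2 : a2 * (-5 + 2*(s*t)) = (-1) * (-5 - 2*(s*t)))
    (hbx : 2 * bx = (4 + 2*s - 2*t - 1*(s*t)) * (a2 - (4 + 2*s - 2*t - 1*(s*t)) * bY))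
    (hD : D = (84576 - 61296*s + 50048*t - 34528*(s*t)) * bx + (84576 + 61296*s - 50048*t - 34528*(s*t)) * bY)
    (hz0 : z0 = (3 - 2*s - 2*t + 1*(s*t)) * (-402 - 284*s - 232*t - 164*(s*t)) * (-348 - 240*s + 196*t + 142*(s*t)) + (3 + 2*s + 2*t + 1*(s*t)) * (-402 + 284*s + 232*t - 164*(s*t)) * (-348 + 240*s - 196*t + 142*(s*t)) * μ ^ 2)
    (hz1 : z1 = (3 - 2*s - 2*t + 1*(s*t)) * (-402 - 284*s - 232*t - 164*(s*t)) * (-4272 - 2964*s + 2420*t + 1744*(s*t)) + (3 + 2*s + 2*t + 1*(s*t)) * (-402 + 284*s + 232*t - 164*(s*t)) * (-4272 + 2964*s - 2420*t + 1744*(s*t)) * μ ^ 2)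
    (hE : μ * (-4 - 2*(s*t)) ^ 2 * (196 - 80*(s*t)) ^ 2 * (6) * ω = 4 * ((196 - 80*(s*t)) * μ * (-4 - 2*(s*t)) * D + (-4 + 2*(s*t)) * (4272 - 1744*(s*t)) * z0 - (196 - 80*(s*t)) * ((-4 + 2*(s*t)) * z1 + 2 * (-24 + 10*(s*t)) * z0)))
    (nL : μ * (-4 - 2*(s*t)) ^ 2 * (196 - 80*(s*t)) ^ 2 * (6) ≠ 0) : 3 * ω = -8 := by
  have n8 : (8 : k) ≠ 0 := by
    rw [show (8 : k) = 2 * 2 * 2 by norm_num]
    exact mul_ne_zero (mul_ne_zero n2 n2) n2
  have n12 : (12 : k) ≠ 0 := by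
    rw [show (12 : k) = 2 * 2 * 3 by norm_num]
    exact mul_ne_zero (mul_ne_zero n2 n2) n3
  have a3v : a3 = (-1) := by
    linear_combination (7 + 4 * t) * ha3 + (16 * a3) * ht + (0) * hs + (16) * ht
  have b3v : b3 = (2) := by
    apply mul_left_cancel₀ n8
    linear_combination (-(10 + 6 * t)) * hb3 - (36 * b3) * ht + (0) * hs + (72) * ht
  have μ3v : μ3 = (-15 - 10*s + 8*t + 6*(s*t)) := by
    apply mul_left_cancel₀ n2
    linear_combination (-2 - 2*s + 2*t + 1*(s*t)) * hμ3 - μ3 * (((-1)*t^2 + 4*t + (-4)) * hs + (2) * ht) + ((-1)*t^2 + 4*t + (-4)) * hs + ((-4)*s + (-6)) * ht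
  have μv : μ = (-3 - 2*s) := by
    apply mul_left_cancel₀ n2
    linear_combination (4 + 2*s - 2*t - 1*(s*t)) * hμ - μ * ((1*t^2 + (-4)) * hs + ((-2)) * ht) + (1*t^2 + (-4)) * hs + (4*s + 6) * ht
  have by3v : 12 * by3 = (12 - 6*s - 8*t + 7*(s*t)) := by
    rw [hby3, a3v, b3v]
    linear_combination (0) * hs + (0) * ht
  rw [μ3v, μv] at hby
  have byv : 12 * bY = (-144 + 78*s + 64*t - 59*(s*t)) := by
    linear_combination (12 * (-15 + 10*s + 8*t - 6*(s*t))) * hby - ((-15 + 10*s + 8*t - 6*(s*t)) * (-3 - 2*s)) * by3v - (12 * bY) * (((-36)*t^2 + 120*t + (-100)) * hs + ((-8)) * ht) + ((-84)*s*t^2 + 212*s*t + (-120)*s + 82*t^2 + (-292)*t + 240) * hs + (16*s + (-28)) * ht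
  have a2v : a2 = (-49 - 20*(s*t)) := by
    linear_combination (-5 - 2*(s*t)) * ha2 - a2 * (((-4)*t^2) * hs + ((-8)) * ht) + ((-4)*t^2) * hs + ((-8)) * ht
  have bxv : 12 * bx = (-144 - 78*s - 64*t - 59*(s*t)) := by
    apply mul_left_cancel₀ n2
    linear_combination 12 * hbx + (12 * (4 + 2*s - 2*t - 1*(s*t))) * a2v - ((4 + 2*s - 2*t - 1*(s*t)) ^ 2) * byv + (59*s*t^3 + (-314)*s*t^2 + 548*s*t + (-312)*s + 172*t^3 + (-616)*t^2 + 880*t + (-672)) * hs + (98*s*t + 196*s + 88*t + 368) * ht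
  have Dv : D = (-512 + 208*(s*t)) := by
    apply mul_left_cancel₀ n12
    linear_combination 12 * hD + (84576 - 61296*s + 50048*t - 34528*(s*t)) * bxv + (84576 + 61296*s - 50048*t - 34528*(s*t)) * byv + (4074304*t^2 + 9562176) * hs + (1742464) * ht
  rw [μv] at hz0 hz1 hE nL
  have z0v : z0 = (0 - 32*t - 24*(s*t)) := by
    rw [hz0]
    linear_combination ((-93152)*s^3*t^3 + (-182432)*s^3*t^2 + 280384*s^3*t + 545280*s^3 + (-205408)*s^2*t^3 + (-298288)*s^2*t^2 + 616832*s^2*t + 891264*s^2 + 141776*s*t^3 + 426832*s*t^2 + (-429648)*s*t + (-1277184)*s + 389952*t^3 + 693336*t^2 + (-1174384)*t + (-2073888)) * hs + (39264*s*t + (-10912)*s + 52352*t + (-16368)) * ht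
  have z1v : z1 = (288 + 192*s - 256*t - 192*(s*t)) := by
    rw [hz1]
    linear_combination ((-1144064)*s^3*t^3 + (-2251328)*s^3*t^2 + 3440704*s^3*t + 6734208*s^3 + (-2514368)*s^2*t^3 + (-3701120)*s^2*t^2 + 7546720*s^2*t + 11065728*s^2 + 1771328*s*t^3 + 5205664*s*t^2 + (-5359296)*s*t + (-15592416)*s + 4813824*t^3 + 8503680*t^2 + (-14486624)*t + (-25458336)) * hs + (483456*s*t + (-134080)*s + 644608*t + (-201120)) * ht
  rw [Dv, z0v, z1v] at hE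
  have key : (-3 - 2*s) * (-4 - 2*(s*t)) ^ 2 * (196 - 80*(s*t)) ^ 2 * (6) * (3 * ω - (-8)) = 0 := by
    linear_combination 3 * hE + ((-2457600)*s^3*t^4 + (-3686400)*s^2*t^4 + 1413120*s^2*t^3 + (-4915200)*s*t^4 + 2294784*s*t^3 + 26280960*s*t^2 + (-7372800)*t^4 + 3059712*t^3 + 38827008*t^2 + (-9449472)*t) * hs + ((-9830400)*s*t^2 + 4589568*s*t + 22278144*s + (-14745600)*t^2 + 6119424*t + 33417216) * ht
  have := (mul_eq_zero.mp key).resolve_left nL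
  linear_combination this

theorem fin2_mm (n2 : (2 : k) ≠ 0) (n3 : (3 : k) ≠ 0) (s t a3 b3 μ3 μ by3 a2 bx bY D z0 z1 ω : k) (hs : s ^ 2 = 2) (ht : t ^ 2 = 3)
    (ha3 : a3 * (7 - 4 * t) = 1 * (7 + 4*t))
    (hb3 : b3 * (10 - 6 * t) = 2 * (10 + 6*t))
    (hμ3 : μ3 * (-2 + 2*s + 2*t - 1*(s*t)) = 1 * (-2 - 2*s - 2*t - 1*(s*t)))
    (hμ : μ * (4 - 2*s + 2*t - 1*(s*t)) = 1 * (4 + 2*s - 2*t - 1*(s*t)))
    (hby3 : 12 * by3 = 3 * (-2 + 2*s + 2*t - 1*(s*t)) * a3 + (3 - 1*t + 2*(s*t)) * b3)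
    (hby : bY * μ3 = -(by3 * μ))
    (ha2 : a2 * (-5 + 2*(s*t)) = 1 * (-5 + 2*(s*t)))
    (hbx : 2 * bx = (4 + 2*s - 2*t - 1*(s*t)) * (a2 - (4 + 2*s - 2*t - 1*(s*t)) * bY))
    (hD : D = (84576 - 61296*s + 50048*t - 34528*(s*t)) * bx + (84576 + 61296*s - 50048*t - 34528*(s*t)) * bY)
    (hz0 : z0 = (3 - 2*s + 2*t - 1*(s*t)) * (-402 - 284*s + 232*t + 164*(s*t)) * (-348 - 240*s + 196*t + 142*(s*t)) + (3 + 2*s - 2*t - 1*(s*t)) * (-402 + 284*s - 232*t + 164*(s*t)) * (-348 + 240*s - 196*t + 142*(s*t)) * μ ^ 2)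
    (hz1 : z1 = (3 - 2*s + 2*t - 1*(s*t)) * (-402 - 284*s + 232*t + 164*(s*t)) * (-4272 - 2964*s + 2420*t + 1744*(s*t)) + (3 + 2*s - 2*t - 1*(s*t)) * (-402 + 284*s - 232*t + 164*(s*t)) * (-4272 + 2964*s - 2420*t + 1744*(s*t)) * μ ^ 2)
    (hE : μ * (-4 + 2*(s*t)) ^ 2 * (196 - 80*(s*t)) ^ 2 * (6) * ω = 4 * ((196 - 80*(s*t)) * μ * (-4 + 2*(s*t)) * D + (-4 + 2*(s*t)) * (4272 - 1744*(s*t)) * z0 - (196 - 80*(s*t)) * ((-4 + 2*(s*t)) * z1 + 2 * (-24 + 10*(s*t)) * z0)))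
    (nL : μ * (-4 + 2*(s*t)) ^ 2 * (196 - 80*(s*t)) ^ 2 * (6) ≠ 0) : 3 * ω = -8 := by
  have n8 : (8 : k) ≠ 0 := by
    rw [show (8 : k) = 2 * 2 * 2 by norm_num]
    exact mul_ne_zero (mul_ne_zero n2 n2) n2
  have n12 : (12 : k) ≠ 0 := by
    rw [show (12 : k) = 2 * 2 * 3 by norm_num]
    exact mul_ne_zero (mul_ne_zero n2 n2) n3
  have a3v : a3 = (97 + 56*t) := by
    linear_combination (7 + 4 * t) * ha3 + (16 * a3) * ht + (0) * hs + (16) * ht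
  have b3v : b3 = (-52 - 30*t) := by
    apply mul_left_cancel₀ n8
    linear_combination (-(10 + 6 * t)) * hb3 - (36 * b3) * ht + (0) * hs + ((-72)) * ht
  have μ3v : μ3 = (-3 - 2*s) := by
    apply mul_left_cancel₀ n2
    linear_combination (-2 - 2*s + 2*t + 1*(s*t)) * hμ3 - μ3 * (((-1)*t^2 + 4*t + (-4)) * hs + (2) * ht) + ((-1)*t^2 + 4) * hs + ((-4)*s + (-6)) * ht
  have μv : μ = (21 + 14*s - 12*t - 8*(s*t)) := by
    apply mul_left_cancel₀ n2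
    linear_combination (4 + 2*s - 2*t - 1*(s*t)) * hμ - μ * ((1*t^2 + (-4)) * hs + ((-2)) * ht) + (1*t^2 + (-4)*t + 4) * hs + (4*s + 6) * ht
  have by3v : 12 * by3 = (360 - 102*s + 208*t - 59*(s*t)) := by
    rw [hby3, a3v, b3v]
    linear_combination (0) * hs + ((-228)*s + 366) * ht
  rw [μ3v, μv] at hby
  have byv : 12 * bY = (24 - 6*s + 16*t - 5*(s*t)) := by
    linear_combination (12 * (-3 + 2*s)) * hby - ((-3 + 2*s) * (21 + 14*s - 12*t - 8*(s*t))) * by3v - (12 * bY) * (((-4)) * hs + (0) * ht) + ((-944)*s*t^2 + 20*s*t + 2856*s + 3328*t^2 + (-64)*t + (-10080)) * hs + (236*s + (-832)) * ht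
  have a2v : a2 = (1) := by
    linear_combination (-5 - 2*(s*t)) * ha2 - a2 * (((-4)*t^2) * hs + ((-8)) * ht) + ((-4)*t^2) * hs + ((-8)) * ht
  have bxv : 12 * bx = (24 + 6*s - 16*t - 5*(s*t)) := by
    apply mul_left_cancel₀ n2
    linear_combination 12 * hbx + (12 * (4 + 2*s - 2*t - 1*(s*t))) * a2v - ((4 + 2*s - 2*t - 1*(s*t)) ^ 2) * byv + (5*s*t^3 + (-14)*s*t^2 + (-4)*s*t + 24*s + 4*t^3 + (-16)*t^2 + 16*t) * hs + ((-34)*s*t + 76*s + (-56)*t + 128) * ht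
  have Dv : D = (-12032 + 4912*(s*t)) := by
    apply mul_left_cancel₀ n12
    linear_combination 12 * hD + (84576 - 61296*s + 50048*t - 34528*(s*t)) * bxv + (84576 + 61296*s - 50048*t - 34528*(s*t)) * byv + (345280*t^2 + (-735552)) * hs + ((-910976)) * ht
  rw [μv] at hz0 hz1 hE nL
  have z0v : z0 = (-385824 - 272736*s + 222688*t + 157512*(s*t)) := by
    rw [hz0]
    linear_combination ((-1490432)*s^3*t^5 + 3097344*s^3*t^4 + 8690464*s^3*t^3 + (-18197856)*s^3*t^2 + (-12657344)*s^3*t + 26718720*s^3 + (-3286528)*s^2*t^5 + 5517312*s^2*t^4 + 18609440*s^2*t^3 + (-31108176)*s^2*t^2 + (-26252800)*s^2*t + 43671936*s^2 + 2641024*s*t^5 + (-5156416)*s*t^4 + (-17624560)*s*t^3 + 34141360*s*t^2 + 29115120*s*t + (-56038656)*s + 6535424*t^5 + (-9763904)*t^4 + (-40229664)*t^3 + 60143656*t^2 + 61948496*t + (-92685600)) * hs + (18176*s*t^3 + (-6272)*s*t^2 + (-20064)*s*t + (-89536)*s +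 (-25088)*t^3 + 7808*t^2 + 126656*t + (-172240)) * ht
  have z1v : z1 = (-4976736 - 3518016*s + 2872448*t + 2031744*(s*t)) := by
    rw [hz1]
    linear_combination ((-18305024)*s^3*t^5 + 37868544*s^3*t^4 + 107382016*s^3*t^3 + (-223593024)*s^3*t^2 + (-157398080)*s^3*t + 329976192*s^3 + (-40229888)*s^2*t^5 + 66617856*s^2*t^4 + 230860864*s^2*t^3 + (-380584704)*s^2*t^2 + (-330546272)*s^2*t + 542220672*s^2 + 32917504*s*t^5 + (-65632000)*s*t^4 + (-214381888)*s*t^3 + 424528096*s*t^2 + 347046336*s*t + (-683217888)*s + 80692480*t^5 + (-121379968)*t^4 + (-494009088)*t^3 + 742845248*t^2 + 756818080*t + (-1137815712)) * hs + (223232*s*t^3 + (-76160)*s*t^2 + (-237888)*s*t + (-1145152)*s + (-309760)*t^3 + 97792*t^2 + 1572352*t + (-2181152)) * ht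
  rw [Dv, z0v, z1v] at hE
  have key : (21 + 14*s - 12*t - 8*(s*t)) * (-4 + 2*(s*t)) ^ 2 * (196 - 80*(s*t)) ^ 2 * (6) * (3 * ω - (-8)) = 0 := by
    linear_combination 3 * hE + ((-9830400)*s^3*t^5 + 17203200*s^3*t^4 + (-14745600)*s^2*t^5 + 188743680*s^2*t^4 + (-285143040)*s^2*t^3 + (-19660800)*s*t^5 + 278814720*s*t^4 + (-906918912)*s*t^3 + 844747776*s*t^2 + (-29491200)*t^5 + 377487360*t^4 + (-1317746688)*t^3 + 245351424*t^2 + 1824331776*t) * hs + ((-39321600)*s*t^3 + 557629440*s*t^2 + (-1931802624)*s*t + 1988112384*s + (-58982400)*t^3 + 754974720*t^2 + (-2812440576)*t + 2755627008) * ht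
  have := (mul_eq_zero.mp key).resolve_left nL
  linear_combination this

end

end Pool.Agent.H99.Sun
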