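import Mathlib
import Pool.Agent.H99.Sun.Pf2
import Pool.Agent.H37.Sun.Dual

/-! The Wronskian relation along a polynomial curve. -/

namespace Pool.Agent.H99.Sun

open Polynomial Finset Pool.Agent.H37.Sun

section chain
variable {R : Type*} [CommRing R]

theorem QQ_map {S : Type*} [CommRing S] (f : R →+* S) (n : ℕ) (y : R) :
    (QQ n y).map f = QQ n (f y) := by
  unfold QQ BP CP
  rw [Polynomial.map_sum]
  refine sum_congr rfl fun m _ => ?_
  rw [Polynomial.map_mul, map_C, map_natCast, Polynomial.map_mul, ← coe_mapRingHom, map_T]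
  simp only [coe_mapRingHom, Polynomial.map_sub, Polynomial.map_add, Polynomial.map_mul,
    Polynomial.map_pow, Polynomial.map_one, map_X, map_C, Polynomial.map_ofNat, map_mul, map_add,
    map_sub, map_pow, map_one, map_neg, map_zero]

theorem PQ_map {S : Type*} [CommRing S] (f : R →+* S) (n : ℕ) (y : R) :
    (PQ n y).map f = PQ n (f y) := by
  rw [PQ_eq, PQ_eq, Polynomial.map_mul, QQ_map, Polynomial.map_add, Polynomial.map_one,
    Polynomial.map_mul, map_C, map_X]

/-- The shift homomorphism. -/
noncomputable def shiftHom : R[X] →+* DualNumber R[X] :=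
  (eval₂RingHom (TrivSqZeroExt.inlHom R[X] R[X]) (du X 1)).comp (mapRingHom C)

theorem shiftHom_apply (f : R[X]) : shiftHom f = du f (derivative f) := by
  unfold shiftHom
  rw [RingHom.comp_apply, coe_mapRingHom, coe_eval₂RingHom, du_eval, mul_one, derivative_map]
  congr 1
  · rw [eval_map, eval₂_C_X]
  · rw [eval_map, eval₂_C_X]

theorem eps_sq (b : R) : (du 0 b : DualNumber R) ^ 2 = 0 := by
  rw [pow_two, du_mul]
  rw [zero_mul, zero_mul, mul_zero, add_zero]
  rfl

/-- The chain rule for the symmetric kernel. -/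
theorem PQ_chain (n : ℕ) (x y : R[X]) :
    derivative ((PQ n y).eval x) = derivative x * (derivative (PQ n y)).eval x
      + derivative y * (derivative (PQ n x)).eval y := by
  have h1 : shiftHom ((PQ n y).eval x) = (PQ n (shiftHom y)).eval (shiftHom x) := by
    rw [← PQ_map, eval_map_apply]
  have fst_hom : ∀ (z : DualNumber R[X]) (w : R[X]),
      ((derivative (PQ n z)).eval (du w 0)).fst = (derivative (PQ n z.fst)).eval w := by
    intro z w
    have h2 := eval_map_apply (p := derivative (PQ n z))
      (TrivSqZeroExt.fstHom R[X] R[X] R[X]).toRingHom (du w 0)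
    rw [← derivative_map, PQ_map] at h2
    exact h2.symm
  have inl_hom : ∀ w z : R[X], (PQ n (du w 0)).eval (du z 0) = du ((PQ n w).eval z) 0 := by
    intro w z
    have h2 := eval_map_apply (p := PQ n w) (TrivSqZeroExt.inlHom R[X] R[X]) z
    rw [PQ_map] at h2
    exact h2
  have split : ∀ a b : R[X], (du a b : DualNumber R[X]) = du a 0 + du 0 b := by
    intro a b
    rw [du_add, add_zero, zero_add]
  have mulfst : ∀ (z : DualNumber R[X]) (b : R[X]), z * du 0 b = du 0 (z.fst * b) := by
    intro z b
    obtain ⟨z1, z2⟩ := z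
    show du z1 z2 * du 0 b = _
    rw [du_mul, mul_zero, mul_zero, add_zero]
    rfl
  rw [shiftHom_apply, shiftHom_apply, shiftHom_apply] at h1
  have e1 : (PQ n (du y (derivative y))).eval (du x (derivative x))
      = (PQ n (du y (derivative y))).eval (du x 0)
        + du 0 ((derivative (PQ n y)).eval x * derivative x) := by
    rw [split x, eval_add_of_sq_eq_zero _ _ _ (eps_sq _), mulfst, fst_hom, fst_du]
  have e2 : (PQ n (du y (derivative y))).eval (du x 0)
      = du ((PQ n x).eval y) 0 + du 0 ((derivative (PQ n x)).eval y * derivative y) := by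
    rw [PQ_symm, split y, eval_add_of_sq_eq_zero _ _ _ (eps_sq _), mulfst, fst_hom, fst_du, inl_hom]
  rw [e1, e2, du_add, du_add] at h1
  have h2 := congrArg TrivSqZeroExt.snd h1
  simp only [snd_du] at h2
  rw [h2]
  ring

theorem G2_comp (n : ℕ) (x : R[X]) : (G2 n : R[X][X]).eval x = (G2 n : R[X]).comp x := by
  rw [← G2_map (C : R →+* R[X]), eval_map]
  rfl

theorem G2_comp' (n : ℕ) (x : R[X]) : (derivative (G2 n : R[X][X])).eval x
    = (derivative (G2 n : R[X])).comp x := by
  rw [← G2_map (C : R →+* R[X]), derivative_map, eval_map]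
  rfl

end chain

section star
variable {R : Type*} [CommRing R] [IsDomain R] [CharZero R] {k : Type*} [Field k]
  (p : ℕ) [Fact p.Prime] [CharP k p] (π : R →+* k)
  (hker : ∀ x, π x = 0 → (p : R) ∣ x)
  (n : ℕ) (hn : p = 2 * n + 1) (h3 : 3 < p)
include hker hn h3

/-- The Wronskian relation over `R[X]`. -/
theorem wx_poly (x y : R[X]) : ((p : R[X])) ^ 2 ∣
    x * (1 - x ^ 2) * ((G2 n : R[X]).comp x * (derivative (PQ n y)).eval x
      - (derivative (G2 n : R[X])).comp x * (PQ n y).eval x
      - 2 * p * y * ((G2 n : R[X]).comp x * (QQ n y).eval x))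
    + p * (y ^ p * (G2 n : R[X]).comp y) * (x ^ p - x ^ (3 * p)) := by
  have hcp : CharP (FractionRing k[X]) p :=
    charP_of_injective_algebraMap (IsFractionRing.injective k[X] (FractionRing k[X])) p
  have hk1 : ∀ f : R[X], ((algebraMap k[X] (FractionRing k[X])).comp (mapRingHom π)) f = 0 →
      (p : R[X]) ∣ f := by
    intro f hf
    rw [RingHom.comp_apply] at hf
    have h1 : (mapRingHom π) f = 0 :=
      (IsFractionRing.injective k[X] (FractionRing k[X])) (by rw [hf, map_zero])
    have h2 := dvd_of_map_zero p π hker f h1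
    rwa [map_natCast] at h2
  have h := wx p ((algebraMap k[X] (FractionRing k[X])).comp (mapRingHom π)) hk1 n hn h3 y
  obtain ⟨q, hq⟩ := h
  have h1 := congrArg (eval x) hq
  unfold wr at h1
  simp only [eval_add, eval_sub, eval_mul, eval_pow, eval_C, eval_X, eval_one, G2_comp,
    G2_comp'] at h1
  refine ⟨q.eval x, ?_⟩
  have hpn : (p : R[X]) = 2 * n + 1 := by rw [hn]; push_cast; ring
  rw [← h1, ← hpn]

/-- The relation along the curve. -/
theorem star (x y : R[X]) : ((p : R[X])) ^ 2 ∣
    (x * (1 - x ^ 2)) * (y * (1 - y ^ 2)) * ((G2 n : R[X]).comp x * (G2 n : R[X]).comp y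
        * ((1 + y * x) * derivative ((PQ n y).eval x)
          - 2 * (p : R[X]) * derivative (1 + y * x) * (PQ n y).eval x)
      - (1 + y * x) * (PQ n y).eval x * derivative ((G2 n : R[X]).comp x * (G2 n : R[X]).comp y))
    + (p : R[X]) * ((1 + y * x) * (derivative x * (y * (1 - y ^ 2)) * (y ^ p * (G2 n : R[X]).comp y ^ 2)
          * (x ^ p - x ^ (3 * p))
        + derivative y * (x * (1 - x ^ 2)) * (x ^ p * (G2 n : R[X]).comp x ^ 2)
          * (y ^ p - y ^ (3 * p)))) := by
  obtain ⟨A1, h1⟩ := wx_poly p π hker n hn h3 x y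
  obtain ⟨A2, h2⟩ := wx_poly p π hker n hn h3 y x
  have hq1 : (PQ n y).eval x = (1 + y * x) * (QQ n y).eval x := by
    rw [PQ_eq, eval_mul, eval_add, eval_mul, eval_one, eval_C, eval_X]
  have hq2 : (PQ n x).eval y = (1 + y * x) * (QQ n x).eval y := by
    rw [PQ_eq, eval_mul, eval_add, eval_mul, eval_one, eval_C, eval_X, mul_comm x y]
  have hs : (PQ n x).eval y = (PQ n y).eval x := PQ_symm _ _ _
  rw [PQ_chain, derivative_mul (f := (G2 n : R[X]).comp x), derivative_comp, derivative_comp,
    derivative_add, derivative_one, derivative_mul]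
  rw [hs] at h2 hq2
  generalize (PQ n y).eval x = N at *
  generalize (derivative (PQ n y)).eval x = P1 at *
  generalize (derivative (PQ n x)).eval y = P2 at *
  generalize (QQ n y).eval x = Q1 at *
  generalize (QQ n x).eval y = Q2 at *
  generalize (G2 n : R[X]).comp x = G at *
  generalize (G2 n : R[X]).comp y = Γ at *
  generalize (derivative (G2 n : R[X])).comp x = G1 at *
  generalize (derivative (G2 n : R[X])).comp y = Γ1 at *
  refine ⟨derivative x * Γ * (y * (1 - y ^ 2)) * (1 + y * x) * A1
    + derivative y * G * (x * (1 - x ^ 2)) * (1 + y * x) * A2, ?_⟩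
  linear_combination (derivative x * Γ * (y * (1 - y ^ 2)) * (1 + y * x)) * h1
    + (derivative y * G * (x * (1 - x ^ 2)) * (1 + y * x)) * h2
    - (x * (1 - x ^ 2)) * (y * (1 - y ^ 2)) * derivative x * Γ * 2 * p * y * G * hq1
    - (x * (1 - x ^ 2)) * (y * (1 - y ^ 2)) * derivative y * Γ * 2 * p * x * G * hq2

end star

end Pool.Agent.H99.Sun
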