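import Mathlib
import Pool.Agent.H99.Sun.Star

/-! Second order expansion of the kernel sum along a curve. -/

namespace Pool.Agent.H99.Sun

open Polynomial Finset Pool.Agent.H37.Sun

section tri
variable {A : Type*} [CommRing A]

theorem T_mul_gen (k : ℕ) (r b c : A) : T k (r * b) (r ^ 2 * c) = r ^ k * T k b c := by
  -- generic version over `A[X]`
  have h1 : ((X ^ 2 + C (X * C b : A[X]) * X + C (X ^ 2 * C c : A[X]) : A[X][X]) ^ k).comp (C X * X)
      = C (X ^ (2 * k)) * (X ^ 2 + C (C b) * X + C (C c)) ^ k := by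
    rw [pow_comp]
    simp only [add_comp, mul_comp, pow_comp, X_comp, C_comp]
    rw [pow_mul, C_pow, ← mul_pow]
    congr 1
    simp only [C_mul, C_pow]
    ring
  have h2 := congrArg (fun q : A[X][X] => q.coeff k) h1
  simp only [comp_C_mul_X_coeff, coeff_C_mul] at h2
  have h3 : T k (X * C b : A[X]) (X ^ 2 * C c) = X ^ k * T k (C b) (C c) := by
    have h4 : X ^ k * T k (X * C b : A[X]) (X ^ 2 * C c) = X ^ k * (X ^ k * T k (C b) (C c)) := by
      unfold T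
      rw [mul_comm, h2]
      ring
    have h5 : X ^ k * (T k (X * C b : A[X]) (X ^ 2 * C c) - X ^ k * T k (C b) (C c)) = 0 := by
      rw [mul_sub, h4, sub_self]
    have h6 : T k (X * C b : A[X]) (X ^ 2 * C c) - X ^ k * T k (C b) (C c) = 0 := by
      ext j
      have := congrArg (fun f : A[X] => f.coeff (j + k)) h5
      simpa only [coeff_X_pow_mul, coeff_zero] using this
    exact sub_eq_zero.mp h6
  have h7 := congrArg (evalRingHom r) h3
  simp only [map_T, map_mul, map_pow, coe_evalRingHom, eval_X, eval_C] at h7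
  exact h7

theorem T_congr (k : ℕ) (d b c b' c' : A) (hb : d ∣ b - b') (hc : d ∣ c - c') :
    d ∣ T k b c - T k b' c' := by
  have e : ∀ x y : A, Ideal.Quotient.mk (Ideal.span {d}) x = Ideal.Quotient.mk _ y ↔ d ∣ x - y := by
    intro x y
    rw [Ideal.Quotient.eq, Ideal.mem_span_singleton]
  rw [← e, map_T, map_T, (e b b').mpr hb, (e c c').mpr hc]

theorem sq_pow_congr (c : A) (j : ℕ) :
    (X ^ 3 : A[X]) ∣ (1 + C c * X ^ 2) ^ j - (1 + C ((j : A) * c) * X ^ 2) := by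
  induction j with
  | zero => simp
  | succ j ih =>
    obtain ⟨q, hq⟩ := ih
    refine ⟨(1 + C c * X ^ 2) * q + C ((j : A) * c ^ 2) * X, ?_⟩
    rw [pow_succ]
    push_cast
    simp only [map_mul, map_add, map_one, map_pow] at hq ⊢
    linear_combination (1 + C c * X ^ 2) * hq

theorem coeff_one_pow (f : A[X]) (j : ℕ) : (f ^ j).coeff 1 = j * f.coeff 0 ^ (j - 1) * f.coeff 1 := by
  have h1 : (derivative (f ^ j)).coeff 0 = (f ^ j).coeff 1 := by
    rw [coeff_derivative]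
    simp
  have h2 : (derivative f).coeff 0 = f.coeff 1 := by
    rw [coeff_derivative]
    simp
  rw [← h1, derivative_pow, mul_coeff_zero, mul_coeff_zero, h2, coeff_C_zero,
    coeff_zero_eq_eval_zero (f ^ (j - 1)), eval_pow, ← coeff_zero_eq_eval_zero]

end tri

section exp
variable {R : Type*} [CommRing R]

/-- The two sums at the point. -/
noncomputable def F0 (n : ℕ) (ρ : R) : R := ∑ m ∈ range (n + 1), (v n m : R) * (ρ ^ (2 * m) * T (2 * m) 6 1)

noncomputable def F1 (n : ℕ) (ρ : R) : R :=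
  ∑ m ∈ range (n + 1), (v n m : R) * (m * (ρ ^ (2 * m) * T (2 * m) 6 1))

theorem PQ_exp (n : ℕ) (x y : R[X]) (c ρ : R)
    (hB : (X ^ 3 : R[X]) ∣ (x + y) * (1 - y * x) - (1 + y * x) ^ 2 * (C (6 * ρ) * (1 + C c * X ^ 2)))
    (hC : (X ^ 3 : R[X]) ∣ y * x * (1 - x ^ 2) * (1 - y ^ 2)
      - (1 + y * x) ^ 4 * (C (ρ ^ 2) * (1 + C c * X ^ 2) ^ 2)) :
    (X ^ 3 : R[X]) ∣ (PQ n y).eval x
      - (1 + y * x) ^ (4 * n + 1) * (C (F0 n ρ) + C (2 * c * F1 n ρ) * X ^ 2) := by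
  have e0 : (PQ n y).eval x = ∑ m ∈ range (n + 1), (v n m : R[X]) *
      ((1 + y * x) ^ (4 * (n - m) + 1) * T (2 * m) ((x + y) * (1 - y * x))
        (y * x * (1 - x ^ 2) * (1 - y ^ 2))) := by
    unfold PQ
    rw [PP_eval]
    refine sum_congr rfl fun m hm => ?_
    have hm' : m ≤ n := by have := mem_range.mp hm; omega
    rw [show (1 - -1 * y * x : R[X]) = 1 + y * x by ring,
      show 2 * (2 * n + 1) - 2 * (2 * m) - 1 = 4 * (n - m) + 1 by omega,
      show ((x + y) * (1 + -1 * y * x) - 2 * (0 * y) * x : R[X]) = (x + y) * (1 - y * x) by ring,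
      show (y * x * (1 - 0 * x + -1 * x ^ 2) * (1 - 0 * y + -1 * y ^ 2) : R[X])
        = y * x * (1 - x ^ 2) * (1 - y ^ 2) by ring]
  have e1 : (1 + y * x) ^ (4 * n + 1) * (C (F0 n ρ) + C (2 * c * F1 n ρ) * X ^ 2)
      = ∑ m ∈ range (n + 1), (v n m : R[X]) * ((1 + y * x) ^ (4 * (n - m) + 1)
        * ((1 + y * x) ^ (4 * m) * (C (ρ ^ (2 * m) * T (2 * m) 6 1)
          * (1 + C (((2 * m : ℕ) : R) * c) * X ^ 2)))) := by
    unfold F0 F1
    simp only [map_sum, mul_add, sum_mul, mul_sum, map_mul, map_natCast, map_ofNat]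
    rw [← sum_add_distrib]
    refine sum_congr rfl fun m hm => ?_
    have hm' : m ≤ n := by have := mem_range.mp hm; omega
    have : (1 + y * x : R[X]) ^ (4 * n + 1) = (1 + y * x) ^ (4 * (n - m) + 1) * (1 + y * x) ^ (4 * m) := by
      rw [← pow_add]
      congr 1
      omega
    rw [this]
    push_cast
    ring
  rw [e0, e1, ← sum_sub_distrib]
  refine dvd_sum fun m _ => ?_
  rw [← mul_sub, ← mul_sub]
  refine Dvd.dvd.mul_left (Dvd.dvd.mul_left ?_ _) _
  -- the trinomial coefficient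
  set r : R[X] := (1 + y * x) ^ 2 * (C ρ * (1 + C c * X ^ 2)) with hr
  have h1 : (X ^ 3 : R[X]) ∣ T (2 * m) ((x + y) * (1 - y * x)) (y * x * (1 - x ^ 2) * (1 - y ^ 2))
      - T (2 * m) (r * C 6) (r ^ 2 * C 1) := by
    apply T_congr
    · rw [hr, show ((1 + y * x) ^ 2 * (C ρ * (1 + C c * X ^ 2)) * C 6 : R[X])
        = (1 + y * x) ^ 2 * (C (6 * ρ) * (1 + C c * X ^ 2)) by rw [C_mul]; ring]
      exact hB
    · rw [hr, show (((1 + y * x) ^ 2 * (C ρ * (1 + C c * X ^ 2))) ^ 2 * C 1 : R[X])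
        = (1 + y * x) ^ 4 * (C (ρ ^ 2) * (1 + C c * X ^ 2) ^ 2) by
          rw [C_1, C_pow]; ring]
      exact hC
  have h2 : T (2 * m) (r * C 6) (r ^ 2 * C 1)
      = (1 + y * x) ^ (4 * m) * (C (ρ ^ (2 * m) * T (2 * m) 6 1) * (1 + C c * X ^ 2) ^ (2 * m)) := by
    rw [T_mul_gen, ← map_T, hr, mul_pow, mul_pow, ← pow_mul, ← C_pow, map_mul (C : R →+* R[X])]
    rw [show 2 * (2 * m) = 4 * m by ring]
    ring
  have h3 := sq_pow_congr c (2 * m)
  have h4 : T (2 * m) ((x + y) * (1 - y * x)) (y * x * (1 - x ^ 2) * (1 - y ^ 2))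
      - (1 + y * x) ^ (4 * m) * (C (ρ ^ (2 * m) * T (2 * m) 6 1)
        * (1 + C (((2 * m : ℕ) : R) * c) * X ^ 2))
      = (T (2 * m) ((x + y) * (1 - y * x)) (y * x * (1 - x ^ 2) * (1 - y ^ 2))
        - T (2 * m) (r * C 6) (r ^ 2 * C 1))
      + (1 + y * x) ^ (4 * m) * C (ρ ^ (2 * m) * T (2 * m) 6 1)
        * ((1 + C c * X ^ 2) ^ (2 * m) - (1 + C (((2 * m : ℕ) : R) * c) * X ^ 2)) := by
    rw [h2]
    ring
  rw [h4]
  exact dvd_add h1 (h3.mul_left _)

end exp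

section coef
variable {R : Type*} [CommRing R] [IsDomain R] [CharZero R] {k : Type*} [Field k]
  (p : ℕ) [Fact p.Prime] [CharP k p] (π : R →+* k)
  (hker : ∀ x, π x = 0 → (p : R) ∣ x)
  (n : ℕ) (hn : p = 2 * n + 1) (h3 : 3 < p)
include hker hn h3

/-- The two coefficient relations. -/
theorem coef01 (x y : R[X]) (c ρ : R)
    (hB : (X ^ 3 : R[X]) ∣ (x + y) * (1 - y * x) - (1 + y * x) ^ 2 * (C (6 * ρ) * (1 + C c * X ^ 2)))
    (hC : (X ^ 3 : R[X]) ∣ y * x * (1 - x ^ 2) * (1 - y ^ 2)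
      - (1 + y * x) ^ 4 * (C (ρ ^ 2) * (1 + C c * X ^ 2) ^ 2))
    (W Ξ U Z : R[X]) (hW : W = 1 + y * x) (hΞ : Ξ = (x * (1 - x ^ 2)) * (y * (1 - y ^ 2)))
    (hU : U = W * ((G2 n : R[X]).comp x * (G2 n : R[X]).comp y))
    (hZ : Z = derivative x * (y * (1 - y ^ 2)) * (y ^ p * (G2 n : R[X]).comp y ^ 2)
          * (x ^ p - x ^ (3 * p))
        + derivative y * (x * (1 - x ^ 2)) * (x ^ p * (G2 n : R[X]).comp x ^ 2)
          * (y ^ p - y ^ (3 * p))) :
    ((p : R) ^ 2 ∣ W.coeff 0 ^ (4 * n + 1) * -(Ξ.coeff 0 * (F0 n ρ * U.coeff 1))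
        + p * (W.coeff 0 * Z.coeff 0)) ∧
    ((p : R) ^ 2 ∣ W.coeff 0 ^ (4 * n + 1) * (Ξ.coeff 0 * (4 * c * (U.coeff 0 * F1 n ρ)
          - 2 * (F0 n ρ * U.coeff 2)) - Ξ.coeff 1 * (F0 n ρ * U.coeff 1))
        + (4 * n + 1) * W.coeff 0 ^ (4 * n) * W.coeff 1 * -(Ξ.coeff 0 * (F0 n ρ * U.coeff 1))
        + p * (W.coeff 0 * Z.coeff 1 + W.coeff 1 * Z.coeff 0)) := by
  obtain ⟨S, hS⟩ := star p π hker n hn h3 x y
  obtain ⟨E, hE⟩ := PQ_exp n x y c ρ hB hC
  rw [← hW] at hE hS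
  rw [← hΞ, ← hZ] at hS
  obtain ⟨Fh, hFh⟩ : ∃ Fh : R[X], Fh = C (F0 n ρ) + C (2 * c * F1 n ρ) * X ^ 2 := ⟨_, rfl⟩
  rw [← hFh] at hE
  have hN : (PQ n y).eval x = W ^ (4 * n + 1) * Fh + X ^ 3 * E := by linear_combination hE
  obtain ⟨GG, hGG⟩ : ∃ GG, GG = (G2 n : R[X]).comp x * (G2 n : R[X]).comp y := ⟨_, rfl⟩
  rw [← hGG] at hU hS
  rw [hN] at hS
  have hpn : (p : R[X]) = 2 * n + 1 := by rw [hn]; push_cast; ring
  have hdW : derivative (W ^ (4 * n + 1)) = (4 * (n : R[X]) + 1) * W ^ (4 * n) * derivative W := by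
    rw [derivative_pow, Nat.add_sub_cancel]
    push_cast
    simp only [map_add, map_mul, map_natCast, map_one, map_ofNat]
  have hdX : derivative (X ^ 3 * E) = X ^ 2 * (3 * E + X * derivative E) := by
    rw [derivative_mul, derivative_X_pow]
    push_cast
    simp only [map_ofNat]
    ring
  have main : W ^ (4 * n + 1) * (Ξ * (U * derivative Fh - Fh * derivative U)) + (p : R[X]) * (W * Z)
      = (p : R[X]) ^ 2 * S - X ^ 2 * (Ξ * (GG * (W * (3 * E + X * derivative E)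
        - 2 * (p : R[X]) * derivative W * (X * E)) - W * (X * E) * derivative GG)) := by
    rw [← hS, derivative_add, derivative_mul, hdX, hdW, hU, derivative_mul]
    rw [hpn]
    ring
  have cX : ∀ (f : R[X]), (X ^ 2 * f).coeff 0 = 0 ∧ (X ^ 2 * f).coeff 1 = 0 := by
    intro f
    rw [coeff_X_pow_mul', coeff_X_pow_mul', if_neg (by norm_num), if_neg (by norm_num)]
    exact ⟨rfl, rfl⟩
  have cp : ∀ (f : R[X]) (i : ℕ), ((p : R[X]) ^ 2 * f).coeff i = (p : R) ^ 2 * f.coeff i := by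
    intro f i
    rw [show ((p : R[X]) ^ 2 * f) = C ((p : R) ^ 2) * f by rw [map_pow, map_natCast], coeff_C_mul]
  have cp1 : ∀ (f : R[X]) (i : ℕ), ((p : R[X]) * f).coeff i = (p : R) * f.coeff i := by
    intro f i
    rw [show ((p : R[X]) * f) = C (p : R) * f by rw [map_natCast], coeff_C_mul]
  have f0 : Fh.coeff 0 = F0 n ρ := by
    rw [hFh, coeff_add, coeff_C_mul, coeff_X_pow, coeff_C_zero]
    simp
  have f1 : Fh.coeff 1 = 0 := by
    rw [hFh, coeff_add, coeff_C_mul, coeff_X_pow, coeff_C]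
    simp
  have f2 : Fh.coeff 2 = 2 * c * F1 n ρ := by
    rw [hFh, coeff_add, coeff_C_mul, coeff_X_pow, coeff_C]
    simp
  have d0 : ∀ f : R[X], (derivative f).coeff 0 = f.coeff 1 := by
    intro f
    rw [coeff_derivative]
    simp
  have d1 : ∀ f : R[X], (derivative f).coeff 1 = 2 * f.coeff 2 := by
    intro f
    rw [coeff_derivative]
    push_cast
    ring
  have w0 : (W ^ (4 * n + 1)).coeff 0 = W.coeff 0 ^ (4 * n + 1) := by
    rw [coeff_zero_eq_eval_zero, eval_pow, ← coeff_zero_eq_eval_zero]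
  have w1 : (W ^ (4 * n + 1)).coeff 1 = (4 * n + 1) * W.coeff 0 ^ (4 * n) * W.coeff 1 := by
    rw [coeff_one_pow, Nat.add_sub_cancel]
    push_cast
    ring
  constructor
  · have h := congrArg (fun f : R[X] => f.coeff 0) main
    simp only [coeff_add, coeff_sub, (cX _).1, cp, cp1, mul_coeff_zero, d0, f0, f1, w0, sub_zero] at h
    exact ⟨S.coeff 0, by linear_combination h⟩
  · have h := congrArg (fun f : R[X] => f.coeff 1) main
    simp only [coeff_add, coeff_sub, (cX _).2, cp, cp1, mul_coeff_zero, mul_coeff_one, d0, d1, f0, f1,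
      f2, w0, w1, sub_zero] at h
    exact ⟨S.coeff 1, by linear_combination h⟩

end coef

end Pool.Agent.H99.Sun
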