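import Mathlib
import Pool.Agent.H99.Sun.Exp

/-! The second order formula for the weighted sum. -/

namespace Pool.Agent.H99.Sun

open Polynomial Finset Pool.Agent.H37.Sun

section comp
variable {R : Type*} [CommRing R]

theorem coeff_one_eq (f : R[X]) : f.coeff 1 = (derivative f).coeff 0 := by
  rw [coeff_derivative]
  simp

theorem two_coeff_two (f : R[X]) : 2 * f.coeff 2 = (derivative f).coeff 1 := by
  rw [coeff_derivative]
  push_cast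
  ring

theorem comp_zero (P f : R[X]) : (P.comp f).coeff 0 = P.eval (f.coeff 0) := by
  rw [coeff_zero_eq_eval_zero, eval_comp, ← coeff_zero_eq_eval_zero]

theorem comp_one (P f : R[X]) :
    (P.comp f).coeff 1 = (derivative P).eval (f.coeff 0) * f.coeff 1 := by
  rw [coeff_one_eq, derivative_comp, mul_coeff_zero, comp_zero, ← coeff_one_eq, mul_comm]

theorem comp_two (P f : R[X]) :
    2 * (P.comp f).coeff 2 = (derivative (derivative P)).eval (f.coeff 0) * f.coeff 1 ^ 2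
      + 2 * f.coeff 2 * (derivative P).eval (f.coeff 0) := by
  rw [two_coeff_two, derivative_comp, mul_coeff_one, comp_zero, comp_one, ← coeff_one_eq,
    ← two_coeff_two]
  ring

theorem mul_coeff_two (f g : R[X]) :
    (f * g).coeff 2 = f.coeff 0 * g.coeff 2 + f.coeff 1 * g.coeff 1 + f.coeff 2 * g.coeff 0 := by
  rw [coeff_mul, Finset.Nat.sum_antidiagonal_eq_sum_range_succ_mk, sum_range_succ, sum_range_succ,
    sum_range_succ]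
  simp

/-- The quadratic curve. -/
noncomputable def qc (x0 x1 x2 : R) : R[X] := C x0 + C x1 * X + C x2 * X ^ 2

theorem qc_0 (x0 x1 x2 : R) : (qc x0 x1 x2).coeff 0 = x0 := by
  unfold qc
  rw [coeff_add, coeff_add, coeff_C_mul, coeff_C_mul, coeff_X_pow, coeff_X, coeff_C]
  simp

theorem qc_1 (x0 x1 x2 : R) : (qc x0 x1 x2).coeff 1 = x1 := by
  unfold qc
  rw [coeff_add, coeff_add, coeff_C_mul, coeff_C_mul, coeff_X_pow, coeff_X, coeff_C]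
  simp

theorem qc_2 (x0 x1 x2 : R) : (qc x0 x1 x2).coeff 2 = x2 := by
  unfold qc
  rw [coeff_add, coeff_add, coeff_C_mul, coeff_C_mul, coeff_X_pow, coeff_X, coeff_C]
  simp

end comp

section second
variable {R : Type*} [CommRing R] [IsDomain R] [CharZero R] {k : Type*} [Field k]
  (p : ℕ) [Fact p.Prime] [CharP k p] (π : R →+* k)
  (hker : ∀ x, π x = 0 → (p : R) ∣ x)
  (n : ℕ) (hn : p = 2 * n + 1) (h3 : 3 < p)

include hn in
omit [Fact p.Prime] in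
theorem G2_ode (x : R) : (p : R) ^ 2 ∣ x * (1 - x ^ 2) * (derivative (derivative (G2 n : R[X]))).eval x
    + (1 - 3 * x ^ 2) * (derivative (G2 n : R[X])).eval x - x * (G2 n : R[X]).eval x := by
  obtain ⟨Φ0, Ψ0, h01, h02⟩ := PQ_fac p n hn (0 : R)
  rw [PQ_zero, mul_zero, map_zero, zero_mul, sub_zero, one_pow, one_mul] at h01
  rw [← h01] at h02
  have hd : C ((p : R) ^ 2) ∣ X * (1 - X ^ 2) * derivative (derivative (G2 n : R[X]))
      + (1 - 3 * X ^ 2) * derivative (G2 n : R[X]) - X * G2 n := by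
    rw [C_dvd_iff_dvd_coeff]
    intro i
    have hcoe : ((X * (1 - X ^ 2) * derivative (derivative (G2 n : R[X]))
      + (1 - 3 * X ^ 2) * derivative (G2 n : R[X]) - X * G2 n : R[X]) : PowerSeries R)
        = PowerSeries.C ((p : R) ^ 2) * Ψ0 := by
      rw [← h02]
      unfold DD
      rw [PowerSeries.derivative_coe, PowerSeries.derivative_coe]
      have h3 : ((3 : R[X]) : PowerSeries R) = 3 := map_ofNat (Polynomial.coeToPowerSeries.ringHom) 3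
      simp only [Polynomial.coe_sub, Polynomial.coe_add, Polynomial.coe_mul, Polynomial.coe_pow,
        Polynomial.coe_X, Polynomial.coe_one, h3, map_zero, map_neg, map_one]
      ring
    have h4 := congrArg (PowerSeries.coeff i) hcoe
    rw [Polynomial.coeff_coe, PowerSeries.coeff_C_mul] at h4
    rw [h4]
    exact dvd_mul_right _ _
  obtain ⟨q, hq⟩ := hd
  refine ⟨q.eval x, ?_⟩
  have := congrArg (eval x) hq
  simpa only [eval_sub, eval_add, eval_mul, eval_pow, eval_X, eval_one, eval_C, eval_ofNat] using this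

omit [Fact p.Prime] [CharP k p] [Field k] [IsDomain R] [CharZero R] in
/-- The formal elimination. -/
theorem elim_alg (κ W0 W1 w w' Ξ0 Ξ1 c c0 f0 f1 U0 U1 U2 Z0 Z1 Dd q0 q1 qU : R)
    (hn : p = 2 * n + 1) (hU0 : U0 = W0 * κ) (hw : w = w' * W0)
    (e0 : w * -(Ξ0 * (f0 * U1)) + p * (W0 * Z0) = (p : R) ^ 2 * q0)
    (e1 : w * (Ξ0 * (4 * c * (U0 * f1) - 2 * (f0 * U2)) - Ξ1 * (f0 * U1))
        + (4 * n + 1) * w' * W1 * -(Ξ0 * (f0 * U1)) + p * (W0 * Z1 + W1 * Z0) = (p : R) ^ 2 * q1)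
    (eU : 2 * κ * Ξ0 * (c * c0 * U0 + 8 * U2) = 8 * p * κ * Dd + (p : R) ^ 2 * qU) :
    (p : R) ^ 2 ∣ (κ * W0 * w * Ξ0 ^ 2 * c * (c0 * f0 + 16 * f1)
      - 4 * p * (w * Ξ0 * f0 * Dd + W0 * Ξ1 * Z0 - Ξ0 * (W0 * Z1 + 2 * W1 * Z0))) * (2 * κ * W0) := by
  have hpn : (p : R) = 2 * n + 1 := by rw [hn]; push_cast; ring
  refine ⟨W0 * w * Ξ0 * f0 * qU + 8 * κ * W0 * Ξ0 * q1
    - 8 * κ * (Ξ1 * W0 + (4 * n + 1) * W1 * Ξ0) * q0 + 16 * κ * W1 * Ξ0 * W0 * Z0, ?_⟩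
  subst hU0
  subst hw
  linear_combination (W0 * (w' * W0) * Ξ0 * f0) * eU + (8 * κ * W0 * Ξ0) * e1
    - (8 * κ * (Ξ1 * W0 + (4 * n + 1) * W1 * Ξ0)) * e0
    + (-16 * κ * W1 * Ξ0 * W0 * Z0 * p) * hpn

include hker hn h3

theorem second (x0 x1 x2 y0 y1 y2 c c0 ρ lx ly bx by' : R) (μ z0 z1 : k)
    (hB : (X ^ 3 : R[X]) ∣ (qc x0 x1 x2 + qc y0 y1 y2) * (1 - qc y0 y1 y2 * qc x0 x1 x2)
      - (1 + qc y0 y1 y2 * qc x0 x1 x2) ^ 2 * (C (6 * ρ) * (1 + C c * X ^ 2)))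
    (hC : (X ^ 3 : R[X]) ∣ qc y0 y1 y2 * qc x0 x1 x2 * (1 - qc x0 x1 x2 ^ 2) * (1 - qc y0 y1 y2 ^ 2)
      - (1 + qc y0 y1 y2 * qc x0 x1 x2) ^ 4 * (C (ρ ^ 2) * (1 + C c * X ^ 2) ^ 2))
    (hx : (derivative (G2 n : R[X])).eval x0 * (G2 n : R[X]).eval y0
      = lx * ((G2 n : R[X]).eval x0 * (G2 n : R[X]).eval y0) + p * bx)
    (hy : (G2 n : R[X]).eval x0 * (derivative (G2 n : R[X])).eval y0
      = ly * ((G2 n : R[X]).eval x0 * (G2 n : R[X]).eval y0) + p * by')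
    (hμ : π ((G2 n : R[X]).eval x0) = μ * π ((G2 n : R[X]).eval y0))
    (W0 W1 W2 ξ0 ξ1 ψ0 ψ1 Dd : R)
    (hW0 : W0 = 1 + y0 * x0) (hW1 : W1 = y0 * x1 + y1 * x0)
    (hW2 : W2 = y0 * x2 + y1 * x1 + y2 * x0) (hξ0 : ξ0 = x0 * (1 - x0 ^ 2))
    (hξ1 : ξ1 = x1 * (1 - 3 * x0 ^ 2)) (hψ0 : ψ0 = y0 * (1 - y0 ^ 2))
    (hψ1 : ψ1 = y1 * (1 - 3 * y0 ^ 2))
    (hA : 4 * (2 * (ξ0 * ψ0) * (W2 + W1 * (x1 * lx + y1 * ly) + W0 * (x2 * lx + y2 * ly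
        + x1 * y1 * (lx * ly))) + W0 * (ψ0 * x1 ^ 2 * (x0 - (1 - 3 * x0 ^ 2) * lx)
        + ξ0 * y1 ^ 2 * (y0 - (1 - 3 * y0 ^ 2) * ly))) = -(c * c0 * W0 * (ξ0 * ψ0)))
    (hD : Dd = (2 * (ξ0 * ψ0) * (W1 * x1 + W0 * (x2 + x1 * y1 * ly))
          - W0 * ψ0 * x1 ^ 2 * (1 - 3 * x0 ^ 2)) * bx
        + (2 * (ξ0 * ψ0) * (W1 * y1 + W0 * (y2 + x1 * y1 * lx))
          - W0 * ξ0 * y1 ^ 2 * (1 - 3 * y0 ^ 2)) * by')
    (ng : π ((G2 n : R[X]).eval x0) ≠ 0) (nγ : π ((G2 n : R[X]).eval y0) ≠ 0)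
    (nW : π W0 ≠ 0) (nξ : π ξ0 ≠ 0) (nψ : π ψ0 ≠ 0) (nc : π c ≠ 0)
    (hz0 : z0 = (π y0) ^ p * ((π x0) ^ p - (π x0) ^ (3 * p)) * (π x1 * π ψ0)
      + (π x0) ^ p * ((π y0) ^ p - (π y0) ^ (3 * p)) * (π y1 * π ξ0) * μ ^ 2)
    (hz1 : z1 = (π y0) ^ p * ((π x0) ^ p - (π x0) ^ (3 * p)) * (2 * π x2 * π ψ0 + π x1 * π ψ1
        + 2 * π x1 * π y1 * π ψ0 * π ly)
      + (π x0) ^ p * ((π y0) ^ p - (π y0) ^ (3 * p)) * (2 * π y2 * π ξ0 + π y1 * π ξ1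
        + 2 * π x1 * π y1 * π ξ0 * π lx) * μ ^ 2) :
    ∃ ω : R, c0 * F0 n ρ + 16 * F1 n ρ = p * ω ∧
      μ * π W0 ^ (2 * p) * (π ξ0 * π ψ0) ^ 2 * π c * π ω
        = 4 * ((π ξ0 * π ψ0) * μ * π W0 ^ p * π Dd + π W0 * (π ξ0 * π ψ1 + π ξ1 * π ψ0) * z0
          - (π ξ0 * π ψ0) * (π W0 * z1 + 2 * π W1 * z0)) := by
  have hpk : (p : k) = 0 := CharP.cast_eq_zero k p
  have hpR : (p : R) ≠ 0 := by exact_mod_cast (Fact.out : p.Prime).ne_zero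
  have n2 : (2 : k) ≠ 0 := by exact_mod_cast cast_ne (k := k) p 2 (by norm_num) (by omega)
  -- the polynomials
  obtain ⟨x, hxdef⟩ : ∃ x, x = qc x0 x1 x2 := ⟨_, rfl⟩
  obtain ⟨y, hydef⟩ : ∃ y, y = qc y0 y1 y2 := ⟨_, rfl⟩
  rw [← hxdef, ← hydef] at hB hC
  have hx0 : x.coeff 0 = x0 := by rw [hxdef, qc_0]
  have hx1 : x.coeff 1 = x1 := by rw [hxdef, qc_1]
  have hx2 : x.coeff 2 = x2 := by rw [hxdef, qc_2]
  have hy0 : y.coeff 0 = y0 := by rw [hydef, qc_0]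
  have hy1 : y.coeff 1 = y1 := by rw [hydef, qc_1]
  have hy2 : y.coeff 2 = y2 := by rw [hydef, qc_2]
  obtain ⟨W, hW⟩ : ∃ W, W = 1 + y * x := ⟨_, rfl⟩
  obtain ⟨Ξ, hΞ⟩ : ∃ Ξ, Ξ = (x * (1 - x ^ 2)) * (y * (1 - y ^ 2)) := ⟨_, rfl⟩
  obtain ⟨U, hU⟩ : ∃ U, U = W * ((G2 n : R[X]).comp x * (G2 n : R[X]).comp y) := ⟨_, rfl⟩
  obtain ⟨Z, hZ⟩ : ∃ Z, Z = derivative x * (y * (1 - y ^ 2)) * (y ^ p * (G2 n : R[X]).comp y ^ 2)
          * (x ^ p - x ^ (3 * p))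
        + derivative y * (x * (1 - x ^ 2)) * (x ^ p * (G2 n : R[X]).comp x ^ 2)
          * (y ^ p - y ^ (3 * p)) := ⟨_, rfl⟩
  obtain ⟨⟨q0, hq0⟩, ⟨q1, hq1⟩⟩ := coef01 p π hker n hn h3 x y c ρ hB hC W Ξ U Z hW hΞ hU hZ
  have hexp := PQ_exp n x y c ρ hB hC
  rw [← hW] at hexp
  -- coefficients of W
  have cW0 : W.coeff 0 = W0 := by
    rw [hW, coeff_add, coeff_one_zero, mul_coeff_zero, hx0, hy0, hW0]
  have cW1 : W.coeff 1 = W1 := by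
    rw [hW, coeff_add, mul_coeff_one, hx0, hy0, hx1, hy1, hW1, coeff_one]
    simp
  have cW2 : W.coeff 2 = W2 := by
    rw [hW, coeff_add, mul_coeff_two, hx0, hy0, hx1, hy1, hx2, hy2, hW2, coeff_one]
    simp
  have cub : ∀ f : R[X], (f * (1 - f ^ 2)).coeff 0 = f.coeff 0 * (1 - f.coeff 0 ^ 2) ∧
      (f * (1 - f ^ 2)).coeff 1 = f.coeff 1 * (1 - 3 * f.coeff 0 ^ 2) := by
    intro f
    have c1 : (1 - f ^ 2).coeff 0 = 1 - f.coeff 0 ^ 2 := by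
      rw [coeff_sub, coeff_one_zero, pow_two, mul_coeff_zero]
      ring
    have c2 : (1 - f ^ 2).coeff 1 = -(2 * f.coeff 0 * f.coeff 1) := by
      rw [coeff_sub, coeff_one, pow_two, mul_coeff_one]
      simp
      ring
    constructor
    · rw [mul_coeff_zero, c1]
    · rw [mul_coeff_one, c1, c2]
      ring
  have cΞ0 : Ξ.coeff 0 = ξ0 * ψ0 := by
    rw [hΞ, mul_coeff_zero, (cub x).1, (cub y).1, hx0, hy0, hξ0, hψ0]
  have cΞ1 : Ξ.coeff 1 = ξ0 * ψ1 + ξ1 * ψ0 := by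
    rw [hΞ, mul_coeff_one, (cub x).1, (cub y).1, (cub x).2, (cub y).2, hx0, hy0, hx1, hy1, hξ0,
      hψ0, hξ1, hψ1]
  -- the values
  obtain ⟨g0, hg0⟩ : ∃ g0, g0 = (G2 n : R[X]).eval x0 := ⟨_, rfl⟩
  obtain ⟨γ0, hγ0⟩ : ∃ γ0, γ0 = (G2 n : R[X]).eval y0 := ⟨_, rfl⟩
  obtain ⟨g1, hg1⟩ : ∃ g1, g1 = (derivative (G2 n : R[X])).eval x0 := ⟨_, rfl⟩
  obtain ⟨γ1, hγ1⟩ : ∃ γ1, γ1 = (derivative (G2 n : R[X])).eval y0 := ⟨_, rfl⟩
  obtain ⟨g2, hg2⟩ : ∃ g2, g2 = (derivative (derivative (G2 n : R[X]))).eval x0 := ⟨_, rfl⟩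
  obtain ⟨γ2, hγ2⟩ : ∃ γ2, γ2 = (derivative (derivative (G2 n : R[X]))).eval y0 := ⟨_, rfl⟩
  obtain ⟨a1, ha1⟩ := G2_ode p n hn x0
  obtain ⟨a2, ha2⟩ := G2_ode p n hn y0
  rw [← hg0, ← hg1, ← hg2, ← hξ0] at ha1
  rw [← hγ0, ← hγ1, ← hγ2, ← hψ0] at ha2
  rw [← hg0, ← hγ0, ← hg1] at hx
  rw [← hg0, ← hγ0, ← hγ1] at hy
  rw [← hg0, ← hγ0] at hμ
  rw [← hg0] at ng
  rw [← hγ0] at nγ
  have cG0 : ((G2 n : R[X]).comp x).coeff 0 = g0 := by rw [comp_zero, hx0, hg0]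
  have cΓ0 : ((G2 n : R[X]).comp y).coeff 0 = γ0 := by rw [comp_zero, hy0, hγ0]
  have cG1 : ((G2 n : R[X]).comp x).coeff 1 = g1 * x1 := by rw [comp_one, hx0, hx1, hg1]
  have cΓ1 : ((G2 n : R[X]).comp y).coeff 1 = γ1 * y1 := by rw [comp_one, hy0, hy1, hγ1]
  have cG2 : 2 * ((G2 n : R[X]).comp x).coeff 2 = g2 * x1 ^ 2 + 2 * x2 * g1 := by
    rw [comp_two, hx0, hx1, hx2, hg1, hg2]
  have cΓ2 : 2 * ((G2 n : R[X]).comp y).coeff 2 = γ2 * y1 ^ 2 + 2 * y2 * γ1 := by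
    rw [comp_two, hy0, hy1, hy2, hγ1, hγ2]
  have cU0 : U.coeff 0 = W0 * (g0 * γ0) := by
    rw [hU, mul_coeff_zero, mul_coeff_zero, cG0, cΓ0, cW0]
  have cU2 : 2 * U.coeff 2 = W0 * (2 * g0 * ((G2 n : R[X]).comp y).coeff 2 + 2 * (g1 * x1) * (γ1 * y1)
      + 2 * ((G2 n : R[X]).comp x).coeff 2 * γ0) + 2 * W1 * (g0 * (γ1 * y1) + g1 * x1 * γ0)
      + 2 * W2 * (g0 * γ0) := by
    rw [hU, mul_coeff_two, mul_coeff_two, mul_coeff_one, mul_coeff_zero, cG0, cΓ0, cG1, cΓ1, cW0,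
      cW1, cW2]
    ring
  rw [cW0, cW1, cΞ0, cΞ1] at hq1
  rw [cW0, cΞ0] at hq0
  -- the second order relation
  have eU : ∃ qU : R, 2 * (g0 * γ0) * (ξ0 * ψ0) * (c * c0 * U.coeff 0 + 8 * U.coeff 2)
      = 8 * p * (g0 * γ0) * Dd + (p : R) ^ 2 * qU := by
    refine ⟨8 * W0 * (g0 * γ0) * (ψ0 * x1 ^ 2 * γ0 * a1 + ξ0 * y1 ^ 2 * g0 * a2)
      + 16 * (ξ0 * ψ0) * W0 * x1 * y1 * bx * by', ?_⟩
    linear_combination (2 * (g0 * γ0) * (ξ0 * ψ0) * c * c0) * cU0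
      + (8 * (g0 * γ0) * (ξ0 * ψ0)) * cU2 + (8 * (g0 * γ0) * (ξ0 * ψ0) * W0 * γ0) * cG2
      + (8 * (g0 * γ0) * (ξ0 * ψ0) * W0 * g0) * cΓ2
      + (8 * (g0 * γ0) * ψ0 * W0 * x1 ^ 2 * γ0) * ha1
      + (8 * (g0 * γ0) * ξ0 * W0 * y1 ^ 2 * g0) * ha2
      + (16 * (g0 * γ0) * (ξ0 * ψ0) * W0 * x2
          - 8 * (g0 * γ0) * ψ0 * W0 * x1 ^ 2 * (1 - 3 * x0 ^ 2)
          + 16 * (g0 * γ0) * (ξ0 * ψ0) * W1 * x1
          + 16 * (ξ0 * ψ0) * W0 * x1 * y1 * (g0 * γ1)) * hx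
      + (16 * (g0 * γ0) * (ξ0 * ψ0) * W0 * y2
          - 8 * (g0 * γ0) * ξ0 * W0 * y1 ^ 2 * (1 - 3 * y0 ^ 2)
          + 16 * (g0 * γ0) * (ξ0 * ψ0) * W1 * y1
          + 16 * (ξ0 * ψ0) * W0 * x1 * y1 * (lx * (g0 * γ0) + p * bx)) * hy
      + (2 * (g0 * γ0) ^ 2) * hA - (8 * p * (g0 * γ0)) * hD
  obtain ⟨qU, hqU⟩ := eU
  have hel := elim_alg p n (g0 * γ0) W0 W1 (W0 ^ (4 * n + 1)) (W0 ^ (4 * n)) (ξ0 * ψ0)
    (ξ0 * ψ1 + ξ1 * ψ0) c c0 (F0 n ρ) (F1 n ρ) (U.coeff 0) (U.coeff 1) (U.coeff 2) (Z.coeff 0)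
    (Z.coeff 1) Dd q0 q1 qU hn cU0 (by rw [pow_succ]) hq0 hq1 hqU
  have nκ : π (g0 * γ0) ≠ 0 := by
    rw [map_mul]
    exact mul_ne_zero ng nγ
  have hel2 := dvd_sq_of_mul p π hker _ _ hel (by
    rw [map_mul, map_mul, map_ofNat]
    exact mul_ne_zero (mul_ne_zero n2 nκ) nW)
  obtain ⟨q, hq⟩ := hel2
  have nT : π (g0 * γ0 * W0 * W0 ^ (4 * n + 1) * (ξ0 * ψ0) ^ 2 * c) ≠ 0 := by
    rw [map_mul, map_mul, map_mul, map_mul, map_pow, map_pow, map_mul π ξ0]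
    exact mul_ne_zero (mul_ne_zero (mul_ne_zero (mul_ne_zero nκ nW) (pow_ne_zero _ nW))
      (pow_ne_zero _ (mul_ne_zero nξ nψ))) nc
  obtain ⟨ω, hω⟩ : (p : R) ∣ c0 * F0 n ρ + 16 * F1 n ρ := by
    apply hker
    have := congrArg π hq
    rw [map_sub, map_mul, map_mul (f := π) (4 * (p : R)), map_mul π 4, map_natCast, hpk, mul_zero,
      zero_mul, sub_zero, map_mul (f := π) ((p : R) ^ 2), map_pow, map_natCast, hpk,
      zero_pow (by norm_num), zero_mul] at this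
    exact (mul_eq_zero.mp this).resolve_left nT
  refine ⟨ω, hω, ?_⟩
  rw [hω] at hq
  have hq2 : g0 * γ0 * W0 * W0 ^ (4 * n + 1) * (ξ0 * ψ0) ^ 2 * c * ω
      - 4 * (W0 ^ (4 * n + 1) * (ξ0 * ψ0) * F0 n ρ * Dd + W0 * (ξ0 * ψ1 + ξ1 * ψ0) * Z.coeff 0
        - ξ0 * ψ0 * (W0 * Z.coeff 1 + 2 * W1 * Z.coeff 0)) = p * q := by
    apply mul_left_cancel₀ hpR
    linear_combination hq
  -- the images
  have hF0 : π (W0 ^ (4 * n + 1) * F0 n ρ) = π (g0 * γ0) * π W0 ^ p := by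
    obtain ⟨E, hE⟩ := hexp
    have h1 := congrArg (eval 0) hE
    simp only [eval_sub, eval_mul, eval_pow, eval_add, eval_C, eval_X] at h1
    rw [← coeff_zero_eq_eval_zero W, cW0] at h1
    have h2 := eval_map_apply (p := PQ n y) (evalRingHom (0 : R)) x
    rw [PQ_map, coe_evalRingHom, ← coeff_zero_eq_eval_zero x, ← coeff_zero_eq_eval_zero y, hx0,
      hy0] at h2
    have h4 : (PQ n y0).eval x0 = W0 ^ (4 * n + 1) * F0 n ρ := by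
      rw [h2]
      linear_combination h1
    have h5 := congrArg (eval (π x0)) (PQ_modp p π n hn h3 y0)
    rw [eval_map_apply, h4, ← G2_map π n] at h5
    rw [h5]
    simp only [eval_mul, eval_C, eval_pow, eval_add, eval_one, eval_X, eval_map_apply, ← hg0, ← hγ0,
      hW0, map_mul, map_add, map_one]
    ring
  have hγ1 : π γ1 = π ly * π γ0 := by
    have := congrArg π hy
    simp only [map_mul, map_add, map_natCast, hpk, zero_mul, add_zero] at this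
    apply mul_left_cancel₀ ng
    linear_combination this
  have hg1 : π g1 = π lx * π g0 := by
    have := congrArg π hx
    simp only [map_mul, map_add, map_natCast, hpk, zero_mul, add_zero] at this
    apply mul_left_cancel₀ nγ
    linear_combination this
  have pow0 : ∀ (f : R[X]) (j : ℕ), (f ^ j).coeff 0 = f.coeff 0 ^ j := by
    intro f j
    rw [coeff_zero_eq_eval_zero, eval_pow, ← coeff_zero_eq_eval_zero]
  have ppow1 : ∀ f : R[X], π ((f ^ p).coeff 1) = 0 := by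
    intro f
    rw [coeff_one_pow, map_mul, map_mul, map_natCast, hpk, zero_mul, zero_mul]
  have pdif1 : ∀ f : R[X], π ((f ^ p - f ^ (3 * p)).coeff 1) = 0 := by
    intro f
    rw [coeff_sub, coeff_one_pow, coeff_one_pow]
    push_cast
    simp only [map_sub, map_mul, map_natCast, hpk, map_ofNat, mul_zero, zero_mul, sub_zero]
  have pdif0 : ∀ f : R[X], (f ^ p - f ^ (3 * p)).coeff 0 = f.coeff 0 ^ p - f.coeff 0 ^ (3 * p) := by
    intro f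
    rw [coeff_sub, pow0, pow0]
  have dx0 : (derivative x).coeff 0 = x1 := by rw [← coeff_one_eq, hx1]
  have dy0 : (derivative y).coeff 0 = y1 := by rw [← coeff_one_eq, hy1]
  have dx1 : (derivative x).coeff 1 = 2 * x2 := by rw [← two_coeff_two, hx2]
  have dy1 : (derivative y).coeff 1 = 2 * y2 := by rw [← two_coeff_two, hy2]
  have sq0G : ((G2 n : R[X]).comp x ^ 2).coeff 0 = g0 ^ 2 := by rw [pow0, cG0]
  have sq0Γ : ((G2 n : R[X]).comp y ^ 2).coeff 0 = γ0 ^ 2 := by rw [pow0, cΓ0]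
  have sq1G : ((G2 n : R[X]).comp x ^ 2).coeff 1 = 2 * g0 * (g1 * x1) := by
    rw [coeff_one_pow, cG0, cG1]
    push_cast
    ring
  have sq1Γ : ((G2 n : R[X]).comp y ^ 2).coeff 1 = 2 * γ0 * (γ1 * y1) := by
    rw [coeff_one_pow, cΓ0, cΓ1]
    push_cast
    ring
  have cx := cub x
  have cy := cub y
  rw [hx0, hx1, ← hξ0, ← hξ1] at cx
  rw [hy0, hy1, ← hψ0, ← hψ1] at cy
  have hZ0 : π (Z.coeff 0) = (π γ0) ^ 2 * z0 := by
    have e1 : Z.coeff 0 = x1 * ψ0 * (y0 ^ p * γ0 ^ 2) * (x0 ^ p - x0 ^ (3 * p))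
        + y1 * ξ0 * (x0 ^ p * g0 ^ 2) * (y0 ^ p - y0 ^ (3 * p)) := by
      rw [hZ, coeff_add]
      simp only [mul_coeff_zero (derivative x * (y * (1 - y ^ 2)) * (y ^ p * (G2 n : R[X]).comp y ^ 2)),
        mul_coeff_zero (derivative y * (x * (1 - x ^ 2)) * (x ^ p * (G2 n : R[X]).comp x ^ 2)),
        mul_coeff_zero (derivative x * (y * (1 - y ^ 2))),
        mul_coeff_zero (derivative y * (x * (1 - x ^ 2))),
        mul_coeff_zero (derivative x), mul_coeff_zero (derivative y), mul_coeff_zero (y ^ p),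
        mul_coeff_zero (x ^ p), cx.1, cy.1, pdif0, pow0, dx0, dy0, cG0, cΓ0, hx0, hy0]
    rw [e1, hz0]
    simp only [map_add, map_mul, map_sub, map_pow, hμ]
    ring
  have hZ1 : π (Z.coeff 1) = (π γ0) ^ 2 * z1 := by
    rw [hZ, coeff_add]
    simp only [mul_coeff_one (derivative x * (y * (1 - y ^ 2)) * (y ^ p * (G2 n : R[X]).comp y ^ 2)),
        mul_coeff_one (derivative y * (x * (1 - x ^ 2)) * (x ^ p * (G2 n : R[X]).comp x ^ 2)),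
        mul_coeff_one (derivative x * (y * (1 - y ^ 2))),
        mul_coeff_one (derivative y * (x * (1 - x ^ 2))),
        mul_coeff_one (derivative x), mul_coeff_one (derivative y), mul_coeff_one (y ^ p),
        mul_coeff_one (x ^ p), mul_coeff_zero (derivative x * (y * (1 - y ^ 2))),
        mul_coeff_zero (derivative y * (x * (1 - x ^ 2))),
        mul_coeff_zero (derivative x), mul_coeff_zero (derivative y), mul_coeff_zero (y ^ p),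
        mul_coeff_zero (x ^ p), cx.1, cy.1, cx.2, cy.2, pdif0, dx0, dy0, dx1, dy1, sq0G,
        sq0Γ, sq1G, sq1Γ, pow0, hx0, hy0, map_add, map_mul, ppow1, pdif1]
    rw [hz1]
    simp only [map_sub, map_pow, hμ, hγ1, hg1, map_ofNat]
    ring
  have hfin := congrArg π hq2
  simp only [map_sub, map_add, map_mul, map_pow, map_ofNat, hZ0, hZ1, map_natCast, hpk, zero_mul]
    at hfin hF0
  have nγ2 : (π γ0) ^ 2 ≠ 0 := pow_ne_zero _ nγ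
  apply mul_left_cancel₀ nγ2
  have hpow : π W0 ^ (2 * p) = π W0 * π W0 ^ (4 * n + 1) := by
    rw [← pow_succ']
    congr 1
    omega
  rw [hpow]
  rw [hμ] at hfin hF0
  linear_combination hfin + 4 * (π ξ0 * π ψ0) * π Dd * hF0

end second

end Pool.Agent.H99.Sun
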