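import Mathlib
import Pool.Agent.H99.Sun.Second

/-! The two divisibilities by `X ^ 3` from their coefficients. -/

namespace Pool.Agent.H99.Sun

open Polynomial

section
variable {R : Type*} [CommRing R]

theorem one_c0 : (1 : R[X]).coeff 0 = 1 := by simp
theorem one_c1 : (1 : R[X]).coeff 1 = 0 := by simp [coeff_one]
theorem one_c2 : (1 : R[X]).coeff 2 = 0 := by simp [coeff_one]
theorem C_c0 (r : R) : (C r : R[X]).coeff 0 = r := by simp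
theorem C_c1 (r : R) : (C r : R[X]).coeff 1 = 0 := by simp
theorem C_c2 (r : R) : (C r : R[X]).coeff 2 = 0 := by simp

/-- coefficients of the square. -/
theorem sq_c0 (f : R[X]) : (f ^ 2).coeff 0 = f.coeff 0 ^ 2 := by
  rw [pow_two, mul_coeff_zero, pow_two]
theorem sq_c1 (f : R[X]) : (f ^ 2).coeff 1 = 2 * f.coeff 0 * f.coeff 1 := by
  rw [pow_two, mul_coeff_one]; ring
theorem sq_c2 (f : R[X]) : (f ^ 2).coeff 2 = 2 * f.coeff 0 * f.coeff 2 + f.coeff 1 ^ 2 := by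
  rw [pow_two, mul_coeff_two]; ring

theorem jet_iff (f : R[X]) (h0 : f.coeff 0 = 0) (h1 : f.coeff 1 = 0) (h2 : f.coeff 2 = 0) :
    (X ^ 3 : R[X]) ∣ f := by
  rw [X_pow_dvd_iff]
  intro d hd
  interval_cases d
  · exact h0
  · exact h1
  · exact h2

theorem quad_c0 (c : R) : (1 + C c * X ^ 2 : R[X]).coeff 0 = 1 := by
  simp
theorem quad_c1 (c : R) : (1 + C c * X ^ 2 : R[X]).coeff 1 = 0 := by
  rw [coeff_add, coeff_C_mul, coeff_X_pow, one_c1]; simp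
theorem quad_c2 (c : R) : (1 + C c * X ^ 2 : R[X]).coeff 2 = c := by
  rw [coeff_add, coeff_C_mul, coeff_X_pow, one_c2]; simp

theorem jetB (x0 x1 x2 y0 y1 y2 r c : R)
    (b0 : (x0 + y0) * (1 - y0 * x0) = (1 + y0 * x0) ^ 2 * r)
    (b1 : (x1 + y1) * (1 - y0 * x0) - (x0 + y0) * (y0 * x1 + y1 * x0)
      = 2 * (1 + y0 * x0) * (y0 * x1 + y1 * x0) * r)
    (b2 : (x2 + y2) * (1 - y0 * x0) - (x1 + y1) * (y0 * x1 + y1 * x0)
        - (x0 + y0) * (y0 * x2 + y1 * x1 + y2 * x0)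
      = (2 * (1 + y0 * x0) * (y0 * x2 + y1 * x1 + y2 * x0) + (y0 * x1 + y1 * x0) ^ 2) * r
        + (1 + y0 * x0) ^ 2 * (r * c)) :
    (X ^ 3 : R[X]) ∣ (qc x0 x1 x2 + qc y0 y1 y2) * (1 - qc y0 y1 y2 * qc x0 x1 x2)
      - (1 + qc y0 y1 y2 * qc x0 x1 x2) ^ 2 * (C r * (1 + C c * X ^ 2)) := by
  have k0 := quad_c0 c
  have k1 := quad_c1 c
  have k2 := quad_c2 c
  generalize (1 + C c * X ^ 2 : R[X]) = Q at k0 k1 k2 ⊢
  apply jet_iff
  · simp only [coeff_add, coeff_sub, mul_coeff_zero, sq_c0, qc_0, C_c0, k0, one_c0]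
    linear_combination b0
  · simp only [coeff_add, coeff_sub, mul_coeff_zero, mul_coeff_one, sq_c0, sq_c1, qc_0, qc_1,
      C_c0, C_c1, k0, k1, one_c0, one_c1]
    linear_combination b1
  · simp only [coeff_add, coeff_sub, mul_coeff_zero, mul_coeff_one, mul_coeff_two, sq_c0, sq_c1,
      sq_c2, qc_0, qc_1, qc_2, C_c0, C_c1, C_c2, k0, k1, k2, one_c0, one_c1, one_c2]
    linear_combination b2

theorem pow4 (f : R[X]) : f ^ 4 = (f ^ 2) ^ 2 := by ring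

theorem jetC (x0 x1 x2 y0 y1 y2 r c : R)
    (c0 : y0 * x0 * ((1 - x0 ^ 2) * (1 - y0 ^ 2)) = (1 + y0 * x0) ^ 4 * r)
    (c1 : (y0 * x1 + y1 * x0) * ((1 - x0 ^ 2) * (1 - y0 ^ 2))
        + y0 * x0 * (-(2 * x0 * x1) * (1 - y0 ^ 2) + (1 - x0 ^ 2) * -(2 * y0 * y1))
      = 4 * (1 + y0 * x0) ^ 3 * (y0 * x1 + y1 * x0) * r)
    (c2 : (y0 * x2 + y1 * x1 + y2 * x0) * ((1 - x0 ^ 2) * (1 - y0 ^ 2))
        + (y0 * x1 + y1 * x0) * (-(2 * x0 * x1) * (1 - y0 ^ 2) + (1 - x0 ^ 2) * -(2 * y0 * y1))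
        + y0 * x0 * (-(2 * x0 * x2 + x1 ^ 2) * (1 - y0 ^ 2) + -(2 * x0 * x1) * -(2 * y0 * y1)
          + (1 - x0 ^ 2) * -(2 * y0 * y2 + y1 ^ 2))
      = (4 * (1 + y0 * x0) ^ 3 * (y0 * x2 + y1 * x1 + y2 * x0)
          + 6 * (1 + y0 * x0) ^ 2 * (y0 * x1 + y1 * x0) ^ 2) * r
        + (1 + y0 * x0) ^ 4 * (2 * r * c)) :
    (X ^ 3 : R[X]) ∣ qc y0 y1 y2 * qc x0 x1 x2 * (1 - qc x0 x1 x2 ^ 2) * (1 - qc y0 y1 y2 ^ 2)
      - (1 + qc y0 y1 y2 * qc x0 x1 x2) ^ 4 * (C r * (1 + C c * X ^ 2) ^ 2) := by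
  rw [pow4]
  have k0 := quad_c0 c
  have k1 := quad_c1 c
  have k2 := quad_c2 c
  generalize (1 + C c * X ^ 2 : R[X]) = Q at k0 k1 k2 ⊢
  apply jet_iff
  · simp only [coeff_add, coeff_sub, mul_coeff_zero, sq_c0, qc_0, C_c0, k0, one_c0]
    linear_combination c0
  · simp only [coeff_add, coeff_sub, mul_coeff_zero, mul_coeff_one, sq_c0, sq_c1, qc_0, qc_1,
      C_c0, C_c1, k0, k1, one_c0, one_c1]
    linear_combination c1
  · simp only [coeff_add, coeff_sub, mul_coeff_zero, mul_coeff_one, mul_coeff_two, sq_c0, sq_c1,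
      sq_c2, qc_0, qc_1, qc_2, C_c0, C_c1, C_c2, k0, k1, k2, one_c0, one_c1, one_c2]
    linear_combination c2

end

end Pool.Agent.H99.Sun
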