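import Mathlib

/-! Numerical identities at the two special points. -/

namespace Pool.Agent.H99.Sun

section
variable {R : Type*} [CommRing R] [IsDomain R] [CharZero R]

theorem p3_W0 (s t : R) (hs : s ^ 2 = 2) (ht : t ^ 2 = 3) :
    (8 - 4*t)
      = 1 + (-3 - 2*s + 2*t + 1*(s*t)) * (-3 + 2*s + 2*t - 1*(s*t)) := by
  linear_combination (1*t^2 + (-4)*t + 4) * hs + ((-2)) * ht

theorem p3_W1 (s t : R) (hs : s ^ 2 = 2) (ht : t ^ 2 = 3) :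
    (-48 + 28*t)
      = (-3 - 2*s + 2*t + 1*(s*t)) * (18 - 12*s - 10*t + 7*(s*t)) + (18 + 12*s - 10*t - 7*(s*t)) * (-3 + 2*s + 2*t - 1*(s*t)) := by
  linear_combination ((-14)*t^2 + 52*t + (-48)) * hs + (12) * ht

theorem p3_W2 (s t u2 v2 : R) (hs : s ^ 2 = 2) (ht : t ^ 2 = 3) (hu : 2 * u2 = (-108 + 72*s + 62*t - 43*(s*t))) (hv : 2 * v2 = (-108 - 72*s + 62*t + 43*(s*t))) :
    (192 - 110*t)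
      = (-3 - 2*s + 2*t + 1*(s*t)) * u2 + (18 + 12*s - 10*t - 7*(s*t)) * (18 - 12*s - 10*t + 7*(s*t)) + v2 * (-3 + 2*s + 2*t - 1*(s*t)) := by
  apply mul_left_cancel₀ (show (2 : R) ≠ 0 by norm_num)
  linear_combination ((-1)*s*t + 2*s + (-2)*t + 3) * hu + (1*s*t + (-2)*s + (-2)*t + 3) * hv + (184*t^2 + (-652)*t + 576) * hs + ((-80)) * ht

theorem p3_xi0 (s t : R) (hs : s ^ 2 = 2) (ht : t ^ 2 = 3) :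
    (402 - 284*s - 232*t + 164*(s*t))
      = (-3 + 2*s + 2*t - 1*(s*t)) * (1 - (-3 + 2*s + 2*t - 1*(s*t)) ^ 2) := by
  linear_combination ((-1)*s*t^3 + 6*s*t^2 + (-12)*s*t + 8*s + 6*t^3 + (-33)*t^2 + 60*t + (-36)) * hs + ((-14)*s*t + 72*s + 20*t + (-102)) * ht

theorem p3_xi1 (s t : R) (hs : s ^ 2 = 2) (ht : t ^ 2 = 3) :
    (-7164 + 5064*s + 4136*t - 2924*(s*t))
      = (18 - 12*s - 10*t + 7*(s*t)) * (1 - 3 * (-3 + 2*s + 2*t - 1*(s*t)) ^ 2) := by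
  linear_combination (21*s*t^3 + (-120)*s*t^2 + 228*s*t + (-144)*s + (-114)*t^3 + 612*t^2 + (-1092)*t + 648) * hs + (246*s*t + (-1272)*s + (-348)*t + 1800) * ht

theorem p3_ps0 (s t : R) (hs : s ^ 2 = 2) (ht : t ^ 2 = 3) :
    (402 + 284*s - 232*t - 164*(s*t))
      = (-3 - 2*s + 2*t + 1*(s*t)) * (1 - (-3 - 2*s + 2*t + 1*(s*t)) ^ 2) := by
  linear_combination (1*s*t^3 + (-6)*s*t^2 + 12*s*t + (-8)*s + 6*t^3 + (-33)*t^2 + 60*t + (-36)) * hs + (14*s*t + (-72)*s + 20*t + (-102)) * ht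

theorem p3_ps1 (s t : R) (hs : s ^ 2 = 2) (ht : t ^ 2 = 3) :
    (-7164 - 5064*s + 4136*t + 2924*(s*t))
      = (18 + 12*s - 10*t - 7*(s*t)) * (1 - 3 * (-3 - 2*s + 2*t + 1*(s*t)) ^ 2) := by
  linear_combination ((-21)*s*t^3 + 120*s*t^2 + (-228)*s*t + 144*s + (-114)*t^3 + 612*t^2 + (-1092)*t + 648) * hs + ((-246)*s*t + 1272*s + (-348)*t + 1800) * ht

theorem p3_hA (s t u2 v2 lx ly : R) (hs : s ^ 2 = 2) (ht : t ^ 2 = 3) (hu : 2 * u2 = (-108 + 72*s + 62*t - 43*(s*t))) (hv : 2 * v2 = (-108 - 72*s + 62*t + 43*(s*t))) (hlx : 12 * lx = (0 + 6*s - 4*t + 1*(s*t))) (hly : 12 * ly = (0 - 6*s - 4*t - 1*(s*t))) :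
    4 * (2 * ((402 - 284*s - 232*t + 164*(s*t)) * (402 + 284*s - 232*t - 164*(s*t))) * ((192 - 110*t) + (-48 + 28*t) * ((18 - 12*s - 10*t + 7*(s*t)) * lx + (18 + 12*s - 10*t - 7*(s*t)) * ly) + (8 - 4*t) * (u2 * lx + v2 * ly + (18 - 12*s - 10*t + 7*(s*t)) * (18 + 12*s - 10*t - 7*(s*t)) * (lx * ly))) + (8 - 4*t) * ((402 + 284*s - 232*t - 164*(s*t)) * (18 - 12*s - 10*t + 7*(s*t)) ^ 2 * ((-3 + 2*s + 2*t - 1*(s*t)) - (1 - 3 * (-3 + 2*s + 2*t - 1*(s*t)) ^ 2) * lx) + (402 - 284*s - 232*t + 164*(s*t)) * (18 + 12*s - 10*t - 7*(s*t)) ^ 2 * ((-3 - 2*s + 2*t + 1*(s*t)) - (1 - 3 * (-3 - 2*s + 2*t + 1*(s*t)) ^ 2) * ly)))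
      = -((-6) * 3 * (8 - 4*t) * ((402 - 284*s - 232*t + 164*(s*t)) * (402 + 284*s - 232*t - 164*(s*t)))) := by
  apply mul_left_cancel₀ (show (9 : R) ≠ 0 by norm_num)
  linear_combination (3873024*s^2*t^3*lx + (-21159936)*s^2*t^2*lx + 38442240*s^2*t*lx + (-23228928)*s^2*lx + (-7750656)*t^3*lx + 42361344*t^2*lx + (-76991040)*t*lx + 46541952*lx) * hu + (3873024*s^2*t^3*ly + (-21159936)*s^2*t^2*ly + 38442240*s^2*t*ly + (-23228928)*s^2*ly + (-7750656)*t^3*ly + 42361344*t^2*ly + (-76991040)*t*ly + 46541952*ly) * hv + (289296*s^5*t^6 + (-3228624)*s^5*t^5 + 14996448*s^5*t^4 + (-37107648)*s^5*t^3 + 51590016*s^5*t^2 + (-38209536)*s^5*t + 11778048*s^5 + (-1574496)*s^4*t^6 + (-31629696)*s^4*t^5*ly + 17063640*s^4*t^5 + 281250816*s^4*t^4*ly + (-76983408)*s^4*t^4 + (-999375744)*s^4*t^3*ly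 + 185076000*s^4*t^3 + 1773924096*s^4*t^2*ly + (-250079040)*s^4*t^2 + (-1573023744)*s^4*t*ly + 180085248*s^4*t + 557494272*s^4*ly + (-53996544)*s^4 + 2247552*s^3*t^6 + (-23372928)*s^3*t^5 + 55469136*s^3*t^4 + 85124832*s^3*t^3 + (-529488960)*s^3*t^2 + 756742272*s^3*t + (-360129024)*s^3 + 1481472*s^2*t^6 + 127847424*s^2*t^5*ly + (-16908480)*s^2*t^5 + (-1148016384)*s^2*t^4*ly + 145378848*s^2*t^4 + 4120336992*s^2*t^3*ly + (-661752336)*s^2*t^3 + (-7388833728)*s^2*t^2*ly + 1500337824*s^2*t^2 + 6620576256*s^2*t*ly + (-1640876160)*s^2*t + (-2371368960)*s^2*ly + 694801152*s^2 + (-5656320)*s*t^6 + 59717376*s*t^5 + (-171185472)*s*t^4 + (-21489984)*s*t^3 + 853202544*s*t^2 + (-1362388896)*s*t + 674272512*s + 3340800*t^6 + (-129177600)*t^5*ly + (-34519680)*t^5 + 1171061760*t^4*ly +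 17556096*t^4 + (-4243400064)*t^3*ly + 582720192*t^3 + 7682674176*t^2*ly + (-2001250656)*t^2 + (-6950033280)*t*ly + 2564075520*t + 2513265408*ly + (-1175357952)) * hlx + ((-2925104)*s^5*t^6 + 10851344*s^5*t^5 + 42347648*s^5*t^4 + (-314753216)*s^5*t^3 + 704286720*s^5*t^2 + (-701844480)*s^5*t + 266969088*s^5 + 8968736*s^4*t^6 + (-76686632)*s^4*t^5 + 256141840*s^4*t^4 + (-406232032)*s^4*t^3 + 274262208*s^4*t^2 + (-5746176)*s^4*t + (-53996544)*s^4 + 8406400*s^3*t^6 + (-8371392)*s^3*t^5 + (-286115912)*s^3*t^4 + 1359307520*s^3*t^3 + (-2613213216)*s^3*t^2 + 2355931776*s^3*t + (-825555456)*s^3 + (-41134336)*s^2*t^6 + 365763648*s^2*t^5 + (-1228066816)*s^2*t^4 + 1801192240*s^2*t^3 + (-706520928)*s^2*t^2 + (-850419840)*s^2*t + 694801152*s^2 + (-5108480)*s*t^6 + (-26717696)*s*t^5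 + 403099680*s*t^4 + (-1459987200)*s*t^3 + 2408965104*s*t^2 + (-1903188960)*s*t + 582360192*s + 46400000*t^6 + (-424873600)*t^5 + 1432022784*t^4 + (-1978171200)*t^3 + 315427104*t^2 + 1726320384*t + (-1175357952)) * hly + (3214400*s^4*t^7 + 5206432*s^4*t^6 + (-111831008)*s^4*t^5 + 113538368*s^4*t^4 + 1013176704*s^4*t^3 + (-3252545280)*s^4*t^2 + 3726618624*s^4*t + (-1531146240)*s^4 + (-29307008)*s^2*t^7 + 196950208*s^2*t^6 + (-691034280)*s^2*t^5 + 1908228720*s^2*t^4 + (-3709322208)*s^2*t^3 + 3842428224*s^2*t^2 + (-1373783040)*s^2*t + (-222621696)*s^2 + 99449600*t^7 + (-918372224)*t^6 + 2890962640*t^5 + (-2731988128)*t^4 + (-3375619200)*t^3 + 7923574848*t^2 + (-3277434240)*t + (-886311936)) * hs + ((-64000)*t^5 + 828672*t^4 + (-3219040)*t^3 + 2279872*t^2 + 7155168*t + (-8960832))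 * ht

theorem p3_Ex (s t u2 ly : R) (hs : s ^ 2 = 2) (ht : t ^ 2 = 3) (hu : 2 * u2 = (-108 + 72*s + 62*t - 43*(s*t))) (hly : 12 * ly = (0 - 6*s - 4*t - 1*(s*t))) :
    (2 * ((402 - 284*s - 232*t + 164*(s*t)) * (402 + 284*s - 232*t - 164*(s*t))) * ((-48 + 28*t) * (18 - 12*s - 10*t + 7*(s*t)) + (8 - 4*t) * (u2 + (18 - 12*s - 10*t + 7*(s*t)) * (18 + 12*s - 10*t - 7*(s*t)) * ly)) - (8 - 4*t) * (402 + 284*s - 232*t - 164*(s*t)) * (18 - 12*s - 10*t + 7*(s*t)) ^ 2 * (1 - 3 * (-3 + 2*s + 2*t - 1*(s*t)) ^ 2))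
      = (279456 - 204576*s - 161344*t + 118112*(s*t)) := by
  apply mul_left_cancel₀ (show (3 : R) ≠ 0 by norm_num)
  linear_combination (322752*s^2*t^3 + (-1763328)*s^2*t^2 + 3203520*s^2*t + (-1935744)*s^2 + (-645888)*t^3 + 3530112*t^2 + (-6415920)*t + 3878496) * hu + ((-2635808)*s^4*t^5 + 23437568*s^4*t^4 + (-83281312)*s^4*t^3 + 147827008*s^4*t^2 + (-131085312)*s^4*t + 46457856*s^4 + 10653952*s^2*t^5 + (-95668032)*s^2*t^4 + 343361416*s^2*t^3 + (-615736144)*s^2*t^2 + 551714688*s^2*t + (-197614080)*s^2 + (-10764800)*t^5 + 97588480*t^4 + (-353616672)*t^3 + 640222848*t^2 + (-579169440)*t + 209438784) * hly + (2925104*s^3*t^6 + (-10851344)*s^3*t^5 + (-42347648)*s^3*t^4 + 314753216*s^3*t^3 + (-704286720)*s^3*t^2 + 701844480*s^3*t + (-266969088)*s^3 + 8968736*s^2*t^6 + (-76686632)*s^2*t^5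 + 256141840*s^2*t^4 + (-406232032)*s^2*t^3 + 274262208*s^2*t^2 + (-5746176)*s^2*t + (-53996544)*s^2 + (-2556192)*s*t^6 + (-13331296)*s*t^5 + 201420616*s*t^4 + (-729801088)*s*t^3 + 1204639776*s*t^2 + (-952242816)*s*t + 291617280*s + (-23196864)*t^6 + 212390384*t^5 + (-715783136)*t^4 + 988728176*t^3 + (-157996512)*t^2 + (-861912192)*t + 586808064) * hs + ((-3904)*s*t^4 + 55104*s*t^3 + (-270160)*s*t^2 + 550336*s*t + (-496032)*s + 6272*t^4 + (-92832)*t^3 + 475328*t^2 + (-993344)*t + 860064) * ht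

theorem p3_Ey (s t v2 lx : R) (hs : s ^ 2 = 2) (ht : t ^ 2 = 3) (hv : 2 * v2 = (-108 - 72*s + 62*t + 43*(s*t))) (hlx : 12 * lx = (0 + 6*s - 4*t + 1*(s*t))) :
    (2 * ((402 - 284*s - 232*t + 164*(s*t)) * (402 + 284*s - 232*t - 164*(s*t))) * ((-48 + 28*t) * (18 + 12*s - 10*t - 7*(s*t)) + (8 - 4*t) * (v2 + (18 - 12*s - 10*t + 7*(s*t)) * (18 + 12*s - 10*t - 7*(s*t)) * lx)) - (8 - 4*t) * (402 - 284*s - 232*t + 164*(s*t)) * (18 + 12*s - 10*t - 7*(s*t)) ^ 2 * (1 - 3 * (-3 - 2*s + 2*t + 1*(s*t)) ^ 2))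
      = (279456 + 204576*s - 161344*t - 118112*(s*t)) := by
  apply mul_left_cancel₀ (show (3 : R) ≠ 0 by norm_num)
  linear_combination (322752*s^2*t^3 + (-1763328)*s^2*t^2 + 3203520*s^2*t + (-1935744)*s^2 + (-645888)*t^3 + 3530112*t^2 + (-6415920)*t + 3878496) * hv + ((-2635808)*s^4*t^5 + 23437568*s^4*t^4 + (-83281312)*s^4*t^3 + 147827008*s^4*t^2 + (-131085312)*s^4*t + 46457856*s^4 + 10653952*s^2*t^5 + (-95668032)*s^2*t^4 + 343361416*s^2*t^3 + (-615736144)*s^2*t^2 + 551714688*s^2*t + (-197614080)*s^2 + (-10764800)*t^5 + 97588480*t^4 + (-353616672)*t^3 + 640222848*t^2 + (-579169440)*t + 209438784) * hlx + ((-2925104)*s^3*t^6 + 10851344*s^3*t^5 + 42347648*s^3*t^4 + (-314753216)*s^3*t^3 + 704286720*s^3*t^2 + (-701844480)*s^3*t + 266969088*s^3 + 8968736*s^2*t^6 + (-76686632)*s^2*t^5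 + 256141840*s^2*t^4 + (-406232032)*s^2*t^3 + 274262208*s^2*t^2 + (-5746176)*s^2*t + (-53996544)*s^2 + 2556192*s*t^6 + 13331296*s*t^5 + (-201420616)*s*t^4 + 729801088*s*t^3 + (-1204639776)*s*t^2 + 952242816*s*t + (-291617280)*s + (-23196864)*t^6 + 212390384*t^5 + (-715783136)*t^4 + 988728176*t^3 + (-157996512)*t^2 + (-861912192)*t + 586808064) * hs + (3904*s*t^4 + (-55104)*s*t^3 + 270160*s*t^2 + (-550336)*s*t + 496032*s + 6272*t^4 + (-92832)*t^3 + 475328*t^2 + (-993344)*t + 860064) * ht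

theorem p3_Ax (s t u2 ly : R) (hs : s ^ 2 = 2) (ht : t ^ 2 = 3) (hu : 2 * u2 = (-108 + 72*s + 62*t - 43*(s*t))) (hly : 12 * ly = (0 - 6*s - 4*t - 1*(s*t))) :
    2 * u2 * (402 + 284*s - 232*t - 164*(s*t)) + (18 - 12*s - 10*t + 7*(s*t)) * (-7164 - 5064*s + 4136*t + 2924*(s*t)) + 2 * (18 - 12*s - 10*t + 7*(s*t)) * (18 + 12*s - 10*t - 7*(s*t)) * (402 + 284*s - 232*t - 164*(s*t)) * ly
      = (-7032 - 4836*s + 4060*t + 2792*(s*t)) := by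
  apply mul_left_cancel₀ (show (3 : R) ≠ 0 by norm_num)
  linear_combination ((-492)*s*t + 852*s + (-696)*t + 1206) * hu + (4018*s^3*t^3 + (-20734)*s^3*t^2 + 35664*s^3*t + (-20448)*s^3 + 5684*s^2*t^3 + (-29337)*s^2*t^2 + 50472*s^2*t + (-28944)*s^2 + (-8200)*s*t^3 + 43720*s*t^2 + (-77688)*s*t + 46008*s + (-11600)*t^3 + 61860*t^2 + (-109944)*t + 65124) * hly + ((-4018)*s^2*t^4 + (-3374)*s^2*t^3 + 88740*s^2*t^2 + (-193536)*s^2*t + 122688*s^2 + (-21756)*s*t^4 + 78169*s*t^3 + (-17106)*s*t^2 + (-192096)*s*t + 173664*s + (-22572)*t^4 + 116080*t^3 + (-126480)*t^2 + (-134844)*t + 212976) * hs + (888*s*t^2 + (-10802)*s*t + 16548*s + 1256*t^2 + (-15280)*t + 23352) * ht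

theorem p3_Ay (s t v2 lx : R) (hs : s ^ 2 = 2) (ht : t ^ 2 = 3) (hv : 2 * v2 = (-108 - 72*s + 62*t + 43*(s*t))) (hlx : 12 * lx = (0 + 6*s - 4*t + 1*(s*t))) :
    2 * v2 * (402 - 284*s - 232*t + 164*(s*t)) + (18 + 12*s - 10*t - 7*(s*t)) * (-7164 + 5064*s + 4136*t - 2924*(s*t)) + 2 * (18 - 12*s - 10*t + 7*(s*t)) * (18 + 12*s - 10*t - 7*(s*t)) * (402 - 284*s - 232*t + 164*(s*t)) * lx
      = (-7032 + 4836*s + 4060*t - 2792*(s*t)) := by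
  apply mul_left_cancel₀ (show (3 : R) ≠ 0 by norm_num)
  linear_combination (492*s*t + (-852)*s + (-696)*t + 1206) * hv + ((-4018)*s^3*t^3 + 20734*s^3*t^2 + (-35664)*s^3*t + 20448*s^3 + 5684*s^2*t^3 + (-29337)*s^2*t^2 + 50472*s^2*t + (-28944)*s^2 + 8200*s*t^3 + (-43720)*s*t^2 + 77688*s*t + (-46008)*s + (-11600)*t^3 + 61860*t^2 + (-109944)*t + 65124) * hlx + ((-4018)*s^2*t^4 + (-3374)*s^2*t^3 + 88740*s^2*t^2 + (-193536)*s^2*t + 122688*s^2 + 21756*s*t^4 + (-78169)*s*t^3 + 17106*s*t^2 + 192096*s*t + (-173664)*s + (-22572)*t^4 + 116080*t^3 + (-126480)*t^2 + (-134844)*t + 212976) * hs + ((-888)*s*t^2 + 10802*s*t + (-16548)*s + 1256*t^2 + (-15280)*t + 23352) * ht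

theorem p3_x1ps0 (s t : R) (hs : s ^ 2 = 2) (ht : t ^ 2 = 3) :
    (18 - 12*s - 10*t + 7*(s*t)) * (402 + 284*s - 232*t - 164*(s*t))
      = (492 + 336*s - 284*t - 194*(s*t)) := by
  linear_combination ((-1148)*t^2 + 3956*t + (-3408)) * hs + (16*s + 24) * ht

theorem p3_y1xi0 (s t : R) (hs : s ^ 2 = 2) (ht : t ^ 2 = 3) :
    (18 + 12*s - 10*t - 7*(s*t)) * (402 - 284*s - 232*t + 164*(s*t))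
      = (492 - 336*s - 284*t + 194*(s*t)) := by
  linear_combination ((-1148)*t^2 + 3956*t + (-3408)) * hs + ((-16)*s + 24) * ht

theorem p3_b0 (s t ρ : R) (hs : s ^ 2 = 2) (ht : t ^ 2 = 3) (hρ : 8 * ρ = 1) :
    ((-3 + 2*s + 2*t - 1*(s*t)) + (-3 - 2*s + 2*t + 1*(s*t))) * (1 - ((-3 - 2*s + 2*t + 1*(s*t)) * (-3 + 2*s + 2*t - 1*(s*t))))
      = (1 + ((-3 - 2*s + 2*t + 1*(s*t)) * (-3 + 2*s + 2*t - 1*(s*t)))) ^ 2 * (6 * ρ) := by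
  apply mul_left_cancel₀ (show (4 : R) ≠ 0 by norm_num)
  linear_combination ((-3)*s^4*t^4 + 24*s^4*t^3 + (-72)*s^4*t^2 + 96*s^4*t + (-48)*s^4 + 24*s^2*t^4 + (-168)*s^2*t^3 + 444*s^2*t^2 + (-528)*s^2*t + 240*s^2 + (-48)*t^4 + 288*t^3 + (-672)*t^2 + 720*t + (-300)) * hρ + ((-3)*s^2*t^4 + 24*s^2*t^3 + (-72)*s^2*t^2 + 96*s^2*t + (-48)*s^2 + 18*t^4 + (-104)*t^3 + 212*t^2 + (-176)*t + 48) * hs + ((-12)*t^2 + 16*t + 4) * ht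

theorem p3_b1 (s t ρ : R) (hs : s ^ 2 = 2) (ht : t ^ 2 = 3) (hρ : 8 * ρ = 1) :
    ((18 - 12*s - 10*t + 7*(s*t)) + (18 + 12*s - 10*t - 7*(s*t))) * (1 - ((-3 - 2*s + 2*t + 1*(s*t)) * (-3 + 2*s + 2*t - 1*(s*t)))) - ((-3 + 2*s + 2*t - 1*(s*t)) + (-3 - 2*s + 2*t + 1*(s*t))) * ((-3 - 2*s + 2*t + 1*(s*t)) * (18 - 12*s - 10*t + 7*(s*t)) + (18 + 12*s - 10*t - 7*(s*t)) * (-3 + 2*s + 2*t - 1*(s*t)))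
      = 2 * (1 + ((-3 - 2*s + 2*t + 1*(s*t)) * (-3 + 2*s + 2*t - 1*(s*t)))) * ((-3 - 2*s + 2*t + 1*(s*t)) * (18 - 12*s - 10*t + 7*(s*t)) + (18 + 12*s - 10*t - 7*(s*t)) * (-3 + 2*s + 2*t - 1*(s*t))) * (6 * ρ) := by
  linear_combination (21*s^4*t^4 + (-162)*s^4*t^3 + 468*s^4*t^2 + (-600)*s^4*t + 288*s^4 + (-144)*s^2*t^4 + 1002*s^2*t^3 + (-2628)*s^2*t^2 + 3084*s^2*t + (-1368)*s^2 + 240*t^4 + (-1512)*t^3 + 3624*t^2 + (-3924)*t + 1620) * hρ + (21*s^2*t^4 + (-162)*s^2*t^3 + 468*s^2*t^2 + (-600)*s^2*t + 288*s^2 + (-102)*t^4 + 602*t^3 + (-1284)*t^2 + 1156*t + (-360)) * hs + (36*t^2 + (-68)*t + 12) * ht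

theorem p3_b2 (s t u2 v2 ρ : R) (hs : s ^ 2 = 2) (ht : t ^ 2 = 3) (hu : 2 * u2 = (-108 + 72*s + 62*t - 43*(s*t))) (hv : 2 * v2 = (-108 - 72*s + 62*t + 43*(s*t))) (hρ : 8 * ρ = 1) :
    (u2 + v2) * (1 - ((-3 - 2*s + 2*t + 1*(s*t)) * (-3 + 2*s + 2*t - 1*(s*t)))) - ((18 - 12*s - 10*t + 7*(s*t)) + (18 + 12*s - 10*t - 7*(s*t))) * ((-3 - 2*s + 2*t + 1*(s*t)) * (18 - 12*s - 10*t + 7*(s*t)) + (18 + 12*s - 10*t - 7*(s*t)) * (-3 + 2*s + 2*t - 1*(s*t))) - ((-3 + 2*s + 2*t - 1*(s*t)) + (-3 - 2*s + 2*t + 1*(s*t))) * ((-3 - 2*s + 2*t + 1*(s*t)) * u2 + (18 + 12*s - 10*t - 7*(s*t)) * (18 - 12*s - 10*t + 7*(s*t)) + v2 * (-3 + 2*s + 2*t - 1*(s*t)))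
      = (2 * (1 + ((-3 - 2*s + 2*t + 1*(s*t)) * (-3 + 2*s + 2*t - 1*(s*t)))) * ((-3 - 2*s + 2*t + 1*(s*t)) * u2 + (18 + 12*s - 10*t - 7*(s*t)) * (18 - 12*s - 10*t + 7*(s*t)) + v2 * (-3 + 2*s + 2*t - 1*(s*t))) + ((-3 - 2*s + 2*t + 1*(s*t)) * (18 - 12*s - 10*t + 7*(s*t)) + (18 + 12*s - 10*t - 7*(s*t)) * (-3 + 2*s + 2*t - 1*(s*t))) ^ 2) * (6 * ρ) + (1 + ((-3 - 2*s + 2*t + 1*(s*t)) * (-3 + 2*s + 2*t - 1*(s*t)))) ^ 2 * ((6 * ρ) * (-6)) := by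
  apply mul_left_cancel₀ (show (2 : R) ≠ 0 by norm_num)
  linear_combination (12*s^3*t^3*ρ + (-72)*s^3*t^2*ρ + 144*s^3*t*ρ + (-96)*s^3*ρ + 24*s^2*t^3*ρ + (-132)*s^2*t^2*ρ + 1*s^2*t^2 + 240*s^2*t*ρ + (-4)*s^2*t + (-144)*s^2*ρ + 4*s^2 + (-48)*s*t^3*ρ + 240*s*t^2*ρ + (-4)*s*t^2 + (-408)*s*t*ρ + 14*s*t + 240*s*ρ + (-12)*s + (-96)*t^3*ρ + 432*t^2*ρ + (-12)*t^2 + (-672)*t*ρ + 36*t + 360*ρ + (-26)) * hu + ((-12)*s^3*t^3*ρ + 72*s^3*t^2*ρ + (-144)*s^3*t*ρ + 96*s^3*ρ + 24*s^2*t^3*ρ + (-132)*s^2*t^2*ρ + 1*s^2*t^2 + 240*s^2*t*ρ + (-4)*s^2*t + (-144)*s^2*ρ + 4*s^2 + 48*s*t^3*ρ + (-240)*s*t^2*ρ + 4*s*t^2 + 408*s*t*ρ + (-14)*s*t + (-240)*s*ρ + 12*s + (-96)*t^3*ρ + 432*t^2*ρ + (-12)*t^2 + (-672)*t*ρ + 36*t + 360*ρ + (-26)) * hv + ((-561)*s^4*t^4 + 4194*s^4*t^3 + (-11736)*s^4*t^2 + 14568*s^4*t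 + (-6768)*s^4 + 3384*s^2*t^4 + (-23478)*s^2*t^3 + 61284*s^2*t^2 + (-71340)*s^2*t + 31248*s^2 + (-4944)*t^4 + 32184*t^3 + (-79008)*t^2 + 86796*t + (-36036)) * hρ + ((-561)*s^2*t^4 + 4194*s^2*t^3 + (-11736)*s^2*t^2 + 14568*s^2*t + (-6768)*s^2 + 2262*t^4 + (-13670)*t^3 + 30300*t^2 + (-28964)*t + 9936) * hs + ((-420)*t^2 + 956*t + (-372)) * ht

theorem p3_c0 (s t ρ : R) (hs : s ^ 2 = 2) (ht : t ^ 2 = 3) (hρ : 8 * ρ = 1) :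
    ((-3 - 2*s + 2*t + 1*(s*t)) * (-3 + 2*s + 2*t - 1*(s*t))) * ((1 - (-3 + 2*s + 2*t - 1*(s*t)) ^ 2) * (1 - (-3 - 2*s + 2*t + 1*(s*t)) ^ 2))
      = (1 + ((-3 - 2*s + 2*t + 1*(s*t)) * (-3 + 2*s + 2*t - 1*(s*t)))) ^ 4 * (ρ ^ 2) := by
  apply mul_left_cancel₀ (show (64 : R) ≠ 0 by norm_num)
  linear_combination ((-8)*s^8*t^8*ρ + (-1)*s^8*t^8 + 128*s^8*t^7*ρ + 16*s^8*t^7 + (-896)*s^8*t^6*ρ + (-112)*s^8*t^6 + 3584*s^8*t^5*ρ + 448*s^8*t^5 + (-8960)*s^8*t^4*ρ + (-1120)*s^8*t^4 + 14336*s^8*t^3*ρ + 1792*s^8*t^3 + (-14336)*s^8*t^2*ρ + (-1792)*s^8*t^2 + 8192*s^8*t*ρ + 1024*s^8*t + (-2048)*s^8*ρ + (-256)*s^8 + 128*s^6*t^8*ρ + 16*s^6*t^8 + (-1920)*s^6*t^7*ρ + (-240)*s^6*t^7 + 12608*s^6*t^6*ρ + 1576*s^6*t^6 + (-47360)*s^6*t^5*ρ + (-5920)*s^6*t^5 + 111360*s^6*t^4*ρ + 13920*s^6*t^4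 + (-167936)*s^6*t^3*ρ + (-20992)*s^6*t^3 + 158720*s^6*t^2*ρ + 19840*s^6*t^2 + (-86016)*s^6*t*ρ + (-10752)*s^6*t + 20480*s^6*ρ + 2560*s^6 + (-768)*s^4*t^8*ρ + (-96)*s^4*t^8 + 10752*s^4*t^7*ρ + 1344*s^4*t^7 + (-66048)*s^4*t^6*ρ + (-8256)*s^4*t^6 + 232704*s^4*t^5*ρ + 29088*s^4*t^5 + (-514752)*s^4*t^4*ρ + (-64344)*s^4*t^4 + 732672*s^4*t^3*ρ + 91584*s^4*t^3 + (-655872)*s^4*t^2*ρ + (-81984)*s^4*t^2 + 337920*s^4*t*ρ + 42240*s^4*t + (-76800)*s^4*ρ + (-9600)*s^4 + 2048*s^2*t^8*ρ + 256*s^2*t^8 + (-26624)*s^2*t^7*ρ + (-3328)*s^2*t^7 + 152576*s^2*t^6*ρ + 19072*s^2*t^6 + (-503808)*s^2*t^5*ρ + (-62976)*s^2*t^5 + 1049088*s^2*t^4*ρ + 131136*s^2*t^4 + (-1411584)*s^2*t^3*ρ + (-176448)*s^2*t^3 + 1199360*s^2*t^2*ρ + 149920*s^2*t^2 + (-588800)*s^2*t*ρ + (-73600)*s^2*t + 128000*s^2*ρ + 16000*s^2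 + (-2048)*t^8*ρ + (-256)*t^8 + 24576*t^7*ρ + 3072*t^7 + (-131072)*t^6*ρ + (-16384)*t^6 + 405504*t^5*ρ + 50688*t^5 + (-795648)*t^4*ρ + (-99456)*t^4 + 1013760*t^3*ρ + 126720*t^3 + (-819200)*t^2*ρ + (-102400)*t^2 + 384000*t*ρ + 48000*t + (-80000)*ρ + (-10000)) * hρ + ((-1)*s^6*t^8 + 16*s^6*t^7 + (-112)*s^6*t^6 + 448*s^6*t^5 + (-1120)*s^6*t^4 + 1792*s^6*t^3 + (-1792)*s^6*t^2 + 1024*s^6*t + (-256)*s^6 + 14*s^4*t^8 + (-208)*s^4*t^7 + 1288*s^4*t^6 + (-4256)*s^4*t^5 + 7840*s^4*t^4 + (-7168)*s^4*t^3 + 896*s^4*t^2 + 3584*s^4*t + (-2048)*s^4 + (-68)*s^2*t^8 + 928*s^2*t^7 + (-4912)*s^2*t^6 + 12128*s^2*t^5 + (-9944)*s^2*t^4 + (-17472)*s^2*t^3 + 50368*s^2*t^2 + (-46848)*s^2*t + 16000*s^2 + 120*t^8 + (-1472)*t^7 + 6176*t^6 + (-8000)*t^5 + (-16240)*t^4 + 69696*t^3 + (-96736)*t^2 + 61056*t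 + (-14464)) * hs + ((-16)*t^6 + 128*t^5 + 16*t^4 + (-1792)*t^3 + 4304*t^2 + (-3456)*t + 688) * ht

theorem p3_c1 (s t ρ : R) (hs : s ^ 2 = 2) (ht : t ^ 2 = 3) (hρ : 8 * ρ = 1) :
    ((-3 - 2*s + 2*t + 1*(s*t)) * (18 - 12*s - 10*t + 7*(s*t)) + (18 + 12*s - 10*t - 7*(s*t)) * (-3 + 2*s + 2*t - 1*(s*t))) * ((1 - (-3 + 2*s + 2*t - 1*(s*t)) ^ 2) * (1 - (-3 - 2*s + 2*t + 1*(s*t)) ^ 2)) + ((-3 - 2*s + 2*t + 1*(s*t)) * (-3 + 2*s + 2*t - 1*(s*t))) * ((-(2 * (-3 + 2*s + 2*t - 1*(s*t)) * (18 - 12*s - 10*t + 7*(s*t)))) * (1 - (-3 - 2*s + 2*t + 1*(s*t)) ^ 2) + (1 - (-3 + 2*s + 2*t - 1*(s*t)) ^ 2) * (-(2 * (-3 - 2*s + 2*t + 1*(s*t)) * (18 + 12*s - 10*t - 7*(s*t)))))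
      = 4 * (1 + ((-3 - 2*s + 2*t + 1*(s*t)) * (-3 + 2*s + 2*t - 1*(s*t)))) ^ 3 * ((-3 - 2*s + 2*t + 1*(s*t)) * (18 - 12*s - 10*t + 7*(s*t)) + (18 + 12*s - 10*t - 7*(s*t)) * (-3 + 2*s + 2*t - 1*(s*t))) * (ρ ^ 2) := by
  apply mul_left_cancel₀ (show (8 : R) ≠ 0 by norm_num)
  linear_combination (56*s^8*t^8*ρ + 7*s^8*t^8 + (-880)*s^8*t^7*ρ + (-110)*s^8*t^7 + 6048*s^8*t^6*ρ + 756*s^8*t^6 + (-23744)*s^8*t^5*ρ + (-2968)*s^8*t^5 + 58240*s^8*t^4*ρ + 7280*s^8*t^4 + (-91392)*s^8*t^3*ρ + (-11424)*s^8*t^3 + 89600*s^8*t^2*ρ + 11200*s^8*t^2 + (-50176)*s^8*t*ρ + (-6272)*s^8*t + 12288*s^8*ρ + 1536*s^8 + (-832)*s^6*t^8*ρ + (-104)*s^6*t^8 + 12336*s^6*t^7*ρ + 1542*s^6*t^7 + (-80064)*s^6*t^6*ρ + (-10008)*s^6*t^6 + 297184*s^6*t^5*ρ + 37148*s^6*t^5 + (-690240)*s^6*t^4*ρ + (-86280)*s^6*t^4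 + 1027584*s^6*t^3*ρ + 128448*s^6*t^3 + (-957952)*s^6*t^2*ρ + (-119744)*s^6*t^2 + 511488*s^6*t*ρ + 63936*s^6*t + (-119808)*s^6*ρ + (-14976)*s^6 + 4608*s^4*t^8*ρ + 576*s^4*t^8 + (-64320)*s^4*t^7*ρ + (-8040)*s^4*t^7 + 393792*s^4*t^6*ρ + 49224*s^4*t^6 + (-1381920)*s^4*t^5*ρ + (-172740)*s^4*t^5 + 3041856*s^4*t^4*ρ + 380232*s^4*t^4 + (-4302912)*s^4*t^3*ρ + (-537864)*s^4*t^3 + 3821952*s^4*t^2*ρ + 477744*s^4*t^2 + (-1949952)*s^4*t*ρ + (-243744)*s^4*t + 437760*s^4*ρ + 54720*s^4 + (-11264)*s^2*t^8*ρ + (-1408)*s^2*t^8 + 147712*s^2*t^7*ρ + 18464*s^2*t^7 + (-852480)*s^2*t^6*ρ + (-106560)*s^2*t^6 + 2829312*s^2*t^5*ρ + 353664*s^2*t^5 + (-5908992)*s^2*t^4*ρ + (-738624)*s^2*t^4 + 7955520*s^2*t^3*ρ + 994440*s^2*t^3 + (-6745856)*s^2*t^2*ρ + (-843232)*s^2*t^2 + 3295360*s^2*t*ρ + 411920*s^2*t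 + (-710400)*s^2*ρ + (-88800)*s^2 + 10240*t^8*ρ + 1280*t^8 + (-125952)*t^7*ρ + (-15744)*t^7 + 685056*t^6*ρ + 85632*t^6 + (-2151936)*t^5*ρ + (-268992)*t^5 + 4270080*t^4*ρ + 533760*t^4 + (-5481216)*t^3*ρ + (-685152)*t^3 + 4445440*t^2*ρ + 555680*t^2 + (-2083200)*t*ρ + (-260400)*t + 432000*ρ + 54000) * hρ + (7*s^6*t^8 + (-110)*s^6*t^7 + 756*s^6*t^6 + (-2968)*s^6*t^5 + 7280*s^6*t^4 + (-11424)*s^6*t^3 + 11200*s^6*t^2 + (-6272)*s^6*t + 1536*s^6 + (-90)*s^4*t^8 + 1322*s^4*t^7 + (-8160)*s^4*t^6 + 27276*s^4*t^5 + (-52520)*s^4*t^4 + 55680*s^4*t^3 + (-24384)*s^4*t^2 + (-5440)*s^4*t + 6528*s^4 + 396*s^2*t^8 + (-5396)*s^2*t^7 + 29256*s^2*t^6 + (-78540)*s^2*t^5 + 95608*s^2*t^4 + 7608*s^2*t^3 + (-162000)*s^2*t^2 + 175200*s^2*t + (-62784)*s^2 + (-616)*t^8 + 7672*t^7 + (-34992)*t^6 + 65256*t^5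 + 1712*t^4 + (-212040)*t^3 + 358272*t^2 + (-251568)*t + 65952) * hs + (48*t^6 + (-400)*t^5 + 432*t^4 + 3168*t^3 + (-9360)*t^2 + 8496*t + (-2064)) * ht

theorem p3_c2 (s t u2 v2 ρ : R) (hs : s ^ 2 = 2) (ht : t ^ 2 = 3) (hu : 2 * u2 = (-108 + 72*s + 62*t - 43*(s*t))) (hv : 2 * v2 = (-108 - 72*s + 62*t + 43*(s*t))) (hρ : 8 * ρ = 1) :
    ((-3 - 2*s + 2*t + 1*(s*t)) * u2 + (18 + 12*s - 10*t - 7*(s*t)) * (18 - 12*s - 10*t + 7*(s*t)) + v2 * (-3 + 2*s + 2*t - 1*(s*t))) * ((1 - (-3 + 2*s + 2*t - 1*(s*t)) ^ 2) * (1 - (-3 - 2*s + 2*t + 1*(s*t)) ^ 2)) + ((-3 - 2*s + 2*t + 1*(s*t)) * (18 - 12*s - 10*t + 7*(s*t)) + (18 + 12*s - 10*t - 7*(s*t)) * (-3 + 2*s + 2*t - 1*(s*t))) * ((-(2 * (-3 + 2*s + 2*t - 1*(s*t)) * (18 - 12*s - 10*t + 7*(s*t)))) * (1 - (-3 - 2*s + 2*t + 1*(s*t)) ^ 2)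 + (1 - (-3 + 2*s + 2*t - 1*(s*t)) ^ 2) * (-(2 * (-3 - 2*s + 2*t + 1*(s*t)) * (18 + 12*s - 10*t - 7*(s*t))))) + ((-3 - 2*s + 2*t + 1*(s*t)) * (-3 + 2*s + 2*t - 1*(s*t))) * ((-(2 * (-3 + 2*s + 2*t - 1*(s*t)) * u2 + (18 - 12*s - 10*t + 7*(s*t)) ^ 2)) * (1 - (-3 - 2*s + 2*t + 1*(s*t)) ^ 2) + (-(2 * (-3 + 2*s + 2*t - 1*(s*t)) * (18 - 12*s - 10*t + 7*(s*t)))) * (-(2 * (-3 - 2*s + 2*t + 1*(s*t)) * (18 + 12*s - 10*t - 7*(s*t)))) + (1 - (-3 + 2*s + 2*t - 1*(s*t)) ^ 2) * (-(2 * (-3 - 2*s + 2*t + 1*(s*t)) * v2 + (18 + 12*s - 10*t - 7*(s*t)) ^ 2)))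
      = (4 * (1 + ((-3 - 2*s + 2*t + 1*(s*t)) * (-3 + 2*s + 2*t - 1*(s*t)))) ^ 3 * ((-3 - 2*s + 2*t + 1*(s*t)) * u2 + (18 + 12*s - 10*t - 7*(s*t)) * (18 - 12*s - 10*t + 7*(s*t)) + v2 * (-3 + 2*s + 2*t - 1*(s*t))) + 6 * (1 + ((-3 - 2*s + 2*t + 1*(s*t)) * (-3 + 2*s + 2*t - 1*(s*t)))) ^ 2 * ((-3 - 2*s + 2*t + 1*(s*t)) * (18 - 12*s - 10*t + 7*(s*t)) + (18 + 12*s - 10*t - 7*(s*t)) * (-3 + 2*s + 2*t - 1*(s*t))) ^ 2) * (ρ ^ 2) + (1 + ((-3 - 2*s + 2*t + 1*(s*t)) * (-3 + 2*s + 2*t - 1*(s*t)))) ^ 4 * (2 * (ρ ^ 2) * (-6)) := by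
  apply mul_left_cancel₀ (show (16 : R) ≠ 0 by norm_num)
  linear_combination (32*s^7*t^7*ρ^2 + (-448)*s^7*t^6*ρ^2 + 2688*s^7*t^5*ρ^2 + (-8960)*s^7*t^4*ρ^2 + 17920*s^7*t^3*ρ^2 + (-21504)*s^7*t^2*ρ^2 + 14336*s^7*t*ρ^2 + (-4096)*s^7*ρ^2 + 64*s^6*t^7*ρ^2 + (-864)*s^6*t^6*ρ^2 + 4992*s^6*t^5*ρ^2 + (-16000)*s^6*t^4*ρ^2 + 30720*s^6*t^3*ρ^2 + (-35328)*s^6*t^2*ρ^2 + 22528*s^6*t*ρ^2 + (-6144)*s^6*ρ^2 + (-384)*s^5*t^7*ρ^2 + 4992*s^5*t^6*ρ^2 + (-27840)*s^5*t^5*ρ^2 + 24*s^5*t^5 + 86400*s^5*t^4*ρ^2 + (-240)*s^5*t^4 + (-161280)*s^5*t^3*ρ^2 + 960*s^5*t^3 + 181248*s^5*t^2*ρ^2 + (-1920)*s^5*t^2 + (-113664)*s^5*t*ρ^2 + 1920*s^5*t + 30720*s^5*ρ^2 + (-768)*s^5 + (-768)*s^4*t^7*ρ^2 + 9600*s^4*t^6*ρ^2 + (-51456)*s^4*t^5*ρ^2 + 48*s^4*t^5 + 153408*s^4*t^4*ρ^2 + (-456)*s^4*t^4 + (-274944)*s^4*t^3*ρ^2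 + 1728*s^4*t^3 + 296448*s^4*t^2*ρ^2 + (-3264)*s^4*t^2 + (-178176)*s^4*t*ρ^2 + 3072*s^4*t + 46080*s^4*ρ^2 + (-1152)*s^4 + 1536*s^3*t^7*ρ^2 + (-18432)*s^3*t^6*ρ^2 + 95232*s^3*t^5*ρ^2 + (-192)*s^3*t^5 + (-274944)*s^3*t^4*ρ^2 + 1728*s^3*t^4 + 479616*s^3*t^3*ρ^2 + (-6224)*s^3*t^3 + (-506112)*s^3*t^2*ρ^2 + 11232*s^3*t^2 + 299520*s^3*t*ρ^2 + (-10176)*s^3*t + (-76800)*s^3*ρ^2 + 3712*s^3 + 3072*s^2*t^7*ρ^2 + (-35328)*s^2*t^6*ρ^2 + 175104*s^2*t^5*ρ^2 + (-384)*s^2*t^5 + (-485376)*s^2*t^4*ρ^2 + 3264*s^2*t^4 + 813312*s^2*t^3*ρ^2 + (-11040)*s^2*t^3 + (-824448)*s^2*t^2*ρ^2 + 18576*s^2*t^2 + 468480*s^2*t*ρ^2 + (-15552)*s^2*t + (-115200)*s^2*ρ^2 + 5184*s^2 + (-2048)*s*t^7*ρ^2 + 22528*s*t^6*ρ^2 + (-107520)*s*t^5*ρ^2 + 384*s*t^5 + 288768*s*t^4*ρ^2 + (-3072)*s*t^4 + (-471552)*s*t^3*ρ^2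 + 9792*s*t^3 + 468480*s*t^2*ρ^2 + (-15552)*s*t^2 + (-262400)*s*t*ρ^2 + 12320*s*t + 64000*s*ρ^2 + (-3904)*s + (-4096)*t^7*ρ^2 + 43008*t^6*ρ^2 + (-196608)*t^5*ρ^2 + 768*t^5 + 506880*t^4*ρ^2 + (-5760)*t^4 + (-795648)*t^3*ρ^2 + 17024*t^3 + 760320*t^2*ρ^2 + (-24768)*t^2 + (-409600)*t*ρ^2 + 17728*t + 96000*ρ^2 + (-4992)) * hu + ((-32)*s^7*t^7*ρ^2 + 448*s^7*t^6*ρ^2 + (-2688)*s^7*t^5*ρ^2 + 8960*s^7*t^4*ρ^2 + (-17920)*s^7*t^3*ρ^2 + 21504*s^7*t^2*ρ^2 + (-14336)*s^7*t*ρ^2 + 4096*s^7*ρ^2 + 64*s^6*t^7*ρ^2 + (-864)*s^6*t^6*ρ^2 + 4992*s^6*t^5*ρ^2 + (-16000)*s^6*t^4*ρ^2 + 30720*s^6*t^3*ρ^2 + (-35328)*s^6*t^2*ρ^2 + 22528*s^6*t*ρ^2 + (-6144)*s^6*ρ^2 + 384*s^5*t^7*ρ^2 + (-4992)*s^5*t^6*ρ^2 + 27840*s^5*t^5*ρ^2 + (-24)*s^5*t^5 + (-86400)*s^5*t^4*ρ^2 + 240*s^5*t^4 + 161280*s^5*t^3*ρ^2 + (-960)*s^5*t^3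 + (-181248)*s^5*t^2*ρ^2 + 1920*s^5*t^2 + 113664*s^5*t*ρ^2 + (-1920)*s^5*t + (-30720)*s^5*ρ^2 + 768*s^5 + (-768)*s^4*t^7*ρ^2 + 9600*s^4*t^6*ρ^2 + (-51456)*s^4*t^5*ρ^2 + 48*s^4*t^5 + 153408*s^4*t^4*ρ^2 + (-456)*s^4*t^4 + (-274944)*s^4*t^3*ρ^2 + 1728*s^4*t^3 + 296448*s^4*t^2*ρ^2 + (-3264)*s^4*t^2 + (-178176)*s^4*t*ρ^2 + 3072*s^4*t + 46080*s^4*ρ^2 + (-1152)*s^4 + (-1536)*s^3*t^7*ρ^2 + 18432*s^3*t^6*ρ^2 + (-95232)*s^3*t^5*ρ^2 + 192*s^3*t^5 + 274944*s^3*t^4*ρ^2 + (-1728)*s^3*t^4 + (-479616)*s^3*t^3*ρ^2 + 6224*s^3*t^3 + 506112*s^3*t^2*ρ^2 + (-11232)*s^3*t^2 + (-299520)*s^3*t*ρ^2 + 10176*s^3*t + 76800*s^3*ρ^2 + (-3712)*s^3 + 3072*s^2*t^7*ρ^2 + (-35328)*s^2*t^6*ρ^2 + 175104*s^2*t^5*ρ^2 + (-384)*s^2*t^5 + (-485376)*s^2*t^4*ρ^2 + 3264*s^2*t^4 + 813312*s^2*t^3*ρ^2 + (-11040)*s^2*t^3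 + (-824448)*s^2*t^2*ρ^2 + 18576*s^2*t^2 + 468480*s^2*t*ρ^2 + (-15552)*s^2*t + (-115200)*s^2*ρ^2 + 5184*s^2 + 2048*s*t^7*ρ^2 + (-22528)*s*t^6*ρ^2 + 107520*s*t^5*ρ^2 + (-384)*s*t^5 + (-288768)*s*t^4*ρ^2 + 3072*s*t^4 + 471552*s*t^3*ρ^2 + (-9792)*s*t^3 + (-468480)*s*t^2*ρ^2 + 15552*s*t^2 + 262400*s*t*ρ^2 + (-12320)*s*t + (-64000)*s*ρ^2 + 3904*s + (-4096)*t^7*ρ^2 + 43008*t^6*ρ^2 + (-196608)*t^5*ρ^2 + 768*t^5 + 506880*t^4*ρ^2 + (-5760)*t^4 + (-795648)*t^3*ρ^2 + 17024*t^3 + 760320*t^2*ρ^2 + (-24768)*t^2 + (-409600)*t*ρ^2 + 17728*t + 96000*ρ^2 + (-4992)) * hv + ((-3064)*s^8*t^8*ρ + (-383)*s^8*t^8 + 47344*s^8*t^7*ρ + 5918*s^8*t^7 + (-319872)*s^8*t^6*ρ + (-39984)*s^8*t^6 + 1234240*s^8*t^5*ρ + 154280*s^8*t^5 + (-2974720)*s^8*t^4*ρ + (-371840)*s^8*t^4 + 4585728*s^8*t^3*ρ + 573216*s^8*t^3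 + (-4415488)*s^8*t^2*ρ + (-551936)*s^8*t^2 + 2427904*s^8*t*ρ + 303488*s^8*t + (-583680)*s^8*ρ + (-72960)*s^8 + 42496*s^6*t^8*ρ + 5312*s^6*t^8 + (-623568)*s^6*t^7*ρ + (-77946)*s^6*t^7 + 4004928*s^6*t^6*ρ + 500616*s^6*t^6 + (-14707936)*s^6*t^5*ρ + (-1838492)*s^6*t^5 + 33788160*s^6*t^4*ρ + 4223520*s^6*t^4 + (-49731072)*s^6*t^3*ρ + (-6216384)*s^6*t^3 + 45807616*s^6*t^2*ρ + 5725952*s^6*t^2 + (-24147456)*s^6*t*ρ + (-3018432)*s^6*t + 5578752*s^6*ρ + 697344*s^6 + (-218880)*s^4*t^8*ρ + (-27360)*s^4*t^8 + 3048384*s^4*t^7*ρ + 381048*s^4*t^7 + (-18614784)*s^4*t^6*ρ + (-2326848)*s^4*t^6 + 65116896*s^4*t^5*ρ + 8139612*s^4*t^5 + (-142768704)*s^4*t^4*ρ + (-17846088)*s^4*t^4 + 200961600*s^4*t^3*ρ + 25120200*s^4*t^3 + (-177406464)*s^4*t^2*ρ + (-22175808)*s^4*t^2 + 89829120*s^4*t*ρ + 11228640*s^4*t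 + (-19980288)*s^4*ρ + (-2497536)*s^4 + 495616*s^2*t^8*ρ + 61952*s^2*t^8 + (-6551296)*s^2*t^7*ρ + (-818912)*s^2*t^7 + 38059008*s^2*t^6*ρ + 4757376*s^2*t^6 + (-126955008)*s^2*t^5*ρ + (-15869376)*s^2*t^5 + 266041344*s^2*t^4*ρ + 33255168*s^2*t^4 + (-358739904)*s^2*t^3*ρ + (-44842488)*s^2*t^3 + 304063744*s^2*t^2*ρ + 38007968*s^2*t^2 + (-148152448)*s^2*t*ρ + (-18519056)*s^2*t + 31779840*s^2*ρ + 3972480*s^2 + (-415744)*t^8*ρ + (-51968)*t^8 + 5219328*t^7*ρ + 652416*t^7 + (-28876800)*t^6*ρ + (-3609600)*t^6 + 91980288*t^5*ρ + 11497536*t^5 + (-184519680)*t^4*ρ + (-23064960)*t^4 + 238761216*t^3*ρ + 29845152*t^3 + (-194639872)*t^2*ρ + (-24329984)*t^2 + 91413120*t*ρ + 11426640*t + (-18940800)*ρ + (-2367600)) * hρ + ((-383)*s^6*t^8 + 5918*s^6*t^7 + (-39984)*s^6*t^6 + 154280*s^6*t^5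 + (-371840)*s^6*t^4 + 573216*s^6*t^3 + (-551936)*s^6*t^2 + 303488*s^6*t + (-72960)*s^6 + 4546*s^4*t^8 + (-66110)*s^4*t^7 + 406824*s^4*t^6 + (-1371436)*s^4*t^5 + 2723360*s^4*t^4 + (-3146112)*s^4*t^3 + 1872640*s^4*t^2 + (-317888)*s^4*t + (-112128)*s^4 + (-18268)*s^2*t^8 + 248828*s^2*t^7 + (-1375728)*s^2*t^6 + 3917092*s^2*t^5 + (-5761480)*s^2*t^4 + 2937096*s^2*t^3 + 2985920*s^2*t^2 + (-4817568)*s^2*t + 1904640*s^2 + 25416*t^8 + (-321256)*t^7 + 1557408*t^6 + (-3498616)*t^5 + 2639728*t^4 + 3825624*t^3 + (-9898976)*t^2 + 7975728*t + (-2300544)) * hs + ((-1136)*t^6 + 9904*t^5 + (-18960)*t^4 + (-36512)*t^3 + 158512*t^2 + (-166032)*t + 48848) * ht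

theorem p2_W0 (s t : R) (hs : s ^ 2 = 2) (ht : t ^ 2 = 3) :
    (-4 + 2*(s*t))
      = 1 + (3 + 2*s - 2*t - 1*(s*t)) * (3 - 2*s + 2*t - 1*(s*t)) := by
  linear_combination ((-1)*t^2 + 4) * hs + (2) * ht

theorem p2_W1 (s t : R) (hs : s ^ 2 = 2) (ht : t ^ 2 = 3) :
    (-24 + 10*(s*t))
      = (3 + 2*s - 2*t - 1*(s*t)) * (18 - 12*s + 10*t - 7*(s*t)) + (18 + 12*s - 10*t - 7*(s*t)) * (3 - 2*s + 2*t - 1*(s*t)) := by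
  linear_combination ((-14)*t^2 + 48) * hs + (12) * ht

theorem p2_W2 (s t u2 v2 : R) (hs : s ^ 2 = 2) (ht : t ^ 2 = 3) (hu : 2 * u2 = (108 - 72*s + 62*t - 43*(s*t))) (hv : 2 * v2 = (108 + 72*s - 62*t - 43*(s*t))) :
    (-48 + 19*(s*t))
      = (3 + 2*s - 2*t - 1*(s*t)) * u2 + (18 + 12*s - 10*t - 7*(s*t)) * (18 - 12*s + 10*t - 7*(s*t)) + v2 * (3 - 2*s + 2*t - 1*(s*t)) := by
  apply mul_left_cancel₀ (show (2 : R) ≠ 0 by norm_num)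
  linear_combination (1*s*t + (-2)*s + 2*t + (-3)) * hu + (1*s*t + 2*s + (-2)*t + (-3)) * hv + ((-184)*t^2 + 576) * hs + (80) * ht

theorem p2_xi0 (s t : R) (hs : s ^ 2 = 2) (ht : t ^ 2 = 3) :
    (-402 + 284*s - 232*t + 164*(s*t))
      = (3 - 2*s + 2*t - 1*(s*t)) * (1 - (3 - 2*s + 2*t - 1*(s*t)) ^ 2) := by
  linear_combination ((-1)*s*t^3 + (-6)*s*t^2 + (-12)*s*t + (-8)*s + 6*t^3 + 33*t^2 + 60*t + 36) * hs + ((-14)*s*t + (-72)*s + 20*t + 102) * ht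

theorem p2_xi1 (s t : R) (hs : s ^ 2 = 2) (ht : t ^ 2 = 3) :
    (-7164 + 5064*s - 4136*t + 2924*(s*t))
      = (18 - 12*s + 10*t - 7*(s*t)) * (1 - 3 * (3 - 2*s + 2*t - 1*(s*t)) ^ 2) := by
  linear_combination ((-21)*s*t^3 + (-120)*s*t^2 + (-228)*s*t + (-144)*s + 114*t^3 + 612*t^2 + 1092*t + 648) * hs + ((-246)*s*t + (-1272)*s + 348*t + 1800) * ht

theorem p2_ps0 (s t : R) (hs : s ^ 2 = 2) (ht : t ^ 2 = 3) :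
    (-402 - 284*s + 232*t + 164*(s*t))
      = (3 + 2*s - 2*t - 1*(s*t)) * (1 - (3 + 2*s - 2*t - 1*(s*t)) ^ 2) := by
  linear_combination ((-1)*s*t^3 + 6*s*t^2 + (-12)*s*t + 8*s + (-6)*t^3 + 33*t^2 + (-60)*t + 36) * hs + ((-14)*s*t + 72*s + (-20)*t + 102) * ht

theorem p2_ps1 (s t : R) (hs : s ^ 2 = 2) (ht : t ^ 2 = 3) :
    (-7164 - 5064*s + 4136*t + 2924*(s*t))
      = (18 + 12*s - 10*t - 7*(s*t)) * (1 - 3 * (3 + 2*s - 2*t - 1*(s*t)) ^ 2) := by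
  linear_combination ((-21)*s*t^3 + 120*s*t^2 + (-228)*s*t + 144*s + (-114)*t^3 + 612*t^2 + (-1092)*t + 648) * hs + ((-246)*s*t + 1272*s + (-348)*t + 1800) * ht

theorem p2_hA (s t u2 v2 lx ly : R) (hs : s ^ 2 = 2) (ht : t ^ 2 = 3) (hu : 2 * u2 = (108 - 72*s + 62*t - 43*(s*t))) (hv : 2 * v2 = (108 + 72*s - 62*t - 43*(s*t))) (hlx : 12 * lx = (0 - 6*s - 4*t + 1*(s*t))) (hly : 12 * ly = (0 + 6*s + 4*t + 1*(s*t))) :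
    4 * (2 * ((-402 + 284*s - 232*t + 164*(s*t)) * (-402 - 284*s + 232*t + 164*(s*t))) * ((-48 + 19*(s*t)) + (-24 + 10*(s*t)) * ((18 - 12*s + 10*t - 7*(s*t)) * lx + (18 + 12*s - 10*t - 7*(s*t)) * ly) + (-4 + 2*(s*t)) * (u2 * lx + v2 * ly + (18 - 12*s + 10*t - 7*(s*t)) * (18 + 12*s - 10*t - 7*(s*t)) * (lx * ly))) + (-4 + 2*(s*t)) * ((-402 - 284*s + 232*t + 164*(s*t)) * (18 - 12*s + 10*t - 7*(s*t)) ^ 2 * ((3 - 2*s + 2*t - 1*(s*t)) - (1 - 3 * (3 - 2*s + 2*t - 1*(s*t)) ^ 2) * lx) + (-402 + 284*s - 232*t + 164*(s*t)) * (18 + 12*s - 10*t - 7*(s*t)) ^ 2 * ((3 + 2*s - 2*t - 1*(s*t)) - (1 - 3 * (3 + 2*s - 2*t - 1*(s*t)) ^ 2) * ly)))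
      = -((6) * 5 * (-4 + 2*(s*t)) * ((-402 + 284*s - 232*t + 164*(s*t)) * (-402 - 284*s + 232*t + 164*(s*t)))) := by
  apply mul_left_cancel₀ (show (9 : R) ≠ 0 by norm_num)
  linear_combination (1936512*s^3*t^3*lx + (-5807232)*s^3*t*lx + (-3878784)*s^2*t^2*lx + 11614464*s^2*lx + (-3875328)*s*t^3*lx + 11647008*s*t*lx + 7750656*t^2*lx + (-23270976)*lx) * hu + (1936512*s^3*t^3*ly + (-5807232)*s^3*t*ly + (-3878784)*s^2*t^2*ly + 11614464*s^2*ly + (-3875328)*s*t^3*ly + 11647008*s*t*ly + 7750656*t^2*ly + (-23270976)*ly) * hv + (144648*s^6*t^6 + 824040*s^6*t^5 + 1126656*s^6*t^4 + (-1489248)*s^6*t^3 + (-4679424)*s^6*t^2 + (-2944512)*s^6*t + (-787248)*s^5*t^6 + 15814848*s^5*t^5*ly + (-4520484)*s^5*t^5 + (-6853104)*s^5*t^4 + (-93902016)*s^5*t^3*ly + 5927760*s^5*t^3 + 25656768*s^5*t^2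 + 139373568*s^5*t*ly + 22857984*s^5*t + 5889024*s^5 + 1123776*s^4*t^6 + 7124256*s^4*t^5 + (-35549760)*s^4*t^4*ly + (-4097184)*s^4*t^4 + (-32344512)*s^4*t^3 + 199556736*s^4*t^2*ly + 11261568*s^4*t^2 + 33061248*s^4*t + (-278747136)*s^4*ly + (-26998272)*s^4 + 740736*s^3*t^6 + (-63923712)*s^3*t^5*ly + 2152224*s^3*t^5 + 21443184*s^3*t^4 + 397241520*s^3*t^3*ly + 68520456*s^3*t^3 + (-11059584)*s^3*t^2 + (-616347648)*s^3*t*ly + (-225076224)*s^3*t + (-180064512)*s^3 + (-2828160)*s^2*t^6 + (-15880320)*s^2*t^5 + 135694080*s^2*t^4*ly + 11872992*s^2*t^4 + 20033088*s^2*t^3 + (-802384800)*s^2*t^2*ly + (-126063048)*s^2*t^2 + 82666752*s^2*t + 1185684480*s^2*ly + 347400576*s^2 + 1670400*s*t^6 + 64588800*s*t^5*ly + 13786560*s*t^5 + (-15550656)*s*t^4 + (-418885824)*s*t^3*ly + (-161038560)*s*t^3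 + (-80533776)*s*t^2 + 675480384*s*t*ly + 359446896*s*t + 337136256*s + (-3340800)*t^5 + (-129177600)*t^4*ly + (-16260480)*t^4 + 101614464*t^3 + 806385024*t^2*ly + 244554048*t^2 + (-274975776)*t + (-1256632704)*ly + (-587678976)) * hlx + (1462552*s^6*t^6 + (-8731464)*s^6*t^5 + (-6698512)*s^6*t^4 + 48440256*s^6*t^3 + 6935040*s^6*t^2 + (-66742272)*s^6*t + (-4484368)*s^5*t^6 + (-7482964)*s^5*t^5 + 55928656*s^5*t^4 + 22557488*s^5*t^3 + (-171892992)*s^5*t^2 + (-370944)*s^5*t + 133484544*s^5 + (-4203200)*s^4*t^6 + 36687520*s^4*t^5 + 29006276*s^4*t^4 + (-232795160)*s^4*t^3 + (-40100736)*s^4*t^2 + 368028288*s^4*t + (-26998272)*s^4 + 20567168*s^3*t^6 + 13460064*s^3*t^5 + (-221704064)*s^3*t^4 + 1655056*s^3*t^3 + 617701200*s^3*t^2 + (-126269184)*s^3*t + (-412777728)*s^3 + 2554240*s^2*t^6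 + (-61645440)*s^2*t^5 + (-23034160)*s^2*t^4 + 456871424*s^2*t^3 + (-69773016)*s^2*t^2 + (-815635104)*s^2*t + 347400576*s^2 + (-23200000)*s*t^6 + 3021760*s*t^5 + 219768064*s*t^4 + (-93839808)*s*t^3 + (-547818864)*s*t^2 + 254727504*s*t + 291180096*s + 46400000*t^5 + (-16260480)*t^4 + (-370409472)*t^3 + 244554048*t^2 + 693853344*t + (-587678976)) * hly + (1607200*s^5*t^7 + (-62904880)*s^5*t^5 + 301832640*s^5*t^3 + (-382786560)*s^5*t + (-72408184)*s^4*t^6 + 604893824*s^4*t^4 + (-1418002560)*s^4*t^2 + 765573120*s^4 + (-14653504)*s^3*t^7 + 326448772*s^3*t^5 + (-1418534160)*s^3*t^3 + 1712392704*s^3*t + 108007568*s^2*t^6 + (-964553736)*s^2*t^4 + 1884469728*s^2*t^2 + 111310848*s^2 + 49724800*s*t^7 + (-606466312)*s*t^5 + 2128295328*s*t^3 + (-2267435520)*s*t + (-99459424)*t^6 +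 949619024*t^4 + (-2055759936)*t^2 + 303782400) * hs + ((-32000)*s*t^5 + 851696*s*t^3 + (-1629552)*s*t + 44352*t^4 + (-2087840)*t^2 + 4312224) * ht

theorem p2_Ex (s t u2 ly : R) (hs : s ^ 2 = 2) (ht : t ^ 2 = 3) (hu : 2 * u2 = (108 - 72*s + 62*t - 43*(s*t))) (hly : 12 * ly = (0 + 6*s + 4*t + 1*(s*t))) :
    (2 * ((-402 + 284*s - 232*t + 164*(s*t)) * (-402 - 284*s + 232*t + 164*(s*t))) * ((-24 + 10*(s*t)) * (18 - 12*s + 10*t - 7*(s*t)) + (-4 + 2*(s*t)) * (u2 + (18 - 12*s + 10*t - 7*(s*t)) * (18 + 12*s - 10*t - 7*(s*t)) * ly)) - (-4 + 2*(s*t)) * (-402 - 284*s + 232*t + 164*(s*t)) * (18 - 12*s + 10*t - 7*(s*t)) ^ 2 * (1 - 3 * (3 - 2*s + 2*t - 1*(s*t)) ^ 2))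
      = (84576 - 61296*s + 50048*t - 34528*(s*t)) := by
  apply mul_left_cancel₀ (show (3 : R) ≠ 0 by norm_num)
  linear_combination (161376*s^3*t^3 + (-483936)*s^3*t + (-323232)*s^2*t^2 + 967872*s^2 + (-322944)*s*t^3 + 970584*s*t + 645888*t^2 + (-1939248)) * hu + (1317904*s^5*t^5 + (-7825168)*s^5*t^3 + 11614464*s^5*t + (-2962480)*s^4*t^4 + 16629728*s^4*t^2 + (-23228928)*s^4 + (-5326976)*s^3*t^5 + 33103460*s^3*t^3 + (-51362304)*s^3*t + 11307840*s^2*t^4 + (-66865400)*s^2*t^2 + 98807040*s^2 + 5382400*s*t^5 + (-34907152)*s*t^3 + 56290032*s*t + (-10764800)*t^4 + 67198752*t^2 + (-104719392)) * hly + (1462552*s^4*t^6 + 8731464*s^4*t^5 + (-6698512)*s^4*t^4 + (-48440256)*s^4*t^3 + 6935040*s^4*t^2 + 66742272*s^4*t + 4484368*s^3*t^6 + (-7482964)*s^3*t^5 + (-55928656)*s^3*t^4 +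 22557488*s^3*t^3 + 171892992*s^3*t^2 + (-370944)*s^3*t + (-133484544)*s^3 + (-1278096)*s^2*t^6 + (-19224592)*s^2*t^5 + 15609252*s^2*t^4 + 135914648*s^2*t^3 + (-26230656)*s^2*t^2 + (-234543744)*s^2*t + (-26998272)*s^2 + (-11598432)*s*t^6 + (-1505864)*s*t^5 + 109846752*s*t^4 + 46770032*s*t^3 + (-273915216)*s*t^2 + (-127011072)*s*t + 145808640*s + (-1952)*t^6 + 23196256*t^5 + 8184344*t^4 + (-185042128)*t^3 + (-122234328)*t^2 + 346547616*t + 293404032) * hs + (3136*s*t^4 + 10032*s*t^3 + (-65152)*s*t^2 + (-269648)*s*t + (-207024)*s + (-3904)*t^4 + (-7488)*t^3 + 96496*t^2 + 302752*t + 374880) * ht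

theorem p2_Ey (s t v2 lx : R) (hs : s ^ 2 = 2) (ht : t ^ 2 = 3) (hv : 2 * v2 = (108 + 72*s - 62*t - 43*(s*t))) (hlx : 12 * lx = (0 - 6*s - 4*t + 1*(s*t))) :
    (2 * ((-402 + 284*s - 232*t + 164*(s*t)) * (-402 - 284*s + 232*t + 164*(s*t))) * ((-24 + 10*(s*t)) * (18 + 12*s - 10*t - 7*(s*t)) + (-4 + 2*(s*t)) * (v2 + (18 - 12*s + 10*t - 7*(s*t)) * (18 + 12*s - 10*t - 7*(s*t)) * lx)) - (-4 + 2*(s*t)) * (-402 + 284*s - 232*t + 164*(s*t)) * (18 + 12*s - 10*t - 7*(s*t)) ^ 2 * (1 - 3 * (3 + 2*s - 2*t - 1*(s*t)) ^ 2))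
      = (84576 + 61296*s - 50048*t - 34528*(s*t)) := by
  apply mul_left_cancel₀ (show (3 : R) ≠ 0 by norm_num)
  linear_combination (161376*s^3*t^3 + (-483936)*s^3*t + (-323232)*s^2*t^2 + 967872*s^2 + (-322944)*s*t^3 + 970584*s*t + 645888*t^2 + (-1939248)) * hv + (1317904*s^5*t^5 + (-7825168)*s^5*t^3 + 11614464*s^5*t + (-2962480)*s^4*t^4 + 16629728*s^4*t^2 + (-23228928)*s^4 + (-5326976)*s^3*t^5 + 33103460*s^3*t^3 + (-51362304)*s^3*t + 11307840*s^2*t^4 + (-66865400)*s^2*t^2 + 98807040*s^2 + 5382400*s*t^5 + (-34907152)*s*t^3 + 56290032*s*t + (-10764800)*t^4 + 67198752*t^2 + (-104719392)) * hlx + (1462552*s^4*t^6 + (-8731464)*s^4*t^5 + (-6698512)*s^4*t^4 + 48440256*s^4*t^3 + 6935040*s^4*t^2 + (-66742272)*s^4*t + (-4484368)*s^3*t^6 + (-7482964)*s^3*t^5 + 55928656*s^3*t^4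 + 22557488*s^3*t^3 + (-171892992)*s^3*t^2 + (-370944)*s^3*t + 133484544*s^3 + (-1278096)*s^2*t^6 + 19224592*s^2*t^5 + 15609252*s^2*t^4 + (-135914648)*s^2*t^3 + (-26230656)*s^2*t^2 + 234543744*s^2*t + (-26998272)*s^2 + 11598432*s*t^6 + (-1505864)*s*t^5 + (-109846752)*s*t^4 + 46770032*s*t^3 + 273915216*s*t^2 + (-127011072)*s*t + (-145808640)*s + (-1952)*t^6 + (-23196256)*t^5 + 8184344*t^4 + 185042128*t^3 + (-122234328)*t^2 + (-346547616)*t + 293404032) * hs + ((-3136)*s*t^4 + 10032*s*t^3 + 65152*s*t^2 + (-269648)*s*t + 207024*s + (-3904)*t^4 + 7488*t^3 + 96496*t^2 + (-302752)*t + 374880) * ht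

theorem p2_Ax (s t u2 ly : R) (hs : s ^ 2 = 2) (ht : t ^ 2 = 3) (hu : 2 * u2 = (108 - 72*s + 62*t - 43*(s*t))) (hly : 12 * ly = (0 + 6*s + 4*t + 1*(s*t))) :
    2 * u2 * (-402 - 284*s + 232*t + 164*(s*t)) + (18 - 12*s + 10*t - 7*(s*t)) * (-7164 - 5064*s + 4136*t + 2924*(s*t)) + 2 * (18 - 12*s + 10*t - 7*(s*t)) * (18 + 12*s - 10*t - 7*(s*t)) * (-402 - 284*s + 232*t + 164*(s*t)) * ly
      = (-4272 - 2964*s + 2420*t + 1744*(s*t)) := by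
  apply mul_left_cancel₀ (show (3 : R) ≠ 0 by norm_num)
  linear_combination (492*s*t + (-852)*s + 696*t + (-1206)) * hu + (4018*s^3*t^3 + (-6958)*s^3*t^2 + (-11808)*s^3*t + 20448*s^3 + 5684*s^2*t^3 + (-10833)*s^2*t^2 + (-15000)*s^2*t + 28944*s^2 + (-8200)*s*t^3 + 12808*s*t^2 + 28980*s*t + (-46008)*s + (-11600)*t^3 + 20100*t^2 + 37584*t + (-65124)) * hly + (4018*s^2*t^4 + 17150*s^2*t^3 + (-53556)*s^2*t^2 + (-50400)*s^2*t + 122688*s^2 + 21756*s*t^4 + (-4561)*s*t^3 + (-127230)*s*t^2 + 20736*s*t + 173664*s + 22572*t^4 + (-45424)*t^3 + (-143844)*t^2 + 145140*t + 212976) * hs + ((-888)*s*t^2 + (-7390)*s*t + 18420*s + (-1256)*t^2 + (-10448)*t + 26112) * ht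

theorem p2_Ay (s t v2 lx : R) (hs : s ^ 2 = 2) (ht : t ^ 2 = 3) (hv : 2 * v2 = (108 + 72*s - 62*t - 43*(s*t))) (hlx : 12 * lx = (0 - 6*s - 4*t + 1*(s*t))) :
    2 * v2 * (-402 + 284*s - 232*t + 164*(s*t)) + (18 + 12*s - 10*t - 7*(s*t)) * (-7164 + 5064*s - 4136*t + 2924*(s*t)) + 2 * (18 - 12*s + 10*t - 7*(s*t)) * (18 + 12*s - 10*t - 7*(s*t)) * (-402 + 284*s - 232*t + 164*(s*t)) * lx
      = (-4272 + 2964*s - 2420*t + 1744*(s*t)) := by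
  apply mul_left_cancel₀ (show (3 : R) ≠ 0 by norm_num)
  linear_combination (492*s*t + 852*s + (-696)*t + (-1206)) * hv + (4018*s^3*t^3 + 6958*s^3*t^2 + (-11808)*s^3*t + (-20448)*s^3 + (-5684)*s^2*t^3 + (-10833)*s^2*t^2 + 15000*s^2*t + 28944*s^2 + (-8200)*s*t^3 + (-12808)*s*t^2 + 28980*s*t + 46008*s + 11600*t^3 + 20100*t^2 + (-37584)*t + (-65124)) * hlx + (4018*s^2*t^4 + (-17150)*s^2*t^3 + (-53556)*s^2*t^2 + 50400*s^2*t + 122688*s^2 + (-21756)*s*t^4 + (-4561)*s*t^3 + 127230*s*t^2 + 20736*s*t + (-173664)*s + 22572*t^4 + 45424*t^3 + (-143844)*t^2 + (-145140)*t + 212976) * hs + (888*s*t^2 + (-7390)*s*t + (-18420)*s + (-1256)*t^2 + 10448*t + 26112) * ht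

theorem p2_x1ps0 (s t : R) (hs : s ^ 2 = 2) (ht : t ^ 2 = 3) :
    (18 - 12*s + 10*t - 7*(s*t)) * (-402 - 284*s + 232*t + 164*(s*t))
      = (-348 - 240*s + 196*t + 142*(s*t)) := by
  linear_combination ((-1148)*t^2 + 20*t + 3408) * hs + (16*s + 24) * ht

theorem p2_y1xi0 (s t : R) (hs : s ^ 2 = 2) (ht : t ^ 2 = 3) :
    (18 + 12*s - 10*t - 7*(s*t)) * (-402 + 284*s - 232*t + 164*(s*t))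
      = (-348 + 240*s - 196*t + 142*(s*t)) := by
  linear_combination ((-1148)*t^2 + (-20)*t + 3408) * hs + ((-16)*s + 24) * ht

theorem p2_b0 (s t ρ : R) (hs : s ^ 2 = 2) (ht : t ^ 2 = 3) (hρ : 4 * ρ = 1) :
    ((3 - 2*s + 2*t - 1*(s*t)) + (3 + 2*s - 2*t - 1*(s*t))) * (1 - ((3 + 2*s - 2*t - 1*(s*t)) * (3 - 2*s + 2*t - 1*(s*t))))
      = (1 + ((3 + 2*s - 2*t - 1*(s*t)) * (3 - 2*s + 2*t - 1*(s*t)))) ^ 2 * (6 * ρ) := by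
  apply mul_left_cancel₀ (show (2 : R) ≠ 0 by norm_num)
  linear_combination ((-3)*s^4*t^4 + 24*s^4*t^2 + (-48)*s^4 + (-12)*s^3*t^3 + 48*s^3*t + 24*s^2*t^4 + (-168)*s^2*t^2 + 240*s^2 + 48*s*t^3 + (-120)*s*t + (-48)*t^4 + 240*t^2 + (-300)) * hρ + ((-3)*s^2*t^4 + 24*s^2*t^2 + (-48)*s^2 + (-8)*s*t^3 + 32*s*t + 18*t^4 + (-124)*t^2 + 192) * hs + (16*s*t + (-12)*t^2 + 4) * ht

theorem p2_b1 (s t ρ : R) (hs : s ^ 2 = 2) (ht : t ^ 2 = 3) (hρ : 4 * ρ = 1) :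
    ((18 - 12*s + 10*t - 7*(s*t)) + (18 + 12*s - 10*t - 7*(s*t))) * (1 - ((3 + 2*s - 2*t - 1*(s*t)) * (3 - 2*s + 2*t - 1*(s*t)))) - ((3 - 2*s + 2*t - 1*(s*t)) + (3 + 2*s - 2*t - 1*(s*t))) * ((3 + 2*s - 2*t - 1*(s*t)) * (18 - 12*s + 10*t - 7*(s*t)) + (18 + 12*s - 10*t - 7*(s*t)) * (3 - 2*s + 2*t - 1*(s*t)))
      = 2 * (1 + ((3 + 2*s - 2*t - 1*(s*t)) * (3 - 2*s + 2*t - 1*(s*t)))) * ((3 + 2*s - 2*t - 1*(s*t)) * (18 - 12*s + 10*t - 7*(s*t)) + (18 + 12*s - 10*t - 7*(s*t)) * (3 - 2*s + 2*t - 1*(s*t))) * (6 * ρ) := by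
  linear_combination ((-42)*s^4*t^4 + 312*s^4*t^2 + (-576)*s^4 + (-114)*s^3*t^3 + 408*s^3*t + 288*s^2*t^4 + (-1860)*s^2*t^2 + 2736*s^2 + 360*s*t^3 + (-948)*s*t + (-480)*t^4 + 2496*t^2 + (-3240)) * hρ + ((-42)*s^2*t^4 + 312*s^2*t^2 + (-576)*s^2 + (-72)*s*t^3 + 256*s*t + 204*t^4 + (-1308)*t^2 + 2016) * hs + (80*s*t + (-72)*t^2 + 48) * ht

theorem p2_b2 (s t u2 v2 ρ : R) (hs : s ^ 2 = 2) (ht : t ^ 2 = 3) (hu : 2 * u2 = (108 - 72*s + 62*t - 43*(s*t))) (hv : 2 * v2 = (108 + 72*s - 62*t - 43*(s*t))) (hρ : 4 * ρ = 1) :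
    (u2 + v2) * (1 - ((3 + 2*s - 2*t - 1*(s*t)) * (3 - 2*s + 2*t - 1*(s*t)))) - ((18 - 12*s + 10*t - 7*(s*t)) + (18 + 12*s - 10*t - 7*(s*t))) * ((3 + 2*s - 2*t - 1*(s*t)) * (18 - 12*s + 10*t - 7*(s*t)) + (18 + 12*s - 10*t - 7*(s*t)) * (3 - 2*s + 2*t - 1*(s*t))) - ((3 - 2*s + 2*t - 1*(s*t)) + (3 + 2*s - 2*t - 1*(s*t))) * ((3 + 2*s - 2*t - 1*(s*t)) * u2 + (18 + 12*s - 10*t - 7*(s*t)) * (18 - 12*s + 10*t - 7*(s*t)) + v2 * (3 - 2*s + 2*t - 1*(s*t)))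
      = (2 * (1 + ((3 + 2*s - 2*t - 1*(s*t)) * (3 - 2*s + 2*t - 1*(s*t)))) * ((3 + 2*s - 2*t - 1*(s*t)) * u2 + (18 + 12*s - 10*t - 7*(s*t)) * (18 - 12*s + 10*t - 7*(s*t)) + v2 * (3 - 2*s + 2*t - 1*(s*t))) + ((3 + 2*s - 2*t - 1*(s*t)) * (18 - 12*s + 10*t - 7*(s*t)) + (18 + 12*s - 10*t - 7*(s*t)) * (3 - 2*s + 2*t - 1*(s*t))) ^ 2) * (6 * ρ) + (1 + ((3 + 2*s - 2*t - 1*(s*t)) * (3 - 2*s + 2*t - 1*(s*t)))) ^ 2 * ((6 * ρ) * (6)) := by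
  apply mul_left_cancel₀ (show (2 : R) ≠ 0 by norm_num)
  linear_combination (12*s^3*t^3*ρ + (-24)*s^3*t^2*ρ + (-48)*s^3*t*ρ + 96*s^3*ρ + 24*s^2*t^3*ρ + (-12)*s^2*t^2*ρ + (-3)*s^2*t^2 + (-144)*s^2*t*ρ + 4*s^2*t + 144*s^2*ρ + 4*s^2 + (-48)*s*t^3*ρ + 144*s*t^2*ρ + (-4)*s*t^2 + 48*s*t*ρ + 10*s*t + (-240)*s*ρ + (-12)*s + (-96)*t^3*ρ + 144*t^2*ρ + 4*t^2 + 240*t*ρ + 12*t + (-360)*ρ + (-26)) * hu + (12*s^3*t^3*ρ + 24*s^3*t^2*ρ + (-48)*s^3*t*ρ + (-96)*s^3*ρ + (-24)*s^2*t^3*ρ + (-12)*s^2*t^2*ρ + (-3)*s^2*t^2 + 144*s^2*t*ρ + (-4)*s^2*t + 144*s^2*ρ + 4*s^2 + (-48)*s*t^3*ρ + (-144)*s*t^2*ρ + 4*s*t^2 + 48*s*t*ρ + 10*s*t + 240*s*ρ + 12*s + 96*t^3*ρ + 144*t^2*ρ + 4*t^2 + (-240)*t*ρ + (-12)*t + (-360)*ρ + (-26)) * hv + ((-1158)*s^4*t^4 + 8112*s^4*t^2 + (-14112)*s^4 + (-2130)*s^3*t^3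 + 7080*s^3*t + 7056*s^2*t^4 + (-43824)*s^2*t^2 + 65376*s^2 + 5832*s*t^3 + (-16116)*s*t + (-10464)*t^4 + 56352*t^2 + (-75672)) * hρ + ((-1158)*s^2*t^4 + 8112*s^2*t^2 + (-14112)*s^2 + (-1284)*s*t^3 + 4240*s*t + 4740*t^4 + (-29400)*t^2 + 44928) * hs + (904*s*t + (-984)*t^2 + 1032) * ht

theorem p2_c0 (s t ρ : R) (hs : s ^ 2 = 2) (ht : t ^ 2 = 3) (hρ : 4 * ρ = 1) :
    ((3 + 2*s - 2*t - 1*(s*t)) * (3 - 2*s + 2*t - 1*(s*t))) * ((1 - (3 - 2*s + 2*t - 1*(s*t)) ^ 2) * (1 - (3 + 2*s - 2*t - 1*(s*t)) ^ 2))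
      = (1 + ((3 + 2*s - 2*t - 1*(s*t)) * (3 - 2*s + 2*t - 1*(s*t)))) ^ 4 * (ρ ^ 2) := by
  apply mul_left_cancel₀ (show (16 : R) ≠ 0 by norm_num)
  linear_combination ((-4)*s^8*t^8*ρ + (-1)*s^8*t^8 + 64*s^8*t^6*ρ + 16*s^8*t^6 + (-384)*s^8*t^4*ρ + (-96)*s^8*t^4 + 1024*s^8*t^2*ρ + 256*s^8*t^2 + (-1024)*s^8*ρ + (-256)*s^8 + (-32)*s^7*t^7*ρ + (-8)*s^7*t^7 + 384*s^7*t^5*ρ + 96*s^7*t^5 + (-1536)*s^7*t^3*ρ + (-384)*s^7*t^3 + 2048*s^7*t*ρ + 512*s^7*t + 64*s^6*t^8*ρ + 16*s^6*t^8 + (-1024)*s^6*t^6*ρ + (-256)*s^6*t^6 + 5760*s^6*t^4*ρ + 1440*s^6*t^4 + (-13312)*s^6*t^2*ρ + (-3328)*s^6*t^2 + 10240*s^6*ρ + 2560*s^6 + 384*s^5*t^7*ρ + 96*s^5*t^7 + (-4160)*s^5*t^5*ρ + (-1040)*s^5*t^5 + 14336*s^5*t^3*ρ + 3584*s^5*t^3 + (-15360)*s^5*t*ρ + (-3840)*s^5*t + (-384)*s^4*t^8*ρ + (-96)*s^4*t^8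 + 5760*s^4*t^6*ρ + 1440*s^4*t^6 + (-28960)*s^4*t^4*ρ + (-7240)*s^4*t^4 + 57600*s^4*t^2*ρ + 14400*s^4*t^2 + (-38400)*s^4*ρ + (-9600)*s^4 + (-1536)*s^3*t^7*ρ + (-384)*s^3*t^7 + 14336*s^3*t^5*ρ + 3584*s^3*t^5 + (-41600)*s^3*t^3*ρ + (-10400)*s^3*t^3 + 38400*s^3*t*ρ + 9600*s^3*t + 1024*s^2*t^8*ρ + 256*s^2*t^8 + (-13312)*s^2*t^6*ρ + (-3328)*s^2*t^6 + 57600*s^2*t^4*ρ + 14400*s^2*t^4 + (-102400)*s^2*t^2*ρ + (-25600)*s^2*t^2 + 64000*s^2*ρ + 16000*s^2 + 2048*s*t^7*ρ + 512*s*t^7 + (-15360)*s*t^5*ρ + (-3840)*s*t^5 + 38400*s*t^3*ρ + 9600*s*t^3 + (-32000)*s*t*ρ + (-8000)*s*t + (-1024)*t^8*ρ + (-256)*t^8 + 10240*t^6*ρ + 2560*t^6 + (-38400)*t^4*ρ + (-9600)*t^4 + 64000*t^2*ρ + 16000*t^2 + (-40000)*ρ + (-10000)) * hρ + ((-1)*s^6*t^8 + 16*s^6*t^6 + (-96)*s^6*t^4 + 256*s^6*t^2 + (-256)*s^6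 + (-8)*s^5*t^7 + 96*s^5*t^5 + (-384)*s^5*t^3 + 512*s^5*t + 14*s^4*t^8 + (-208)*s^4*t^6 + 1056*s^4*t^4 + (-2048)*s^4*t^2 + 1024*s^4 + 80*s^3*t^7 + (-752)*s^3*t^5 + 2048*s^3*t^3 + (-1280)*s^3*t + (-68)*s^2*t^8 + 832*s^2*t^6 + (-3000)*s^2*t^4 + 3008*s^2*t^2 + (-128)*s^2 + (-224)*s*t^7 + 1312*s*t^5 + (-992)*s*t^3 + (-1920)*s*t + 120*t^8 + (-896)*t^6 + 1104*t^4 + 1216*t^2 + 128) * hs + (64*s*t^5 + 512*s*t^3 + 192*s*t + (-16)*t^6 + (-304)*t^4 + (-880)*t^2 + 176) * ht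

theorem p2_c1 (s t ρ : R) (hs : s ^ 2 = 2) (ht : t ^ 2 = 3) (hρ : 4 * ρ = 1) :
    ((3 + 2*s - 2*t - 1*(s*t)) * (18 - 12*s + 10*t - 7*(s*t)) + (18 + 12*s - 10*t - 7*(s*t)) * (3 - 2*s + 2*t - 1*(s*t))) * ((1 - (3 - 2*s + 2*t - 1*(s*t)) ^ 2) * (1 - (3 + 2*s - 2*t - 1*(s*t)) ^ 2)) + ((3 + 2*s - 2*t - 1*(s*t)) * (3 - 2*s + 2*t - 1*(s*t))) * ((-(2 * (3 - 2*s + 2*t - 1*(s*t)) * (18 - 12*s + 10*t - 7*(s*t)))) * (1 - (3 + 2*s - 2*t - 1*(s*t)) ^ 2) + (1 - (3 - 2*s + 2*t - 1*(s*t)) ^ 2) * (-(2 * (3 + 2*s - 2*t - 1*(s*t)) * (18 + 12*s - 10*t - 7*(s*t)))))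
      = 4 * (1 + ((3 + 2*s - 2*t - 1*(s*t)) * (3 - 2*s + 2*t - 1*(s*t)))) ^ 3 * ((3 + 2*s - 2*t - 1*(s*t)) * (18 - 12*s + 10*t - 7*(s*t)) + (18 + 12*s - 10*t - 7*(s*t)) * (3 - 2*s + 2*t - 1*(s*t))) * (ρ ^ 2) := by
  apply mul_left_cancel₀ (show (2 : R) ≠ 0 by norm_num)
  linear_combination ((-28)*s^8*t^8*ρ + (-7)*s^8*t^8 + 432*s^8*t^6*ρ + 108*s^8*t^6 + (-2496)*s^8*t^4*ρ + (-624)*s^8*t^4 + 6400*s^8*t^2*ρ + 1600*s^8*t^2 + (-6144)*s^8*ρ + (-1536)*s^8 + (-188)*s^7*t^7*ρ + (-47)*s^7*t^7 + 2160*s^7*t^5*ρ + 540*s^7*t^5 + (-8256)*s^7*t^3*ρ + (-2064)*s^7*t^3 + 10496*s^7*t*ρ + 2624*s^7*t + 416*s^6*t^8*ρ + 104*s^6*t^8 + (-6312)*s^6*t^6*ρ + (-1578)*s^6*t^6 + 34080*s^6*t^4*ρ + 8520*s^6*t^4 + (-76928)*s^6*t^2*ρ + (-19232)*s^6*t^2 + 59904*s^6*ρ + 14976*s^6 + 2064*s^5*t^7*ρ + 516*s^5*t^7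 + (-21464)*s^5*t^5*ρ + (-5366)*s^5*t^5 + 71808*s^5*t^3*ρ + 17952*s^5*t^3 + (-76416)*s^5*t*ρ + (-19104)*s^5*t + (-2304)*s^4*t^8*ρ + (-576)*s^4*t^8 + 32640*s^4*t^6*ρ + 8160*s^4*t^6 + (-159328)*s^4*t^4*ρ + (-39832)*s^4*t^4 + 317760*s^4*t^2*ρ + 79440*s^4*t^2 + (-218880)*s^4*ρ + (-54720)*s^4 + (-7488)*s^3*t^7*ρ + (-1872)*s^3*t^7 + 68224*s^3*t^5*ρ + 17056*s^3*t^5 + (-198000)*s^3*t^3*ρ + (-49500)*s^3*t^3 + 185280*s^3*t*ρ + 46320*s^3*t + 5632*s^2*t^8*ρ + 1408*s^2*t^8 + (-70272)*s^2*t^6*ρ + (-17568)*s^2*t^6 + 303360*s^2*t^4*ρ + 75840*s^2*t^4 + (-549280)*s^2*t^2*ρ + (-137320)*s^2*t^2 + 355200*s^2*ρ + 88800*s^2 + 8960*s*t^7*ρ + 2240*s*t^7 + (-68736)*s*t^5*ρ + (-17184)*s*t^5 + 175680*s*t^3*ρ + 43920*s*t^3 + (-149600)*s*t*ρ + (-37400)*s*t + (-5120)*t^8*ρ + (-1280)*t^8 + 52224*t^6*ρ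 + 13056*t^6 + (-199680)*t^4*ρ + (-49920)*t^4 + 339200*t^2*ρ + 84800*t^2 + (-216000)*ρ + (-54000)) * hρ + ((-7)*s^6*t^8 + 108*s^6*t^6 + (-624)*s^6*t^4 + 1600*s^6*t^2 + (-1536)*s^6 + (-47)*s^5*t^7 + 540*s^5*t^5 + (-2064)*s^5*t^3 + 2624*s^5*t + 90*s^4*t^8 + (-1278)*s^4*t^6 + 6312*s^4*t^4 + (-12384)*s^4*t^2 + 7296*s^4 + 422*s^3*t^7 + (-3890)*s^3*t^5 + 10848*s^3*t^3 + (-8288)*s^3*t + (-396)*s^2*t^8 + 4692*s^2*t^6 + (-17672)*s^2*t^4 + 23088*s^2*t^2 + (-7488)*s^2 + (-1028)*s*t^7 + 6492*s*t^5 + (-9204)*s*t^3 + (-1200)*s*t + 616*t^8 + (-4920)*t^6 + 10736*t^4 + (-6312)*t^2 + 3744) * hs + (184*s*t^5 + 1152*s*t^3 + 264*s*t + (-48)*t^6 + (-768)*t^4 + (-1824)*t^2 + 528) * ht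

theorem p2_c2 (s t u2 v2 ρ : R) (hs : s ^ 2 = 2) (ht : t ^ 2 = 3) (hu : 2 * u2 = (108 - 72*s + 62*t - 43*(s*t))) (hv : 2 * v2 = (108 + 72*s - 62*t - 43*(s*t))) (hρ : 4 * ρ = 1) :
    ((3 + 2*s - 2*t - 1*(s*t)) * u2 + (18 + 12*s - 10*t - 7*(s*t)) * (18 - 12*s + 10*t - 7*(s*t)) + v2 * (3 - 2*s + 2*t - 1*(s*t))) * ((1 - (3 - 2*s + 2*t - 1*(s*t)) ^ 2) * (1 - (3 + 2*s - 2*t - 1*(s*t)) ^ 2)) + ((3 + 2*s - 2*t - 1*(s*t)) * (18 - 12*s + 10*t - 7*(s*t)) + (18 + 12*s - 10*t - 7*(s*t)) * (3 - 2*s + 2*t - 1*(s*t))) * ((-(2 * (3 - 2*s + 2*t - 1*(s*t)) * (18 - 12*s + 10*t - 7*(s*t)))) * (1 - (3 + 2*s - 2*t - 1*(s*t)) ^ 2) + (1 - (3 - 2*s + 2*t - 1*(s*t)) ^ 2) * (-(2 * (3 + 2*s - 2*t - 1*(s*t)) * (18 + 12*s - 10*t - 7*(s*t))))) + ((3 + 2*s - 2*t - 1*(s*t)) * (3 - 2*s + 2*t - 1*(s*t)))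 * ((-(2 * (3 - 2*s + 2*t - 1*(s*t)) * u2 + (18 - 12*s + 10*t - 7*(s*t)) ^ 2)) * (1 - (3 + 2*s - 2*t - 1*(s*t)) ^ 2) + (-(2 * (3 - 2*s + 2*t - 1*(s*t)) * (18 - 12*s + 10*t - 7*(s*t)))) * (-(2 * (3 + 2*s - 2*t - 1*(s*t)) * (18 + 12*s - 10*t - 7*(s*t)))) + (1 - (3 - 2*s + 2*t - 1*(s*t)) ^ 2) * (-(2 * (3 + 2*s - 2*t - 1*(s*t)) * v2 + (18 + 12*s - 10*t - 7*(s*t)) ^ 2)))
      = (4 * (1 + ((3 + 2*s - 2*t - 1*(s*t)) * (3 - 2*s + 2*t - 1*(s*t)))) ^ 3 * ((3 + 2*s - 2*t - 1*(s*t)) * u2 + (18 + 12*s - 10*t - 7*(s*t)) * (18 - 12*s + 10*t - 7*(s*t)) + v2 * (3 - 2*s + 2*t - 1*(s*t))) + 6 * (1 + ((3 + 2*s - 2*t - 1*(s*t)) * (3 - 2*s + 2*t - 1*(s*t)))) ^ 2 * ((3 + 2*s - 2*t - 1*(s*t)) * (18 - 12*s + 10*t - 7*(s*t)) + (18 + 12*s - 10*t - 7*(s*t)) * (3 - 2*s + 2*t - 1*(s*t))) ^ 2) * (ρ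 ^ 2) + (1 + ((3 + 2*s - 2*t - 1*(s*t)) * (3 - 2*s + 2*t - 1*(s*t)))) ^ 4 * (2 * (ρ ^ 2) * (6)) := by
  apply mul_left_cancel₀ (show (4 : R) ≠ 0 by norm_num)
  linear_combination (8*s^7*t^7*ρ^2 + (-16)*s^7*t^6*ρ^2 + (-96)*s^7*t^5*ρ^2 + 192*s^7*t^4*ρ^2 + 384*s^7*t^3*ρ^2 + (-768)*s^7*t^2*ρ^2 + (-512)*s^7*t*ρ^2 + 1024*s^7*ρ^2 + 16*s^6*t^7*ρ^2 + 24*s^6*t^6*ρ^2 + (-288)*s^6*t^5*ρ^2 + (-96)*s^6*t^4*ρ^2 + 1536*s^6*t^3*ρ^2 + (-384)*s^6*t^2*ρ^2 + (-2560)*s^6*t*ρ^2 + 1536*s^6*ρ^2 + (-96)*s^5*t^7*ρ^2 + 288*s^5*t^6*ρ^2 + 960*s^5*t^5*ρ^2 + (-6)*s^5*t^5 + (-2976)*s^5*t^4*ρ^2 + 12*s^5*t^4 + (-2688)*s^5*t^3*ρ^2 + 48*s^5*t^3 + 9216*s^5*t^2*ρ^2 + (-96)*s^5*t^2 + 1536*s^5*t*ρ^2 + (-96)*s^5*t + (-7680)*s^5*ρ^2 + 192*s^5 + (-192)*s^4*t^7*ρ^2 + (-96)*s^4*t^6*ρ^2 + 2976*s^4*t^5*ρ^2 + (-12)*s^4*t^5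 + (-752)*s^4*t^4*ρ^2 + (-6)*s^4*t^4 + (-12800)*s^4*t^3*ρ^2 + 144*s^4*t^3 + 7680*s^4*t^2*ρ^2 + (-48)*s^4*t^2 + 15360*s^4*t*ρ^2 + (-384)*s^4*t + (-11520)*s^4*ρ^2 + 288*s^4 + 384*s^3*t^7*ρ^2 + (-1536)*s^3*t^6*ρ^2 + (-2688)*s^3*t^5*ρ^2 + 48*s^3*t^5 + 12800*s^3*t^4*ρ^2 + (-144)*s^3*t^4 + 3360*s^3*t^3*ρ^2 + (-244)*s^3*t^3 + (-29760)*s^3*t^2*ρ^2 + 840*s^3*t^2 + 1920*s^3*t*ρ^2 + 144*s^3*t + 19200*s^3*ρ^2 + (-928)*s^3 + 768*s^2*t^7*ρ^2 + (-384)*s^2*t^6*ρ^2 + (-9216)*s^2*t^5*ρ^2 + 96*s^2*t^5 + 7680*s^2*t^4*ρ^2 + (-48)*s^2*t^4 + 29760*s^2*t^3*ρ^2 + (-840)*s^2*t^3 + (-28320)*s^2*t^2*ρ^2 + 684*s^2*t^2 + (-28800)*s^2*t*ρ^2 + 1488*s^2*t + 28800*s^2*ρ^2 + (-1296)*s^2 + (-512)*s*t^7*ρ^2 + 2560*s*t^6*ρ^2 + 1536*s*t^5*ρ^2 + (-96)*s*t^5 + (-15360)*s*t^4*ρ^2 + 384*s*t^4 + 1920*s*t^3*ρ^2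 + 144*s*t^3 + 28800*s*t^2*ρ^2 + (-1488)*s*t^2 + (-6400)*s*t*ρ^2 + 376*s*t + (-16000)*s*ρ^2 + 976*s + (-1024)*t^7*ρ^2 + 1536*t^6*ρ^2 + 7680*t^5*ρ^2 + (-192)*t^5 + (-11520)*t^4*ρ^2 + 288*t^4 + (-19200)*t^3*ρ^2 + 928*t^3 + 28800*t^2*ρ^2 + (-1296)*t^2 + 16000*t*ρ^2 + (-976)*t + (-24000)*ρ^2 + 1248) * hu + (8*s^7*t^7*ρ^2 + 16*s^7*t^6*ρ^2 + (-96)*s^7*t^5*ρ^2 + (-192)*s^7*t^4*ρ^2 + 384*s^7*t^3*ρ^2 + 768*s^7*t^2*ρ^2 + (-512)*s^7*t*ρ^2 + (-1024)*s^7*ρ^2 + (-16)*s^6*t^7*ρ^2 + 24*s^6*t^6*ρ^2 + 288*s^6*t^5*ρ^2 + (-96)*s^6*t^4*ρ^2 + (-1536)*s^6*t^3*ρ^2 + (-384)*s^6*t^2*ρ^2 + 2560*s^6*t*ρ^2 + 1536*s^6*ρ^2 + (-96)*s^5*t^7*ρ^2 + (-288)*s^5*t^6*ρ^2 + 960*s^5*t^5*ρ^2 + (-6)*s^5*t^5 + 2976*s^5*t^4*ρ^2 + (-12)*s^5*t^4 + (-2688)*s^5*t^3*ρ^2 + 48*s^5*t^3 + (-9216)*s^5*t^2*ρ^2 + 96*s^5*t^2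 + 1536*s^5*t*ρ^2 + (-96)*s^5*t + 7680*s^5*ρ^2 + (-192)*s^5 + 192*s^4*t^7*ρ^2 + (-96)*s^4*t^6*ρ^2 + (-2976)*s^4*t^5*ρ^2 + 12*s^4*t^5 + (-752)*s^4*t^4*ρ^2 + (-6)*s^4*t^4 + 12800*s^4*t^3*ρ^2 + (-144)*s^4*t^3 + 7680*s^4*t^2*ρ^2 + (-48)*s^4*t^2 + (-15360)*s^4*t*ρ^2 + 384*s^4*t + (-11520)*s^4*ρ^2 + 288*s^4 + 384*s^3*t^7*ρ^2 + 1536*s^3*t^6*ρ^2 + (-2688)*s^3*t^5*ρ^2 + 48*s^3*t^5 + (-12800)*s^3*t^4*ρ^2 + 144*s^3*t^4 + 3360*s^3*t^3*ρ^2 + (-244)*s^3*t^3 + 29760*s^3*t^2*ρ^2 + (-840)*s^3*t^2 + 1920*s^3*t*ρ^2 + 144*s^3*t + (-19200)*s^3*ρ^2 + 928*s^3 + (-768)*s^2*t^7*ρ^2 + (-384)*s^2*t^6*ρ^2 + 9216*s^2*t^5*ρ^2 + (-96)*s^2*t^5 + 7680*s^2*t^4*ρ^2 + (-48)*s^2*t^4 + (-29760)*s^2*t^3*ρ^2 + 840*s^2*t^3 + (-28320)*s^2*t^2*ρ^2 + 684*s^2*t^2 + 28800*s^2*t*ρ^2 + (-1488)*s^2*t + 28800*s^2*ρ^2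 + (-1296)*s^2 + (-512)*s*t^7*ρ^2 + (-2560)*s*t^6*ρ^2 + 1536*s*t^5*ρ^2 + (-96)*s*t^5 + 15360*s*t^4*ρ^2 + (-384)*s*t^4 + 1920*s*t^3*ρ^2 + 144*s*t^3 + (-28800)*s*t^2*ρ^2 + 1488*s*t^2 + (-6400)*s*t*ρ^2 + 376*s*t + 16000*s*ρ^2 + (-976)*s + 1024*t^7*ρ^2 + 1536*t^6*ρ^2 + (-7680)*t^5*ρ^2 + 192*t^5 + (-11520)*t^4*ρ^2 + 288*t^4 + 19200*t^3*ρ^2 + (-928)*t^3 + 28800*t^2*ρ^2 + (-1296)*t^2 + (-16000)*t*ρ^2 + 976*t + (-24000)*ρ^2 + 1248) * hv + ((-1556)*s^8*t^8*ρ + (-389)*s^8*t^8 + 23232*s^8*t^6*ρ + 5808*s^8*t^6 + (-129792)*s^8*t^4*ρ + (-32448)*s^8*t^4 + 321536*s^8*t^2*ρ + 80384*s^8*t^2 + (-297984)*s^8*ρ + (-74496)*s^8 + (-8764)*s^7*t^7*ρ + (-2191)*s^7*t^7 + 96912*s^7*t^5*ρ + 24228*s^7*t^5 + (-356160)*s^7*t^3*ρ + (-89040)*s^7*t^3 + 434944*s^7*t*ρ + 108736*s^7*t + 21632*s^6*t^8*ρ +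 5408*s^6*t^8 + (-314112)*s^6*t^6*ρ + (-78528)*s^6*t^6 + 1640832*s^6*t^4*ρ + 410208*s^6*t^4 + (-3636224)*s^6*t^2*ρ + (-909056)*s^6*t^2 + 2850816*s^6*ρ + 712704*s^6 + 89040*s^5*t^7*ρ + 22260*s^5*t^7 + (-896824)*s^5*t^5*ρ + (-224206)*s^5*t^5 + 2933760*s^5*t^3*ρ + 733440*s^5*t^3 + (-3100800)*s^5*t*ρ + (-775200)*s^5*t + (-111744)*s^4*t^8*ρ + (-27936)*s^4*t^8 + 1516032*s^4*t^6*ρ + 379008*s^4*t^6 + (-7245152)*s^4*t^4*ρ + (-1811288)*s^4*t^4 + 14480640*s^4*t^2*ρ + 3620160*s^4*t^2 + (-10220544)*s^4*ρ + (-2555136)*s^4 + (-297792)*s^3*t^7*ρ + (-74448)*s^3*t^7 + 2675200*s^3*t^5*ρ + 668800*s^3*t^5 + (-7777584)*s^3*t^3*ρ + (-1944396)*s^3*t^3 + 7362624*s^3*t*ρ + 1840656*s^3*t + 253952*s^2*t^8*ρ + 63488*s^2*t^8 + (-3087360)*s^2*t^6*ρ + (-771840)*s^2*t^6 + 13324800*s^2*t^4*ρ + 3331200*s^2*t^4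 + (-24495104)*s^2*t^2*ρ + (-6123776)*s^2*t^2 + 16273920*s^2*ρ + 4068480*s^2 + 327424*s*t^7*ρ + 81856*s*t^7 + (-2566272)*s*t^5*ρ + (-641568)*s*t^5 + 6698304*s*t^3*ρ + 1674576*s*t^3 + (-5822560)*s*t*ρ + (-1455640)*s*t + (-214016)*t^8*ρ + (-53504)*t^8 + 2224128*t^6*ρ + 556032*t^6 + (-8661504)*t^4*ρ + (-2165376)*t^4 + 14981120*t^2*ρ + 3745280*t^2 + (-9710400)*ρ + (-2427600)) * hρ + ((-389)*s^6*t^8 + 5808*s^6*t^6 + (-32448)*s^6*t^4 + 80384*s^6*t^2 + (-74496)*s^6 + (-2191)*s^5*t^7 + 24228*s^5*t^5 + (-89040)*s^5*t^3 + 108736*s^5*t + 4630*s^4*t^8 + (-63456)*s^4*t^6 + 307488*s^4*t^4 + (-610816)*s^4*t^2 + 397824*s^4 + 17878*s^3*t^7 + (-163042)*s^3*t^5 + 464832*s^3*t^3 + (-397408)*s^3*t + (-18676)*s^2*t^8 + 217728*s^2*t^6 + (-852168)*s^2*t^4 + 1286080*s^2*t^2 + (-602880)*s^2 +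 (-38692)*s*t^7 + 262556*s*t^5 + (-491364)*s*t^3 + 187440*s*t + 26136*t^8 + (-224256)*t^6 + 626160*t^4 + (-688000)*t^2 + 342144) * hs + (4472*s*t^5 + 20416*s*t^3 + 552*s*t + (-1232)*t^6 + (-15984)*t^4 + (-28400)*t^2 + 12592) * ht

end

end Pool.Agent.H99.Sun
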