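import Mathlib
import Pool.Agent.H99.Sun.Second
import Pool.Agent.H37.Sun.PartB

/-! The first order relations at the special points. -/

namespace Pool.Agent.H99.Sun

open Polynomial Finset Pool.Agent.H37.Sun

section
variable {R : Type*} [CommRing R]

theorem G2_Hh (n : ℕ) : (G2 n : R[X]) = (Hh n).comp (X ^ 2) := by
  unfold G2 Hh
  rw [← coe_compRingHom_apply, map_sum]
  refine sum_congr rfl fun m _ => ?_
  rw [coe_compRingHom_apply, mul_comp, C_comp, pow_comp, X_comp, ← pow_mul]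

theorem G2_eval' (n : ℕ) (x : R) : (G2 n : R[X]).eval x = (Hh n).eval (x ^ 2) := by
  rw [G2_Hh, eval_comp, eval_pow, eval_X]

theorem G2_deriv_eval (n : ℕ) (x : R) :
    (derivative (G2 n : R[X])).eval x = 2 * x * (derivative (Hh n)).eval (x ^ 2) := by
  rw [G2_Hh, derivative_comp, eval_mul, eval_comp, derivative_X_pow]
  simp

theorem G2_deriv_sum (n : ℕ) (x : R) : (derivative (G2 n : R[X])).eval x
    = ∑ m ∈ range (n + 1), (v n m : R) * (2 * m * x ^ (2 * m - 1)) := by
  unfold G2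
  rw [derivative_sum, eval_finsetSum]
  refine sum_congr rfl fun m _ => ?_
  rw [derivative_C_mul, derivative_X_pow, eval_mul, eval_C, eval_mul, eval_C, eval_pow, eval_X]
  push_cast
  ring

theorem M_eval (n : ℕ) (x y : R) (hxy : (1 + x) * (1 + y) = 2) :
    (PQ n (1 : R)).eval x = (1 + x) ^ (4 * n + 1) * (G2 n : R[X]).eval y := by
  have h1 : 1 - x = (1 + x) * y := by linear_combination -hxy
  rw [PQ_one, eval_finsetSum, G2_eval, mul_sum]
  refine sum_congr rfl fun m hm => ?_
  have hm' : m ≤ n := by have := mem_range.mp hm; omega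
  simp only [eval_mul, eval_C, eval_pow, eval_add, eval_sub, eval_one, eval_X]
  have e1 : (1 + x) ^ (4 * n + 1) = (1 + x) ^ (4 * n + 1 - 2 * m) * (1 + x) ^ (2 * m) := by
    rw [← pow_add]
    congr 1
    omega
  rw [h1, mul_pow, e1]
  ring

theorem M_deriv_eval (n : ℕ) (x y : R) (hxy : (1 + x) * (1 + y) = 2) :
    (derivative (PQ n (1 : R))).eval x = (1 + x) ^ (4 * n) *
      ((4 * n + 1) * (G2 n : R[X]).eval y - (1 + y) * (derivative (G2 n : R[X])).eval y) := by
  have h1 : 1 - x = (1 + x) * y := by linear_combination -hxy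
  rw [PQ_one, derivative_sum, eval_finsetSum, G2_eval, G2_deriv_sum, mul_sum, mul_sum,
    ← sum_sub_distrib, mul_sum]
  refine sum_congr rfl fun m hm => ?_
  have hm' : m ≤ n := by have := mem_range.mp hm; omega
  rw [derivative_C_mul, derivative_mul, derivative_pow, derivative_pow]
  simp only [eval_mul, eval_C, eval_pow, eval_add, eval_sub, eval_one, eval_X, derivative_add,
    derivative_sub, derivative_one, derivative_X, eval_zero]
  obtain ⟨j, hj⟩ : ∃ j, 4 * n + 1 - 2 * m = j + 1 := ⟨4 * n - 2 * m, by omega⟩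
  have hjc : (4 * (n : R) + 1) = (j : R) + 1 + 2 * m := by
    have : 4 * n + 1 = j + 1 + 2 * m := by omega
    exact_mod_cast congrArg (Nat.cast : ℕ → R) this
  rw [hj, Nat.add_sub_cancel, hjc, h1]
  rcases m with _ | m
  · have e1 : (1 + x) ^ (4 * n) = (1 + x) ^ j := by congr 1; omega
    rw [e1]
    push_cast
    ring
  · have e1 : (1 + x) ^ (4 * n) = (1 + x) ^ j * (1 + x) ^ (2 * m + 2) := by
      rw [← pow_add]
      congr 1
      omega
    rw [show 2 * (m + 1) - 1 = 2 * m + 1 by omega, show 2 * (m + 1) = 2 * m + 2 by ring, e1,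
      mul_pow, mul_pow]
    push_cast
    ring

end

section
variable {R : Type*} [CommRing R] [IsDomain R] [CharZero R] {k : Type*} [Field k]
  (p : ℕ) [Fact p.Prime] [CharP k p] (π : R →+* k)
  (hker : ∀ x, π x = 0 → (p : R) ∣ x)
  (n : ℕ) (hn : p = 2 * n + 1) (h3 : 3 < p)
include hker hn h3

omit hker [IsDomain R] [CharZero R] in
theorem G2_one_modp : π ((G2 n : R[X]).eval 1) = (-1) ^ n := by
  rw [G2_one n, map_sum]
  simp only [map_natCast]
  rw [vsum_mod p n hn h3, neg_pow, four_pow p n hn h3, mul_one]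

/-- The first relation (two-isogeny). -/
theorem relA (x y : R) (hxy : (1 + x) * (1 + y) = 2) (hx1 : π (1 + x) ≠ 0) (hx : π x ≠ 0)
    (hy : π y ≠ 0) :
    ∃ a : R, (G2 n : R[X]).eval x * (G2 n : R[X]).eval y
        + (1 + y) * ((G2 n : R[X]).eval x * (derivative (G2 n : R[X])).eval y)
        + (1 + x) * ((derivative (G2 n : R[X])).eval x * (G2 n : R[X]).eval y) = p * a ∧
      π a * (π x * π y) = (-1) ^ n * (π x * π y) ^ p := by
  have hpk : (p : k) = 0 := CharP.cast_eq_zero k p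
  have hpR : (p : R) ≠ 0 := by exact_mod_cast (Fact.out : p.Prime).ne_zero
  have hpn : (p : R) = 2 * n + 1 := by rw [hn]; push_cast; ring
  have hx1R : (1 + x : R) ≠ 0 := fun h => hx1 (by rw [h, map_zero])
  obtain ⟨q, hq⟩ := wx p π hker n hn h3 (1 : R)
  have h1 := congrArg (eval x) hq
  have hQ : (QQ n (1 : R)).eval x = (1 + x) ^ (4 * n) * (G2 n : R[X]).eval y := by
    have h2 := M_eval n x y hxy
    rw [PQ_eq, eval_mul] at h2
    apply mul_left_cancel₀ hx1R
    simp only [eval_add, eval_one, eval_mul, eval_C, eval_X, one_mul] at h2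
    rw [h2, pow_succ]
    ring
  unfold wr at h1
  simp only [eval_add, eval_sub, eval_mul, eval_pow, eval_C, eval_X, eval_one, M_eval n x y hxy,
    M_deriv_eval n x y hxy, hQ, one_pow, one_mul, mul_one] at h1
  set g0 := (G2 n : R[X]).eval x
  set g1 := (derivative (G2 n : R[X])).eval x
  set γ0 := (G2 n : R[X]).eval y
  set γ1 := (derivative (G2 n : R[X])).eval y
  have hξ : x * (1 - x ^ 2) = x * y * (1 + x) ^ 2 := by linear_combination -x * (1 + x) * hxy
  have h2 : x * y * (1 + x) ^ 2 * (1 + x) ^ (4 * n) * (g0 * γ0 + (1 + y) * (g0 * γ1)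
      + (1 + x) * (g1 * γ0)) = (p : R) * ((G2 n : R[X]).eval 1 * (x ^ p - x ^ (3 * p))
        - (p : R) * q.eval x) := by
    rw [← hξ]
    rw [pow_succ (1 + x) (4 * n)] at h1
    linear_combination -h1
  have nT : π (x * y * (1 + x) ^ 2 * (1 + x) ^ (4 * n)) ≠ 0 := by
    simp only [map_mul, map_pow]
    exact mul_ne_zero (mul_ne_zero (mul_ne_zero hx hy) (pow_ne_zero _ hx1)) (pow_ne_zero _ hx1)
  obtain ⟨a, ha⟩ : (p : R) ∣ g0 * γ0 + (1 + y) * (g0 * γ1) + (1 + x) * (g1 * γ0) := by
    apply hker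
    have := congrArg π h2
    rw [map_mul π (p : R), map_natCast, hpk, zero_mul, map_mul] at this
    exact (mul_eq_zero.mp this).resolve_left nT
  refine ⟨a, ha, ?_⟩
  rw [ha] at h2
  have h3' : x * y * (1 + x) ^ 2 * (1 + x) ^ (4 * n) * a
      = (G2 n : R[X]).eval 1 * (x ^ p - x ^ (3 * p)) - (p : R) * q.eval x := by
    apply mul_left_cancel₀ hpR
    linear_combination h2
  have e1 : (1 + x) ^ 2 * (1 + x) ^ (4 * n) = (1 + x) ^ (2 * p) := by
    rw [← pow_add]
    congr 1
    omega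
  obtain ⟨E, hE⟩ : ∃ E, E = x ^ p - x ^ (3 * p) := ⟨_, rfl⟩
  rw [show x * y * (1 + x) ^ 2 * (1 + x) ^ (4 * n) * a = x * y * a * ((1 + x) ^ 2 * (1 + x) ^ (4 * n)) by
    ring, e1, ← hE] at h3'
  have h4 := congrArg π h3'
  simp only [map_sub, map_mul, map_natCast, hpk, zero_mul, sub_zero, map_pow _ (1 + x),
    G2_one_modp p π n hn h3] at h4
  have e2 : π (x ^ p - x ^ (3 * p)) = (π x * π y) ^ p * (π (1 + x)) ^ (2 * p) := by
    have e3 := congrArg π hξ
    simp only [map_mul, map_sub, map_pow, map_one] at e3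
    rw [map_sub, map_pow, map_pow]
    rw [pow_mul (π (1 + x)) 2 p, ← mul_pow, ← e3, mul_pow, sub_pow_char, one_pow]
    ring
  rw [hE, e2] at h4
  apply mul_right_cancel₀ (pow_ne_zero (2 * p) hx1)
  linear_combination h4

/-- The ratio modulo `p`. -/
theorem ratio (x y : R) (hxy : (1 + x) * (1 + y) = 2) (hx1 : π (1 + x) ≠ 0) :
    π ((G2 n : R[X]).eval x) * π (1 + x)
      = (-1) ^ n * (π (1 + x)) ^ p * π ((G2 n : R[X]).eval y) := by
  have h1 := congrArg (eval (π x)) (PQ_modp p π n hn h3 (1 : R))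
  rw [eval_map_apply, M_eval n x y hxy, ← G2_map π n, G2_one_modp p π n hn h3] at h1
  simp only [eval_mul, eval_C, eval_pow, eval_add, eval_one, eval_X, eval_map_apply, map_mul,
    map_pow, map_one, one_mul] at h1
  have e1 : π (1 + x) ^ (4 * n + 1) * π (1 + x) = π (1 + x) ^ p * π (1 + x) ^ p := by
    rw [← pow_succ, ← pow_add]
    congr 1
    omega
  have e2 : ((-1 : k) ^ n) * (-1) ^ n = 1 := by rw [← mul_pow]; norm_num
  rw [show (1 + π x) = π (1 + x) by rw [map_add, map_one]] at h1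
  apply mul_left_cancel₀ (pow_ne_zero p hx1)
  linear_combination -((-1) ^ n * π (1 + x)) * h1
    + (-1) ^ n * π ((G2 n : R[X]).eval y) * e1
    - π ((G2 n : R[X]).eval x) * π (1 + x) ^ p * π (1 + x) * e2

end

end Pool.Agent.H99.Sun
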