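import Mathlib
import Pool.Agent.H99.Sun.Rel

/-! The relation coming from the 3-isogeny at the special point. -/

namespace Pool.Agent.H99.Sun

open Polynomial Finset Pool.Agent.H37.Sun

section
variable {R : Type*} [CommRing R] [IsDomain R] [CharZero R] {k : Type*} [Field k]
  (p : ℕ) [Fact p.Prime] [CharP k p] (π : R →+* k)
  (hker : ∀ x, π x = 0 → (p : R) ∣ x)
  (n : ℕ) (hn : p = 2 * n + 1) (h3 : 3 < p)
  (s t h : R) (hs : s ^ 2 = 2) (ht : t ^ 2 = 3) (hh : 2 * h = 1)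
include hker hn h3 hs ht hh

theorem relB (g3 : R) (hg3 : 3 * g3 = 1) (x y : R) (hx : x = -3 + 2 * s + 2 * t - s * t) (hy : y = -3 - 2 * s + 2 * t + s * t) :
    ∃ b : R, 2 * ((G2 n : R[X]).eval x * (G2 n : R[X]).eval y)
        + (-9 - 6 * s + 5 * t + 4 * (s * t))
          * ((G2 n : R[X]).eval x * (derivative (G2 n : R[X])).eval y)
        + (-9 + 6 * s + 5 * t - 4 * (s * t))
          * ((derivative (G2 n : R[X])).eval x * (G2 n : R[X]).eval y) = p * b ∧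
      π b * (10 - 6 * π t) = 2 * (10 - 6 * π t) ^ p := by
  have hpk : (p : k) = 0 := CharP.cast_eq_zero k p
  have hpR : (p : R) ≠ 0 := by exact_mod_cast (Fact.out : p.Prime).ne_zero
  have n2 : (2 : R) ≠ 0 := by norm_num
  obtain ⟨w1, hw, hw1⟩ := w3_final p π hker n hn h3 h hh
  obtain ⟨β, hβ⟩ : ∃ β, β = h * (-1 - t + s * t) := ⟨_, rfl⟩
  have hβ2 : 2 * β = -1 - t + s * t := by rw [hβ]; linear_combination (-1 - t + s * t) * hh
  have i1 : -β ^ 3 * (2 + β) = ((1 - β) * (1 + β) ^ 3) * y ^ 2 := by subst hy; grind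
  have i2 : -β * (2 + β) ^ 3 = ((1 - β) ^ 3 * (1 + β)) * x ^ 2 := by subst hx; grind
  have i3 : 3 * β ^ 2 = ((1 - β) * (1 + β) ^ 3) * y * (-9 - 6 * s + 5 * t + 4 * (s * t)) := by
    subst hy; grind
  have i4 : -((2 + β) * (1 + 2 * β)) ^ 2
      = ((1 - β) ^ 3 * (1 + β)) * x * (-9 + 6 * s + 5 * t - 4 * (s * t)) := by
    subst hx; grind
  have i5 : 2 * β * ((2 + β) * (1 + 2 * β)) = (1 - β ^ 2) ^ 2 * (10 - 6 * t) := by grind
  obtain ⟨M, hM⟩ : ∃ M, M = 1 - β ^ 2 := ⟨_, rfl⟩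
  have hMu : IsUnit M := by
    refine IsUnit.of_mul_eq_one ((3 - t) * (s + 1) * g3) ?_
    rw [hM]
    apply mul_left_cancel₀ n2
    grind
  have h2u : IsUnit (2 : R) := IsUnit.of_mul_eq_one _ hh
  have hLu : IsUnit (10 - 6 * t : R) := by
    refine isUnit_of_mul_isUnit_left (y := 10 + 6 * t) ?_
    have : (10 - 6 * t) * (10 + 6 * t) = -(2 * 2 * 2) := by linear_combination -36 * ht
    rw [this]
    exact ((h2u.mul h2u).mul h2u).neg
  have hev := congrArg (eval β) hw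
  rw [w3_eval, i5, w3a_eval, eval_mul, eval_C, i1, i2] at hev
  obtain ⟨Q1, hQ1⟩ : ∃ Q1, Q1 = (1 - β) * (1 + β) ^ 3 := ⟨_, rfl⟩
  obtain ⟨Q2, hQ2⟩ : ∃ Q2, Q2 = (1 - β) ^ 3 * (1 + β) := ⟨_, rfl⟩
  have qq : Q1 * Q2 = M ^ 4 := by rw [hQ1, hQ2, hM]; ring
  rw [← hQ1, ← hQ2, ← hM] at hev
  rw [← hQ1] at i3
  rw [← hQ2] at i4
  have g1 := hf_mul n (y ^ 2) Q1
  have g2 := hp_mul n (y ^ 2) Q1
  have g3' := hf_mul n (x ^ 2) Q2
  have g4 := hp_mul n (x ^ 2) Q2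
  rw [← Hh_eval, ← G2_eval'] at g1 g3'
  rw [← Hh_deriv_eval] at g2 g4
  have dx := G2_deriv_eval n x
  have dy := G2_deriv_eval n y
  set a0 := (G2 n : R[X]).eval x
  set b0 := (G2 n : R[X]).eval y
  set a1 := (derivative (G2 n : R[X])).eval x
  set b1 := (derivative (G2 n : R[X])).eval y
  set c1 := (derivative (Hh n : R[X])).eval (x ^ 2)
  set d1 := (derivative (Hh n : R[X])).eval (y ^ 2)
  set A0 := hf n (Q1 * y ^ 2) Q1
  set h1 := hp n (Q1 * y ^ 2) Q1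
  set B0 := hf n (Q2 * x ^ 2) Q2
  set g := hp n (Q2 * x ^ 2) Q2
  have hpow : Q1 ^ n * Q2 ^ n = M ^ (4 * n) := by rw [← mul_pow, qq, ← pow_mul]
  have m1 : 2 * (p * w1.eval β) = M ^ 2 * (10 - 6 * t) * M ^ (4 * n) * (2 * (a0 * b0)
      + (-9 - 6 * s + 5 * t + 4 * (s * t)) * (a0 * b1)
      + (-9 + 6 * s + 5 * t - 4 * (s * t)) * (a1 * b0)) := by
    rw [← hpow]
    linear_combination (-2) * hev + M ^ 2 * (10 - 6 * t) * (2 * B0 * g1 + 2 * Q1 ^ n * b0 * g3'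
      + 2 * h1 * B0 * i3 + 2 * y * (-9 - 6 * s + 5 * t + 4 * (s * t)) * B0 * g2
      + 2 * y * (-9 - 6 * s + 5 * t + 4 * (s * t)) * Q1 ^ n * d1 * g3'
      - Q1 ^ n * Q2 ^ n * (-9 - 6 * s + 5 * t + 4 * (s * t)) * a0 * dy
      + 2 * g * A0 * i4 + 2 * x * (-9 + 6 * s + 5 * t - 4 * (s * t)) * A0 * g4
      + 2 * x * (-9 + 6 * s + 5 * t - 4 * (s * t)) * Q2 ^ n * c1 * g1
      - Q1 ^ n * Q2 ^ n * (-9 + 6 * s + 5 * t - 4 * (s * t)) * b0 * dx)
  obtain ⟨Mi, hMi⟩ := (((hMu.pow 2).mul hLu).mul (hMu.pow (4 * n))).exists_right_inv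
  refine ⟨2 * w1.eval β * Mi, ?_, ?_⟩
  · linear_combination -Mi * m1 - (2 * (a0 * b0)
      + (-9 - 6 * s + 5 * t + 4 * (s * t)) * (a0 * b1)
      + (-9 + 6 * s + 5 * t - 4 * (s * t)) * (a1 * b0)) * hMi
  · have h2p : (2 : k) ^ p = 2 := by
      have := map_natCast (frobenius k p) 2
      rw [frobenius_def] at this
      exact_mod_cast this
    have e5 : 2 * π β * ((2 + π β) * (1 + 2 * π β)) = (π M) ^ 2 * (10 - 6 * π t) := by
      have := congrArg π i5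
      rw [← hM] at this
      simpa only [map_mul, map_add, map_sub, map_pow, map_ofNat, map_one] using this
    have e1 : π (w1.eval β) = ((π M) ^ 2 * (10 - 6 * π t)) ^ p := by
      rw [← eval_map_apply, hw1, expand_eval]
      simp only [eval_mul, eval_add, eval_X, eval_ofNat, eval_one]
      have e2 : (2 + (π β) ^ p) = (2 + π β) ^ p := by
        rw [add_pow_char, h2p]
      have e3 : (1 + 2 * (π β) ^ p) = (1 + 2 * π β) ^ p := by
        rw [add_pow_char, one_pow, mul_pow, h2p]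
      have e4 : 2 * (π β) ^ p = (2 * π β) ^ p := by rw [mul_pow, h2p]
      rw [e2, e3, e4, ← mul_pow, ← mul_pow, e5]
    have e6 : (π M) ^ 2 * (10 - 6 * π t) * (π M) ^ (4 * n) * π Mi = 1 := by
      have := congrArg π hMi
      simpa only [map_mul, map_pow, map_sub, map_ofNat, map_one] using this
    have e7 : ((π M) ^ 2 * (10 - 6 * π t)) ^ p
        = (π M) ^ 2 * (π M) ^ (4 * n) * (10 - 6 * π t) ^ p := by
      rw [mul_pow, ← pow_mul, ← pow_add]
      congr 2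
      omega
    rw [map_mul, map_mul, map_ofNat, e1, e7]
    linear_combination 2 * (10 - 6 * π t) ^ p * e6

end

end Pool.Agent.H99.Sun
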