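import Mathlib
import Pool.Agent.H99.Sun.Jet
import Pool.Agent.H99.Sun.Num
import Pool.Agent.H99.Sun.Fin
import Pool.Agent.H99.Sun.RelB

/-! The second order formula at the special point 2. -/

namespace Pool.Agent.H99.Sun

open Polynomial Finset Pool.Agent.H37.Sun

section
variable {R : Type*} [CommRing R] [IsDomain R] [CharZero R] {k : Type*} [Field k]
  (p : ℕ) [Fact p.Prime] [CharP k p] (π : R →+* k)
  (hker : ∀ x, π x = 0 → (p : R) ∣ x)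
  (n : ℕ) (hn : p = 2 * n + 1) (h3 : 3 < p)
include hker hn h3

theorem core2 (hun : ∀ x : R, π x ≠ 0 → IsUnit x) (s t ρ : R) (hs : s ^ 2 = 2) (ht : t ^ 2 = 3) (hρ : 4 * ρ = 1)
    (S T e : k) (hS : (π s) ^ p = S) (hT : (π t) ^ p = T) (he : (-1 : k) ^ n = e)
    (ng : π ((G2 n : R[X]).eval (-3 + 2*s + 2*t - 1*(s*t))) ≠ 0)
    (nγ : π ((G2 n : R[X]).eval (-3 - 2*s + 2*t + 1*(s*t))) ≠ 0) :
    ∃ (ω : R) (a3 b3 μ3 μ by3 a2 bx bY D z0 z1 : k), 5 * F0 n ρ + 16 * F1 n ρ = p * ω ∧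
      (a3 * (7 - 4 * π t) = e * (7 - 4*T)) ∧
      (b3 * (10 - 6 * π t) = 2 * (10 - 6*T)) ∧
      (μ3 * (-2 + 2*π s + 2*π t - 1*(π s*π t)) = e * (-2 + 2*S + 2*T - 1*(S*T))) ∧
      (μ * (4 - 2*π s + 2*π t - 1*(π s*π t)) = e * (4 - 2*S + 2*T - 1*(S*T))) ∧
      (12 * by3 = 3 * (-2 + 2*π s + 2*π t - 1*(π s*π t)) * a3 + (3 - 1*π t + 2*(π s*π t)) * b3) ∧
      (bY * μ3 = -(by3 * μ)) ∧
      (a2 * (-5 + 2*(π s*π t)) = e * (-5 + 2*(S*T))) ∧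
      (2 * bx = (4 + 2*π s - 2*π t - 1*(π s*π t)) * (a2 - (4 + 2*π s - 2*π t - 1*(π s*π t)) * bY)) ∧
      (D = (84576 - 61296*π s + 50048*π t - 34528*(π s*π t)) * bx + (84576 + 61296*π s - 50048*π t - 34528*(π s*π t)) * bY) ∧
      (z0 = (3 + 2*S - 2*T - 1*(S*T)) * (-402 + 284*S - 232*T + 164*(S*T)) * (-348 - 240*π s + 196*π t + 142*(π s*π t)) + (3 - 2*S + 2*T - 1*(S*T)) * (-402 - 284*S + 232*T + 164*(S*T)) * (-348 + 240*π s - 196*π t + 142*(π s*π t)) * μ ^ 2) ∧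
      (z1 = (3 + 2*S - 2*T - 1*(S*T)) * (-402 + 284*S - 232*T + 164*(S*T)) * (-4272 - 2964*π s + 2420*π t + 1744*(π s*π t)) + (3 - 2*S + 2*T - 1*(S*T)) * (-402 - 284*S + 232*T + 164*(S*T)) * (-4272 + 2964*π s - 2420*π t + 1744*(π s*π t)) * μ ^ 2) ∧
      (μ * (-4 + 2*(S*T)) ^ 2 * (196 - 80*(π s*π t)) ^ 2 * (6) * π ω = 4 * ((196 - 80*(π s*π t)) * μ * (-4 + 2*(S*T)) * D + (-4 + 2*(π s*π t)) * (4272 - 1744*(π s*π t)) * z0 - (196 - 80*(π s*π t)) * ((-4 + 2*(π s*π t)) * z1 + 2 * (-24 + 10*(π s*π t)) * z0))) ∧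
      (μ * (-4 + 2*(S*T)) ^ 2 * (196 - 80*(π s*π t)) ^ 2 * (6) ≠ 0) := by
  have n2k : (2 : k) ≠ 0 := by exact_mod_cast cast_ne (k := k) p 2 (by norm_num) (by omega)
  have n3k : (3 : k) ≠ 0 := by exact_mod_cast cast_ne (k := k) p 3 (by norm_num) (by omega)
  have n4k : (4 : k) ≠ 0 := by
    rw [show (4 : k) = 2 * 2 by norm_num]
    exact mul_ne_zero n2k n2k
  have n6k : (6 : k) ≠ 0 := by
    rw [show (6 : k) = 2 * 3 by norm_num]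
    exact mul_ne_zero n2k n3k
  obtain ⟨h, hh⟩ := (hun 2 (by rw [map_ofNat]; exact n2k)).exists_right_inv
  obtain ⟨g, hg⟩ := (hun 3 (by rw [map_ofNat]; exact n3k)).exists_right_inv
  have ne_of : ∀ (a b c : R), a * b = c → π c ≠ 0 → π a ≠ 0 := by
    intro a b c hab hc h0
    apply hc
    rw [← hab, map_mul, h0, zero_mul]
  have c2 : π (2 : R) ≠ 0 := by rw [map_ofNat]; exact n2k
  have c1 : π (1 : R) ≠ 0 := by rw [map_one]; exact one_ne_zero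
  have c4 : π (4 : R) ≠ 0 := by rw [map_ofNat]; exact n4k
  have hxy3 : (1 + (-3 + 2*s + 2*t - 1*(s*t))) * (1 + (-3 - 2*s + 2*t + 1*(s*t))) = 2 := by linear_combination ((-1)*t^2 + 4*t + (-4)) * hs + (2) * ht
  have hx13 : π (1 + (-3 + 2*s + 2*t - 1*(s*t))) ≠ 0 := ne_of _ _ _ hxy3 c2
  have hx3 : π (-3 + 2*s + 2*t - 1*(s*t)) ≠ 0 := ne_of _ (3 - 2*s + 2*t - 1*(s*t)) 1 (by linear_combination (1*t^2 + (-4)) * hs + ((-4)*s + 6) * ht) c1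
  have hy3 : π (-3 - 2*s + 2*t + 1*(s*t)) ≠ 0 := ne_of _ (3 + 2*s + 2*t + 1*(s*t)) 1 (by linear_combination (1*t^2 + (-4)) * hs + (4*s + 6) * ht) c1
  obtain ⟨a, ha, ha2⟩ := relA p π hker n hn h3 (-3 + 2*s + 2*t - 1*(s*t)) (-3 - 2*s + 2*t + 1*(s*t)) hxy3 hx13 hx3 hy3
  obtain ⟨b, hb, hb2⟩ := relB p π hker n hn h3 s t h hs ht hh g hg (-3 + 2*s + 2*t - 1*(s*t)) (-3 - 2*s + 2*t + 1*(s*t)) (by ring) (by ring)
  have hr3 := ratio p π hker n hn h3 (-3 + 2*s + 2*t - 1*(s*t)) (-3 - 2*s + 2*t + 1*(s*t)) hxy3 hx13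
  have k12 : (12 : R) ≠ 0 := by norm_num
  have k2 : (2 : R) ≠ 0 := by norm_num
  obtain ⟨bx3, hbx3⟩ : ∃ bx3, bx3 = h ^ 2 * g * (3 * (1 + (-3 - 2*s + 2*t + 1*(s*t))) * a + (3 - 1*t - 2*(s*t)) * b) := ⟨_, rfl⟩
  obtain ⟨by3, hby3⟩ : ∃ by3, by3 = h ^ 2 * g * (3 * (1 + (-3 + 2*s + 2*t - 1*(s*t))) * a + (3 - 1*t + 2*(s*t)) * b) := ⟨_, rfl⟩
  have hg12 : 12 * (h ^ 2 * g) = 1 := by linear_combination (3 * g * (2 * h + 1)) * hh + hg
  have hbx12 : 12 * bx3 = 3 * (1 + (-3 - 2*s + 2*t + 1*(s*t))) * a + (3 - 1*t - 2*(s*t)) * b := by rw [hbx3]; linear_combination (3 * (1 + (-3 - 2*s + 2*t + 1*(s*t))) * a + (3 - 1*t - 2*(s*t)) * b) * hg12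
  have hby12 : 12 * by3 = 3 * (1 + (-3 + 2*s + 2*t - 1*(s*t))) * a + (3 - 1*t + 2*(s*t)) * b := by rw [hby3]; linear_combination (3 * (1 + (-3 + 2*s + 2*t - 1*(s*t))) * a + (3 - 1*t + 2*(s*t)) * b) * hg12
  obtain ⟨lx3, hlx3⟩ : ∃ lx3, lx3 = h ^ 2 * g * (0 + 6*s - 4*t + 1*(s*t)) := ⟨_, rfl⟩
  obtain ⟨ly3, hly3⟩ : ∃ ly3, ly3 = h ^ 2 * g * (0 - 6*s - 4*t - 1*(s*t)) := ⟨_, rfl⟩
  have hlx12 : 12 * lx3 = (0 + 6*s - 4*t + 1*(s*t)) := by rw [hlx3]; linear_combination (0 + 6*s - 4*t + 1*(s*t)) * hg12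
  have hly12 : 12 * ly3 = (0 - 6*s - 4*t - 1*(s*t)) := by rw [hly3]; linear_combination (0 - 6*s - 4*t - 1*(s*t)) * hg12
  have E1a : 3 * (1 + (-3 - 2*s + 2*t + 1*(s*t))) + 2 * (3 - 1*t - 2*(s*t)) = -(0 + 6*s - 4*t + 1*(s*t)) := by linear_combination (0) * hs + (0) * ht
  have E1b : 3 * (1 + (-3 - 2*s + 2*t + 1*(s*t))) * (1 + (-3 - 2*s + 2*t + 1*(s*t))) + (3 - 1*t - 2*(s*t)) * (-9 - 6 * s + 5 * t + 4 * (s * t)) = 0 := by linear_combination ((-5)*t^2 + 12) * hs + ((-2)*s + (-3)) * ht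
  have E1c : 3 * (1 + (-3 - 2*s + 2*t + 1*(s*t))) * (1 + (-3 + 2*s + 2*t - 1*(s*t))) + (3 - 1*t - 2*(s*t)) * (-9 + 6 * s + 5 * t - 4 * (s * t)) = 12 := by linear_combination (5*t^2 + (-12)) * hs + ((-6)*s + 17) * ht
  have E2a : 3 * (1 + (-3 + 2*s + 2*t - 1*(s*t))) + 2 * (3 - 1*t + 2*(s*t)) = -(0 - 6*s - 4*t - 1*(s*t)) := by linear_combination (0) * hs + (0) * ht
  have E2b : 3 * (1 + (-3 + 2*s + 2*t - 1*(s*t))) * (1 + (-3 - 2*s + 2*t + 1*(s*t))) + (3 - 1*t + 2*(s*t)) * (-9 - 6 * s + 5 * t + 4 * (s * t)) = 12 := by linear_combination (5*t^2 + (-12)) * hs + (6*s + 17) * ht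
  have E2c : 3 * (1 + (-3 + 2*s + 2*t - 1*(s*t))) * (1 + (-3 + 2*s + 2*t - 1*(s*t))) + (3 - 1*t + 2*(s*t)) * (-9 + 6 * s + 5 * t - 4 * (s * t)) = 0 := by linear_combination ((-5)*t^2 + 12) * hs + (2*s + (-3)) * ht
  obtain ⟨A0, hA0⟩ : ∃ A0, A0 = (G2 n : R[X]).eval (-3 + 2*s + 2*t - 1*(s*t)) := ⟨_, rfl⟩
  obtain ⟨B0, hB0⟩ : ∃ B0, B0 = (G2 n : R[X]).eval (-3 - 2*s + 2*t + 1*(s*t)) := ⟨_, rfl⟩
  obtain ⟨A1, hA1⟩ : ∃ A1, A1 = (derivative (G2 n : R[X])).eval (-3 + 2*s + 2*t - 1*(s*t)) := ⟨_, rfl⟩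
  obtain ⟨B1, hB1⟩ : ∃ B1, B1 = (derivative (G2 n : R[X])).eval (-3 - 2*s + 2*t + 1*(s*t)) := ⟨_, rfl⟩
  rw [← hA0, ← hB0, ← hA1, ← hB1] at ha hb
  rw [← hA0, ← hB0] at hr3
  rw [← hA0] at ng
  rw [← hB0] at nγ
  have hxx3 : A1 * B0 = lx3 * (A0 * B0) + p * bx3 := by
    apply mul_left_cancel₀ k12
    linear_combination (3 * (1 + (-3 - 2*s + 2*t + 1*(s*t)))) * ha + (3 - 1*t - 2*(s*t)) * hb - (A0 * B0) * E1a - (A0 * B1) * E1b - (A1 * B0) * E1c - (A0 * B0) * hlx12 - p * hbx12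
  have hyy3 : A0 * B1 = ly3 * (A0 * B0) + p * by3 := by
    apply mul_left_cancel₀ k12
    linear_combination (3 * (1 + (-3 + 2*s + 2*t - 1*(s*t)))) * ha + (3 - 1*t + 2*(s*t)) * hb - (A0 * B0) * E2a - (A0 * B1) * E2b - (A1 * B0) * E2c - (A0 * B0) * hly12 - p * hby12
  obtain ⟨μ3, hμ3⟩ : ∃ μ3, μ3 = π A0 / π B0 := ⟨_, rfl⟩
  have hμ3b : π A0 = μ3 * π B0 := by rw [hμ3, div_mul_cancel₀ _ nγ]
  have nμ3 : μ3 ≠ 0 := by intro h0; apply ng; rw [hμ3b, h0, zero_mul]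
  have f1 : (π (1 + (-3 + 2*s + 2*t - 1*(s*t)))) ^ p = (-2 + 2*S + 2*T - 1*(S*T)) := by
    rw [← hS, ← hT]
    simp only [← frobenius_def, map_add, map_sub, map_mul, map_neg, map_ofNat, map_one]
    ring
  have hμ3c : μ3 * (-2 + 2*π s + 2*π t - 1*(π s*π t)) = e * (-2 + 2*S + 2*T - 1*(S*T)) := by
    rw [f1, he, hμ3b] at hr3
    have h5 : π (1 + (-3 + 2*s + 2*t - 1*(s*t))) = (-2 + 2*π s + 2*π t - 1*(π s*π t)) := by
      simp only [map_add, map_sub, map_mul, map_neg, map_ofNat, map_one]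
      ring
    rw [h5] at hr3
    apply mul_right_cancel₀ nγ
    linear_combination hr3
  have f2 : ((-3 + 2*s + 2*t - 1*(s*t)) * (-3 - 2*s + 2*t + 1*(s*t)) : R) = 7 - 4 * t := by linear_combination ((-1)*t^2 + 4*t + (-4)) * hs + (2) * ht
  have ha3 : π a * (7 - 4 * π t) = e * (7 - 4*T) := by
    rw [← map_mul, f2, he, ← frobenius_def] at ha2
    rw [← hT]
    simpa only [← frobenius_def, map_add, map_sub, map_mul, map_neg, map_ofNat, map_one] using ha2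
  have hb3 : π b * (10 - 6 * π t) = 2 * (10 - 6*T) := by
    rw [← frobenius_def] at hb2
    rw [← hT]
    simpa only [← frobenius_def, map_add, map_sub, map_mul, map_neg, map_ofNat, map_one] using hb2
  have hbx3k : 12 * π bx3 = 3 * (-2 - 2*π s + 2*π t + 1*(π s*π t)) * π a + (3 - 1*π t - 2*(π s*π t)) * π b := by
    have := congrArg π hbx12
    simp only [map_add, map_sub, map_mul, map_neg, map_ofNat, map_one] at this
    linear_combination this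
  have hby3k : 12 * π by3 = 3 * (-2 + 2*π s + 2*π t - 1*(π s*π t)) * π a + (3 - 1*π t + 2*(π s*π t)) * π b := by
    have := congrArg π hby12
    simp only [map_add, map_sub, map_mul, map_neg, map_ofNat, map_one] at this
    linear_combination this
  have eB0 : B0 = (G2 n : R[X]).eval (3 + 2*s - 2*t - 1*(s*t)) := by
    rw [hB0, G2_eval', G2_eval']
    congr 1
    ring
  have eB1 : (derivative (G2 n : R[X])).eval (3 + 2*s - 2*t - 1*(s*t)) = -B1 := by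
    rw [hB1, G2_deriv_eval, G2_deriv_eval, show (3 + 2*s - 2*t - 1*(s*t)) ^ 2 = (-3 - 2*s + 2*t + 1*(s*t)) ^ 2 by ring]
    ring
  have hxy2 : (1 + (3 - 2*s + 2*t - 1*(s*t))) * (1 + (3 + 2*s - 2*t - 1*(s*t))) = 2 := by linear_combination (1*t^2 + (-4)) * hs + ((-2)) * ht
  have hx12 : π (1 + (3 - 2*s + 2*t - 1*(s*t))) ≠ 0 := ne_of _ _ _ hxy2 c2
  have hx2 : π (3 - 2*s + 2*t - 1*(s*t)) ≠ 0 := ne_of _ (-3 + 2*s + 2*t - 1*(s*t)) 1 (by linear_combination (1*t^2 + (-4)) * hs + ((-4)*s + 6) * ht) c1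
  have hy2 : π (3 + 2*s - 2*t - 1*(s*t)) ≠ 0 := ne_of _ (-3 - 2*s - 2*t - 1*(s*t)) 1 (by linear_combination (1*t^2 + (-4)) * hs + (4*s + 6) * ht) c1
  obtain ⟨a2, hq, hq2⟩ := relA p π hker n hn h3 (3 - 2*s + 2*t - 1*(s*t)) (3 + 2*s - 2*t - 1*(s*t)) hxy2 hx12 hx2 hy2
  have hr2 := ratio p π hker n hn h3 (3 - 2*s + 2*t - 1*(s*t)) (3 + 2*s - 2*t - 1*(s*t)) hxy2 hx12
  rw [eB1, ← eB0] at hq
  rw [← eB0] at hr2
  obtain ⟨D0, hD0⟩ : ∃ D0, D0 = (G2 n : R[X]).eval (3 - 2*s + 2*t - 1*(s*t)) := ⟨_, rfl⟩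
  obtain ⟨D1, hD1⟩ : ∃ D1, D1 = (derivative (G2 n : R[X])).eval (3 - 2*s + 2*t - 1*(s*t)) := ⟨_, rfl⟩
  rw [← hD0, ← hD1] at hq
  rw [← hD0] at hr2
  obtain ⟨Ai, hAi⟩ := (hun A0 ng).exists_right_inv
  have f3 : (π (1 + (3 - 2*s + 2*t - 1*(s*t)))) ^ p = (4 - 2*S + 2*T - 1*(S*T)) := by
    rw [← hS, ← hT]
    simp only [← frobenius_def, map_add, map_sub, map_mul, map_neg, map_ofNat, map_one]
    ring
  have h6 : π (1 + (3 - 2*s + 2*t - 1*(s*t))) = (4 - 2*π s + 2*π t - 1*(π s*π t)) := by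
    simp only [map_add, map_sub, map_mul, map_neg, map_ofNat, map_one]
    ring
  have nD : π D0 ≠ 0 := by
    intro h0
    rw [h0, zero_mul] at hr2
    have : (-1 : k) ^ n * π (1 + (3 - 2*s + 2*t - 1*(s*t))) ^ p * π B0 ≠ 0 :=
      mul_ne_zero (mul_ne_zero (pow_ne_zero _ (neg_ne_zero.mpr one_ne_zero)) (pow_ne_zero _ hx12)) nγ
    exact this hr2.symm
  obtain ⟨μ, hμd⟩ : ∃ μ, μ = π D0 / π B0 := ⟨_, rfl⟩
  have hμb : π D0 = μ * π B0 := by rw [hμd, div_mul_cancel₀ _ nγ]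
  have nμ : μ ≠ 0 := by intro h0; apply nD; rw [hμb, h0, zero_mul]
  have hμc : μ * (4 - 2*π s + 2*π t - 1*(π s*π t)) = e * (4 - 2*S + 2*T - 1*(S*T)) := by
    rw [f3, he, hμb, h6] at hr2
    apply mul_right_cancel₀ nγ
    linear_combination hr2
  obtain ⟨bY, hbY⟩ : ∃ bY, bY = -(by3 * D0 * Ai) := ⟨_, rfl⟩
  obtain ⟨bx, hbx⟩ : ∃ bx, bx = h * (1 + (3 + 2*s - 2*t - 1*(s*t))) * (a2 - (1 + (3 + 2*s - 2*t - 1*(s*t))) * bY) := ⟨_, rfl⟩
  have hly2 : 12 * (-ly3) = (0 + 6*s + 4*t + 1*(s*t)) := by linear_combination -hly12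
  obtain ⟨lx2, hlx2⟩ : ∃ lx2, lx2 = h ^ 2 * g * (0 - 6*s - 4*t + 1*(s*t)) := ⟨_, rfl⟩
  have hlx22 : 12 * lx2 = (0 - 6*s - 4*t + 1*(s*t)) := by rw [hlx2]; linear_combination (0 - 6*s - 4*t + 1*(s*t)) * hg12
  have hyy : D0 * -B1 = (-ly3) * (D0 * B0) + p * bY := by
    rw [hbY]
    linear_combination (-(D0 * Ai)) * hyy3 + (D0 * B1 - ly3 * D0 * B0) * hAi
  have hbx2 : 2 * bx = (1 + (3 + 2*s - 2*t - 1*(s*t))) * (a2 - (1 + (3 + 2*s - 2*t - 1*(s*t))) * bY) := by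
    rw [hbx]
    linear_combination ((1 + (3 + 2*s - 2*t - 1*(s*t))) * (a2 - (1 + (3 + 2*s - 2*t - 1*(s*t))) * bY)) * hh
  have E3 : 12 * (1 + (3 + 2*s - 2*t - 1*(s*t))) + (1 + (3 + 2*s - 2*t - 1*(s*t))) ^ 2 * (0 + 6*s + 4*t + 1*(s*t)) = -(2 * (0 - 6*s - 4*t + 1*(s*t))) := by linear_combination (1*s*t^3 + 2*s*t^2 + (-20)*s*t + 24*s + 8*t^3 + (-8)*t^2 + (-64)*t + 96) * hs + (22*s*t + (-52)*s + 32*t + (-80)) * ht
  have k24 : (24 : R) ≠ 0 := by norm_num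
  have hxx : D1 * B0 = lx2 * (D0 * B0) + p * bx := by
    apply mul_left_cancel₀ k24
    linear_combination (-12 * (D1 * B0)) * hxy2 + (12 * (1 + (3 + 2*s - 2*t - 1*(s*t)))) * hq - (12 * (1 + (3 + 2*s - 2*t - 1*(s*t))) ^ 2) * hyy - (D0 * B0) * E3 - (2 * (D0 * B0)) * hlx22 - ((1 + (3 + 2*s - 2*t - 1*(s*t))) ^ 2 * (D0 * B0)) * hly2 - 12 * p * hbx2
  have hAik : π A0 * π Ai = 1 := by rw [← map_mul, hAi, map_one]
  have hbYk : π bY * μ3 = -(π by3 * μ) := by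
    apply mul_right_cancel₀ nγ
    rw [hbY, map_neg, map_mul, map_mul]
    linear_combination (π by3 * π D0 * π Ai) * hμ3b - (π by3 * π D0) * hAik - (π by3) * hμb
  have f4 : ((3 - 2*s + 2*t - 1*(s*t)) * (3 + 2*s - 2*t - 1*(s*t)) : R) = (-5 + 2*(s*t)) := by linear_combination (1*t^2 + (-4)) * hs + ((-2)) * ht
  have hq3 : π a2 * (-5 + 2*(π s*π t)) = e * (-5 + 2*(S*T)) := by
    rw [← map_mul, f4, he, ← frobenius_def] at hq2
    rw [← hS, ← hT]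
    simpa only [← frobenius_def, map_add, map_sub, map_mul, map_neg, map_ofNat, map_one] using hq2
  have hbxk : 2 * π bx = (4 + 2*π s - 2*π t - 1*(π s*π t)) * (π a2 - (4 + 2*π s - 2*π t - 1*(π s*π t)) * π bY) := by
    have := congrArg π hbx2
    simp only [map_add, map_sub, map_mul, map_neg, map_ofNat, map_one] at this
    linear_combination this
  rw [hD0, eB0, hD1] at hxx
  rw [hD0, ← eB1, eB0] at hyy
  rw [hD0, eB0] at hμb
  rw [hD0] at nD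
  rw [eB0] at nγ
  obtain ⟨u2, hu2⟩ : ∃ u2, u2 = h * (108 - 72*s + 62*t - 43*(s*t)) := ⟨_, rfl⟩
  obtain ⟨v2, hv2⟩ : ∃ v2, v2 = h * (108 + 72*s - 62*t - 43*(s*t)) := ⟨_, rfl⟩
  have hu : 2 * u2 = (108 - 72*s + 62*t - 43*(s*t)) := by rw [hu2]; linear_combination (108 - 72*s + 62*t - 43*(s*t)) * hh
  have hv : 2 * v2 = (108 + 72*s - 62*t - 43*(s*t)) := by rw [hv2]; linear_combination (108 + 72*s - 62*t - 43*(s*t)) * hh
  have nW : π (-4 + 2*(s*t)) ≠ 0 := ne_of _ (2 + 1*(s*t)) 4 (by linear_combination (2*t^2) * hs + (4) * ht) c4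
  have nξ : π (-402 + 284*s - 232*t + 164*(s*t)) ≠ 0 := ne_of _ (-18 + 4*s + 8*t - 4*(s*t)) 4 (by linear_combination ((-656)*t^2 + (-480)*t + 1136) * hs + (2240*s + (-3168)) * ht) c4
  have nψ : π (-402 - 284*s + 232*t + 164*(s*t)) ≠ 0 := ne_of _ (-18 - 4*s - 8*t - 4*(s*t)) 4 (by linear_combination ((-656)*t^2 + 480*t + 1136) * hs + ((-2240)*s + (-3168)) * ht) c4
  have gX : (π (3 - 2*s + 2*t - 1*(s*t))) ^ p = (3 - 2*S + 2*T - 1*(S*T)) := by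
    rw [← hS, ← hT]
    simp only [← frobenius_def, map_add, map_sub, map_mul, map_neg, map_ofNat, map_one]
  have gY : (π (3 + 2*s - 2*t - 1*(s*t))) ^ p = (3 + 2*S - 2*T - 1*(S*T)) := by
    rw [← hS, ← hT]
    simp only [← frobenius_def, map_add, map_sub, map_mul, map_neg, map_ofNat, map_one]
  have gW : (π (-4 + 2*(s*t))) ^ p = (-4 + 2*(S*T)) := by
    rw [← hS, ← hT]
    simp only [← frobenius_def, map_add, map_sub, map_mul, map_neg, map_ofNat, map_one]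
  have gξ : (π (-402 + 284*s - 232*t + 164*(s*t))) ^ p = (-402 + 284*S - 232*T + 164*(S*T)) := by
    rw [← hS, ← hT]
    simp only [← frobenius_def, map_add, map_sub, map_mul, map_neg, map_ofNat, map_one]
  have gψ : (π (-402 - 284*s + 232*t + 164*(s*t))) ^ p = (-402 - 284*S + 232*T + 164*(S*T)) := by
    rw [← hS, ← hT]
    simp only [← frobenius_def, map_add, map_sub, map_mul, map_neg, map_ofNat, map_one]
  have hcub : ∀ z : k, z ^ p - z ^ (3 * p) = (z * (1 - z ^ 2)) ^ p := by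
    intro z
    rw [show z * (1 - z ^ 2) = z - z ^ 3 by ring, sub_pow_char, ← pow_mul]
  have m1 : (π (3 - 2*s + 2*t - 1*(s*t))) ^ p - (π (3 - 2*s + 2*t - 1*(s*t))) ^ (3 * p) = (-402 + 284*S - 232*T + 164*(S*T)) := by
    rw [hcub, ← gξ, p2_xi0 s t hs ht]
    simp only [map_mul, map_sub, map_pow, map_one]
  have m2 : (π (3 + 2*s - 2*t - 1*(s*t))) ^ p - (π (3 + 2*s - 2*t - 1*(s*t))) ^ (3 * p) = (-402 - 284*S + 232*T + 164*(S*T)) := by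
    rw [hcub, ← gψ, p2_ps0 s t hs ht]
    simp only [map_mul, map_sub, map_pow, map_one]
  have m3 : π (18 - 12*s + 10*t - 7*(s*t)) * π (-402 - 284*s + 232*t + 164*(s*t)) = (-348 - 240*π s + 196*π t + 142*(π s*π t)) := by
    have := congrArg π (p2_x1ps0 s t hs ht)
    simp only [map_add, map_sub, map_mul, map_neg, map_ofNat, map_one, map_pow] at this ⊢
    linear_combination this
  have m4 : π (18 + 12*s - 10*t - 7*(s*t)) * π (-402 + 284*s - 232*t + 164*(s*t)) = (-348 + 240*π s - 196*π t + 142*(π s*π t)) := by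
    have := congrArg π (p2_y1xi0 s t hs ht)
    simp only [map_add, map_sub, map_mul, map_neg, map_ofNat, map_one, map_pow] at this ⊢
    linear_combination this
  have m5 : 2 * π u2 * π (-402 - 284*s + 232*t + 164*(s*t)) + π (18 - 12*s + 10*t - 7*(s*t)) * π (-7164 - 5064*s + 4136*t + 2924*(s*t)) + 2 * π (18 - 12*s + 10*t - 7*(s*t)) * π (18 + 12*s - 10*t - 7*(s*t)) * π (-402 - 284*s + 232*t + 164*(s*t)) * π (-ly3) = (-4272 - 2964*π s + 2420*π t + 1744*(π s*π t)) := by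
    have := congrArg π (p2_Ax s t u2 (-ly3) hs ht hu hly2)
    simp only [map_add, map_sub, map_mul, map_neg, map_ofNat, map_one, map_pow] at this ⊢
    linear_combination this
  have m6 : 2 * π v2 * π (-402 + 284*s - 232*t + 164*(s*t)) + π (18 + 12*s - 10*t - 7*(s*t)) * π (-7164 + 5064*s - 4136*t + 2924*(s*t)) + 2 * π (18 - 12*s + 10*t - 7*(s*t)) * π (18 + 12*s - 10*t - 7*(s*t)) * π (-402 + 284*s - 232*t + 164*(s*t)) * π lx2 = (-4272 + 2964*π s - 2420*π t + 1744*(π s*π t)) := by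
    have := congrArg π (p2_Ay s t v2 lx2 hs ht hv hlx22)
    simp only [map_add, map_sub, map_mul, map_neg, map_ofNat, map_one, map_pow] at this ⊢
    linear_combination this
  have r1 : (-402 + 284*s - 232*t + 164*(s*t)) * (-402 - 284*s + 232*t + 164*(s*t)) = (196 - 80*(s*t)) := by linear_combination (26896*t^2 + (-80656)) * hs + ((-32)) * ht
  have r2 : (-402 + 284*s - 232*t + 164*(s*t)) * (-7164 - 5064*s + 4136*t + 2924*(s*t)) + (-7164 + 5064*s - 4136*t + 2924*(s*t)) * (-402 - 284*s + 232*t + 164*(s*t)) = (4272 - 1744*(s*t)) := by linear_combination (959072*t^2 + (-2876352)) * hs + ((-960)) * ht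
  have m7 : π (-402 + 284*s - 232*t + 164*(s*t)) * π (-402 - 284*s + 232*t + 164*(s*t)) = (196 - 80*(π s*π t)) := by
    have := congrArg π (r1)
    simp only [map_add, map_sub, map_mul, map_neg, map_ofNat, map_one, map_pow] at this ⊢
    linear_combination this
  have m8 : π (-402 + 284*s - 232*t + 164*(s*t)) * π (-7164 - 5064*s + 4136*t + 2924*(s*t)) + π (-7164 + 5064*s - 4136*t + 2924*(s*t)) * π (-402 - 284*s + 232*t + 164*(s*t)) = (4272 - 1744*(π s*π t)) := by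
    have := congrArg π (r2)
    simp only [map_add, map_sub, map_mul, map_neg, map_ofNat, map_one, map_pow] at this ⊢
    linear_combination this
  obtain ⟨ω, hω, hω2⟩ := second p π hker n hn h3 (3 - 2*s + 2*t - 1*(s*t)) (18 - 12*s + 10*t - 7*(s*t)) u2 (3 + 2*s - 2*t - 1*(s*t)) (18 + 12*s - 10*t - 7*(s*t)) v2 (6) 5 ρ lx2 (-ly3) bx bY μ
    ((3 + 2*S - 2*T - 1*(S*T)) * (-402 + 284*S - 232*T + 164*(S*T)) * (-348 - 240*π s + 196*π t + 142*(π s*π t)) + (3 - 2*S + 2*T - 1*(S*T)) * (-402 - 284*S + 232*T + 164*(S*T)) * (-348 + 240*π s - 196*π t + 142*(π s*π t)) * μ ^ 2)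
    ((3 + 2*S - 2*T - 1*(S*T)) * (-402 + 284*S - 232*T + 164*(S*T)) * (-4272 - 2964*π s + 2420*π t + 1744*(π s*π t)) + (3 - 2*S + 2*T - 1*(S*T)) * (-402 - 284*S + 232*T + 164*(S*T)) * (-4272 + 2964*π s - 2420*π t + 1744*(π s*π t)) * μ ^ 2)
    (jetB (3 - 2*s + 2*t - 1*(s*t)) (18 - 12*s + 10*t - 7*(s*t)) u2 (3 + 2*s - 2*t - 1*(s*t)) (18 + 12*s - 10*t - 7*(s*t)) v2 (6 * ρ) (6) (p2_b0 s t ρ hs ht hρ) (p2_b1 s t ρ hs ht hρ) (p2_b2 s t u2 v2 ρ hs ht hu hv hρ))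
    (jetC (3 - 2*s + 2*t - 1*(s*t)) (18 - 12*s + 10*t - 7*(s*t)) u2 (3 + 2*s - 2*t - 1*(s*t)) (18 + 12*s - 10*t - 7*(s*t)) v2 (ρ ^ 2) (6) (p2_c0 s t ρ hs ht hρ) (p2_c1 s t ρ hs ht hρ) (p2_c2 s t u2 v2 ρ hs ht hu hv hρ))
    hxx hyy hμb (-4 + 2*(s*t)) (-24 + 10*(s*t)) (-48 + 19*(s*t)) (-402 + 284*s - 232*t + 164*(s*t)) (-7164 + 5064*s - 4136*t + 2924*(s*t)) (-402 - 284*s + 232*t + 164*(s*t)) (-7164 - 5064*s + 4136*t + 2924*(s*t))
    ((84576 - 61296*s + 50048*t - 34528*(s*t)) * bx + (84576 + 61296*s - 50048*t - 34528*(s*t)) * bY)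
    (p2_W0 s t hs ht) (p2_W1 s t hs ht) (p2_W2 s t u2 v2 hs ht hu hv) (p2_xi0 s t hs ht) (p2_xi1 s t hs ht) (p2_ps0 s t hs ht) (p2_ps1 s t hs ht)
    (p2_hA s t u2 v2 lx2 (-ly3) hs ht hu hv hlx22 hly2)
    (by rw [p2_Ex s t u2 (-ly3) hs ht hu hly2, p2_Ey s t v2 lx2 hs ht hv hlx22])
    nD nγ nW nξ nψ (by simp only [map_neg, map_ofNat]; first | exact n6k | exact neg_ne_zero.mpr n6k)
    (by rw [m1, m2, m3, m4, gX, gY]) (by rw [m1, m2, m5, m6, gX, gY])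
  rw [pow_mul', m7, m8, gW] at hω2
  have hc6 : π (6 : R) = 6 := by simp only [map_neg, map_ofNat]
  have m9 : π (-4 + 2*(s*t)) = (-4 + 2*(π s*π t)) := by simp only [map_add, map_sub, map_mul, map_neg, map_ofNat, map_one]
  have m10 : π (-24 + 10*(s*t)) = (-24 + 10*(π s*π t)) := by simp only [map_add, map_sub, map_mul, map_neg, map_ofNat, map_one]
  rw [hc6, m9, m10] at hω2
  have nW2 : (-4 + 2*(S*T)) ≠ 0 := by rw [← gW]; exact pow_ne_zero _ nW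
  have nX2 : (196 - 80*(π s*π t)) ≠ 0 := by rw [← m7]; exact mul_ne_zero nξ nψ
  have n6c : (6 : k) ≠ 0 := by first | exact n6k | exact neg_ne_zero.mpr n6k
  have hDk : π ((84576 - 61296*s + 50048*t - 34528*(s*t)) * bx + (84576 + 61296*s - 50048*t - 34528*(s*t)) * bY) = (84576 - 61296*π s + 50048*π t - 34528*(π s*π t)) * π bx + (84576 + 61296*π s - 50048*π t - 34528*(π s*π t)) * π bY := by simp only [map_add, map_sub, map_mul, map_neg, map_ofNat, map_one]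
  exact ⟨ω, π a, π b, μ3, μ, π by3, π a2, π bx, π bY, _, _, _, hω, ha3, hb3, hμ3c, hμc, hby3k, hbYk, hq3, hbxk, hDk, rfl, rfl, hω2,
    mul_ne_zero (mul_ne_zero (mul_ne_zero nμ (pow_ne_zero 2 nW2)) (pow_ne_zero 2 nX2)) n6c⟩

end

end Pool.Agent.H99.Sun
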