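import Mathlib
import Pool.Agent.H99.Sun.Jet
import Pool.Agent.H99.Sun.Num
import Pool.Agent.H99.Sun.Fin
import Pool.Agent.H99.Sun.RelB

/-! The second order formula at the special point 3. -/

namespace Pool.Agent.H99.Sun

open Polynomial Finset Pool.Agent.H37.Sun

section
variable {R : Type*} [CommRing R] [IsDomain R] [CharZero R] {k : Type*} [Field k]
  (p : ℕ) [Fact p.Prime] [CharP k p] (π : R →+* k)
  (hker : ∀ x, π x = 0 → (p : R) ∣ x)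
  (n : ℕ) (hn : p = 2 * n + 1) (h3 : 3 < p)
include hker hn h3

theorem core3 (hun : ∀ x : R, π x ≠ 0 → IsUnit x) (s t ρ : R) (hs : s ^ 2 = 2) (ht : t ^ 2 = 3) (hρ : 8 * ρ = 1)
    (S T e : k) (hS : (π s) ^ p = S) (hT : (π t) ^ p = T) (he : (-1 : k) ^ n = e)
    (ng : π ((G2 n : R[X]).eval (-3 + 2*s + 2*t - 1*(s*t))) ≠ 0)
    (nγ : π ((G2 n : R[X]).eval (-3 - 2*s + 2*t + 1*(s*t))) ≠ 0) :
    ∃ (ω : R) (a3 b3 μ bx bY D z0 z1 : k), 3 * F0 n ρ + 16 * F1 n ρ = p * ω ∧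
      (a3 * (7 - 4 * π t) = e * (7 - 4*T)) ∧
      (b3 * (10 - 6 * π t) = 2 * (10 - 6*T)) ∧
      (μ * (-2 + 2*π s + 2*π t - 1*(π s*π t)) = e * (-2 + 2*S + 2*T - 1*(S*T))) ∧
      (12 * bx = 3 * (-2 - 2*π s + 2*π t + 1*(π s*π t)) * a3 + (3 - 1*π t - 2*(π s*π t)) * b3) ∧
      (12 * bY = 3 * (-2 + 2*π s + 2*π t - 1*(π s*π t)) * a3 + (3 - 1*π t + 2*(π s*π t)) * b3) ∧
      (D = (279456 - 204576*π s - 161344*π t + 118112*(π s*π t)) * bx + (279456 + 204576*π s - 161344*π t - 118112*(π s*π t)) * bY) ∧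
      (z0 = (-3 - 2*S + 2*T + 1*(S*T)) * (402 - 284*S - 232*T + 164*(S*T)) * (492 + 336*π s - 284*π t - 194*(π s*π t)) + (-3 + 2*S + 2*T - 1*(S*T)) * (402 + 284*S - 232*T - 164*(S*T)) * (492 - 336*π s - 284*π t + 194*(π s*π t)) * μ ^ 2) ∧
      (z1 = (-3 - 2*S + 2*T + 1*(S*T)) * (402 - 284*S - 232*T + 164*(S*T)) * (-7032 - 4836*π s + 4060*π t + 2792*(π s*π t)) + (-3 + 2*S + 2*T - 1*(S*T)) * (402 + 284*S - 232*T - 164*(S*T)) * (-7032 + 4836*π s + 4060*π t - 2792*(π s*π t)) * μ ^ 2) ∧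
      (μ * (8 - 4*T) ^ 2 * (388 - 224*π t) ^ 2 * (-6) * π ω = 4 * ((388 - 224*π t) * μ * (8 - 4*T) * D + (8 - 4*π t) * (-10032 + 5792*π t) * z0 - (388 - 224*π t) * ((8 - 4*π t) * z1 + 2 * (-48 + 28*π t) * z0))) ∧
      (μ * (8 - 4*T) ^ 2 * (388 - 224*π t) ^ 2 * (-6) ≠ 0) := by
  have n2k : (2 : k) ≠ 0 := by exact_mod_cast cast_ne (k := k) p 2 (by norm_num) (by omega)
  have n3k : (3 : k) ≠ 0 := by exact_mod_cast cast_ne (k := k) p 3 (by norm_num) (by omega)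
  have n4k : (4 : k) ≠ 0 := by
    rw [show (4 : k) = 2 * 2 by norm_num]
    exact mul_ne_zero n2k n2k
  have n6k : (6 : k) ≠ 0 := by
    rw [show (6 : k) = 2 * 3 by norm_num]
    exact mul_ne_zero n2k n3k
  obtain ⟨h, hh⟩ := (hun 2 (by rw [map_ofNat]; exact n2k)).exists_right_inv
  obtain ⟨g, hg⟩ := (hun 3 (by rw [map_ofNat]; exact n3k)).exists_right_inv
  have ne_of : ∀ (a b c : R), a * b = c → π c ≠ 0 → π a ≠ 0 := by
    intro a b c hab hc h0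
    apply hc
    rw [← hab, map_mul, h0, zero_mul]
  have c2 : π (2 : R) ≠ 0 := by rw [map_ofNat]; exact n2k
  have c1 : π (1 : R) ≠ 0 := by rw [map_one]; exact one_ne_zero
  have c4 : π (4 : R) ≠ 0 := by rw [map_ofNat]; exact n4k
  have hxy3 : (1 + (-3 + 2*s + 2*t - 1*(s*t))) * (1 + (-3 - 2*s + 2*t + 1*(s*t))) = 2 := by linear_combination ((-1)*t^2 + 4*t + (-4)) * hs + (2) * ht
  have hx13 : π (1 + (-3 + 2*s + 2*t - 1*(s*t))) ≠ 0 := ne_of _ _ _ hxy3 c2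
  have hx3 : π (-3 + 2*s + 2*t - 1*(s*t)) ≠ 0 := ne_of _ (3 - 2*s + 2*t - 1*(s*t)) 1 (by linear_combination (1*t^2 + (-4)) * hs + ((-4)*s + 6) * ht) c1
  have hy3 : π (-3 - 2*s + 2*t + 1*(s*t)) ≠ 0 := ne_of _ (3 + 2*s + 2*t + 1*(s*t)) 1 (by linear_combination (1*t^2 + (-4)) * hs + (4*s + 6) * ht) c1
  obtain ⟨a, ha, ha2⟩ := relA p π hker n hn h3 (-3 + 2*s + 2*t - 1*(s*t)) (-3 - 2*s + 2*t + 1*(s*t)) hxy3 hx13 hx3 hy3
  obtain ⟨b, hb, hb2⟩ := relB p π hker n hn h3 s t h hs ht hh g hg (-3 + 2*s + 2*t - 1*(s*t)) (-3 - 2*s + 2*t + 1*(s*t)) (by ring) (by ring)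
  have hr3 := ratio p π hker n hn h3 (-3 + 2*s + 2*t - 1*(s*t)) (-3 - 2*s + 2*t + 1*(s*t)) hxy3 hx13
  have k12 : (12 : R) ≠ 0 := by norm_num
  have k2 : (2 : R) ≠ 0 := by norm_num
  obtain ⟨bx3, hbx3⟩ : ∃ bx3, bx3 = h ^ 2 * g * (3 * (1 + (-3 - 2*s + 2*t + 1*(s*t))) * a + (3 - 1*t - 2*(s*t)) * b) := ⟨_, rfl⟩
  obtain ⟨by3, hby3⟩ : ∃ by3, by3 = h ^ 2 * g * (3 * (1 + (-3 + 2*s + 2*t - 1*(s*t))) * a + (3 - 1*t + 2*(s*t)) * b) := ⟨_, rfl⟩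
  have hg12 : 12 * (h ^ 2 * g) = 1 := by linear_combination (3 * g * (2 * h + 1)) * hh + hg
  have hbx12 : 12 * bx3 = 3 * (1 + (-3 - 2*s + 2*t + 1*(s*t))) * a + (3 - 1*t - 2*(s*t)) * b := by rw [hbx3]; linear_combination (3 * (1 + (-3 - 2*s + 2*t + 1*(s*t))) * a + (3 - 1*t - 2*(s*t)) * b) * hg12
  have hby12 : 12 * by3 = 3 * (1 + (-3 + 2*s + 2*t - 1*(s*t))) * a + (3 - 1*t + 2*(s*t)) * b := by rw [hby3]; linear_combination (3 * (1 + (-3 + 2*s + 2*t - 1*(s*t))) * a + (3 - 1*t + 2*(s*t)) * b) * hg12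
  obtain ⟨lx3, hlx3⟩ : ∃ lx3, lx3 = h ^ 2 * g * (0 + 6*s - 4*t + 1*(s*t)) := ⟨_, rfl⟩
  obtain ⟨ly3, hly3⟩ : ∃ ly3, ly3 = h ^ 2 * g * (0 - 6*s - 4*t - 1*(s*t)) := ⟨_, rfl⟩
  have hlx12 : 12 * lx3 = (0 + 6*s - 4*t + 1*(s*t)) := by rw [hlx3]; linear_combination (0 + 6*s - 4*t + 1*(s*t)) * hg12
  have hly12 : 12 * ly3 = (0 - 6*s - 4*t - 1*(s*t)) := by rw [hly3]; linear_combination (0 - 6*s - 4*t - 1*(s*t)) * hg12
  have E1a : 3 * (1 + (-3 - 2*s + 2*t + 1*(s*t))) + 2 * (3 - 1*t - 2*(s*t)) = -(0 + 6*s - 4*t + 1*(s*t)) := by linear_combination (0) * hs + (0) * ht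
  have E1b : 3 * (1 + (-3 - 2*s + 2*t + 1*(s*t))) * (1 + (-3 - 2*s + 2*t + 1*(s*t))) + (3 - 1*t - 2*(s*t)) * (-9 - 6 * s + 5 * t + 4 * (s * t)) = 0 := by linear_combination ((-5)*t^2 + 12) * hs + ((-2)*s + (-3)) * ht
  have E1c : 3 * (1 + (-3 - 2*s + 2*t + 1*(s*t))) * (1 + (-3 + 2*s + 2*t - 1*(s*t))) + (3 - 1*t - 2*(s*t)) * (-9 + 6 * s + 5 * t - 4 * (s * t)) = 12 := by linear_combination (5*t^2 + (-12)) * hs + ((-6)*s + 17) * ht
  have E2a : 3 * (1 + (-3 + 2*s + 2*t - 1*(s*t))) + 2 * (3 - 1*t + 2*(s*t)) = -(0 - 6*s - 4*t - 1*(s*t)) := by linear_combination (0) * hs + (0) * ht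
  have E2b : 3 * (1 + (-3 + 2*s + 2*t - 1*(s*t))) * (1 + (-3 - 2*s + 2*t + 1*(s*t))) + (3 - 1*t + 2*(s*t)) * (-9 - 6 * s + 5 * t + 4 * (s * t)) = 12 := by linear_combination (5*t^2 + (-12)) * hs + (6*s + 17) * ht
  have E2c : 3 * (1 + (-3 + 2*s + 2*t - 1*(s*t))) * (1 + (-3 + 2*s + 2*t - 1*(s*t))) + (3 - 1*t + 2*(s*t)) * (-9 + 6 * s + 5 * t - 4 * (s * t)) = 0 := by linear_combination ((-5)*t^2 + 12) * hs + (2*s + (-3)) * ht
  obtain ⟨A0, hA0⟩ : ∃ A0, A0 = (G2 n : R[X]).eval (-3 + 2*s + 2*t - 1*(s*t)) := ⟨_, rfl⟩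
  obtain ⟨B0, hB0⟩ : ∃ B0, B0 = (G2 n : R[X]).eval (-3 - 2*s + 2*t + 1*(s*t)) := ⟨_, rfl⟩
  obtain ⟨A1, hA1⟩ : ∃ A1, A1 = (derivative (G2 n : R[X])).eval (-3 + 2*s + 2*t - 1*(s*t)) := ⟨_, rfl⟩
  obtain ⟨B1, hB1⟩ : ∃ B1, B1 = (derivative (G2 n : R[X])).eval (-3 - 2*s + 2*t + 1*(s*t)) := ⟨_, rfl⟩
  rw [← hA0, ← hB0, ← hA1, ← hB1] at ha hb
  rw [← hA0, ← hB0] at hr3
  rw [← hA0] at ng
  rw [← hB0] at nγ
  have hxx3 : A1 * B0 = lx3 * (A0 * B0) + p * bx3 := by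
    apply mul_left_cancel₀ k12
    linear_combination (3 * (1 + (-3 - 2*s + 2*t + 1*(s*t)))) * ha + (3 - 1*t - 2*(s*t)) * hb - (A0 * B0) * E1a - (A0 * B1) * E1b - (A1 * B0) * E1c - (A0 * B0) * hlx12 - p * hbx12
  have hyy3 : A0 * B1 = ly3 * (A0 * B0) + p * by3 := by
    apply mul_left_cancel₀ k12
    linear_combination (3 * (1 + (-3 + 2*s + 2*t - 1*(s*t)))) * ha + (3 - 1*t + 2*(s*t)) * hb - (A0 * B0) * E2a - (A0 * B1) * E2b - (A1 * B0) * E2c - (A0 * B0) * hly12 - p * hby12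
  obtain ⟨μ3, hμ3⟩ : ∃ μ3, μ3 = π A0 / π B0 := ⟨_, rfl⟩
  have hμ3b : π A0 = μ3 * π B0 := by rw [hμ3, div_mul_cancel₀ _ nγ]
  have nμ3 : μ3 ≠ 0 := by intro h0; apply ng; rw [hμ3b, h0, zero_mul]
  have f1 : (π (1 + (-3 + 2*s + 2*t - 1*(s*t)))) ^ p = (-2 + 2*S + 2*T - 1*(S*T)) := by
    rw [← hS, ← hT]
    simp only [← frobenius_def, map_add, map_sub, map_mul, map_neg, map_ofNat, map_one]
    ring
  have hμ3c : μ3 * (-2 + 2*π s + 2*π t - 1*(π s*π t)) = e * (-2 + 2*S + 2*T - 1*(S*T)) := by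
    rw [f1, he, hμ3b] at hr3
    have h5 : π (1 + (-3 + 2*s + 2*t - 1*(s*t))) = (-2 + 2*π s + 2*π t - 1*(π s*π t)) := by
      simp only [map_add, map_sub, map_mul, map_neg, map_ofNat, map_one]
      ring
    rw [h5] at hr3
    apply mul_right_cancel₀ nγ
    linear_combination hr3
  have f2 : ((-3 + 2*s + 2*t - 1*(s*t)) * (-3 - 2*s + 2*t + 1*(s*t)) : R) = 7 - 4 * t := by linear_combination ((-1)*t^2 + 4*t + (-4)) * hs + (2) * ht
  have ha3 : π a * (7 - 4 * π t) = e * (7 - 4*T) := by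
    rw [← map_mul, f2, he, ← frobenius_def] at ha2
    rw [← hT]
    simpa only [← frobenius_def, map_add, map_sub, map_mul, map_neg, map_ofNat, map_one] using ha2
  have hb3 : π b * (10 - 6 * π t) = 2 * (10 - 6*T) := by
    rw [← frobenius_def] at hb2
    rw [← hT]
    simpa only [← frobenius_def, map_add, map_sub, map_mul, map_neg, map_ofNat, map_one] using hb2
  have hbx3k : 12 * π bx3 = 3 * (-2 - 2*π s + 2*π t + 1*(π s*π t)) * π a + (3 - 1*π t - 2*(π s*π t)) * π b := by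
    have := congrArg π hbx12
    simp only [map_add, map_sub, map_mul, map_neg, map_ofNat, map_one] at this
    linear_combination this
  have hby3k : 12 * π by3 = 3 * (-2 + 2*π s + 2*π t - 1*(π s*π t)) * π a + (3 - 1*π t + 2*(π s*π t)) * π b := by
    have := congrArg π hby12
    simp only [map_add, map_sub, map_mul, map_neg, map_ofNat, map_one] at this
    linear_combination this
  obtain ⟨bx, hbx⟩ : ∃ bx, bx = bx3 := ⟨_, rfl⟩
  obtain ⟨bY, hbY⟩ : ∃ bY, bY = by3 := ⟨_, rfl⟩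
  obtain ⟨μ, hμd⟩ : ∃ μ, μ = μ3 := ⟨_, rfl⟩
  rw [← hbx] at hxx3 hbx3k
  rw [← hbY] at hyy3 hby3k
  rw [← hμd] at hμ3b hμ3c nμ3
  rw [hA0, hB0, hA1] at hxx3
  rw [hA0, hB0, hB1] at hyy3
  rw [hA0, hB0] at hμ3b
  rw [hA0] at ng
  rw [hB0] at nγ
  obtain ⟨u2, hu2⟩ : ∃ u2, u2 = h * (-108 + 72*s + 62*t - 43*(s*t)) := ⟨_, rfl⟩
  obtain ⟨v2, hv2⟩ : ∃ v2, v2 = h * (-108 - 72*s + 62*t + 43*(s*t)) := ⟨_, rfl⟩
  have hu : 2 * u2 = (-108 + 72*s + 62*t - 43*(s*t)) := by rw [hu2]; linear_combination (-108 + 72*s + 62*t - 43*(s*t)) * hh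
  have hv : 2 * v2 = (-108 - 72*s + 62*t + 43*(s*t)) := by rw [hv2]; linear_combination (-108 - 72*s + 62*t + 43*(s*t)) * hh
  have nW : π (8 - 4*t) ≠ 0 := ne_of _ (2 + 1*t) 4 (by linear_combination (0) * hs + ((-4)) * ht) c4
  have nξ : π (402 - 284*s - 232*t + 164*(s*t)) ≠ 0 := ne_of _ (18 - 4*s + 8*t - 4*(s*t)) 4 (by linear_combination ((-656)*t^2 + 480*t + 1136) * hs + (2240*s + (-3168)) * ht) c4
  have nψ : π (402 + 284*s - 232*t - 164*(s*t)) ≠ 0 := ne_of _ (18 + 4*s + 8*t + 4*(s*t)) 4 (by linear_combination ((-656)*t^2 + 480*t + 1136) * hs + ((-2240)*s + (-3168)) * ht) c4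
  have gX : (π (-3 + 2*s + 2*t - 1*(s*t))) ^ p = (-3 + 2*S + 2*T - 1*(S*T)) := by
    rw [← hS, ← hT]
    simp only [← frobenius_def, map_add, map_sub, map_mul, map_neg, map_ofNat, map_one]
  have gY : (π (-3 - 2*s + 2*t + 1*(s*t))) ^ p = (-3 - 2*S + 2*T + 1*(S*T)) := by
    rw [← hS, ← hT]
    simp only [← frobenius_def, map_add, map_sub, map_mul, map_neg, map_ofNat, map_one]
  have gW : (π (8 - 4*t)) ^ p = (8 - 4*T) := by
    rw [← hT]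
    simp only [← frobenius_def, map_add, map_sub, map_mul, map_neg, map_ofNat, map_one]
  have gξ : (π (402 - 284*s - 232*t + 164*(s*t))) ^ p = (402 - 284*S - 232*T + 164*(S*T)) := by
    rw [← hS, ← hT]
    simp only [← frobenius_def, map_add, map_sub, map_mul, map_neg, map_ofNat, map_one]
  have gψ : (π (402 + 284*s - 232*t - 164*(s*t))) ^ p = (402 + 284*S - 232*T - 164*(S*T)) := by
    rw [← hS, ← hT]
    simp only [← frobenius_def, map_add, map_sub, map_mul, map_neg, map_ofNat, map_one]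
  have hcub : ∀ z : k, z ^ p - z ^ (3 * p) = (z * (1 - z ^ 2)) ^ p := by
    intro z
    rw [show z * (1 - z ^ 2) = z - z ^ 3 by ring, sub_pow_char, ← pow_mul]
  have m1 : (π (-3 + 2*s + 2*t - 1*(s*t))) ^ p - (π (-3 + 2*s + 2*t - 1*(s*t))) ^ (3 * p) = (402 - 284*S - 232*T + 164*(S*T)) := by
    rw [hcub, ← gξ, p3_xi0 s t hs ht]
    simp only [map_mul, map_sub, map_pow, map_one]
  have m2 : (π (-3 - 2*s + 2*t + 1*(s*t))) ^ p - (π (-3 - 2*s + 2*t + 1*(s*t))) ^ (3 * p) = (402 + 284*S - 232*T - 164*(S*T)) := by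
    rw [hcub, ← gψ, p3_ps0 s t hs ht]
    simp only [map_mul, map_sub, map_pow, map_one]
  have m3 : π (18 - 12*s - 10*t + 7*(s*t)) * π (402 + 284*s - 232*t - 164*(s*t)) = (492 + 336*π s - 284*π t - 194*(π s*π t)) := by
    have := congrArg π (p3_x1ps0 s t hs ht)
    simp only [map_add, map_sub, map_mul, map_neg, map_ofNat, map_one, map_pow] at this ⊢
    linear_combination this
  have m4 : π (18 + 12*s - 10*t - 7*(s*t)) * π (402 - 284*s - 232*t + 164*(s*t)) = (492 - 336*π s - 284*π t + 194*(π s*π t)) := by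
    have := congrArg π (p3_y1xi0 s t hs ht)
    simp only [map_add, map_sub, map_mul, map_neg, map_ofNat, map_one, map_pow] at this ⊢
    linear_combination this
  have m5 : 2 * π u2 * π (402 + 284*s - 232*t - 164*(s*t)) + π (18 - 12*s - 10*t + 7*(s*t)) * π (-7164 - 5064*s + 4136*t + 2924*(s*t)) + 2 * π (18 - 12*s - 10*t + 7*(s*t)) * π (18 + 12*s - 10*t - 7*(s*t)) * π (402 + 284*s - 232*t - 164*(s*t)) * π ly3 = (-7032 - 4836*π s + 4060*π t + 2792*(π s*π t)) := by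
    have := congrArg π (p3_Ax s t u2 ly3 hs ht hu hly12)
    simp only [map_add, map_sub, map_mul, map_neg, map_ofNat, map_one, map_pow] at this ⊢
    linear_combination this
  have m6 : 2 * π v2 * π (402 - 284*s - 232*t + 164*(s*t)) + π (18 + 12*s - 10*t - 7*(s*t)) * π (-7164 + 5064*s + 4136*t - 2924*(s*t)) + 2 * π (18 - 12*s - 10*t + 7*(s*t)) * π (18 + 12*s - 10*t - 7*(s*t)) * π (402 - 284*s - 232*t + 164*(s*t)) * π lx3 = (-7032 + 4836*π s + 4060*π t - 2792*(π s*π t)) := by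
    have := congrArg π (p3_Ay s t v2 lx3 hs ht hv hlx12)
    simp only [map_add, map_sub, map_mul, map_neg, map_ofNat, map_one, map_pow] at this ⊢
    linear_combination this
  have r1 : (402 - 284*s - 232*t + 164*(s*t)) * (402 + 284*s - 232*t - 164*(s*t)) = (388 - 224*t) := by linear_combination ((-26896)*t^2 + 93152*t + (-80656)) * hs + (32) * ht
  have r2 : (402 - 284*s - 232*t + 164*(s*t)) * (-7164 - 5064*s + 4136*t + 2924*(s*t)) + (-7164 + 5064*s + 4136*t - 2924*(s*t)) * (402 + 284*s - 232*t - 164*(s*t)) = (-10032 + 5792*t) := by linear_combination (959072*t^2 + (-3321824)*t + 2876352) * hs + ((-960)) * ht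
  have m7 : π (402 - 284*s - 232*t + 164*(s*t)) * π (402 + 284*s - 232*t - 164*(s*t)) = (388 - 224*π t) := by
    have := congrArg π (r1)
    simp only [map_add, map_sub, map_mul, map_neg, map_ofNat, map_one, map_pow] at this ⊢
    linear_combination this
  have m8 : π (402 - 284*s - 232*t + 164*(s*t)) * π (-7164 - 5064*s + 4136*t + 2924*(s*t)) + π (-7164 + 5064*s + 4136*t - 2924*(s*t)) * π (402 + 284*s - 232*t - 164*(s*t)) = (-10032 + 5792*π t) := by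
    have := congrArg π (r2)
    simp only [map_add, map_sub, map_mul, map_neg, map_ofNat, map_one, map_pow] at this ⊢
    linear_combination this
  obtain ⟨ω, hω, hω2⟩ := second p π hker n hn h3 (-3 + 2*s + 2*t - 1*(s*t)) (18 - 12*s - 10*t + 7*(s*t)) u2 (-3 - 2*s + 2*t + 1*(s*t)) (18 + 12*s - 10*t - 7*(s*t)) v2 (-6) 3 ρ lx3 ly3 bx bY μ
    ((-3 - 2*S + 2*T + 1*(S*T)) * (402 - 284*S - 232*T + 164*(S*T)) * (492 + 336*π s - 284*π t - 194*(π s*π t)) + (-3 + 2*S + 2*T - 1*(S*T)) * (402 + 284*S - 232*T - 164*(S*T)) * (492 - 336*π s - 284*π t + 194*(π s*π t)) * μ ^ 2)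
    ((-3 - 2*S + 2*T + 1*(S*T)) * (402 - 284*S - 232*T + 164*(S*T)) * (-7032 - 4836*π s + 4060*π t + 2792*(π s*π t)) + (-3 + 2*S + 2*T - 1*(S*T)) * (402 + 284*S - 232*T - 164*(S*T)) * (-7032 + 4836*π s + 4060*π t - 2792*(π s*π t)) * μ ^ 2)
    (jetB (-3 + 2*s + 2*t - 1*(s*t)) (18 - 12*s - 10*t + 7*(s*t)) u2 (-3 - 2*s + 2*t + 1*(s*t)) (18 + 12*s - 10*t - 7*(s*t)) v2 (6 * ρ) (-6) (p3_b0 s t ρ hs ht hρ) (p3_b1 s t ρ hs ht hρ) (p3_b2 s t u2 v2 ρ hs ht hu hv hρ))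
    (jetC (-3 + 2*s + 2*t - 1*(s*t)) (18 - 12*s - 10*t + 7*(s*t)) u2 (-3 - 2*s + 2*t + 1*(s*t)) (18 + 12*s - 10*t - 7*(s*t)) v2 (ρ ^ 2) (-6) (p3_c0 s t ρ hs ht hρ) (p3_c1 s t ρ hs ht hρ) (p3_c2 s t u2 v2 ρ hs ht hu hv hρ))
    hxx3 hyy3 hμ3b (8 - 4*t) (-48 + 28*t) (192 - 110*t) (402 - 284*s - 232*t + 164*(s*t)) (-7164 + 5064*s + 4136*t - 2924*(s*t)) (402 + 284*s - 232*t - 164*(s*t)) (-7164 - 5064*s + 4136*t + 2924*(s*t))
    ((279456 - 204576*s - 161344*t + 118112*(s*t)) * bx + (279456 + 204576*s - 161344*t - 118112*(s*t)) * bY)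
    (p3_W0 s t hs ht) (p3_W1 s t hs ht) (p3_W2 s t u2 v2 hs ht hu hv) (p3_xi0 s t hs ht) (p3_xi1 s t hs ht) (p3_ps0 s t hs ht) (p3_ps1 s t hs ht)
    (p3_hA s t u2 v2 lx3 ly3 hs ht hu hv hlx12 hly12)
    (by rw [p3_Ex s t u2 ly3 hs ht hu hly12, p3_Ey s t v2 lx3 hs ht hv hlx12])
    ng nγ nW nξ nψ (by simp only [map_neg, map_ofNat]; first | exact n6k | exact neg_ne_zero.mpr n6k)
    (by rw [m1, m2, m3, m4, gX, gY]) (by rw [m1, m2, m5, m6, gX, gY])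
  rw [pow_mul', m7, m8, gW] at hω2
  have hc6 : π (-6 : R) = -6 := by simp only [map_neg, map_ofNat]
  have m9 : π (8 - 4*t) = (8 - 4*π t) := by simp only [map_add, map_sub, map_mul, map_neg, map_ofNat, map_one]
  have m10 : π (-48 + 28*t) = (-48 + 28*π t) := by simp only [map_add, map_sub, map_mul, map_neg, map_ofNat, map_one]
  rw [hc6, m9, m10] at hω2
  have nW2 : (8 - 4*T) ≠ 0 := by rw [← gW]; exact pow_ne_zero _ nW
  have nX2 : (388 - 224*π t) ≠ 0 := by rw [← m7]; exact mul_ne_zero nξ nψ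
  have n6c : (-6 : k) ≠ 0 := by first | exact n6k | exact neg_ne_zero.mpr n6k
  have hDk : π ((279456 - 204576*s - 161344*t + 118112*(s*t)) * bx + (279456 + 204576*s - 161344*t - 118112*(s*t)) * bY) = (279456 - 204576*π s - 161344*π t + 118112*(π s*π t)) * π bx + (279456 + 204576*π s - 161344*π t - 118112*(π s*π t)) * π bY := by simp only [map_add, map_sub, map_mul, map_neg, map_ofNat, map_one]
  exact ⟨ω, π a, π b, μ, π bx, π bY, _, _, _, hω, ha3, hb3, hμ3c, hbx3k, hby3k, hDk, rfl, rfl, hω2,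
    mul_ne_zero (mul_ne_zero (mul_ne_zero nμ3 (pow_ne_zero 2 nW2)) (pow_ne_zero 2 nX2)) n6c⟩

end

end Pool.Agent.H99.Sun
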