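import Mathlib
import Pool.Agent.H99.Sun.Pt3
import Pool.Agent.H99.Sun.Pt2

/-! The two values. -/

namespace Pool.Agent.H99.Sun

open Polynomial Finset Pool.Agent.H37.Sun

section
variable {R : Type*} [CommRing R] [IsDomain R] [CharZero R] {k : Type*} [Field k]
  (p : ℕ) [Fact p.Prime] [CharP k p] (π : R →+* k)
  (hker : ∀ x, π x = 0 → (p : R) ∣ x)
  (n : ℕ) (hn : p = 2 * n + 1) (h3 : 3 < p)
include hker hn h3

theorem omega3 (hun : ∀ x : R, π x ≠ 0 → IsUnit x) (s t ρ : R) (hs : s ^ 2 = 2) (ht : t ^ 2 = 3) (hρ : 8 * ρ = 1)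
    (ng : π ((G2 n : R[X]).eval (-3 + 2*s + 2*t - 1*(s*t))) ≠ 0)
    (nγ : π ((G2 n : R[X]).eval (-3 - 2*s + 2*t + 1*(s*t))) ≠ 0)
    (sg : ℤ) (hcase : ((π s) ^ p = π s ∧ (π t) ^ p = π t ∧ (-1 : k) ^ n = 1 ∧ sg = 1)
      ∨ ((π s) ^ p = π s ∧ (π t) ^ p = -π t ∧ (-1 : k) ^ n = -1 ∧ sg = 1)
      ∨ ((π s) ^ p = -π s ∧ (π t) ^ p = π t ∧ (-1 : k) ^ n = -1 ∧ sg = -1)
      ∨ ((π s) ^ p = -π s ∧ (π t) ^ p = -π t ∧ (-1 : k) ^ n = 1 ∧ sg = -1)) :
    ∃ ω : R, 3 * F0 n ρ + 16 * F1 n ρ = p * ω ∧ 3 * π ω = -2 := by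
  have n2k : (2 : k) ≠ 0 := by exact_mod_cast cast_ne (k := k) p 2 (by norm_num) (by omega)
  have n3k : (3 : k) ≠ 0 := by exact_mod_cast cast_ne (k := k) p 3 (by norm_num) (by omega)
  have hsk : (π s) ^ 2 = 2 := by rw [← map_pow, hs, map_ofNat]
  have htk : (π t) ^ 2 = 3 := by rw [← map_pow, ht, map_ofNat]
  rcases hcase with ⟨h1, h2, h4, h5⟩ | ⟨h1, h2, h4, h5⟩ | ⟨h1, h2, h4, h5⟩ | ⟨h1, h2, h4, h5⟩
  · obtain ⟨ω, a3, b3, μ, bx, bY, D, z0, z1, hω, ha3, hb3, hμ, hbx, hby, hD, hz0, hz1, hE, hL⟩ := core3 p π hker n hn h3 hun s t ρ hs ht hρ _ _ _ h1 h2 h4 ng nγ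
    refine ⟨ω, hω, ?_⟩
    have := fin3_pp n2k n3k (π s) (π t) a3 b3 μ bx bY D z0 z1 (π ω) hsk htk
      (by linear_combination ha3)
      (by linear_combination hb3)
      (by linear_combination hμ)
      (by linear_combination hbx)
      (by linear_combination hby)
      (by linear_combination hD)
      (by linear_combination hz0)
      (by linear_combination hz1)
      (by linear_combination hE)
      (fun h0 => hL (by linear_combination h0))
    exact this
  · obtain ⟨ω, a3, b3, μ, bx, bY, D, z0, z1, hω, ha3, hb3, hμ, hbx, hby, hD, hz0, hz1, hE, hL⟩ := core3 p π hker n hn h3 hun s t ρ hs ht hρ _ _ _ h1 h2 h4 ng nγ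
    refine ⟨ω, hω, ?_⟩
    have := fin3_pm n2k n3k (π s) (π t) a3 b3 μ bx bY D z0 z1 (π ω) hsk htk
      (by linear_combination ha3)
      (by linear_combination hb3)
      (by linear_combination hμ)
      (by linear_combination hbx)
      (by linear_combination hby)
      (by linear_combination hD)
      (by linear_combination hz0)
      (by linear_combination hz1)
      (by linear_combination hE)
      (fun h0 => hL (by linear_combination h0))
    exact this
  · obtain ⟨ω, a3, b3, μ, bx, bY, D, z0, z1, hω, ha3, hb3, hμ, hbx, hby, hD, hz0, hz1, hE, hL⟩ := core3 p π hker n hn h3 hun s t ρ hs ht hρ _ _ _ h1 h2 h4 ng nγ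
    refine ⟨ω, hω, ?_⟩
    have := fin3_mp n2k n3k (π s) (π t) a3 b3 μ bx bY D z0 z1 (π ω) hsk htk
      (by linear_combination ha3)
      (by linear_combination hb3)
      (by linear_combination hμ)
      (by linear_combination hbx)
      (by linear_combination hby)
      (by linear_combination hD)
      (by linear_combination hz0)
      (by linear_combination hz1)
      (by linear_combination hE)
      (fun h0 => hL (by linear_combination h0))
    exact this
  · obtain ⟨ω, a3, b3, μ, bx, bY, D, z0, z1, hω, ha3, hb3, hμ, hbx, hby, hD, hz0, hz1, hE, hL⟩ := core3 p π hker n hn h3 hun s t ρ hs ht hρ _ _ _ h1 h2 h4 ng nγ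
    refine ⟨ω, hω, ?_⟩
    have := fin3_mm n2k n3k (π s) (π t) a3 b3 μ bx bY D z0 z1 (π ω) hsk htk
      (by linear_combination ha3)
      (by linear_combination hb3)
      (by linear_combination hμ)
      (by linear_combination hbx)
      (by linear_combination hby)
      (by linear_combination hD)
      (by linear_combination hz0)
      (by linear_combination hz1)
      (by linear_combination hE)
      (fun h0 => hL (by linear_combination h0))
    exact this

theorem omega2 (hun : ∀ x : R, π x ≠ 0 → IsUnit x) (s t ρ : R) (hs : s ^ 2 = 2) (ht : t ^ 2 = 3) (hρ : 4 * ρ = 1)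
    (ng : π ((G2 n : R[X]).eval (-3 + 2*s + 2*t - 1*(s*t))) ≠ 0)
    (nγ : π ((G2 n : R[X]).eval (-3 - 2*s + 2*t + 1*(s*t))) ≠ 0)
    (sg : ℤ) (hcase : ((π s) ^ p = π s ∧ (π t) ^ p = π t ∧ (-1 : k) ^ n = 1 ∧ sg = 1)
      ∨ ((π s) ^ p = π s ∧ (π t) ^ p = -π t ∧ (-1 : k) ^ n = -1 ∧ sg = 1)
      ∨ ((π s) ^ p = -π s ∧ (π t) ^ p = π t ∧ (-1 : k) ^ n = -1 ∧ sg = -1)
      ∨ ((π s) ^ p = -π s ∧ (π t) ^ p = -π t ∧ (-1 : k) ^ n = 1 ∧ sg = -1)) :
    ∃ ω : R, 5 * F0 n ρ + 16 * F1 n ρ = p * ω ∧ 3 * π ω = 8 * (sg : k) := by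
  have n2k : (2 : k) ≠ 0 := by exact_mod_cast cast_ne (k := k) p 2 (by norm_num) (by omega)
  have n3k : (3 : k) ≠ 0 := by exact_mod_cast cast_ne (k := k) p 3 (by norm_num) (by omega)
  have hsk : (π s) ^ 2 = 2 := by rw [← map_pow, hs, map_ofNat]
  have htk : (π t) ^ 2 = 3 := by rw [← map_pow, ht, map_ofNat]
  rcases hcase with ⟨h1, h2, h4, h5⟩ | ⟨h1, h2, h4, h5⟩ | ⟨h1, h2, h4, h5⟩ | ⟨h1, h2, h4, h5⟩
  · obtain ⟨ω, a3, b3, μ3, μ, by3, a2, bx, bY, D, z0, z1, hω, ha3, hb3, hμ3, hμ, hby3, hby, ha2, hbx, hD, hz0, hz1, hE, hL⟩ := core2 p π hker n hn h3 hun s t ρ hs ht hρ _ _ _ h1 h2 h4 ng nγ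
    refine ⟨ω, hω, ?_⟩
    have := fin2_pp n2k n3k (π s) (π t) a3 b3 μ3 μ by3 a2 bx bY D z0 z1 (π ω) hsk htk
      (by linear_combination ha3)
      (by linear_combination hb3)
      (by linear_combination hμ3)
      (by linear_combination hμ)
      (by linear_combination hby3)
      (by linear_combination hby)
      (by linear_combination ha2)
      (by linear_combination hbx)
      (by linear_combination hD)
      (by linear_combination hz0)
      (by linear_combination hz1)
      (by linear_combination hE)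
      (fun h0 => hL (by linear_combination h0))
    rw [this, h5]
    norm_num
  · obtain ⟨ω, a3, b3, μ3, μ, by3, a2, bx, bY, D, z0, z1, hω, ha3, hb3, hμ3, hμ, hby3, hby, ha2, hbx, hD, hz0, hz1, hE, hL⟩ := core2 p π hker n hn h3 hun s t ρ hs ht hρ _ _ _ h1 h2 h4 ng nγ
    refine ⟨ω, hω, ?_⟩
    have := fin2_pm n2k n3k (π s) (π t) a3 b3 μ3 μ by3 a2 bx bY D z0 z1 (π ω) hsk htk
      (by linear_combination ha3)
      (by linear_combination hb3)
      (by linear_combination hμ3)
      (by linear_combination hμ)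
      (by linear_combination hby3)
      (by linear_combination hby)
      (by linear_combination ha2)
      (by linear_combination hbx)
      (by linear_combination hD)
      (by linear_combination hz0)
      (by linear_combination hz1)
      (by linear_combination hE)
      (fun h0 => hL (by linear_combination h0))
    rw [this, h5]
    norm_num
  · obtain ⟨ω, a3, b3, μ3, μ, by3, a2, bx, bY, D, z0, z1, hω, ha3, hb3, hμ3, hμ, hby3, hby, ha2, hbx, hD, hz0, hz1, hE, hL⟩ := core2 p π hker n hn h3 hun s t ρ hs ht hρ _ _ _ h1 h2 h4 ng nγ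
    refine ⟨ω, hω, ?_⟩
    have := fin2_mp n2k n3k (π s) (π t) a3 b3 μ3 μ by3 a2 bx bY D z0 z1 (π ω) hsk htk
      (by linear_combination ha3)
      (by linear_combination hb3)
      (by linear_combination hμ3)
      (by linear_combination hμ)
      (by linear_combination hby3)
      (by linear_combination hby)
      (by linear_combination ha2)
      (by linear_combination hbx)
      (by linear_combination hD)
      (by linear_combination hz0)
      (by linear_combination hz1)
      (by linear_combination hE)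
      (fun h0 => hL (by linear_combination h0))
    rw [this, h5]
    norm_num
  · obtain ⟨ω, a3, b3, μ3, μ, by3, a2, bx, bY, D, z0, z1, hω, ha3, hb3, hμ3, hμ, hby3, hby, ha2, hbx, hD, hz0, hz1, hE, hL⟩ := core2 p π hker n hn h3 hun s t ρ hs ht hρ _ _ _ h1 h2 h4 ng nγ
    refine ⟨ω, hω, ?_⟩
    have := fin2_mm n2k n3k (π s) (π t) a3 b3 μ3 μ by3 a2 bx bY D z0 z1 (π ω) hsk htk
      (by linear_combination ha3)
      (by linear_combination hb3)
      (by linear_combination hμ3)
      (by linear_combination hμ)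
      (by linear_combination hby3)
      (by linear_combination hby)
      (by linear_combination ha2)
      (by linear_combination hbx)
      (by linear_combination hD)
      (by linear_combination hz0)
      (by linear_combination hz1)
      (by linear_combination hE)
      (fun h0 => hL (by linear_combination h0))
    rw [this, h5]
    norm_num

end

end Pool.Agent.H99.Sun
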