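import Mathlib
import Pool.Agent.H99.Sun.Omega

/-! The two sums of part (d), over the integers. -/

namespace Pool.Agent.H99.Sun

open Polynomial Finset Pool.Agent.H37.Sun

section
variable {R : Type*} [CommRing R]

theorem N_eq (n : ℕ) (ρ : R) (Q : ℤ) (hQ : (Q : R) * ρ ^ 2 = 1) (c0 : ℤ) :
    ((∑ m ∈ range (n + 1), (Nat.centralBinom m : ℤ) ^ 2 * (16 * Q) ^ (n - m)
      * ((16 * m + c0) * T (2 * m) 6 1) : ℤ) : R) = Q ^ n * (c0 * F0 n ρ + 16 * F1 n ρ) := by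
  unfold F0 F1
  rw [mul_sum, mul_sum, ← sum_add_distrib, mul_sum]
  push_cast
  refine sum_congr rfl fun m hm => ?_
  have hm' : m ≤ n := by have := mem_range.mp hm; omega
  rw [T_int]
  have e2 : (Q : R) ^ n * ρ ^ (2 * m) = Q ^ (n - m) := by
    have : (Q : R) ^ n = Q ^ (n - m) * Q ^ m := by
      rw [← pow_add]; congr 1; omega
    rw [this, mul_assoc, pow_mul, ← mul_pow, hQ, one_pow, mul_one]
  have e3 : (v n m : R) = (Nat.centralBinom m : R) ^ 2 * 16 ^ (n - m) := by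
    unfold v
    push_cast
    ring
  rw [e3, mul_pow 16 (Q : R), ← e2]
  push_cast
  ring

end

section
variable {R : Type*} [CommRing R] [IsDomain R] [CharZero R] {k : Type*} [Field k]
  (p : ℕ) [Fact p.Prime] [CharP k p] (π : R →+* k)
  (hker : ∀ x, π x = 0 → (p : R) ∣ x)
  (n : ℕ) (hn : p = 2 * n + 1) (h3 : 3 < p)
include hker hn h3

theorem dint (hun : ∀ x : R, π x ≠ 0 → IsUnit x) (s t : R) (hs : s ^ 2 = 2) (ht : t ^ 2 = 3)
    (ng : π ((G2 n : R[X]).eval (-3 + 2*s + 2*t - 1*(s*t))) ≠ 0)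
    (nγ : π ((G2 n : R[X]).eval (-3 - 2*s + 2*t + 1*(s*t))) ≠ 0)
    (sg : ℤ) (hcase : ((π s) ^ p = π s ∧ (π t) ^ p = π t ∧ (-1 : k) ^ n = 1 ∧ sg = 1)
      ∨ ((π s) ^ p = π s ∧ (π t) ^ p = -π t ∧ (-1 : k) ^ n = -1 ∧ sg = 1)
      ∨ ((π s) ^ p = -π s ∧ (π t) ^ p = π t ∧ (-1 : k) ^ n = -1 ∧ sg = -1)
      ∨ ((π s) ^ p = -π s ∧ (π t) ^ p = -π t ∧ (-1 : k) ^ n = 1 ∧ sg = -1)) :
    (p : ℤ) ^ 2 ∣ 3 * (∑ m ∈ range (n + 1), (Nat.centralBinom m : ℤ) ^ 2 * (16 * 64) ^ (n - m)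
      * ((16 * m + 3) * T (2 * m) 6 1)) + 2 * p * 64 ^ n ∧
    (p : ℤ) ^ 2 ∣ 3 * (∑ m ∈ range (n + 1), (Nat.centralBinom m : ℤ) ^ 2 * (16 * 16) ^ (n - m)
      * ((16 * m + 5) * T (2 * m) 6 1)) - 8 * sg * p * 16 ^ n := by
  have n2k : (2 : k) ≠ 0 := by exact_mod_cast cast_ne (k := k) p 2 (by norm_num) (by omega)
  obtain ⟨h, hh⟩ := (hun 2 (by rw [map_ofNat]; exact n2k)).exists_right_inv
  constructor
  · obtain ⟨ω, hω, hω2⟩ := omega3 p π hker n hn h3 hun s t (h ^ 3) hs ht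
      (by linear_combination (4 * h ^ 2 + 2 * h + 1) * hh) ng nγ sg hcase
    obtain ⟨z, hz⟩ := hker (3 * ω + 2) (by
      rw [map_add, map_mul, map_ofNat, map_ofNat, hω2]; ring)
    apply int_dvd (R := R) p π
    have hN := N_eq n (h ^ 3) 64 (by
      push_cast
      linear_combination (32 * h ^ 5 + 16 * h ^ 4 + 8 * h ^ 3 + 4 * h ^ 2 + 2 * h + 1) * hh) 3
    refine ⟨64 ^ n * z, ?_⟩
    rw [Int.cast_add, Int.cast_mul, hN]
    push_cast
    linear_combination (3 * 64 ^ n) * hω + (p * 64 ^ n) * hz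
  · obtain ⟨ω, hω, hω2⟩ := omega2 p π hker n hn h3 hun s t (h ^ 2) hs ht
      (by linear_combination (2 * h + 1) * hh) ng nγ sg hcase
    obtain ⟨z, hz⟩ := hker (3 * ω - 8 * (sg : R)) (by
      rw [map_sub, map_mul, map_mul, map_ofNat, map_ofNat, map_intCast, hω2]; ring)
    apply int_dvd (R := R) p π
    have hN := N_eq n (h ^ 2) 16 (by
      push_cast
      linear_combination (8 * h ^ 3 + 4 * h ^ 2 + 2 * h + 1) * hh) 5
    refine ⟨16 ^ n * z, ?_⟩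
    rw [Int.cast_sub, Int.cast_mul, hN]
    push_cast
    linear_combination (3 * 16 ^ n) * hω + (p * 16 ^ n) * hz

end

end Pool.Agent.H99.Sun
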