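import Mathlib
import Pool.Agent.H99.Sun.DInt
import Pool.Agent.H37.Sun.Witt

/-! Part (d) with rational numbers, given ordinarity. -/

namespace Pool.Agent.H99.Sun

open Polynomial Finset Pool.Agent.H37.Sun

/-- The weighted sum with parameters `a`, `m`. -/
noncomputable def SD (a M : ℤ) (p : ℕ) : ℚ :=
  ∑ k ∈ range p, (16 * (k : ℚ) + a) * ((2 * k).choose k : ℚ) ^ 2
    * ((T (2 * k) 6 1 : ℤ) : ℚ) / (M : ℚ) ^ k

theorem num_dvd' (p : ℕ) (D : ℚ) (c M : ℤ) (h : D * c = M) (hc : IsCoprime (p : ℤ) c)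
    (hM : (p : ℤ) ^ 2 ∣ M) : (p : ℤ) ^ 2 ∣ D.num := by
  have hnum : D.num * c = M * D.den := by
    have h1 : (D.num : ℚ) = D * D.den := by
      rw [Rat.mul_den_eq_num]
    have : ((D.num * c : ℤ) : ℚ) = ((M * D.den : ℤ) : ℚ) := by
      push_cast
      rw [h1, ← h]
      ring
    exact_mod_cast this
  have hd : (p : ℤ) ^ 2 ∣ D.num * c := by
    rw [hnum]
    exact hM.mul_right _
  exact (IsCoprime.pow_left hc).dvd_of_dvd_mul_right hd

theorem jac3 (p : ℕ) (hp : p.Prime) (h3 : 3 < p) : jacobiSym (-3) p = jacobiSym p 3 := by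
  have hodd : Odd p := hp.odd_of_ne_two (by omega)
  rw [show (-3 : ℤ) = -1 * 3 by norm_num, jacobiSym.mul_left, jacobiSym.at_neg_one hodd]
  have h := jacobiSym.quadratic_reciprocity (a := 3) (b := p) (by decide) hodd
  rw [show ((3 : ℕ) : ℤ) = 3 from rfl] at h
  rw [h, ZMod.χ₄_eq_neg_one_pow (Nat.odd_iff.mp hodd), ← mul_assoc, ← pow_add]
  have : Even (p / 2 + 3 / 2 * (p / 2)) := by
    rw [show 3 / 2 = 1 by norm_num, one_mul, ← two_mul]
    exact even_two_mul _
  rw [this.neg_one_pow, one_mul]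

/-- The full sum modulo `p ^ 2` from the half sum. -/
theorem full_sum (p n : ℕ) (hp : p.Prime) (hn : p = 2 * n + 1) (a M : ℤ) (hM0 : M ≠ 0) :
    ∃ F : ℤ, SD a M p * (M : ℚ) ^ (2 * n) = F ∧
      (p : ℤ) ^ 2 ∣ F - M ^ n * (∑ m ∈ range (n + 1), (Nat.centralBinom m : ℤ) ^ 2 * M ^ (n - m)
        * ((16 * m + a) * T (2 * m) 6 1)) := by
  refine ⟨∑ k ∈ range p, (Nat.centralBinom k : ℤ) ^ 2 * M ^ (2 * n - k)
    * ((16 * k + a) * T (2 * k) 6 1), ?_, ?_⟩
  · have hMq : (M : ℚ) ≠ 0 := by exact_mod_cast hM0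
    rw [SD, sum_mul]
    push_cast
    refine sum_congr rfl fun k hk => ?_
    have hk' : k ≤ 2 * n := by have := mem_range.mp hk; omega
    have : (M : ℚ) ^ (2 * n) = M ^ (2 * n - k) * M ^ k := by
      rw [← pow_add]; congr 1; omega
    rw [this, Nat.centralBinom]
    field_simp
  · rw [← sum_range_add_sum_Ico _ (show n + 1 ≤ p by omega), mul_sum]
    have : ∀ m ∈ range (n + 1),
        (Nat.centralBinom m : ℤ) ^ 2 * M ^ (2 * n - m) * ((16 * m + a) * T (2 * m) 6 1)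
        = M ^ n * ((Nat.centralBinom m : ℤ) ^ 2 * M ^ (n - m)
          * ((16 * m + a) * T (2 * m) 6 1)) := by
      intro m hm
      have hm' : m ≤ n := by have := mem_range.mp hm; omega
      have e : M ^ (2 * n - m) = M ^ n * M ^ (n - m) := by
        rw [← pow_add]; congr 1; omega
      rw [e]
      ring
    rw [sum_congr rfl this, add_sub_cancel_left]
    refine dvd_sum fun k hk => ?_
    have hk' := mem_Ico.mp hk
    have hd : p ∣ Nat.centralBinom k := by
      rw [Nat.centralBinom, two_mul]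
      exact hp.dvd_choose_add hk'.2 hk'.2 (by omega)
    have hd2 : (p : ℤ) ^ 2 ∣ (Nat.centralBinom k : ℤ) ^ 2 :=
      pow_dvd_pow_of_dvd (by exact_mod_cast hd) 2
    exact (hd2.mul_right _).mul_right _

theorem partD (p : ℕ) [hp : Fact p.Prime] (h3 : 3 < p) (n : ℕ) (hn : p = 2 * n + 1)
    (hj : jacobiSym (-6) p = 1)
    (hord : ∀ s t : WittVector p (AlgebraicClosure (ZMod p)), s ^ 2 = 2 → t ^ 2 = 3 →
      WittVector.constantCoeff ((G2 n : (WittVector p (AlgebraicClosure (ZMod p)))[X]).eval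
        (2 * t - s * t - (3 - 2 * s))) ≠ 0 ∧
      WittVector.constantCoeff ((G2 n : (WittVector p (AlgebraicClosure (ZMod p)))[X]).eval
        (2 * t + s * t - (3 + 2 * s))) ≠ 0) :
    (p : ℤ) ^ 2 ∣ (SD 5 256 p - 8 * (p : ℚ) / 3 * (jacobiSym p 3 : ℚ)).num ∧
    (p : ℤ) ^ 2 ∣ (SD 3 1024 p - (-(2 * (p : ℚ) / 3))).num := by
  have : CharZero (WittVector p (AlgebraicClosure (ZMod p))) := H37.Sun.charZero_OO p
  have : CharP (AlgebraicClosure (ZMod p)) p := H37.Sun.kk_charP p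
  have hcop : ∀ m : ℕ, 0 < m → m < p → ¬ p ∣ m := fun m h0 hm h =>
    absurd (Nat.le_of_dvd h0 h) (by omega)
  obtain ⟨s, hs⟩ := H37.Sun.exists_sqrt p 2 (by omega) (hcop 2 (by norm_num) (by omega))
  obtain ⟨t, ht⟩ := H37.Sun.exists_sqrt p 3 (by omega) (hcop 3 (by norm_num) (by omega))
  have hs' : s ^ 2 = 2 := by rw [hs]; norm_num
  have ht' : t ^ 2 = 3 := by rw [ht]; norm_num
  have hker : ∀ x : WittVector p (AlgebraicClosure (ZMod p)), WittVector.constantCoeff x = 0 →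
      (p : WittVector p (AlgebraicClosure (ZMod p))) ∣ x := H37.Sun.ker_OO p
  obtain ⟨π, hπ⟩ : ∃ π : WittVector p (AlgebraicClosure (ZMod p)) →+* AlgebraicClosure (ZMod p),
    π = WittVector.constantCoeff := ⟨_, rfl⟩
  rw [← hπ] at hker
  have hun : ∀ x : WittVector p (AlgebraicClosure (ZMod p)), π x ≠ 0 → IsUnit x := by
    intro x hx
    rw [hπ] at hx
    exact H37.Sun.isUnit_of p x hx
  have hsk : (π s) ^ 2 = 2 := by rw [← map_pow, hs', map_ofNat]
  have htk : (π t) ^ 2 = 3 := by rw [← map_pow, ht', map_ofNat]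
  obtain ⟨o1, o2⟩ := hord s t hs' ht'
  rw [← hπ] at o1 o2
  have ng : π ((G2 n : (WittVector p (AlgebraicClosure (ZMod p)))[X]).eval
      (-3 + 2*s + 2*t - 1*(s*t))) ≠ 0 := by
    rw [show -3 + 2*s + 2*t - 1*(s*t) = 2 * t - s * t - (3 - 2 * s) by ring]
    exact o1
  have nγ : π ((G2 n : (WittVector p (AlgebraicClosure (ZMod p)))[X]).eval
      (-3 - 2*s + 2*t + 1*(s*t))) ≠ 0 := by
    rw [show -3 - 2*s + 2*t + 1*(s*t) = 2 * t + s * t - (3 + 2 * s) by ring]
    exact o2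
  -- the signs
  have hsym : ∀ a : ℤ, (a : AlgebraicClosure (ZMod p)) ^ n = ((jacobiSym a p : ℤ) : AlgebraicClosure (ZMod p)) := by
    intro a
    have h1 := legendreSym.eq_pow p a
    rw [show p / 2 = n by omega, jacobiSym.legendreSym.to_jacobiSym] at h1
    have h2 := congrArg (algebraMap (ZMod p) (AlgebraicClosure (ZMod p))) h1
    rw [map_pow, map_intCast, map_intCast] at h2
    exact h2.symm
  have hpm : ∀ a : ℤ, a.gcd p = 1 → jacobiSym a p = 1 ∨ jacobiSym a p = -1 := by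
    intro a ha
    exact jacobiSym.eq_one_or_neg_one ha
  have hg : ∀ m : ℕ, 0 < m → m < p → (m : ℤ).gcd p = 1 := by
    intro m h0 hm
    rw [Int.gcd_natCast_natCast]
    exact (Nat.Coprime.symm ((Nat.Prime.coprime_iff_not_dvd hp.out).mpr (hcop m h0 hm)))
  have j2 := hpm 2 (by exact_mod_cast hg 2 (by norm_num) (by omega))
  have j3 := hpm 3 (by exact_mod_cast hg 3 (by norm_num) h3)
  have j1 := hpm (-1) (by rw [Int.neg_gcd]; simp)
  have hprod : jacobiSym (-1) p * jacobiSym 2 p * jacobiSym 3 p = 1 := by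
    rw [← jacobiSym.mul_left, ← jacobiSym.mul_left]
    norm_num
    exact hj
  have hprod2 : jacobiSym 2 p * jacobiSym p 3 = 1 := by
    rw [← jac3 p hp.out h3, ← jacobiSym.mul_left]
    norm_num
    exact hj
  have e2 := hsym 2
  have e3 := hsym 3
  have e1 := hsym (-1)
  have es : (π s) ^ p = ((jacobiSym 2 p : ℤ) : AlgebraicClosure (ZMod p)) * π s := by
    rw [← e2]
    push_cast
    rw [← hsk, ← pow_mul, ← pow_succ]
    exact congrArg (fun j => (π s) ^ j) hn
  have et : (π t) ^ p = ((jacobiSym 3 p : ℤ) : AlgebraicClosure (ZMod p)) * π t := by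
    rw [← e3]
    push_cast
    rw [← htk, ← pow_mul, ← pow_succ]
    exact congrArg (fun j => (π t) ^ j) hn
  have hjj : jacobiSym p 3 = jacobiSym 2 p := by
    rcases j2 with h | h <;> rw [h] at hprod2 ⊢ <;> omega
  have hcase : ((π s) ^ p = π s ∧ (π t) ^ p = π t ∧ (-1 : AlgebraicClosure (ZMod p)) ^ n = 1
        ∧ jacobiSym 2 p = 1)
      ∨ ((π s) ^ p = π s ∧ (π t) ^ p = -π t ∧ (-1 : AlgebraicClosure (ZMod p)) ^ n = -1
        ∧ jacobiSym 2 p = 1)
      ∨ ((π s) ^ p = -π s ∧ (π t) ^ p = π t ∧ (-1 : AlgebraicClosure (ZMod p)) ^ n = -1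
        ∧ jacobiSym 2 p = -1)
      ∨ ((π s) ^ p = -π s ∧ (π t) ^ p = -π t ∧ (-1 : AlgebraicClosure (ZMod p)) ^ n = 1
        ∧ jacobiSym 2 p = -1) := by
    push_cast at e1
    rw [es, et, e1]
    rcases j2 with h2 | h2 <;> rcases j3 with h3' | h3' <;> rw [h2, h3'] at hprod
    · left
      have : jacobiSym (-1) p = 1 := by omega
      rw [this, h2, h3']
      simp
    · right; left
      have : jacobiSym (-1) p = -1 := by omega
      rw [this, h2, h3']
      simp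
    · right; right; left
      have : jacobiSym (-1) p = -1 := by omega
      rw [this, h2, h3']
      simp
    · right; right; right
      have : jacobiSym (-1) p = 1 := by omega
      rw [this, h2, h3']
      simp
  obtain ⟨d3, d2⟩ := dint p π hker n hn h3 hun s t hs' ht' ng nγ (jacobiSym 2 p) hcase
  have hpow1 : ∀ a : ℤ, (p : ℤ) ∣ (a ^ 2) ^ n - 1 ∨ (p : ℤ) ∣ a := by
    intro a
    by_cases h : (p : ℤ) ∣ a
    · exact Or.inr h
    · left
      rw [← ZMod.intCast_eq_intCast_iff_dvd_sub]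
      have ha : (a : ZMod p) ≠ 0 := by
        rwa [Ne, ZMod.intCast_zmod_eq_zero_iff_dvd]
      have := ZMod.pow_card_sub_one_eq_one ha
      push_cast
      rw [← pow_mul, show 2 * n = p - 1 by omega, this]
  have hp2 : IsCoprime (p : ℤ) 2 := by
    have : Nat.Coprime p 2 := (Nat.Coprime.symm ((Nat.coprime_primes Nat.prime_two hp.out).mpr
      (by omega)))
    exact_mod_cast Nat.isCoprime_iff_coprime.mpr this
  have hp3 : IsCoprime (p : ℤ) 3 := by
    have : Nat.Coprime p 3 := (Nat.Coprime.symm ((Nat.coprime_primes Nat.prime_three hp.out).mpr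
      (by omega)))
    exact_mod_cast Nat.isCoprime_iff_coprime.mpr this
  have hndvd : ∀ j : ℕ, ¬ (p : ℤ) ∣ 2 ^ j := by
    intro j hd
    have h1 : IsUnit (p : ℤ) := by
      have := (hp2.pow_right (n := j)).isUnit_of_dvd' (dvd_refl _) hd
      exact this
    rw [Int.isUnit_iff] at h1
    have := hp.out.two_le
    omega
  have hone : ∀ j : ℕ, (p : ℤ) ∣ ((2 ^ j) ^ 2) ^ n - 1 := fun j =>
    (hpow1 (2 ^ j)).resolve_right (hndvd j)
  obtain ⟨q4, hq4⟩ := hone 2
  obtain ⟨q8, hq8⟩ := hone 3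
  obtain ⟨q16, hq16⟩ := hone 4
  obtain ⟨q32, hq32⟩ := hone 5
  norm_num at hq4 hq8 hq16 hq32
  obtain ⟨F2, hF2, r2, hr2⟩ := full_sum p n hp.out hn 5 256 (by norm_num)
  obtain ⟨F3, hF3, r3, hr3⟩ := full_sum p n hp.out hn 3 1024 (by norm_num)
  obtain ⟨w3, hw3⟩ := d3
  obtain ⟨w2, hw2⟩ := d2
  norm_num at hw3 hw2
  constructor
  · apply num_dvd' p _ (3 * 256 ^ (2 * n)) (3 * F2 - 8 * p * jacobiSym p 3 * 256 ^ (2 * n))
    · push_cast
      push_cast at hF2
      rw [← hF2]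
      ring
    · rw [show (256 : ℤ) = 2 ^ 8 by norm_num]
      exact hp3.mul_right (hp2.pow_right.pow_right)
    · rw [hjj]
      refine ⟨3 * r2 + 256 ^ n * w2 + 256 ^ n * 8 * jacobiSym 2 p * (q4 - q16), ?_⟩
      have e1 : (256 : ℤ) ^ (2 * n) = 256 ^ n * 256 ^ n := by rw [two_mul, pow_add]
      rw [e1]
      linear_combination 3 * hr2 + 256 ^ n * hw2 + (p * 256 ^ n * 8 * jacobiSym 2 p) * (hq4 - hq16)
  · apply num_dvd' p _ (3 * 1024 ^ (2 * n)) (3 * F3 + 2 * p * 1024 ^ (2 * n))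
    · push_cast
      push_cast at hF3
      rw [← hF3]
      ring
    · rw [show (1024 : ℤ) = 2 ^ 10 by norm_num]
      exact hp3.mul_right (hp2.pow_right.pow_right)
    · refine ⟨3 * r3 + 1024 ^ n * w3 - 1024 ^ n * 2 * (q8 - q32), ?_⟩
      have e1 : (1024 : ℤ) ^ (2 * n) = 1024 ^ n * 1024 ^ n := by rw [two_mul, pow_add]
      rw [e1]
      linear_combination 3 * hr3 + 1024 ^ n * hw3 - (p * 1024 ^ n * 2) * (hq8 - hq32)

end Pool.Agent.H99.Sun
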