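import Mathlib
import Pool.Agent.H99.Sun.DFin
import Pool.Agent.H37.Sun.Cv18

/-! Part (d), given the Legendre side. -/

namespace Pool.Agent.H99.Sun

open Polynomial Finset Pool.Agent.H37.Sun Pool.Agent.H24.Sun

/-- `sum_{k<p} (16k+5) b_k / 256^k`. -/
noncomputable def SD2 (p : ℕ) : ℚ :=
  ∑ k ∈ range p, (16 * (k : ℚ) + 5) * ((2 * k).choose k : ℚ) ^ 2 * (Tc (2 * k) 6 1 : ℚ) / 256 ^ k

/-- `sum_{k<p} (16k+3) b_k / 1024^k`. -/
noncomputable def SD3 (p : ℕ) : ℚ :=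
  ∑ k ∈ range p, (16 * (k : ℚ) + 3) * ((2 * k).choose k : ℚ) ^ 2 * (Tc (2 * k) 6 1 : ℚ) / 1024 ^ k

theorem part_d (hLeg : ∀ (p : ℕ) [Fact p.Prime] (n : ℕ), p = 2 * n + 1 → 3 < p →
      LegSide (OO p) p n) :
    ∀ p : ℕ, p.Prime → 3 < p → jacobiSym (-6) p = 1 →
      (p : ℤ) ^ 2 ∣ (SD2 p - 8 * (p : ℚ) / 3 * (jacobiSym p 3 : ℚ)).num ∧
      (p : ℤ) ^ 2 ∣ (SD3 p - (-(2 * (p : ℚ) / 3))).num := by
  intro p hp h3 hj
  have hF : Fact p.Prime := ⟨hp⟩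
  obtain ⟨n, hn⟩ : ∃ n, p = 2 * n + 1 := hp.odd_of_ne_two (by omega)
  have n2 : (2 : ZMod p) ≠ 0 := by exact_mod_cast cast_ne (k := ZMod p) p 2 (by norm_num) (by omega)
  have n3 : (3 : ZMod p) ≠ 0 := by exact_mod_cast cast_ne (k := ZMod p) p 3 (by norm_num) (by omega)
  have n6 : ((-6 : ℤ) : ZMod p) ≠ 0 := by
    push_cast
    rw [show (-6 : ZMod p) = -(2 * 3) by norm_num]
    exact neg_ne_zero.mpr (mul_ne_zero n2 n3)
  have hsq : IsSquare (-6 : ZMod p) := by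
    have := (legendreSym.eq_one_iff p n6).mp (by rw [jacobiSym.legendreSym.to_jacobiSym]; exact hj)
    push_cast at this
    exact this
  obtain ⟨d2, d3⟩ := partD p h3 n hn hj (fun s t hs ht => ordinary p n hn h3 (hLeg p n hn h3) hsq s t hs ht)
  have e2 : SD 5 256 p = SD2 p := by
    unfold SD SD2
    push_cast
    rfl
  have e3 : SD 3 1024 p = SD3 p := by
    unfold SD SD3
    push_cast
    rfl
  rw [e2] at d2
  rw [e3] at d3
  exact ⟨d2, d3⟩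

end Pool.Agent.H99.Sun
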