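import Mathlib
import Pool.Agent.H99.Sun.DPart
import Pool.Agent.H37.Sun.AllA

/-! Part (d) for all primes `p > 3` with `(-6/p) = 1`. -/

namespace Pool.Agent.H99.Sun

open Polynomial Finset Pool.Agent.H37.Sun Pool.Agent.H24.Sun

theorem part_d_all : ∀ p : ℕ, p.Prime → 3 < p → jacobiSym (-6) p = 1 →
      (p : ℤ) ^ 2 ∣ (SD2 p - 8 * (p : ℚ) / 3 * (jacobiSym p 3 : ℚ)).num ∧
      (p : ℤ) ^ 2 ∣ (SD3 p - (-(2 * (p : ℚ) / 3))).num :=
  part_d (fun p _ n hn h3 => legSide p n hn h3)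

end Pool.Agent.H99.Sun
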